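import Mathlib

section

namespace Pool.Agent.MP_9a6faa_lc

open Set Order

universe u v w

/-- Recursion along an ordinal-valued rank. -/
noncomputable def orec {A : Type v} {B : Type w} (rk : A → Ordinal.{u})
    (F : (A → B → Prop) → A → B → Prop) : A → B → Prop :=
  (InvImage.wf rk Ordinal.lt_wf).fix
    (fun a ih b => F (fun a' b' => ∃ h : rk a' < rk a, ih a' h b') a b)

theorem orec_iff {A : Type v} {B : Type w} (rk : A → Ordinal.{u})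
    (F : (A → B → Prop) → A → B → Prop) (a : A) (b : B) :
    orec rk F a b ↔ F (fun a' b' => rk a' < rk a ∧ orec rk F a' b') a b := by
  unfold orec
  rw [WellFounded.fix_eq]
  simp only [exists_prop]

/-- Ambient replacement. -/
theorem exists_bound {ι : Type*} [Small.{u} ι] (f : ι → Ordinal.{u}) : ∃ b, ∀ i, f i < b :=
  ⟨_, fun i => Ordinal.lt_iSup_add_one f i⟩

theorem bound_wit (a : Ordinal.{u}) (R : Ordinal.{u} → Ordinal.{u} → Prop) :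
    ∃ b, ∀ x < a, (∃ y, R x y) → ∃ y < b, R x y := by
  classical
  obtain ⟨b, hb⟩ := exists_bound (fun x : Iio a => if h : ∃ y, R x y then h.choose else 0)
  refine ⟨b, fun x hx h => ⟨h.choose, ?_, h.choose_spec⟩⟩
  simpa [h] using hb ⟨x, hx⟩

theorem bound_fun (a : Ordinal.{u}) (f : Ordinal.{u} → Ordinal.{u}) :
    ∃ b, ∀ x < a, f x < b := by
  obtain ⟨b, hb⟩ := exists_bound (fun x : Iio a => f x)
  exact ⟨b, fun x hx => hb ⟨x, hx⟩⟩

/-- Least witness (or `0`). -/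
noncomputable def mu (R : Ordinal.{u} → Prop) : Ordinal.{u} := sInf {y | R y}

theorem mu_spec {R : Ordinal.{u} → Prop} (h : ∃ y, R y) : R (mu R) := csInf_mem (s := {y | R y}) h

theorem mu_le {R : Ordinal.{u} → Prop} {y : Ordinal.{u}} (h : R y) : mu R ≤ y :=
  csInf_le' (s := {y | R y}) h

theorem not_of_lt_mu {R : Ordinal.{u} → Prop} {y : Ordinal.{u}} (h : y < mu R) : ¬ R y :=
  fun h' => (mu_le h').not_gt h

theorem mu_neg {R : Ordinal.{u} → Prop} (h : ¬ ∃ y, R y) : mu R = 0 := by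
  have : {y | R y} = ∅ := Set.eq_empty_of_forall_notMem fun y hy => h ⟨y, hy⟩
  simp [mu, this]

theorem mu_eq {R : Ordinal.{u} → Prop} {y : Ordinal.{u}} (h : R y) (h' : ∀ z < y, ¬ R z) :
    mu R = y :=
  le_antisymm (mu_le h) (not_lt.1 fun hl => h' _ hl (mu_spec ⟨y, h⟩))

theorem eq_mu_iff {R : Ordinal.{u} → Prop} {y : Ordinal.{u}} :
    y = mu R ↔ (R y ∧ ∀ z < y, ¬ R z) ∨ (y = 0 ∧ ∀ z, ¬ R z) := by
  constructor
  · rintro rfl
    by_cases h : ∃ y, R y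
    · exact Or.inl ⟨mu_spec h, fun z hz => not_of_lt_mu hz⟩
    · exact Or.inr ⟨mu_neg h, fun z hz => h ⟨z, hz⟩⟩
  · rintro (⟨h, h'⟩ | ⟨rfl, h⟩)
    · exact (mu_eq h h').symm
    · exact (mu_neg fun ⟨z, hz⟩ => h z hz).symm

theorem eq_of_lt_iff {a b : Ordinal.{u}} (h : ∀ x, x < a ↔ x < b) : a = b :=
  eq_of_forall_lt_iff h

/-! ### Goedel pairing -/

noncomputable def Hf (m : Ordinal.{u}) : Ordinal.{u} := ⨆ x : Iio m, Hf x + x + x + 1
termination_by m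
decreasing_by exact x.2

theorem Hf_le_iff {m c : Ordinal.{u}} : Hf m ≤ c ↔ ∀ x < m, Hf x + x + x + 1 ≤ c := by
  rw [Hf, Ordinal.iSup_le_iff]
  exact ⟨fun h x hx => h ⟨x, hx⟩, fun h x => h x x.2⟩

theorem Hf_step {x m : Ordinal.{u}} (h : x < m) : Hf x + x + x < Hf m :=
  add_one_le_iff.1 (Hf_le_iff.1 le_rfl x h)

theorem Hf_strictMono : StrictMono Hf.{u} := fun _ _ h =>
  lt_of_le_of_lt ((le_self_add).trans le_self_add) (Hf_step h)

noncomputable def G (a b : Ordinal.{u}) : Ordinal.{u} :=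
  if a < b then Hf b + a else Hf a + a + b

/-- The max-lexicographic order. -/
def ML (a b a' b' : Ordinal.{u}) : Prop :=
  max a b < max a' b' ∨ (max a b = max a' b' ∧ (a < a' ∨ (a = a' ∧ b < b')))

theorem Hf_le_G (a b : Ordinal.{u}) : Hf (max a b) ≤ G a b := by
  unfold G
  split_ifs with h
  · rw [max_eq_right h.le]; exact le_self_add
  · rw [max_eq_left (not_lt.1 h)]; exact le_self_add.trans le_self_add

theorem G_le_Hf (a b : Ordinal.{u}) : G a b ≤ Hf (max a b) + max a b + max a b := by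
  unfold G
  split_ifs with h
  · rw [max_eq_right h.le]
    exact (add_le_add_right h.le _).trans le_self_add
  · rw [max_eq_left (not_lt.1 h)]
    exact add_le_add_right (not_lt.1 h) _

theorem G_lt_of_ML {a b a' b' : Ordinal.{u}} (h : ML a b a' b') : G a b < G a' b' := by
  rcases h with h | ⟨h, h'⟩
  · exact (G_le_Hf a b).trans_lt ((Hf_step h).trans_le (Hf_le_G _ _))
  · unfold G
    by_cases h₁ : a < b <;> by_cases h₂ : a' < b' <;> simp only [h₁, h₂, if_true, if_false]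
    · rw [max_eq_right h₁.le, max_eq_right h₂.le] at h
      subst h
      rcases h' with h' | ⟨-, h'⟩
      · exact add_lt_add_right h' _
      · exact absurd h' (lt_irrefl _)
    · rw [max_eq_right h₁.le, max_eq_left (not_lt.1 h₂)] at h
      subst h
      exact (add_lt_add_right h₁ _).trans_le le_self_add
    · rw [max_eq_left (not_lt.1 h₁), max_eq_right h₂.le] at h
      subst h
      rcases h' with h' | ⟨h', -⟩
      · exact absurd (h'.trans h₂) (lt_irrefl _)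
      · exact absurd (h' ▸ h₂) (lt_irrefl _)
    · rw [max_eq_left (not_lt.1 h₁), max_eq_left (not_lt.1 h₂)] at h
      subst h
      rcases h' with h' | ⟨-, h'⟩
      · exact absurd h' (lt_irrefl _)
      · exact add_lt_add_right h' _

theorem ML_tri (a b a' b' : Ordinal.{u}) : ML a b a' b' ∨ (a = a' ∧ b = b') ∨ ML a' b' a b := by
  unfold ML
  rcases lt_trichotomy (max a b) (max a' b') with h | h | h
  · exact Or.inl (Or.inl h)
  · rcases lt_trichotomy a a' with h₁ | h₁ | h₁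
    · exact Or.inl (Or.inr ⟨h, Or.inl h₁⟩)
    · rcases lt_trichotomy b b' with h₂ | h₂ | h₂
      · exact Or.inl (Or.inr ⟨h, Or.inr ⟨h₁, h₂⟩⟩)
      · exact Or.inr (Or.inl ⟨h₁, h₂⟩)
      · exact Or.inr (Or.inr (Or.inr ⟨h.symm, Or.inr ⟨h₁.symm, h₂⟩⟩))
    · exact Or.inr (Or.inr (Or.inr ⟨h.symm, Or.inl h₁⟩))
  · exact Or.inr (Or.inr (Or.inl h))

theorem G_lt_iff {a b a' b' : Ordinal.{u}} : G a b < G a' b' ↔ ML a b a' b' := by
  refine ⟨fun h => ?_, G_lt_of_ML⟩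
  rcases ML_tri a b a' b' with h' | ⟨rfl, rfl⟩ | h'
  · exact h'
  · exact absurd h (lt_irrefl _)
  · exact absurd (G_lt_of_ML h') h.not_gt

theorem G_inj {a b a' b' : Ordinal.{u}} : G a b = G a' b' ↔ a = a' ∧ b = b' := by
  refine ⟨fun h => ?_, fun h => by rw [h.1, h.2]⟩
  rcases ML_tri a b a' b' with h' | h' | h'
  · exact absurd (G_lt_of_ML h') (by rw [h]; exact lt_irrefl _)
  · exact h'
  · exact absurd (G_lt_of_ML h') (by rw [h]; exact lt_irrefl _)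

theorem G_surj (c : Ordinal.{u}) : ∃ a b, G a b = c := by
  have hne : ∃ m, c < Hf m + m + m + 1 :=
    ⟨c + 1, ((lt_add_one c).trans_le Hf_strictMono.le_apply).trans_le
      ((le_self_add.trans le_self_add).trans le_self_add)⟩
  obtain ⟨m, h₁, h₂⟩ : ∃ m, c < Hf m + m + m + 1 ∧ Hf m ≤ c :=
    ⟨_, mu_spec hne, Hf_le_iff.2 fun x hx => not_lt.1 (not_of_lt_mu (R := fun m =>
      c < Hf m + m + m + 1) hx)⟩
  obtain ⟨x, rfl⟩ := exists_add_of_le h₂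
  by_cases hx : x < m
  · exact ⟨x, m, by simp [G, hx]⟩
  · obtain ⟨y, rfl⟩ := exists_add_of_le (not_lt.1 hx)
    refine ⟨m, y, ?_⟩
    have : y ≤ m := by
      rw [lt_add_one_iff, add_assoc, add_le_add_iff_left, add_le_add_iff_left] at h₁
      exact h₁
    simp [G, not_lt.2 this, add_assoc]

noncomputable def fst (c : Ordinal.{u}) : Ordinal.{u} := (G_surj c).choose

noncomputable def snd (c : Ordinal.{u}) : Ordinal.{u} := (G_surj c).choose_spec.choose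

@[simp] theorem G_fst_snd (c : Ordinal.{u}) : G (fst c) (snd c) = c :=
  (G_surj c).choose_spec.choose_spec

@[simp] theorem fst_G (a b : Ordinal.{u}) : fst (G a b) = a := (G_inj.1 (G_fst_snd _)).1

@[simp] theorem snd_G (a b : Ordinal.{u}) : snd (G a b) = b := (G_inj.1 (G_fst_snd _)).2

theorem max_le_G (a b : Ordinal.{u}) : max a b ≤ G a b :=
  Hf_strictMono.le_apply.trans (Hf_le_G a b)

theorem left_le_G (a b : Ordinal.{u}) : a ≤ G a b := (le_max_left _ _).trans (max_le_G a b)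

theorem right_le_G (a b : Ordinal.{u}) : b ≤ G a b := (le_max_right _ _).trans (max_le_G a b)

theorem fst_le (c : Ordinal.{u}) : fst c ≤ c := by
  simpa using left_le_G (fst c) (snd c)

theorem snd_le (c : Ordinal.{u}) : snd c ≤ c := by
  simpa using right_le_G (fst c) (snd c)

theorem G_lt_of_max {a b a' b' : Ordinal.{u}} (h : max a b < max a' b') : G a b < G a' b' :=
  G_lt_of_ML (Or.inl h)

theorem G_lt_of_lt_left {a b a' b' : Ordinal.{u}} (ha : a < a') (hb : b < a') :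
    G a b < G a' b' := G_lt_of_max ((max_lt ha hb).trans_le (le_max_left _ _))

theorem G_lt_of_lt {a b a' b' : Ordinal.{u}} (ha : a < a') (hb : b < b') :
    G a b < G a' b' := G_lt_of_max (max_lt_max ha hb)

theorem G_lt_G_left {a a' : Ordinal.{u}} (b : Ordinal.{u}) (h : a < a') : G a b < G a' b := by
  refine G_lt_of_ML ?_
  rcases (max_le_max_right b h.le).lt_or_eq with h' | h'
  exacts [Or.inl h', Or.inr ⟨h', Or.inl h⟩]

theorem G_lt_G_right (a : Ordinal.{u}) {b b' : Ordinal.{u}} (h : b < b') : G a b < G a b' := by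
  refine G_lt_of_ML ?_
  rcases (max_le_max_left a h.le).lt_or_eq with h' | h'
  exacts [Or.inl h', Or.inr ⟨h', Or.inr ⟨rfl, h⟩⟩]

theorem G_mono {a a' b b' : Ordinal.{u}} (h : a ≤ a') (h' : b ≤ b') : G a b ≤ G a' b' := by
  have h₁ : G a b ≤ G a' b := by
    rcases h.lt_or_eq with h | rfl
    exacts [(G_lt_G_left b h).le, le_rfl]
  have h₂ : G a' b ≤ G a' b' := by
    rcases h'.lt_or_eq with h | rfl
    exacts [(G_lt_G_right _ h).le, le_rfl]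
  exact h₁.trans h₂

theorem right_lt_G {a : Ordinal.{u}} (b : Ordinal.{u}) (h : 0 < a) : b < G a b :=
  (right_le_G 0 b).trans_lt (G_lt_G_left b h)

theorem snd_lt {c : Ordinal.{u}} (h : 0 < fst c) : snd c < c := by
  simpa using right_lt_G (snd c) h

/-- Closed under pairing and above `ω`. -/
def Gcl (y : Ordinal.{u}) : Prop := Ordinal.omega0 < y ∧ ∀ a < y, ∀ b < y, G a b < y

theorem Gcl.G {y a b : Ordinal.{u}} (h : Gcl y) (ha : a < y) (hb : b < y) : G a b < y :=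
  h.2 a ha b hb

theorem Gcl.nat {y : Ordinal.{u}} (h : Gcl y) (n : ℕ) : (n : Ordinal.{u}) < y :=
  (Ordinal.natCast_lt_omega0 n).trans h.1

theorem Gcl.pos {y : Ordinal.{u}} (h : Gcl y) : 0 < y := by simpa using h.nat 0

theorem Gcl.succ {y a : Ordinal.{u}} (h : Gcl y) (ha : a < y) : a + 1 < y :=
  (add_one_le_iff.2 (right_lt_G a one_pos)).trans_lt (h.G (by simpa using h.nat 1) ha)

theorem G_nat (a b : ℕ) : G (a : Ordinal.{u}) b < Ordinal.omega0 := by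
  have hH : ∀ m : ℕ, Hf (m : Ordinal.{u}) < Ordinal.omega0 := by
    intro m
    induction m using Nat.strong_induction_on with
    | _ m ih =>
      rcases m with _ | m
      · exact (Hf_le_iff.2 fun x hx => by simp at hx).trans_lt Ordinal.omega0_pos
      · obtain ⟨k, hk⟩ := Ordinal.lt_omega0.1 (ih m (Nat.lt_succ_self m))
        refine lt_of_le_of_lt (Hf_le_iff.2 fun x hx => ?_)
          (Ordinal.natCast_lt_omega0 (k + m + m + 1))
        have hx' : x ≤ m := by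
          rw [Nat.cast_add_one, lt_add_one_iff] at hx; exact hx
        push_cast
        rw [← hk]
        gcongr
        exact Hf_strictMono.monotone hx'
  refine (G_le_Hf _ _).trans_lt ?_
  have e : max (a : Ordinal.{u}) b = (max a b : ℕ) := by
    rcases le_total a b with h | h
    · rw [max_eq_right h, max_eq_right (by exact_mod_cast h)]
    · rw [max_eq_left h, max_eq_left (by exact_mod_cast h)]
  rw [e]
  obtain ⟨k, hk⟩ := Ordinal.lt_omega0.1 (hH (max a b))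
  rw [hk]
  exact_mod_cast Ordinal.natCast_lt_omega0 (k + max a b + max a b)

theorem G_omega {a b : Ordinal.{u}} (ha : a < Ordinal.omega0) (hb : b < Ordinal.omega0) :
    G a b < Ordinal.omega0 := by
  obtain ⟨a, rfl⟩ := Ordinal.lt_omega0.1 ha
  obtain ⟨b, rfl⟩ := Ordinal.lt_omega0.1 hb
  exact G_nat a b

/-- One step towards a closed ordinal. -/
noncomputable def gst (a : Ordinal.{u}) : Ordinal.{u} := G a a + 1

theorem lt_gst (a : Ordinal.{u}) : a < gst a := (left_le_G a a).trans_lt (lt_add_one _)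

theorem gcl_of_iter {a b : Ordinal.{u}} (ha : Ordinal.omega0 ≤ a) (hb : ∀ n, gst^[n] a < b) :
    ∃ y ≤ b, a < y ∧ Gcl y := by
  have mono : StrictMono fun n => gst^[n] a :=
    strictMono_nat_of_lt_succ fun n => by rw [Function.iterate_succ_apply']; exact lt_gst _
  have h0 : a < ⨆ n, gst^[n] a :=
    (mono zero_lt_one).trans_le (Ordinal.le_iSup (fun n => gst^[n] a) 1)
  refine ⟨⨆ n, gst^[n] a, Ordinal.iSup_le fun n => (hb n).le, h0, ha.trans_lt h0,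
    fun x hx y hy => ?_⟩
  obtain ⟨n, hn⟩ := Ordinal.lt_iSup_iff.1 hx
  obtain ⟨k, hk⟩ := Ordinal.lt_iSup_iff.1 hy
  refine Ordinal.lt_iSup_iff.2 ⟨max n k + 1, ?_⟩
  rw [Function.iterate_succ_apply']
  exact (G_lt_of_lt (hn.trans_le (mono.monotone (le_max_left _ _)))
    (hk.trans_le (mono.monotone (le_max_right _ _)))).trans (lt_add_one _)

theorem exists_gcl (a : Ordinal.{u}) : ∃ y, a < y ∧ Gcl y := by
  obtain ⟨b, hb⟩ := exists_bound (fun n : ℕ => gst^[n] (max a Ordinal.omega0))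
  obtain ⟨y, -, h₁, h₂⟩ := gcl_of_iter (le_max_right _ _) hb
  exact ⟨y, (le_max_left _ _).trans_lt h₁, h₂⟩

/-! ### Codes of lists -/

noncomputable def encL : List Ordinal.{u} → Ordinal.{u}
  | [] => 0
  | a :: l => G a (encL l) + 1

theorem encL_inj : Function.Injective encL.{u} := by
  intro l
  induction l with
  | nil =>
    rintro (_ | ⟨b, l'⟩) h
    · rfl
    · exact absurd h.symm (by simp [encL])
  | cons a l ih =>
    rintro (_ | ⟨b, l'⟩) h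
    · exact absurd h (by simp [encL])
    · simp only [encL, add_one_inj, G_inj] at h
      rw [h.1, ih h.2]

theorem encL_lt_cons (a : Ordinal.{u}) (l : List Ordinal.{u}) : encL l < encL (a :: l) :=
  (right_le_G _ _).trans_lt (lt_add_one _)

theorem Gcl.encL {y : Ordinal.{u}} (h : Gcl y) {l : List Ordinal.{u}} (hl : ∀ x ∈ l, x < y) :
    encL l < y := by
  induction l with
  | nil => exact h.pos
  | cons a l ih =>
    exact h.succ (h.G (hl a List.mem_cons_self) (ih fun x hx => hl x (List.mem_cons_of_mem _ hx)))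

theorem lt_encL {l : List Ordinal.{u}} {x : Ordinal.{u}} (hx : x ∈ l) : x < encL l := by
  induction l with
  | nil => simp at hx
  | cons a l ih =>
    rcases List.mem_cons.1 hx with rfl | hx
    · exact (left_le_G _ _).trans_lt (lt_add_one _)
    · exact (ih hx).trans (encL_lt_cons _ _)

theorem encL_omega {l : List Ordinal.{u}} (hl : ∀ x ∈ l, x < Ordinal.omega0) :
    encL l < Ordinal.omega0 := by
  induction l with
  | nil => exact Ordinal.omega0_pos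
  | cons a l ih =>
    exact Ordinal.isSuccLimit_omega0.add_one_lt
      (G_omega (hl a List.mem_cons_self) (ih fun x hx => hl x (List.mem_cons_of_mem _ hx)))

end Pool.Agent.MP_9a6faa_lc

end

section

namespace Pool.Agent.MP_9a6faa_lc

open Set Order

universe u v w

/-- A family of world-indexed predicates closed under first order operations. -/
structure FO (I : Type) (V : Type v) where
  pr : V → V → V
  pr_inj : ∀ {a b c d}, pr a b = pr c d → a = c ∧ b = d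
  o : Ordinal.{u} → V
  o_inj : Function.Injective o
  Am : (I → V → Prop) → Prop
  nand : ∀ {R S}, Am R → Am S → Am (fun i x => ¬ (R i x ∧ S i x))
  ex : ∀ {R}, Am R → Am (fun i x => ∃ y, R i (pr x y))
  fstR : ∀ {R}, Am R → Am (fun i z => ∃ x y, z = pr x y ∧ R i x)
  swR : ∀ {R}, Am R → Am (fun i z => ∃ x y, z = pr x y ∧ R i (pr y x))
  aR : ∀ {R}, Am R → Am (fun i z => ∃ x y t, z = pr (pr x y) t ∧ R i (pr x t))
  bR : ∀ {R}, Am R → Am (fun i z => ∃ x y t, z = pr (pr x y) t ∧ R i (pr y t))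
  eq : Am (fun _ z => ∃ x, z = pr x x)
  lt : Am (fun _ z => ∃ a b, z = pr (o a) (o b) ∧ a < b)

namespace FO

variable {I : Type} {V : Type v} {𝒜 : FO.{u, v} I V}

theorem pr_iff {a b c d : V} : 𝒜.pr a b = 𝒜.pr c d ↔ a = c ∧ b = d :=
  ⟨𝒜.pr_inj, fun h => by rw [h.1, h.2]⟩

theorem Am.congr {R S : I → V → Prop} (h : 𝒜.Am R) (e : ∀ i x, R i x ↔ S i x) : 𝒜.Am S := by
  have : R = S := funext fun i => funext fun x => propext (e i x)
  exact this ▸ h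

theorem Am.not {R : I → V → Prop} (h : 𝒜.Am R) : 𝒜.Am (fun i x => ¬ R i x) :=
  Am.congr (𝒜.nand h h) fun _ _ => by simp

theorem Am.and {R S : I → V → Prop} (h : 𝒜.Am R) (h' : 𝒜.Am S) :
    𝒜.Am (fun i x => R i x ∧ S i x) :=
  Am.congr (Am.not (𝒜.nand h h')) fun _ _ => by simp

theorem sndR {R : I → V → Prop} (h : 𝒜.Am R) :
    𝒜.Am (fun i z => ∃ x y, z = 𝒜.pr x y ∧ R i y) :=
  Am.congr (𝒜.swR (𝒜.fstR h)) fun _ _ => by simp [pr_iff]

theorem cR {R : I → V → Prop} (h : 𝒜.Am R) :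
    𝒜.Am (fun i z => ∃ x a b, z = 𝒜.pr x (𝒜.pr a b) ∧ R i (𝒜.pr x a)) :=
  Am.congr (𝒜.swR (𝒜.aR (𝒜.swR h))) fun i z => by
    constructor
    · rintro ⟨x, y, rfl, a, b, t, e, a', t', e', h⟩
      obtain ⟨rfl, rfl⟩ := pr_iff.1 e
      obtain ⟨rfl, rfl⟩ := pr_iff.1 e'
      exact ⟨_, _, _, rfl, h⟩
    · rintro ⟨x, a, b, rfl, h⟩
      exact ⟨_, _, rfl, _, _, _, rfl, _, _, rfl, h⟩

theorem dR {R : I → V → Prop} (h : 𝒜.Am R) :
    𝒜.Am (fun i z => ∃ x a b, z = 𝒜.pr x (𝒜.pr a b) ∧ R i (𝒜.pr x b)) :=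
  Am.congr (𝒜.swR (𝒜.bR (𝒜.swR h))) fun i z => by
    constructor
    · rintro ⟨x, y, rfl, a, b, t, e, a', t', e', h⟩
      obtain ⟨rfl, rfl⟩ := pr_iff.1 e
      obtain ⟨rfl, rfl⟩ := pr_iff.1 e'
      exact ⟨_, _, _, rfl, h⟩
    · rintro ⟨x, a, b, rfl, h⟩
      exact ⟨_, _, rfl, _, _, _, rfl, _, _, rfl, h⟩

end FO

/-- Coded types. -/
class Cd {I : Type} {V : Type v} (𝒜 : FO.{u, v} I V) (α : Type w) where
  ι : α → V
  cons : α → I → Prop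
  inj : ∀ {a b i}, cons a i → cons b i → ι a = ι b → a = b
  rng : 𝒜.Am (fun i x => ∃ a, cons a i ∧ ι a = x)

/-- Coded types without world component. -/
class Pure {I : Type} {V : Type v} (𝒜 : FO.{u, v} I V) (α : Type w) [Cd 𝒜 α] : Prop where
  pure : ∀ (a : α) i, Cd.cons 𝒜 a i

namespace FO

open Cd

variable {I : Type} {V : Type v} {𝒜 : FO.{u, v} I V}

instance {α β : Type*} [Cd 𝒜 α] [Cd 𝒜 β] : Cd 𝒜 (α × β) where
  ι := fun z => 𝒜.pr (ι 𝒜 z.1) (ι 𝒜 z.2)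
  cons := fun z i => cons 𝒜 z.1 i ∧ cons 𝒜 z.2 i
  inj := fun h h' e => Prod.ext (inj h.1 h'.1 (pr_iff.1 e).1) (inj h.2 h'.2 (pr_iff.1 e).2)
  rng := Am.congr (Am.and (𝒜.fstR (rng (α := α))) (sndR (rng (α := β)))) fun i z => by
    constructor
    · rintro ⟨⟨x, y, rfl, a, ha, rfl⟩, x', y', e, b, hb, rfl⟩
      obtain ⟨rfl, rfl⟩ := pr_iff.1 e
      exact ⟨(a, b), ⟨ha, hb⟩, rfl⟩
    · rintro ⟨⟨a, b⟩, ⟨ha, hb⟩, rfl⟩
      exact ⟨⟨_, _, rfl, a, ha, rfl⟩, _, _, rfl, b, hb, rfl⟩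

instance {α β : Type*} [Cd 𝒜 α] [Cd 𝒜 β] [Pure 𝒜 α] [Pure 𝒜 β] : Pure 𝒜 (α × β) :=
  ⟨fun z i => ⟨Pure.pure z.1 i, Pure.pure z.2 i⟩⟩

theorem ι_prod {α β : Type*} [Cd 𝒜 α] [Cd 𝒜 β] (z : α × β) :
    ι 𝒜 z = 𝒜.pr (ι 𝒜 z.1) (ι 𝒜 z.2) := rfl

theorem cons_prod {α β : Type*} [Cd 𝒜 α] [Cd 𝒜 β] (z : α × β) (i : I) :
    cons 𝒜 z i ↔ cons 𝒜 z.1 i ∧ cons 𝒜 z.2 i := Iff.rfl

instance : Cd 𝒜 Ordinal.{u} where
  ι := 𝒜.o
  cons := fun _ _ => True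
  inj := fun _ _ e => 𝒜.o_inj e
  rng := Am.congr (𝒜.ex 𝒜.lt) fun i x => by
    constructor
    · rintro ⟨y, a, b, e, -⟩
      exact ⟨a, trivial, (pr_iff.1 e).1.symm⟩
    · rintro ⟨a, -, rfl⟩
      exact ⟨_, a, a + 1, rfl, lt_add_one a⟩

instance : Pure 𝒜 Ordinal.{u} := ⟨fun _ _ => trivial⟩

/-- The objects, as a coded type. -/
def Ob (_𝒜 : FO.{u, v} I V) : Type v := V

instance : Cd 𝒜 𝒜.Ob where
  ι := id
  cons := fun _ _ => True
  inj := fun _ _ e => e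
  rng := Am.congr (𝒜.ex 𝒜.eq) fun i x => by
    constructor
    · exact fun _ => ⟨x, trivial, rfl⟩
    · exact fun _ => ⟨x, x, rfl⟩

instance : Pure 𝒜 𝒜.Ob := ⟨fun _ _ => trivial⟩

/-- Definable predicates on a coded type. -/
def Df (𝒜 : FO.{u, v} I V) {α : Type*} [Cd 𝒜 α] (Q : α → Prop) : Prop :=
  𝒜.Am (fun i x => ∃ a, cons 𝒜 a i ∧ ι 𝒜 a = x ∧ Q a)

/-- Definable functions between coded types. -/
def Tm (𝒜 : FO.{u, v} I V) {α β : Type*} [Cd 𝒜 α] [Cd 𝒜 β] (f : α → β) : Prop :=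
  (∀ x i, cons 𝒜 x i → cons 𝒜 (f x) i) ∧ 𝒜.Df (fun z : α × β => z.2 = f z.1)

section Closure

variable {Γ : Type*} {α : Type*} {β : Type*} [Cd 𝒜 Γ] [Cd 𝒜 α] [Cd 𝒜 β]
variable {Q R : Γ → Prop}

theorem ev_iff {x : Γ} {i : I} (h : cons 𝒜 x i) :
    (∃ a, cons 𝒜 a i ∧ ι 𝒜 a = ι 𝒜 x ∧ Q a) ↔ Q x :=
  ⟨fun ⟨_, ha, e, hq⟩ => inj ha h e ▸ hq, fun hq => ⟨x, h, rfl, hq⟩⟩

theorem Df.mk' {S : I → V → Prop} (h : 𝒜.Am S)
    (e : ∀ i x, cons 𝒜 x i → (S i (ι 𝒜 x) ↔ Q x)) : 𝒜.Df Q :=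
  Am.congr (Am.and (rng (α := Γ)) h) fun i x => by
    constructor
    · rintro ⟨⟨a, ha, rfl⟩, h⟩
      exact ⟨a, ha, rfl, (e i a ha).1 h⟩
    · rintro ⟨a, ha, rfl, h⟩
      exact ⟨⟨a, ha, rfl⟩, (e i a ha).2 h⟩

theorem Df.congr (h : 𝒜.Df Q) (e : ∀ x, Q x ↔ R x) : 𝒜.Df R :=
  Am.congr h fun _ _ => by simp only [e]

theorem Df.not (h : 𝒜.Df Q) : 𝒜.Df (fun x => ¬ Q x) :=
  Df.mk' (Am.not h) fun _ _ hx => not_congr (ev_iff hx)

theorem Df.and (h₁ : 𝒜.Df Q) (h₂ : 𝒜.Df R) : 𝒜.Df (fun x => Q x ∧ R x) :=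
  Df.mk' (Am.and h₁ h₂) fun _ _ hx => and_congr (ev_iff hx) (ev_iff hx)

theorem Df.or (h₁ : 𝒜.Df Q) (h₂ : 𝒜.Df R) : 𝒜.Df (fun x => Q x ∨ R x) :=
  (h₁.not.and h₂.not).not.congr fun _ => by tauto

theorem Df.imp (h₁ : 𝒜.Df Q) (h₂ : 𝒜.Df R) : 𝒜.Df (fun x => Q x → R x) :=
  (h₁.and h₂.not).not.congr fun _ => by tauto

theorem Df.iff (h₁ : 𝒜.Df Q) (h₂ : 𝒜.Df R) : 𝒜.Df (fun x => Q x ↔ R x) :=
  ((h₁.imp h₂).and (h₂.imp h₁)).congr fun _ => by tauto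

theorem Df.ex [Pure 𝒜 α] {Q : Γ → α → Prop} (h : 𝒜.Df (fun z : Γ × α => Q z.1 z.2)) :
    𝒜.Df (fun x => ∃ y, Q x y) := by
  refine Df.mk' (𝒜.ex h) fun i x hx => ⟨?_, ?_⟩
  · rintro ⟨y, ⟨a, b⟩, hc, e, h⟩
    obtain rfl := inj hc.1 hx (pr_iff.1 e).1
    exact ⟨b, h⟩
  · rintro ⟨y, h⟩
    exact ⟨_, (x, y), ⟨hx, Pure.pure _ _⟩, rfl, h⟩

theorem Df.all [Pure 𝒜 α] {Q : Γ → α → Prop} (h : 𝒜.Df (fun z : Γ × α => Q z.1 z.2)) :
    𝒜.Df (fun x => ∀ y, Q x y) :=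
  (Df.ex (Q := fun x y => ¬ Q x y) h.not).not.congr fun _ => by simp

theorem Tm.gr {f : α → β} (hf : 𝒜.Tm f) :
    𝒜.Am (fun i z => ∃ x, cons 𝒜 x i ∧ z = 𝒜.pr (ι 𝒜 x) (ι 𝒜 (f x))) :=
  Am.congr hf.2 fun i z => by
    constructor
    · rintro ⟨⟨a, b⟩, hc, rfl, h⟩
      obtain rfl : b = f a := h
      exact ⟨a, hc.1, rfl⟩
    · rintro ⟨x, hx, rfl⟩
      exact ⟨(x, f x), ⟨hx, hf.1 x i hx⟩, rfl, rfl⟩

theorem Tm.mk' {f : α → β} {S : I → V → Prop} (hc : ∀ x i, cons 𝒜 x i → cons 𝒜 (f x) i)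
    (h : 𝒜.Am S) (e : ∀ i x y, cons 𝒜 x i → cons 𝒜 y i →
      (S i (𝒜.pr (ι 𝒜 x) (ι 𝒜 y)) ↔ y = f x)) : 𝒜.Tm f :=
  ⟨hc, Df.mk' h fun i z hz => e i z.1 z.2 hz.1 hz.2⟩

theorem Df.comp {Q : α → Prop} {f : Γ → α} (h : 𝒜.Df Q) (hf : 𝒜.Tm f) :
    𝒜.Df (fun x => Q (f x)) := by
  refine Df.mk' (𝒜.ex (Am.and hf.gr (sndR h))) fun i x hx => ⟨?_, fun hq => ?_⟩
  · rintro ⟨y, ⟨x', hx', e⟩, s, t, e', a, ha, rfl, hq⟩
    obtain ⟨e₁, rfl⟩ := pr_iff.1 e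
    obtain rfl := inj hx hx' e₁
    exact inj ha (hf.1 _ _ hx) (pr_iff.1 e').2.symm ▸ hq
  · exact ⟨_, ⟨x, hx, rfl⟩, _, _, rfl, f x, hf.1 _ _ hx, rfl, hq⟩

theorem Tm.id : 𝒜.Tm (fun x : Γ => x) :=
  Tm.mk' (fun _ _ h => h) 𝒜.eq fun i x y hx hy => by
    constructor
    · rintro ⟨z, e⟩
      obtain ⟨e₁, e₂⟩ := pr_iff.1 e
      exact inj hy hx (e₂.trans e₁.symm)
    · rintro rfl
      exact ⟨_, rfl⟩

theorem Tm.fst' : 𝒜.Tm (fun z : α × β => z.1) :=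
  Tm.mk' (fun _ _ h => h.1) (𝒜.aR 𝒜.eq) fun i x y hx hy => by
    constructor
    · rintro ⟨a, b, t, e, z, e'⟩
      obtain ⟨e₁, rfl⟩ := pr_iff.1 e
      obtain ⟨rfl, rfl⟩ := pr_iff.1 e₁
      obtain ⟨e₁, e₂⟩ := pr_iff.1 e'
      exact inj hy hx.1 (e₂.trans e₁.symm)
    · rintro rfl
      exact ⟨_, _, _, rfl, _, rfl⟩

theorem Tm.snd' : 𝒜.Tm (fun z : α × β => z.2) :=
  Tm.mk' (fun _ _ h => h.2) (𝒜.bR 𝒜.eq) fun i x y hx hy => by
    constructor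
    · rintro ⟨a, b, t, e, z, e'⟩
      obtain ⟨e₁, rfl⟩ := pr_iff.1 e
      obtain ⟨rfl, rfl⟩ := pr_iff.1 e₁
      obtain ⟨e₁, e₂⟩ := pr_iff.1 e'
      exact inj hy hx.2 (e₂.trans e₁.symm)
    · rintro rfl
      exact ⟨_, _, _, rfl, _, rfl⟩

theorem Tm.comp {h : α → β} {f : Γ → α} (hh : 𝒜.Tm h) (hf : 𝒜.Tm f) :
    𝒜.Tm (fun x => h (f x)) :=
  Tm.mk' (fun x i hx => hh.1 _ _ (hf.1 x i hx))
    (𝒜.ex (Am.and (𝒜.aR hf.gr) (𝒜.bR (𝒜.swR hh.gr)))) fun i x y hx hy => by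
    constructor
    · rintro ⟨t, ⟨a, b, t', e, x', hx', e'⟩, a₂, b₂, t₂, e₂, s, s', e₃, z, hz, e₄⟩
      obtain ⟨e₁, rfl⟩ := pr_iff.1 e
      obtain ⟨rfl, rfl⟩ := pr_iff.1 e₁
      obtain ⟨e₅, rfl⟩ := pr_iff.1 e'
      obtain rfl := inj hx hx' e₅
      obtain ⟨e₆, rfl⟩ := pr_iff.1 e₂
      obtain ⟨rfl, rfl⟩ := pr_iff.1 e₆
      obtain ⟨rfl, rfl⟩ := pr_iff.1 e₃
      obtain ⟨e₇, e₈⟩ := pr_iff.1 e₄
      obtain rfl := inj (hf.1 _ _ hx) hz e₇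
      exact inj hy (hh.1 _ _ hz) e₈
    · rintro rfl
      exact ⟨_, ⟨_, _, _, rfl, x, hx, rfl⟩, _, _, _, rfl, _, _, rfl, f x, hf.1 _ _ hx, rfl⟩

theorem Tm.pair {f : Γ → α} {h : Γ → β} (hf : 𝒜.Tm f) (hh : 𝒜.Tm h) :
    𝒜.Tm (fun x => (f x, h x)) :=
  Tm.mk' (fun x i hx => ⟨hf.1 x i hx, hh.1 x i hx⟩) (Am.and (cR hf.gr) (dR hh.gr))
    fun i x y hx hy => by
    constructor
    · rintro ⟨⟨s, a, b, e, x₁, hx₁, e₁⟩, s', a', b', e', x₂, hx₂, e₂⟩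
      obtain ⟨rfl, e₃⟩ := pr_iff.1 e
      obtain ⟨rfl, rfl⟩ := pr_iff.1 e₃
      obtain ⟨rfl, e₄⟩ := pr_iff.1 e'
      obtain ⟨rfl, rfl⟩ := pr_iff.1 e₄
      obtain ⟨e₅, e₆⟩ := pr_iff.1 e₁
      obtain ⟨e₇, e₈⟩ := pr_iff.1 e₂
      obtain rfl := inj hx hx₁ e₅
      obtain rfl := inj hx hx₂ e₇
      exact Prod.ext (inj hy.1 (hf.1 _ _ hx) e₆) (inj hy.2 (hh.1 _ _ hx) e₈)
    · rintro rfl
      exact ⟨⟨_, _, _, rfl, x, hx, rfl⟩, _, _, _, rfl, x, hx, rfl⟩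

theorem Tm.fst {f : Γ → α × β} (hf : 𝒜.Tm f) : 𝒜.Tm (fun x => (f x).1) := Tm.fst'.comp hf

theorem Tm.snd {f : Γ → α × β} (hf : 𝒜.Tm f) : 𝒜.Tm (fun x => (f x).2) := Tm.snd'.comp hf

/-- The code of an element, as an object. -/
def ob (𝒜 : FO.{u, v} I V) {Γ : Type*} [Cd 𝒜 Γ] (x : Γ) : 𝒜.Ob :=
  @Cd.ι I V 𝒜 Γ _ x

theorem Tm.ι' : 𝒜.Tm (fun x : Γ => 𝒜.ob x) :=
  Tm.mk' (fun _ _ _ => trivial) 𝒜.eq fun i x y _ _ => by
    constructor
    · rintro ⟨z, e⟩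
      obtain ⟨e₁, e₂⟩ := pr_iff.1 e
      exact e₂.trans e₁.symm
    · rintro rfl
      exact ⟨_, rfl⟩

theorem Df.comp₂ {Q : α → β → Prop} {f : Γ → α} {h : Γ → β}
    (H : 𝒜.Df (fun z : α × β => Q z.1 z.2)) (hf : 𝒜.Tm f) (hh : 𝒜.Tm h) :
    𝒜.Df (fun x => Q (f x) (h x)) := H.comp (hf.pair hh)

theorem Df.eq {f h : Γ → α} (hf : 𝒜.Tm f) (hh : 𝒜.Tm h) : 𝒜.Df (fun x => f x = h x) :=
  Df.comp₂ (Q := fun a b => a = b) ((Tm.id (Γ := α)).2.congr fun _ => eq_comm) hf hh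

theorem Df.lt {f h : Γ → Ordinal.{u}} (hf : 𝒜.Tm f) (hh : 𝒜.Tm h) :
    𝒜.Df (fun x => f x < h x) := by
  refine Df.comp₂ (Q := fun a b => a < b) (Df.mk' 𝒜.lt fun i z _ => ⟨?_, fun h => ?_⟩) hf hh
  · rintro ⟨a, b, e, h⟩
    obtain ⟨e₁, e₂⟩ := pr_iff.1 e
    rw [𝒜.o_inj e₁, 𝒜.o_inj e₂]; exact h
  · exact ⟨_, _, rfl, h⟩

theorem Df.true : 𝒜.Df (fun _ : Γ => True) := (Df.eq Tm.id Tm.id).congr fun _ => by simp

theorem Tm.ofRel [Pure 𝒜 α] {f : Γ → α} {Q : Γ → α → Prop}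
    (h : 𝒜.Df (fun z : Γ × α => Q z.1 z.2)) (e : ∀ x y, Q x y ↔ y = f x) : 𝒜.Tm f :=
  ⟨fun _ _ _ => Pure.pure _ _, h.congr fun z => e z.1 z.2⟩

theorem Tm.zero : 𝒜.Tm (fun _ : Γ => (0 : Ordinal.{u})) :=
  Tm.ofRel (Q := fun _ y => ∀ z : Ordinal.{u}, ¬ z < y)
    (Df.all (Df.lt Tm.snd' Tm.fst'.snd).not) fun _ y =>
      ⟨fun h => le_antisymm (not_lt.1 (h 0)) zero_le, fun h z => by simp [h]⟩

theorem Tm.succ {f : Γ → Ordinal.{u}} (hf : 𝒜.Tm f) : 𝒜.Tm (fun x => f x + 1) := by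
  refine Tm.comp (h := fun a : Ordinal.{u} => a + 1) (Tm.ofRel
    (Q := fun a y => a < y ∧ ∀ z : Ordinal.{u}, a < z → ¬ z < y)
    ((Df.lt Tm.fst' Tm.snd').and (Df.all ((Df.lt Tm.fst'.fst Tm.snd').imp
      (Df.lt Tm.snd' Tm.fst'.snd).not))) fun a y => ?_) hf
  constructor
  · rintro ⟨h₁, h₂⟩
    exact le_antisymm (not_lt.1 (h₂ _ (lt_add_one a))) (add_one_le_iff.2 h₁)
  · rintro rfl
    exact ⟨lt_add_one a, fun z h₁ h₂ => (lt_add_one_iff.1 h₂).not_gt h₁⟩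

end Closure

/-- A coded type given by an injection into the ordinals. -/
@[reducible] def cdOfEnc {α : Type*} (e : α → Ordinal.{u}) (he : Function.Injective e)
    (h : 𝒜.Df (fun x : Ordinal.{u} => ∃ a, e a = x)) : Cd 𝒜 α where
  ι := fun a => 𝒜.o (e a)
  cons := fun _ _ => True
  inj := fun _ _ e' => he (𝒜.o_inj e')
  rng := Am.congr h fun i x => by
    constructor
    · rintro ⟨_, -, rfl, a, rfl⟩
      exact ⟨a, trivial, rfl⟩
    · rintro ⟨a, -, rfl⟩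
      exact ⟨_, trivial, rfl, a, rfl⟩

open Classical in
noncomputable def encP (p : Prop) : Ordinal.{u} := if p then 0 + 1 else 0

theorem encP_inj : Function.Injective encP.{u} := fun p q h => by
  by_cases hp : p <;> by_cases hq : q <;> simp [encP, hp, hq] at h ⊢

noncomputable instance : Cd 𝒜 Prop :=
  cdOfEnc encP encP_inj
    (((Df.eq Tm.id Tm.zero).or (Df.eq Tm.id Tm.zero.succ)).congr fun x => by
      constructor
      · rintro (rfl | rfl)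
        exacts [⟨False, by simp [encP]⟩, ⟨True, by simp [encP]⟩]
      · rintro ⟨p, rfl⟩
        by_cases hp : p <;> simp [encP, hp])

instance : Pure 𝒜 Prop := ⟨fun _ _ => trivial⟩

theorem lt_omega_iff (x : Ordinal.{u}) :
    (∀ y : Ordinal.{u}, ¬ x < y → y = 0 ∨ ∃ z, y = z + 1) ↔ x < Ordinal.omega0 := by
  constructor
  · intro h
    by_contra hx
    rcases h _ hx with h | ⟨z, h⟩
    · exact Ordinal.omega0_ne_zero h
    · have : z < Ordinal.omega0 := h ▸ lt_add_one z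
      exact (Ordinal.isSuccLimit_omega0.add_one_lt this).ne h.symm
  · intro h y hy
    obtain ⟨n, rfl⟩ := Ordinal.lt_omega0.1 ((not_lt.1 hy).trans_lt h)
    rcases n with _ | n
    · exact Or.inl rfl
    · exact Or.inr ⟨n, by simp⟩

theorem df_lt_omega : 𝒜.Df (fun x : Ordinal.{u} => x < Ordinal.omega0) :=
  (Df.all (Q := fun x y : Ordinal.{u} => ¬ x < y → y = 0 ∨ ∃ z, y = z + 1)
    ((Df.lt Tm.fst' Tm.snd').not.imp ((Df.eq Tm.snd' Tm.zero).or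
    (Df.ex (Q := fun (x : Ordinal.{u} × Ordinal.{u}) (z : Ordinal.{u}) => x.2 = z + 1)
      (Df.eq Tm.fst'.snd Tm.snd'.succ))))).congr lt_omega_iff

noncomputable instance : Cd 𝒜 ℕ :=
  cdOfEnc (fun n => (n : Ordinal.{u})) Nat.cast_injective
    (df_lt_omega.congr fun _ => by simp [Ordinal.lt_omega0, eq_comm])

instance : Pure 𝒜 ℕ := ⟨fun _ _ => trivial⟩

/-- The worlds, as a coded type. -/
structure Wd (_𝒜 : FO.{u, v} I V) where
  w : I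

noncomputable instance : Cd 𝒜 𝒜.Wd where
  ι := fun _ => 𝒜.o 0
  cons := fun a i => a.w = i
  inj := fun {a b _} ha hb _ => by cases a; cases b; simp_all
  rng := Am.congr (Df.eq (Tm.id (Γ := Ordinal.{u})) Tm.zero) fun i x => by
    constructor
    · rintro ⟨_, -, rfl, rfl⟩
      exact ⟨⟨i⟩, rfl, rfl⟩
    · rintro ⟨_, -, rfl⟩
      exact ⟨0, trivial, rfl, rfl⟩

theorem Df.dropW {Γ : Type*} [Cd 𝒜 Γ] {Q : Γ → Prop}
    (h : 𝒜.Df (fun z : Γ × 𝒜.Wd => Q z.1)) : 𝒜.Df Q := by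
  refine Df.mk' (𝒜.ex h) fun i x hx => ⟨?_, fun hq => ⟨_, (x, ⟨i⟩), ⟨hx, rfl⟩, rfl, hq⟩⟩
  rintro ⟨y, ⟨a, b⟩, hc, e, h⟩
  exact inj hc.1 hx (pr_iff.1 e).1 ▸ h

/-- Definable elements. -/
class Par (𝒜 : FO.{u, v} I V) {α : Type*} [Cd 𝒜 α] (c : α) : Prop where
  tm : 𝒜.Tm (fun _ : Ordinal.{u} => c)

/-- All parameters are allowed. -/
class Full (𝒜 : FO.{u, v} I V) : Prop where
  const : ∀ c, 𝒜.Am (fun _ x => x = c)

section Auto

variable {Γ : Type*} {α : Type*} {β : Type*} {γ : Type*} [Cd 𝒜 Γ] [Cd 𝒜 α] [Cd 𝒜 β] [Cd 𝒜 γ]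

instance (priority := low) [Full 𝒜] [Pure 𝒜 α] (c : α) : Par 𝒜 c :=
  ⟨Tm.mk' (fun _ _ _ => Pure.pure _ _) (sndR (Full.const (ι 𝒜 c))) fun i x y _ hy => by
    constructor
    · rintro ⟨a, b, e, rfl⟩
      exact inj hy (Pure.pure _ _) (pr_iff.1 e).2
    · rintro rfl
      exact ⟨_, _, rfl, rfl⟩⟩

theorem Tm.const (c : α) [h : Par 𝒜 c] : 𝒜.Tm (fun _ : Γ => c) := h.tm.comp Tm.zero

theorem encP_tm : 𝒜.Tm encP.{u} :=
  Tm.mk' (fun _ _ _ => trivial) 𝒜.eq fun i x y _ _ => by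
    constructor
    · rintro ⟨z, e⟩
      obtain ⟨e₁, e₂⟩ := pr_iff.1 e
      exact 𝒜.o_inj (e₂.trans e₁.symm)
    · rintro rfl
      exact ⟨_, rfl⟩

instance (p : Prop) : Par 𝒜 p := ⟨by
  refine Tm.ofRel (Q := fun _ q => encP.{u} q = encP p) ?_ fun _ _ => encP_inj.eq_iff
  by_cases hp : p
  · exact (Df.eq (encP_tm.comp Tm.snd') Tm.zero.succ).congr fun _ => by simp [encP, hp]
  · exact (Df.eq (encP_tm.comp Tm.snd') Tm.zero).congr fun _ => by simp [encP, hp]⟩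

theorem Df.tm {Q : Γ → Prop} (h : 𝒜.Df Q) : 𝒜.Tm Q := by
  refine Tm.ofRel (Q := fun x p => (p = True ∧ Q x) ∨ (p = False ∧ ¬ Q x))
    (((Df.eq Tm.snd' (Tm.const _)).and (h.comp Tm.fst')).or
      ((Df.eq Tm.snd' (Tm.const _)).and (h.comp Tm.fst').not)) fun x p => ?_
  by_cases h : Q x <;> simp [h]

theorem Tm.df {Q : Γ → Prop} (h : 𝒜.Tm Q) : 𝒜.Df Q :=
  (Df.eq h (Tm.const True)).congr fun _ => by simp

attribute [fun_prop] Tm

@[fun_prop] theorem tm_id : 𝒜.Tm (fun x : Γ => x) := Tm.id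

@[fun_prop] theorem tm_const (c : α) [Par 𝒜 c] : 𝒜.Tm (fun _ : Γ => c) := Tm.const c

@[fun_prop] theorem tm_comp {h : α → β} {f : Γ → α} (hh : 𝒜.Tm h) (hf : 𝒜.Tm f) :
    𝒜.Tm (fun x => h (f x)) := hh.comp hf

@[fun_prop] theorem tm_fst {f : Γ → α × β} (hf : 𝒜.Tm f) : 𝒜.Tm (fun x => (f x).1) := hf.fst

@[fun_prop] theorem tm_snd {f : Γ → α × β} (hf : 𝒜.Tm f) : 𝒜.Tm (fun x => (f x).2) := hf.snd

@[fun_prop] theorem tm_pair {f : Γ → α} {h : Γ → β} (hf : 𝒜.Tm f) (hh : 𝒜.Tm h) :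
    𝒜.Tm (fun x => (f x, h x)) := hf.pair hh

variable {Q R : Γ → Prop}

@[fun_prop] theorem tm_not (h : 𝒜.Tm Q) : 𝒜.Tm (fun x => ¬ Q x) := h.df.not.tm

@[fun_prop] theorem tm_and (h₁ : 𝒜.Tm Q) (h₂ : 𝒜.Tm R) : 𝒜.Tm (fun x => Q x ∧ R x) :=
  (h₁.df.and h₂.df).tm

@[fun_prop] theorem tm_or (h₁ : 𝒜.Tm Q) (h₂ : 𝒜.Tm R) : 𝒜.Tm (fun x => Q x ∨ R x) :=
  (h₁.df.or h₂.df).tm

@[fun_prop] theorem tm_imp (h₁ : 𝒜.Tm Q) (h₂ : 𝒜.Tm R) : 𝒜.Tm (fun x => Q x → R x) :=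
  (h₁.df.imp h₂.df).tm

@[fun_prop] theorem tm_iff (h₁ : 𝒜.Tm Q) (h₂ : 𝒜.Tm R) : 𝒜.Tm (fun x => Q x ↔ R x) :=
  (h₁.df.iff h₂.df).tm

@[fun_prop] theorem tm_ex [Pure 𝒜 α] {Q : Γ → α → Prop}
    (h : 𝒜.Tm (fun z : Γ × α => Q z.1 z.2)) : 𝒜.Tm (fun x => ∃ y, Q x y) := (Df.ex h.df).tm

@[fun_prop] theorem tm_all [Pure 𝒜 α] {Q : Γ → α → Prop}
    (h : 𝒜.Tm (fun z : Γ × α => Q z.1 z.2)) : 𝒜.Tm (fun x => ∀ y, Q x y) := (Df.all h.df).tm

@[fun_prop] theorem tm_eq {f h : Γ → α} (hf : 𝒜.Tm f) (hh : 𝒜.Tm h) :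
    𝒜.Tm (fun x => f x = h x) := (Df.eq hf hh).tm

@[fun_prop] theorem tm_ne {f h : Γ → α} (hf : 𝒜.Tm f) (hh : 𝒜.Tm h) :
    𝒜.Tm (fun x => f x ≠ h x) := (Df.eq hf hh).not.tm

@[fun_prop] theorem tm_lt {f h : Γ → Ordinal.{u}} (hf : 𝒜.Tm f) (hh : 𝒜.Tm h) :
    𝒜.Tm (fun x => f x < h x) := (Df.lt hf hh).tm

@[fun_prop] theorem tm_le {f h : Γ → Ordinal.{u}} (hf : 𝒜.Tm f) (hh : 𝒜.Tm h) :
    𝒜.Tm (fun x => f x ≤ h x) := ((Df.lt hh hf).not.congr fun _ => not_lt).tm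

theorem tm_of_rel [Pure 𝒜 α] {f : Γ → α} {Q : Γ → α → Prop}
    (h : 𝒜.Tm (fun z : Γ × α => Q z.1 z.2)) (e : ∀ x y, Q x y ↔ y = f x) : 𝒜.Tm f :=
  Tm.ofRel h.df e

theorem Tm.congr {f g : Γ → α} (h : 𝒜.Tm f) (e : ∀ x, f x = g x) : 𝒜.Tm g :=
  (funext e : f = g) ▸ h

theorem Tm.congrP (h : 𝒜.Tm Q) (e : ∀ x, Q x ↔ R x) : 𝒜.Tm R :=
  h.congr fun x => propext (e x)

@[fun_prop] theorem tm_ite [Pure 𝒜 α] {c : Γ → Prop} {d : ∀ x, Decidable (c x)} {f h : Γ → α}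
    (hc : 𝒜.Tm c) (hf : 𝒜.Tm f) (hh : 𝒜.Tm h) :
    𝒜.Tm (fun x => @ite _ (c x) (d x) (f x) (h x)) := by
  refine tm_of_rel (Q := fun x y => (c x ∧ y = f x) ∨ (¬ c x ∧ y = h x)) (by fun_prop)
    fun x y => ?_
  by_cases h : c x <;> simp [h]

instance : Par 𝒜 (0 : Ordinal.{u}) := ⟨Tm.zero⟩

instance : Par 𝒜 (1 : Ordinal.{u}) := ⟨Tm.zero.succ.congr fun _ => by simp⟩

instance (n : ℕ) : Par 𝒜 (n : Ordinal.{u}) := ⟨by
  induction n with
  | zero => exact Tm.zero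
  | succ n ih => exact ih.succ.congr fun _ => by simp⟩

instance (n : ℕ) [n.AtLeastTwo] : Par 𝒜 (ofNat(n) : Ordinal.{u}) :=
  inferInstanceAs (Par 𝒜 (n : Ordinal.{u}))

instance : Par 𝒜 Ordinal.omega0.{u} :=
  ⟨tm_of_rel (Q := fun _ y => ∀ z : Ordinal.{u}, z < y ↔ z < Ordinal.omega0)
    (tm_all (tm_iff (by fun_prop) (df_lt_omega.comp Tm.snd').tm)) fun _ y =>
      ⟨eq_of_lt_iff, fun h => by simp [h]⟩⟩

theorem natCast_tm : 𝒜.Tm (fun n : ℕ => (n : Ordinal.{u})) :=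
  Tm.mk' (fun _ _ _ => trivial) 𝒜.eq fun i x y _ _ => by
    constructor
    · rintro ⟨z, e⟩
      obtain ⟨e₁, e₂⟩ := pr_iff.1 e
      exact 𝒜.o_inj (e₂.trans e₁.symm)
    · rintro rfl
      exact ⟨_, rfl⟩

@[fun_prop] theorem tm_natCast {f : Γ → ℕ} (hf : 𝒜.Tm f) :
    𝒜.Tm (fun x => (f x : Ordinal.{u})) := natCast_tm.comp hf

instance (n : ℕ) : Par 𝒜 n :=
  ⟨tm_of_rel (Q := fun _ m => (m : Ordinal.{u}) = n) (by fun_prop) fun _ _ => Nat.cast_inj⟩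

@[fun_prop] theorem tm_nat_lt {f h : Γ → ℕ} (hf : 𝒜.Tm f) (hh : 𝒜.Tm h) :
    𝒜.Tm (fun x => f x < h x) :=
  (tm_lt (tm_natCast hf) (tm_natCast hh)).congrP fun _ => Nat.cast_lt

@[fun_prop] theorem tm_nat_le {f h : Γ → ℕ} (hf : 𝒜.Tm f) (hh : 𝒜.Tm h) :
    𝒜.Tm (fun x => f x ≤ h x) :=
  (tm_le (tm_natCast hf) (tm_natCast hh)).congrP fun _ => Nat.cast_le

@[fun_prop] theorem tm_nat_succ {f : Γ → ℕ} (hf : 𝒜.Tm f) : 𝒜.Tm (fun x => f x + 1) :=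
  tm_of_rel (Q := fun x m => (m : Ordinal.{u}) = f x + 1)
    (tm_eq (by fun_prop) (Tm.succ (by fun_prop))) fun _ _ => by
      rw [← Nat.cast_add_one, Nat.cast_inj]

@[fun_prop] theorem tm_mu {R : Γ → Ordinal.{u} → Prop}
    (h : 𝒜.Tm (fun z : Γ × Ordinal.{u} => R z.1 z.2)) : 𝒜.Tm (fun x => mu (fun y => R x y)) :=
  tm_of_rel (Q := fun x y => (R x y ∧ ∀ z < y, ¬ R x z) ∨ (y = 0 ∧ ∀ z, ¬ R x z))
    (by fun_prop) fun _ _ => eq_mu_iff.symm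

@[fun_prop] theorem tm_succ {f : Γ → Ordinal.{u}} (hf : 𝒜.Tm f) : 𝒜.Tm (fun x => f x + 1) :=
  hf.succ

@[fun_prop] theorem tm_ob {f : Γ → α} (hf : 𝒜.Tm f) : 𝒜.Tm (fun x => 𝒜.ob (f x)) :=
  Tm.ι'.comp hf

@[fun_prop] theorem tm_max {f h : Γ → Ordinal.{u}} (hf : 𝒜.Tm f) (hh : 𝒜.Tm h) :
    𝒜.Tm (fun x => max (f x) (h x)) :=
  (tm_ite (d := fun _ => inferInstance) (tm_le hf hh) hh hf).congr fun _ => (max_def _ _).symm

end Auto

end FO

end Pool.Agent.MP_9a6faa_lc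

end

section

namespace Pool.Agent.MP_9a6faa_lc

open Set Order

universe u v w

noncomputable def orec1 {A : Type v} (rk : A → Ordinal.{u}) (F : (A → Prop) → A → Prop)
    (a : A) : Prop :=
  orec rk (fun R a (_ : Unit) => F (fun x => R x ()) a) a ()

theorem orec1_iff {A : Type v} (rk : A → Ordinal.{u}) (F : (A → Prop) → A → Prop) (a : A) :
    orec1 rk F a ↔ F (fun x => rk x < rk a ∧ orec1 rk F x) a := by
  unfold orec1
  rw [orec_iff]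

theorem rk_ind {A : Type v} (rk : A → Ordinal.{u}) {C : A → Prop}
    (h : ∀ a, (∀ x, rk x < rk a → C x) → C a) (a : A) : C a :=
  (InvImage.wf rk Ordinal.lt_wf).induction a h

/-- Separation for bounded binary relations on ordinals. -/
class HasSep {I : Type} {V : Type v} (𝒜 : FO.{u, v} I V) where
  mem : I → V → V → Prop
  mem_am : 𝒜.Am (fun i z => ∃ s x, z = 𝒜.pr s x ∧ mem i s x)
  sep : ∀ R, 𝒜.Am R → ∀ i v (α : Ordinal.{u}), ∃ s, ∀ a < α, ∀ b < α,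
    (mem i s (𝒜.pr (𝒜.o a) (𝒜.o b)) ↔ R i (𝒜.pr v (𝒜.pr (𝒜.o a) (𝒜.o b))))

/-- The pairing function is definable. -/
class HasG {I : Type} {V : Type v} (𝒜 : FO.{u, v} I V) : Prop where
  tm : 𝒜.Tm (fun z : Ordinal.{u} × Ordinal.{u} => G z.1 z.2)

namespace FO

open Cd

variable {I : Type} {V : Type v} {𝒜 : FO.{u, v} I V}
variable {Γ : Type*} {α : Type*} {β : Type*} [Cd 𝒜 Γ] [Cd 𝒜 α] [Cd 𝒜 β]

theorem Df.congr_cons {Q R : Γ → Prop} (h : 𝒜.Df Q) (e : ∀ i x, cons 𝒜 x i → (Q x ↔ R x)) :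
    𝒜.Df R :=
  Df.mk' h fun i x hx => (ev_iff hx).trans (e i x hx)

theorem Tm.ofW {Q : Γ → Prop} {R : Γ × 𝒜.Wd → Prop} (h : 𝒜.Tm R)
    (e : ∀ i x, cons 𝒜 x i → (R (x, ⟨i⟩) ↔ Q x)) : 𝒜.Tm Q :=
  (Df.dropW (h.df.congr_cons fun i z hz => by
    obtain ⟨x, ⟨j⟩⟩ := z
    obtain rfl : j = i := hz.2
    exact e j x hz.1)).tm

section Sep

variable [HasSep 𝒜]

def MemO (w : 𝒜.Wd) (s x : 𝒜.Ob) : Prop := HasSep.mem (𝒜 := 𝒜) w.w s x

def Mem2 (w : 𝒜.Wd) (s : 𝒜.Ob) (a b : Ordinal.{u}) : Prop := MemO w s (𝒜.ob (a, b))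

@[fun_prop] theorem tm_MemO {w : Γ → 𝒜.Wd} {s x : Γ → 𝒜.Ob} (hw : 𝒜.Tm w) (hs : 𝒜.Tm s)
    (hx : 𝒜.Tm x) : 𝒜.Tm (fun z => MemO (w z) (s z) (x z)) := by
  have : 𝒜.Tm (fun z : 𝒜.Wd × 𝒜.Ob × 𝒜.Ob => MemO z.1 z.2.1 z.2.2) := by
    refine (Df.mk' (sndR HasSep.mem_am) fun i z hz => ?_).tm
    obtain ⟨⟨j⟩, s, x⟩ := z
    obtain rfl : j = i := hz.1
    constructor
    · rintro ⟨a, b, e, s', x', rfl, h⟩
      obtain ⟨rfl, rfl⟩ := pr_iff.1 (pr_iff.1 e).2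
      exact h
    · exact fun h => ⟨_, _, rfl, _, _, rfl, h⟩
  exact this.comp (hw.pair (hs.pair hx))

@[fun_prop] theorem tm_Mem2 {w : Γ → 𝒜.Wd} {s : Γ → 𝒜.Ob} {a b : Γ → Ordinal.{u}}
    (hw : 𝒜.Tm w) (hs : 𝒜.Tm s) (ha : 𝒜.Tm a) (hb : 𝒜.Tm b) :
    𝒜.Tm (fun z => Mem2 (w z) (s z) (a z) (b z)) := by
  unfold Mem2; fun_prop

theorem sep2 {R : Γ → Ordinal.{u} → Ordinal.{u} → Prop}
    (h : 𝒜.Tm (fun z : Γ × Ordinal.{u} × Ordinal.{u} => R z.1 z.2.1 z.2.2)) {x : Γ} {i : I}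
    (hx : cons 𝒜 x i) (c : Ordinal.{u}) :
    ∃ s : 𝒜.Ob, ∀ a < c, ∀ b < c, (Mem2 ⟨i⟩ s a b ↔ R x a b) := by
  obtain ⟨s, hs⟩ := HasSep.sep _ h.df i (ι 𝒜 x) c
  exact ⟨s, fun a ha b hb => (hs a ha b hb).trans
    (ev_iff (x := (x, a, b)) (Q := fun z : Γ × Ordinal.{u} × Ordinal.{u} => R z.1 z.2.1 z.2.2)
      ⟨hx, trivial, trivial⟩)⟩

/-- The context of an approximation. -/
abbrev Ctx (𝒜 : FO.{u, v} I V) := 𝒜.Wd × Ordinal.{u} × 𝒜.Ob

variable {A : Type*} [Cd 𝒜 A] [Pure 𝒜 A]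

theorem tm_rec (rk cd : A → Ordinal.{u}) (hrk : 𝒜.Tm rk) (hcd : 𝒜.Tm cd)
    (inj : ∀ x y, rk x = rk y → cd x = cd y → x = y) (X : Γ → A → Prop)
    (F : Γ → (A → Prop) → A → Prop)
    (hX : ∀ g a, X g a ↔ F g (fun x => rk x < rk a ∧ X g x) a)
    (hF : ∀ R : (𝒜.Ctx × Γ) × A → A → Prop,
      𝒜.Tm (fun z : ((𝒜.Ctx × Γ) × A) × A => R z.1 z.2) →
      𝒜.Tm (fun z : (𝒜.Ctx × Γ) × A => F z.1.2 (R z) z.2))
    (hb : ∀ g c a₀, ∃ b, cd a₀ < b ∧ ∀ a, rk a < c → cd a < b → ∀ R : A → Prop,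
      (∀ x, rk x < rk a → cd x < b → (R x ↔ X g x)) →
      (F g (fun x => rk x < rk a ∧ R x) a ↔ F g (fun x => rk x < rk a ∧ X g x) a)) :
    𝒜.Tm (fun z : Γ × A => X z.1 z.2) := by
  obtain ⟨E, hE, eE⟩ : ∃ E : (𝒜.Ctx × Γ) × A → Prop, 𝒜.Tm E ∧ ∀ w b s g a,
      E (((w, b, s), g), a) =
        F g (fun x => rk x < rk a ∧ cd x < b ∧ Mem2 w s (rk x) (cd x)) a :=
    ⟨_, hF (fun z x => rk x < rk z.2 ∧ cd x < z.1.1.2.1 ∧
      Mem2 z.1.1.1 z.1.1.2.2 (rk x) (cd x)) (by fun_prop), fun _ _ _ _ _ => rfl⟩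
  obtain ⟨D, hD, eD⟩ : ∃ D : (𝒜.Wd × Ordinal.{u} × Γ) × A → Prop, 𝒜.Tm D ∧ ∀ w b g a,
      D ((w, b, g), a) ↔ ∃ s : 𝒜.Ob, (∀ a', rk a' < rk a → cd a' < b →
        (Mem2 w s (rk a') (cd a') ↔ E (((w, b, s), g), a'))) ∧ E (((w, b, s), g), a) :=
    ⟨fun z => ∃ s : 𝒜.Ob, (∀ a', rk a' < rk z.2 → cd a' < z.1.2.1 →
        (Mem2 z.1.1 s (rk a') (cd a') ↔ E (((z.1.1, z.1.2.1, s), z.1.2.2), a'))) ∧
        E (((z.1.1, z.1.2.1, s), z.1.2.2), z.2), by fun_prop, fun _ _ _ _ => Iff.rfl⟩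
  let Y : Γ → Ordinal.{u} → A → Prop := fun g b =>
    orec1 rk (fun R a => F g (fun x => cd x < b ∧ R x) a)
  have hY : ∀ g b a, Y g b a ↔ F g (fun x => rk x < rk a ∧ cd x < b ∧ Y g b x) a := by
    intro g b a
    refine (orec1_iff _ _ _).trans ?_
    simp only [and_left_comm (a := cd _ < b)]
    rfl
  have key : ∀ i g b, cons 𝒜 g i → ∀ a, D ((⟨i⟩, b, g), a) ↔ Y g b a := by
    intro i g b hg a
    induction a using rk_ind rk with
    | h a ih =>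
      have fin : ∀ (s : 𝒜.Ob) a', (∀ x, rk x < rk a' → cd x < b →
          (Mem2 ⟨i⟩ s (rk x) (cd x) ↔ Y g b x)) → (E (((⟨i⟩, b, s), g), a') ↔ Y g b a') := by
        intro s a' h
        rw [eE, hY]
        have : (fun x => rk x < rk a' ∧ cd x < b ∧ Mem2 ⟨i⟩ s (rk x) (cd x)) =
            fun x => rk x < rk a' ∧ cd x < b ∧ Y g b x :=
          funext fun x => propext (and_congr_right fun h₁ => and_congr_right fun h₂ => h x h₁ h₂)
        rw [this]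
      rw [eD]
      constructor
      · rintro ⟨s, hs, h⟩
        refine (fin s a fun x => ?_).1 h
        induction x using rk_ind rk with
        | h x ih' =>
          exact fun h₁ h₂ => (hs x h₁ h₂).trans
            (fin s x fun y h₃ h₄ => ih' y h₃ (h₃.trans h₁) h₄)
      · intro h
        obtain ⟨s, hs⟩ := sep2 (𝒜 := 𝒜) (Γ := 𝒜.Wd × Ordinal.{u} × Γ)
          (R := fun z p q => ∃ x, rk x = p ∧ cd x = q ∧ D (z, x)) (by fun_prop)
          (x := (⟨i⟩, b, g)) (i := i) (And.intro rfl (And.intro trivial hg)) (max (rk a) b)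
        have hs' : ∀ x, rk x < rk a → cd x < b → (Mem2 ⟨i⟩ s (rk x) (cd x) ↔ Y g b x) := by
          intro x h₁ h₂
          rw [hs _ (lt_max_of_lt_left h₁) _ (lt_max_of_lt_right h₂), ← ih x h₁]
          exact ⟨fun ⟨y, e₁, e₂, h⟩ => inj _ _ e₁ e₂ ▸ h, fun h => ⟨x, rfl, rfl, h⟩⟩
        exact ⟨s, fun x h₁ h₂ => (hs' x h₁ h₂).trans
          (fin s x fun y h₃ h₄ => hs' y (h₃.trans h₁) h₄).symm, (fin s a hs').2 h⟩
  refine Tm.ofW (R := fun z : (Γ × A) × 𝒜.Wd => ∃ b₀ : Ordinal.{u}, ∀ b, b₀ ≤ b →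
    D ((z.2, b, z.1.1), z.1.2)) (by fun_prop) fun i z hz => ?_
  obtain ⟨g, a⟩ := z
  simp only [key i g _ hz.1]
  obtain ⟨b₁, h₁, h₂⟩ := hb g (rk a + 1) a
  have ev : ∀ b, b₁ ≤ b → ∀ x, rk x < rk a + 1 → cd x < b₁ → (Y g b x ↔ X g x) := by
    intro b hb x
    induction x using rk_ind rk with
    | h x ih =>
      intro h₃ h₄
      rw [hY, hX]
      exact h₂ x h₃ h₄ (fun y => cd y < b ∧ Y g b y) fun y h₅ h₆ =>
        (and_iff_right (h₆.trans_le hb)).trans (ih y h₅ (h₅.trans h₃) h₆)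
  exact ⟨fun ⟨b₀, h⟩ => (ev _ (le_max_right b₀ b₁) a (lt_add_one _) h₁).1 (h _ (le_max_left _ _)),
    fun h => ⟨b₁, fun b hb => (ev b hb a (lt_add_one _) h₁).2 h⟩⟩

/-- Recursion with guarded calls. -/
theorem tm_grec (rk cd : A → Ordinal.{u}) (hrk : 𝒜.Tm rk) (hcd : 𝒜.Tm cd)
    (inj : ∀ x y, rk x = rk y → cd x = cd y → x = y) (X : Γ → A → Prop)
    (F : Γ → (A → Prop) → A → Prop) (gd : Γ → A → A → Prop)
    (hgd : 𝒜.Tm (fun z : Γ × A × A => gd z.1 z.2.1 z.2.2))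
    (hX : ∀ g a, X g a ↔ F g (fun x => gd g a x ∧ X g x) a)
    (hF : ∀ R : (𝒜.Ctx × Γ) × A → A → Prop,
      𝒜.Tm (fun z : ((𝒜.Ctx × Γ) × A) × A => R z.1 z.2) →
      𝒜.Tm (fun z : (𝒜.Ctx × Γ) × A => F z.1.2 (R z) z.2))
    (hlt : ∀ g a x, gd g a x → rk x < rk a)
    (hb : ∀ g c a₀, ∃ b, cd a₀ < b ∧ ∀ a, rk a < c → cd a < b → ∀ x, gd g a x → cd x < b) :
    𝒜.Tm (fun z : Γ × A => X z.1 z.2) := by
  refine tm_rec rk cd hrk hcd inj X (fun g R a => F g (fun x => gd g a x ∧ R x) a)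
    (fun g a => (hX g a).trans ?_)
    (fun R hR => hF (fun z x => gd z.1.2 z.2 x ∧ R z x) (by fun_prop)) fun g c a₀ => ?_
  · have : (fun x => gd g a x ∧ X g x) = fun x => gd g a x ∧ rk x < rk a ∧ X g x :=
      funext fun x => propext (and_congr_right fun h => (and_iff_right (hlt g a x h)).symm)
    rw [this]
  · obtain ⟨b, h₁, h₂⟩ := hb g c a₀
    refine ⟨b, h₁, fun a h₃ h₄ R hR => ?_⟩
    have : (fun x => gd g a x ∧ rk x < rk a ∧ R x) = fun x => gd g a x ∧ rk x < rk a ∧ X g x :=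
      funext fun x => propext (and_congr_right fun h => and_congr_right fun h' =>
        hR x h' (h₂ a h₃ h₄ x h))
    simp only [this]

/-- Recursive definition of functions on ordinals. -/
theorem tm_frec (f : Γ → Ordinal.{u} → Ordinal.{u})
    (S : Γ → (Ordinal.{u} → Ordinal.{u}) → Ordinal.{u} → Ordinal.{u})
    (hf : ∀ g a k, (∀ x < a, k x = f g x) → S g k a = f g a)
    (hS : ∀ k : ((𝒜.Ctx × Γ) × Ordinal.{u} × Ordinal.{u}) → Ordinal.{u} → Ordinal.{u},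
      𝒜.Tm (fun z : ((𝒜.Ctx × Γ) × Ordinal.{u} × Ordinal.{u}) × Ordinal.{u} => k z.1 z.2) →
      𝒜.Tm (fun z : (𝒜.Ctx × Γ) × Ordinal.{u} × Ordinal.{u} => S z.1.2 (k z) z.2.1)) :
    𝒜.Tm (fun z : Γ × Ordinal.{u} => f z.1 z.2) := by
  have := tm_rec (𝒜 := 𝒜) (A := Ordinal.{u} × Ordinal.{u}) Prod.fst Prod.snd (by fun_prop)
    (by fun_prop) (fun _ _ => Prod.ext) (fun g z => z.2 = f g z.1)
    (fun g R z => z.2 = S g (fun x => mu (fun y => R (x, y))) z.1)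
    (fun g z => by
      rw [hf g z.1 _ fun x hx => mu_eq ⟨hx, rfl⟩ fun y hy h => hy.ne h.2])
    (fun R hR => tm_eq (by fun_prop) (hS (fun z x => mu (fun y => R z (x, y))) (by fun_prop)))
    (fun g c a₀ => by
      obtain ⟨b, hb⟩ := bound_fun c (f g)
      refine ⟨max b (a₀.2 + 1), lt_max_of_lt_right (lt_add_one _), fun a h₁ _ R hR => ?_⟩
      have lt : ∀ x < a.1, f g x < max b (a₀.2 + 1) := fun x hx =>
        lt_max_of_lt_left (hb x (hx.trans h₁))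
      rw [hf g a.1 _ fun x hx => mu_eq ⟨hx, (hR (x, _) hx (lt x hx)).2 rfl⟩ fun y hy h =>
          hy.ne ((hR (x, y) hx (hy.trans (lt x hx))).1 h.2),
        hf g a.1 _ fun x hx => mu_eq ⟨hx, rfl⟩ fun y hy h => hy.ne h.2])
  exact tm_of_rel (Q := fun z y => y = f z.1 z.2)
    (this.comp (f := fun z : (Γ × Ordinal.{u}) × Ordinal.{u} => (z.1.1, z.1.2, z.2))
      (by fun_prop)) fun _ _ => Iff.rfl

theorem tm_add' : 𝒜.Tm (fun z : Ordinal.{u} × Ordinal.{u} => z.1 + z.2) := by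
  refine tm_frec (fun a b => a + b) (fun a k b => mu (fun c => a ≤ c ∧ ∀ x < b, k x < c))
    (fun a b k hk => mu_eq ⟨le_self_add, fun x hx => hk x hx ▸ add_lt_add_right hx a⟩ ?_)
    (fun k hk => by fun_prop)
  rintro c hc ⟨h₁, h₂⟩
  obtain ⟨x, rfl⟩ := exists_add_of_le h₁
  have hx := lt_of_add_lt_add_left hc
  exact (hk x hx ▸ h₂ x hx).false

theorem tm_add {f g : Γ → Ordinal.{u}} (hf : 𝒜.Tm f) (hg : 𝒜.Tm g) :
    𝒜.Tm (fun z => f z + g z) := tm_add'.comp (hf.pair hg)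

@[fun_prop] theorem tm_Hf {f : Γ → Ordinal.{u}} (hf : 𝒜.Tm f) : 𝒜.Tm (fun z => Hf (f z)) := by
  have := tm_frec (𝒜 := 𝒜) (Γ := Ordinal.{u}) (fun _ m => Hf m)
    (fun _ k m => mu (fun c => ∀ x < m, k x + x + x + 1 ≤ c))
    (fun _ m k hk => mu_eq (fun x hx => hk x hx ▸ Hf_le_iff.1 le_rfl x hx)
      fun c hc h => hc.not_ge (Hf_le_iff.2 fun x hx => hk x hx ▸ h x hx))
    (fun k hk => tm_mu (tm_all (tm_imp (by fun_prop) (tm_le (tm_succ
      (tm_add (tm_add (by fun_prop) (by fun_prop)) (by fun_prop))) (by fun_prop)))))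
  exact this.comp (hf.pair hf)

instance (priority := low) : HasG 𝒜 := ⟨by
  unfold G
  exact tm_ite (by fun_prop) (tm_add (by fun_prop) (by fun_prop))
    (tm_add (tm_add (by fun_prop) (by fun_prop)) (by fun_prop))⟩

end Sep

section Pairing

variable [HasG 𝒜]

@[fun_prop] theorem tm_G {f g : Γ → Ordinal.{u}} (hf : 𝒜.Tm f) (hg : 𝒜.Tm g) :
    𝒜.Tm (fun z => G (f z) (g z)) := HasG.tm.comp (hf.pair hg)

@[fun_prop] theorem tm_ofst {f : Γ → Ordinal.{u}} (hf : 𝒜.Tm f) :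
    𝒜.Tm (fun z => fst (f z)) :=
  tm_of_rel (Q := fun z y => ∃ b, G y b = f z) (by fun_prop) fun z y =>
    ⟨fun ⟨b, h⟩ => by rw [← h, fst_G], fun h => ⟨snd (f z), by rw [h, G_fst_snd]⟩⟩

@[fun_prop] theorem tm_osnd {f : Γ → Ordinal.{u}} (hf : 𝒜.Tm f) :
    𝒜.Tm (fun z => snd (f z)) :=
  tm_of_rel (Q := fun z y => ∃ a, G a y = f z) (by fun_prop) fun z y =>
    ⟨fun ⟨a, h⟩ => by rw [← h, snd_G], fun h => ⟨fst (f z), by rw [h, G_fst_snd]⟩⟩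

@[fun_prop] theorem tm_Gcl {f : Γ → Ordinal.{u}} (hf : 𝒜.Tm f) :
    𝒜.Tm (fun z => Gcl (f z)) := by
  unfold Gcl; fun_prop

@[fun_prop] theorem tm_gst {f : Γ → Ordinal.{u}} (hf : 𝒜.Tm f) :
    𝒜.Tm (fun z => gst (f z)) := by
  unfold gst; fun_prop

end Pairing

end FO

end Pool.Agent.MP_9a6faa_lc

end

section

namespace Pool.Agent.MP_9a6faa_lc

open Set Order

universe u v w

abbrev OL := List Ordinal.{u}

open Classical in
noncomputable def decL (c : Ordinal.{u}) : OL.{u} := if h : ∃ l, encL l = c then h.choose else []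

@[simp] theorem decL_encL (l : OL.{u}) : decL (encL l) = l := by
  have h : ∃ l', encL l' = encL l := ⟨l, rfl⟩
  rw [decL, dif_pos h]
  exact encL_inj h.choose_spec

theorem encL_map_le {f : Ordinal.{u} → Ordinal.{u}} (hf : ∀ x, f x ≤ x) (l : OL.{u}) :
    encL (l.map f) ≤ encL l := by
  induction l with
  | nil => exact le_rfl
  | cons a l ih => exact add_le_add_left (G_mono (hf a) ih) 1

open Classical in
noncomputable def toN (c : Ordinal.{u}) : ℕ := if h : ∃ n : ℕ, c = n then h.choose else 0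

@[simp] theorem toN_cast (n : ℕ) : toN (n : Ordinal.{u}) = n := by
  have h : ∃ k : ℕ, (n : Ordinal.{u}) = k := ⟨n, rfl⟩
  rw [toN, dif_pos h]
  exact Nat.cast_injective h.choose_spec.symm

/-- Limit ordinals. -/
def Lim (a : Ordinal.{u}) : Prop := 0 < a ∧ ∀ x < a, x + 1 < a

/-- Limits of closed ordinals. -/
def LimCl (a : Ordinal.{u}) : Prop := ∀ x < a, ∃ y < a, x < y ∧ Gcl y

theorem Gcl.lim {a : Ordinal.{u}} (h : Gcl a) : Lim a := ⟨h.pos, fun _ => h.succ⟩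

theorem Lim.nat {a : Ordinal.{u}} (h : Lim a) (n : ℕ) : (n : Ordinal.{u}) < a := by
  induction n with
  | zero => exact h.1
  | succ n ih => simpa using h.2 _ ih

theorem LimCl.two {a x y : Ordinal.{u}} (h : LimCl a) (hx : x < a) (hy : y < a) :
    ∃ z < a, x < z ∧ y < z ∧ Gcl z := by
  obtain ⟨z, h₁, h₂, h₃⟩ := h _ (max_lt hx hy)
  exact ⟨z, h₁, (le_max_left _ _).trans_lt h₂, (le_max_right _ _).trans_lt h₂, h₃⟩

theorem LimCl.gcl {a : Ordinal.{u}} (h : LimCl a) (h0 : 0 < a) : Gcl a := by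
  obtain ⟨y, h₁, -, h₂⟩ := h 0 h0
  refine ⟨h₂.1.trans h₁, fun x hx y hy => ?_⟩
  obtain ⟨z, h₁, h₂, h₃, h₄⟩ := h.two hx hy
  exact (h₄.G h₂ h₃).trans h₁

theorem exists_gcl₂ (a b : Ordinal.{u}) : ∃ y, a < y ∧ b < y ∧ Gcl y := by
  obtain ⟨y, h₁, h₂⟩ := exists_gcl (max a b)
  exact ⟨y, (le_max_left _ _).trans_lt h₁, (le_max_right _ _).trans_lt h₁, h₂⟩

/-- The collapsing function of a class of ordinals. -/
noncomputable def col (T : Ordinal.{u} → Prop) (y : Ordinal.{u}) : Ordinal.{u} :=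
  ⨆ z : {z : Iio y // T z}, col T z.1 + 1
termination_by y
decreasing_by exact z.1.2

theorem lt_col {T : Ordinal.{u} → Prop} {x y : Ordinal.{u}} :
    x < col T y ↔ ∃ z < y, T z ∧ x ≤ col T z := by
  rw [col, Ordinal.lt_iSup_iff]
  simp only [lt_add_one_iff]
  exact ⟨fun ⟨z, h⟩ => ⟨z.1, z.1.2, z.2, h⟩, fun ⟨z, h₁, h₂, h⟩ => ⟨⟨⟨z, h₁⟩, h₂⟩, h⟩⟩

section Col

variable {T : Ordinal.{u} → Prop} {x y : Ordinal.{u}}

theorem col_lt (hx : T x) (h : x < y) : col T x < col T y := lt_col.2 ⟨x, h, hx, le_rfl⟩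

theorem col_mono (h : x ≤ y) : col T x ≤ col T y :=
  le_of_forall_lt fun _ hz => by
    obtain ⟨z, h₁, h₂⟩ := lt_col.1 hz
    exact lt_col.2 ⟨z, h₁.trans_le h, h₂⟩

theorem col_lt_iff (hx : T x) : col T x < col T y ↔ x < y :=
  ⟨fun h => not_le.1 fun h' => h.not_ge (col_mono h'), col_lt hx⟩

theorem col_inj (hx : T x) (hy : T y) (h : col T x = col T y) : x = y := by
  rcases lt_trichotomy x y with h' | h' | h'
  exacts [absurd h (col_lt hx h').ne, h', absurd h (col_lt hy h').ne']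

theorem col_le (T : Ordinal.{u} → Prop) (y : Ordinal.{u}) : col T y ≤ y := by
  induction y using WellFoundedLT.induction with
  | ind y ih =>
    refine le_of_forall_lt fun x hx => ?_
    obtain ⟨z, h₁, -, h₂⟩ := lt_col.1 hx
    exact (h₂.trans (ih z h₁)).trans_lt h₁

theorem col_surj (h : x < col T y) : ∃ z < y, T z ∧ col T z = x := by
  induction y using WellFoundedLT.induction with
  | ind y ih =>
    obtain ⟨z, h₁, h₂, h₃⟩ := lt_col.1 h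
    rcases h₃.lt_or_eq with h₃ | h₃
    · obtain ⟨w, h₄, h₅⟩ := ih z h₁ h₃
      exact ⟨w, h₄.trans h₁, h₅⟩
    · exact ⟨z, h₁, h₂, h₃.symm⟩

theorem col_eq_self (h : ∀ z < y, T z) : col T y = y := by
  induction y using WellFoundedLT.induction with
  | ind y ih =>
    exact (col_le T y).antisymm (le_of_forall_lt fun x hx =>
      lt_col.2 ⟨x, hx, h x hx, (ih x hx fun z hz => h z (hz.trans hx)).ge⟩)

end Col

/-- Types coded by ordinals. -/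
class OC {I : Type} {V : Type v} (𝒜 : FO.{u, v} I V) (β : Type w) [Cd 𝒜 β] where
  enc : β → Ordinal.{u}
  dec : Ordinal.{u} → β
  dec_enc : ∀ b, dec (enc b) = b
  tm_enc : 𝒜.Tm enc
  tm_dec : 𝒜.Tm dec

namespace FO

open Cd

variable {I : Type} {V : Type v} {𝒜 : FO.{u, v} I V}
variable {Γ : Type*} {α : Type*} {β : Type*} [Cd 𝒜 Γ] [Cd 𝒜 α] [Cd 𝒜 β]

@[fun_prop] theorem tm_Lim {f : Γ → Ordinal.{u}} (hf : 𝒜.Tm f) : 𝒜.Tm (fun z => Lim (f z)) := by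
  unfold Lim; fun_prop

@[fun_prop] theorem tm_LimCl [HasG 𝒜] {f : Γ → Ordinal.{u}} (hf : 𝒜.Tm f) :
    𝒜.Tm (fun z => LimCl (f z)) := by
  unfold LimCl; fun_prop

@[fun_prop] theorem tm_toN {f : Γ → Ordinal.{u}} (hf : 𝒜.Tm f) : 𝒜.Tm (fun z => toN (f z)) :=
  tm_of_rel (Q := fun z n => f z = (n : ℕ) ∨ (n = 0 ∧ ∀ k : ℕ, f z ≠ k)) (by fun_prop)
    fun z n => by
      by_cases h : ∃ k : ℕ, f z = k
      · obtain ⟨k, h⟩ := h
        simp only [h, toN_cast, Nat.cast_inj, eq_comm]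
        exact or_iff_left fun h => h.2 k rfl
      · rw [toN, dif_neg h]
        exact ⟨fun h' => h'.elim (fun e => absurd ⟨n, e⟩ h) And.left,
          fun e => Or.inr ⟨e, fun k e => h ⟨k, e⟩⟩⟩

instance : OC 𝒜 Ordinal.{u} := ⟨id, id, fun _ => rfl, Tm.id, Tm.id⟩

noncomputable instance : OC 𝒜 ℕ := ⟨Nat.cast, toN, toN_cast, natCast_tm, tm_toN Tm.id⟩

variable [HasSep 𝒜]

@[fun_prop] theorem tm_col {T : Γ → Ordinal.{u} → Prop} {f : Γ → Ordinal.{u}}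
    (hT : 𝒜.Tm (fun z : Γ × Ordinal.{u} => T z.1 z.2)) (hf : 𝒜.Tm f) :
    𝒜.Tm (fun z => col (T z) (f z)) := by
  have := tm_frec (𝒜 := 𝒜) (fun g y => col (T g) y)
    (fun g k y => mu (fun c => ∀ z < y, T g z → k z < c))
    (fun g y k hk => mu_eq (fun z hz h => hk z hz ▸ col_lt h hz) fun c hc h => by
      obtain ⟨z, h₁, h₂, h₃⟩ := lt_col.1 hc
      exact (hk z h₁ ▸ h z h₁ h₂).not_ge h₃) (fun k hk => by fun_prop)
  exact this.comp (Tm.id.pair hf)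

theorem df_isL : 𝒜.Df (fun c : Ordinal.{u} => ∃ l, encL l = c) := by
  have := tm_grec (𝒜 := 𝒜) (Γ := Ordinal.{u}) (A := Ordinal.{u}) id id Tm.id Tm.id
    (fun _ _ h _ => h) (fun _ c => ∃ l, encL l = c)
    (fun _ R c => c = 0 ∨ ∃ a b, c = G a b + 1 ∧ R b) (fun _ a x => x < a) (by fun_prop)
    (fun _ c => by
      constructor
      · rintro ⟨_ | ⟨a, l⟩, rfl⟩
        exacts [Or.inl rfl, Or.inr ⟨a, _, rfl, encL_lt_cons a l, l, rfl⟩]
      · rintro (rfl | ⟨a, _, rfl, -, l, rfl⟩)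
        exacts [⟨[], rfl⟩, ⟨a :: l, rfl⟩])
    (fun R hR => by fun_prop) (fun _ _ _ h => h)
    (fun _ _ a => ⟨a + 1, lt_add_one a, fun _ _ h _ h' => h'.trans h⟩)
  exact (this.comp (Tm.id.pair Tm.id)).df

noncomputable instance : Cd 𝒜 OL.{u} := cdOfEnc encL encL_inj df_isL

instance : Pure 𝒜 OL.{u} := ⟨fun _ _ => trivial⟩

@[fun_prop] theorem tm_encL {l : Γ → OL.{u}} (hl : 𝒜.Tm l) : 𝒜.Tm (fun z => encL (l z)) := by
  have : 𝒜.Tm encL.{u} := Tm.mk' (fun _ _ _ => trivial) 𝒜.eq fun i x y _ _ => by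
    constructor
    · rintro ⟨z, e⟩
      obtain ⟨e₁, e₂⟩ := pr_iff.1 e
      exact 𝒜.o_inj (e₂.trans e₁.symm)
    · rintro rfl
      exact ⟨_, rfl⟩
  exact this.comp hl

instance : Par 𝒜 ([] : OL.{u}) :=
  ⟨tm_of_rel (Q := fun _ l => encL l = 0) (by fun_prop) fun _ l => encL_inj.eq_iff (b := [])⟩

@[fun_prop] theorem tm_cons {f : Γ → Ordinal.{u}} {l : Γ → OL.{u}} (hf : 𝒜.Tm f) (hl : 𝒜.Tm l) :
    𝒜.Tm (fun z => f z :: l z) :=
  tm_of_rel (Q := fun z y => encL y = G (f z) (encL (l z)) + 1) (by fun_prop)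
    fun z _ => encL_inj.eq_iff (b := f z :: l z)

@[fun_prop] theorem tm_decL {f : Γ → Ordinal.{u}} (hf : 𝒜.Tm f) : 𝒜.Tm (fun z => decL (f z)) :=
  tm_of_rel (Q := fun z l => encL l = f z ∨ (l = [] ∧ ∀ k : OL.{u}, encL k ≠ f z)) (by fun_prop)
    fun z l => by
      by_cases h : ∃ k, encL k = f z
      · obtain ⟨k, h⟩ := h
        simp only [← h, decL_encL, encL_inj.eq_iff]
        exact or_iff_left fun h => h.2 k rfl
      · rw [decL, dif_neg h]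
        exact ⟨fun h' => h'.elim (fun e => absurd ⟨l, e⟩ h) And.left,
          fun e => Or.inr ⟨e, fun k e => h ⟨k, e⟩⟩⟩

noncomputable instance : OC 𝒜 OL.{u} := ⟨encL, decL, decL_encL, tm_encL Tm.id, tm_decL Tm.id⟩

@[fun_prop] theorem tm_headD {l : Γ → OL.{u}} (hl : 𝒜.Tm l) : 𝒜.Tm (fun z => (l z).headD 0) :=
  tm_of_rel (Q := fun z y => (∃ t, l z = y :: t) ∨ (l z = [] ∧ y = 0)) (by fun_prop)
    fun z y => by cases l z <;> simp [eq_comm]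

@[fun_prop] theorem tm_tail {l : Γ → OL.{u}} (hl : 𝒜.Tm l) : 𝒜.Tm (fun z => (l z).tail) :=
  tm_of_rel (Q := fun z t => (∃ y, l z = y :: t) ∨ (l z = [] ∧ t = [])) (by fun_prop)
    fun z y => by cases l z <;> simp [eq_comm]

theorem tm_listRec [Pure 𝒜 β] [OC 𝒜 β] (f : Γ → OL.{u} → β) (i : Γ → β)
    (st : Γ → Ordinal.{u} → OL.{u} → β → β) (h₀ : ∀ g, f g [] = i g)
    (h₁ : ∀ g x l, f g (x :: l) = st g x l (f g l)) (hi : 𝒜.Tm i)
    (hs : 𝒜.Tm (fun z : Γ × Ordinal.{u} × OL.{u} × β => st z.1 z.2.1 z.2.2.1 z.2.2.2)) :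
    𝒜.Tm (fun z : Γ × OL.{u} => f z.1 z.2) := by
  classical
  have he := OC.tm_enc (𝒜 := 𝒜) (β := β)
  have hd := OC.tm_dec (𝒜 := 𝒜) (β := β)
  have := tm_frec (𝒜 := 𝒜) (fun g c => OC.enc 𝒜 (f g (decL c)))
    (fun g k c => if decL c = [] then OC.enc 𝒜 (i g) else OC.enc 𝒜 (st g ((decL c).headD 0)
      (decL c).tail (OC.dec 𝒜 (k (encL (decL c).tail)))))
    (fun g c k hk => by
      by_cases h : ∃ l, encL l = c
      · obtain ⟨_ | ⟨x, l⟩, rfl⟩ := h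
        · simp [h₀]
        · simp [h₁, hk _ (encL_lt_cons x l), OC.dec_enc]
      · simp [decL, h, h₀]) (fun k hk => by fun_prop)
  exact (hd.comp (this.comp (f := fun z : Γ × OL.{u} => (z.1, encL z.2)) (by fun_prop))).congr
    fun z => by simp [OC.dec_enc]

@[fun_prop] theorem tm_length {l : Γ → OL.{u}} (hl : 𝒜.Tm l) : 𝒜.Tm (fun z => (l z).length) :=
  (tm_listRec (𝒜 := 𝒜) (Γ := ℕ) (fun _ l => l.length) (fun _ => 0) (fun _ _ _ n => n + 1)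
    (fun _ => rfl) (fun _ _ _ => rfl) (by fun_prop) (by fun_prop)).comp
    (f := fun z => (0, l z)) (by fun_prop)

@[fun_prop] theorem tm_append {l k : Γ → OL.{u}} (hl : 𝒜.Tm l) (hk : 𝒜.Tm k) :
    𝒜.Tm (fun z => l z ++ k z) :=
  (tm_listRec (𝒜 := 𝒜) (fun k l : OL.{u} => l ++ k) id (fun _ x _ r => x :: r)
    (fun _ => rfl) (fun _ _ _ => rfl) Tm.id (by fun_prop)).comp (hk.pair hl)

@[fun_prop] theorem tm_lmem {f : Γ → Ordinal.{u}} {l : Γ → OL.{u}} (hf : 𝒜.Tm f) (hl : 𝒜.Tm l) :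
    𝒜.Tm (fun z => f z ∈ l z) :=
  Tm.congrP (Q := fun z => ∃ s t, l z = s ++ f z :: t) (by fun_prop) fun _ =>
    List.mem_iff_append.symm

@[fun_prop] theorem tm_suffix {l k : Γ → OL.{u}} (hl : 𝒜.Tm l) (hk : 𝒜.Tm k) :
    𝒜.Tm (fun z => l z <:+ k z) := by
  unfold List.IsSuffix; fun_prop

@[fun_prop] theorem tm_getD {l : Γ → OL.{u}} {n : Γ → ℕ} {d : Γ → Ordinal.{u}} (hl : 𝒜.Tm l)
    (hn : 𝒜.Tm n) (hd : 𝒜.Tm d) : 𝒜.Tm (fun z => (l z).getD (n z) (d z)) :=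
  tm_of_rel (Q := fun z y => (∃ s t, l z = s ++ y :: t ∧ s.length = n z) ∨
    ((l z).length ≤ n z ∧ y = d z)) (by fun_prop) fun z y => by
      constructor
      · rintro (⟨s, t, h, h'⟩ | ⟨h, rfl⟩)
        · simp [h, ← h']
        · simp [h]
      · rintro rfl
        rcases lt_or_ge (n z) (l z).length with h | h
        · refine Or.inl ⟨(l z).take (n z), (l z).drop (n z + 1), ?_, by simp [h.le]⟩
          simp [h]
        · exact Or.inr ⟨h, by simp [h]⟩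

@[fun_prop] theorem tm_replicate {n : Γ → ℕ} (hn : 𝒜.Tm n) :
    𝒜.Tm (fun z => List.replicate (n z) (0 : Ordinal.{u})) :=
  tm_of_rel (Q := fun z l => l.length = n z ∧ ∀ x, x ∈ l → x = 0) (by fun_prop)
    fun _ _ => List.eq_replicate_iff.symm

theorem tm_natRec [Pure 𝒜 β] [OC 𝒜 β] (f : Γ → ℕ → β) (i : Γ → β) (st : Γ → ℕ → β → β)
    (h₀ : ∀ g, f g 0 = i g) (h₁ : ∀ g n, f g (n + 1) = st g n (f g n)) (hi : 𝒜.Tm i)
    (hs : 𝒜.Tm (fun z : Γ × ℕ × β => st z.1 z.2.1 z.2.2)) :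
    𝒜.Tm (fun z : Γ × ℕ => f z.1 z.2) :=
  ((tm_listRec (𝒜 := 𝒜) (fun g (l : OL.{u}) => f g l.length) i (fun g _ l b => st g l.length b)
    h₀ (fun g _ l => h₁ g l.length) hi (by fun_prop)).comp
    (f := fun z : Γ × ℕ => (z.1, List.replicate z.2 0)) (by fun_prop)).congr fun _ => by simp

/-- Strictly decreasing lists. -/
def Dec (l : OL.{u}) : Prop := l.Pairwise (· > ·)

@[fun_prop] theorem tm_Dec {l : Γ → OL.{u}} (hl : 𝒜.Tm l) : 𝒜.Tm (fun z => Dec (l z)) :=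
  Tm.congrP (Q := fun z => ∀ x t, x :: t <:+ l z → ∀ y, y ∈ t → y < x) (by fun_prop) fun z => by
    rw [Dec, List.pairwise_iff_forall_sublist]
    constructor
    · intro h a b hab
      obtain ⟨s, t, e, h₁, h₂⟩ := List.cons_sublist_iff.1 hab
      obtain ⟨p, q, rfl⟩ := List.append_of_mem h₁
      exact h a (q ++ t) ⟨p, by simp [e]⟩ b (by simp [List.singleton_sublist.1 h₂])
    · intro h x t ht y hy
      exact h ((List.cons_sublist_cons.2 (List.singleton_sublist.2 hy)).trans ht.sublist)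

end FO

end Pool.Agent.MP_9a6faa_lc

end

section

namespace Pool.Agent.MP_9a6faa_lc

open Set Order

universe u v w

/-- An ordinal together with a largeness predicate. -/
structure Mach where
  κ : Ordinal.{u}
  Q : (Ordinal.{u} → Prop) → Prop
  loc : ∀ X Y : Ordinal.{u} → Prop, (∀ y < κ, X y → Y y) → Q X → Q Y

theorem Mach.congr (m : Mach.{u}) {X Y : Ordinal.{u} → Prop} (h : ∀ y < m.κ, X y ↔ Y y) :
    m.Q X ↔ m.Q Y :=
  ⟨m.loc _ _ fun y hy => (h y hy).1, m.loc _ _ fun y hy => (h y hy).2⟩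

def step (m : Mach.{u}) (R : Ordinal.{u} → Ordinal.{u} → Prop) (d x : Ordinal.{u}) : Prop :=
  x < d ∧ ((fst d = 1 ∧ ¬ (R (fst (snd d)) x ∧ R (snd (snd d)) x)) ∨
    (fst d = 2 ∧ G (fst (snd d)) x < d ∧ ∃ y, R (fst (snd d)) (G x y)) ∨
    (fst d = 3 ∧ m.Q (fun y => R (fst (snd d)) (G x y))) ∨
    (fst d = 4 ∧ R (fst (snd d)) (fst x)) ∨
    (fst d = 5 ∧ R (fst (snd d)) (G (snd x) (fst x))) ∨
    (fst d = 6 ∧ R (fst (snd d)) (G (fst (fst x)) (snd x))) ∨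
    (fst d = 7 ∧ R (fst (snd d)) (G (snd (fst x)) (snd x))) ∨
    (fst d = 8 ∧ x < snd (snd d) ∧ R (fst (snd d)) x) ∨
    (fst d = 9 ∧ fst x < snd x) ∨ (fst d = 10 ∧ R (fst x) (snd x)))

theorem step_congr {m : Mach.{u}} {R R' : Ordinal.{u} → Ordinal.{u} → Prop} {d x : Ordinal.{u}}
    (h : ∀ a < d, ∀ y, R a y ↔ R' a y) : step m R d x ↔ step m R' d x := by
  refine and_congr_right fun hx => ?_
  rcases eq_zero_or_pos (fst d) with h0 | h0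
  · simp [h0, eq_comm (a := (0 : Ordinal.{u}))]
  · have e : ∀ a < d, R a = R' a := fun a ha => funext fun y => propext (h a ha y)
    rw [e _ ((fst_le _).trans_lt (snd_lt h0)), e _ ((snd_le _).trans_lt (snd_lt h0)),
      e _ ((fst_le _).trans_lt hx)]

/-- The constructible hierarchy relative to `m.Q`, coded on the ordinals. -/
noncomputable def P (m : Mach.{u}) : Ordinal.{u} → Ordinal.{u} → Prop := orec id (step m)

theorem P_iff {m : Mach.{u}} {d x : Ordinal.{u}} : P m d x ↔ step m (P m) d x :=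
  (orec_iff _ _ _ _).trans (step_congr fun _ ha _ => and_iff_right ha)

theorem P_lt {m : Mach.{u}} {d x : Ordinal.{u}} (h : P m d x) : x < d := (P_iff.1 h).1

theorem P_unique {m : Mach.{u}} {R : Ordinal.{u} → Ordinal.{u} → Prop}
    (h : ∀ d x, R d x ↔ step m R d x) (d x : Ordinal.{u}) : R d x ↔ P m d x := by
  induction d using WellFoundedLT.induction generalizing x with
  | ind d ih => exact (h d x).trans ((step_congr ih).trans P_iff.symm)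

noncomputable def wit (m : Mach.{u}) (c : Ordinal.{u}) : Ordinal.{u} :=
  mu (fun y => P m (fst c) (G (snd c) y))

noncomputable def ap (m : Mach.{u}) (c i : Ordinal.{u}) : Ordinal.{u} :=
  mu (fun y => P m c (G i y))

theorem wit_G (m : Mach.{u}) (c i : Ordinal.{u}) : wit m (G c i) = ap m c i := by
  simp [wit, ap]

/-- The machines of the worlds have definable largeness predicates. -/
class HasQ {I : Type} {V : Type v} (𝒜 : FO.{u, v} I V) [Cd 𝒜 Mach.{u}] : Prop where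
  κ : 𝒜.Tm Mach.κ.{u}
  Q : ∀ R, 𝒜.Am R → 𝒜.Am (fun i z => ∃ (m : Mach.{u}) (x : V), Cd.cons 𝒜 m i ∧
    z = 𝒜.pr (Cd.ι 𝒜 m) x ∧ m.Q (fun y => R i (𝒜.pr x (𝒜.o y))))

/-- A machine with definable largeness predicate. -/
class DQ {I : Type} {V : Type v} (𝒜 : FO.{u, v} I V) (m : I → Mach.{u}) : Prop where
  κ : 𝒜.Am (fun i x => x = 𝒜.o (m i).κ)
  Q : ∀ R, 𝒜.Am R → 𝒜.Am (fun i x => (m i).Q (fun y => R i (𝒜.pr x (𝒜.o y))))

namespace FO

open Cd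

variable {I : Type} {V : Type v} {𝒜 : FO.{u, v} I V}
variable {Γ : Type*} [Cd 𝒜 Γ]

section Q

variable [Cd 𝒜 Mach.{u}] [HasQ 𝒜] {m : Γ → Mach.{u}}

@[fun_prop] theorem tm_κ (hm : 𝒜.Tm m) : 𝒜.Tm (fun z => (m z).κ) := HasQ.κ.comp hm

@[fun_prop] theorem tm_Q {R : Γ → Ordinal.{u} → Prop} (hm : 𝒜.Tm m)
    (hR : 𝒜.Tm (fun z : Γ × Ordinal.{u} => R z.1 z.2)) :
    𝒜.Tm (fun z => (m z).Q (fun y => R z y)) := by
  have : 𝒜.Df (fun z : Mach.{u} × Γ => z.1.Q (R z.2)) := by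
    refine Df.mk' (HasQ.Q _ hR.df) fun i z hz => ?_
    have e : (fun y => ∃ a : Γ × Ordinal.{u}, cons 𝒜 a i ∧ ι 𝒜 a = 𝒜.pr (ι 𝒜 z.2) (𝒜.o y) ∧
        R a.1 a.2) = R z.2 := funext fun y => propext
      (ev_iff (x := (z.2, y)) (Q := fun z : Γ × Ordinal.{u} => R z.1 z.2) ⟨hz.2, trivial⟩)
    constructor
    · rintro ⟨m', x, hm', e', h⟩
      obtain ⟨e₁, rfl⟩ := pr_iff.1 e'
      rw [inj hz.1 hm' e₁, ← e]
      exact h
    · exact fun h => ⟨z.1, _, hz.1, rfl, e ▸ h⟩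
  exact this.tm.comp (hm.pair Tm.id)

theorem tm_step [HasG 𝒜] {R : Γ → Ordinal.{u} → Ordinal.{u} → Prop} {d x : Γ → Ordinal.{u}}
    (hm : 𝒜.Tm m) (hR : 𝒜.Tm (fun z : Γ × Ordinal.{u} × Ordinal.{u} => R z.1 z.2.1 z.2.2))
    (hd : 𝒜.Tm d) (hx : 𝒜.Tm x) : 𝒜.Tm (fun z => step (m z) (R z) (d z) (x z)) := by
  unfold step; fun_prop

variable [HasSep 𝒜]

@[fun_prop] theorem tm_P {d x : Γ → Ordinal.{u}} (hm : 𝒜.Tm m) (hd : 𝒜.Tm d) (hx : 𝒜.Tm x) :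
    𝒜.Tm (fun z => P (m z) (d z) (x z)) := by
  have := tm_grec (𝒜 := 𝒜) (A := Ordinal.{u} × Ordinal.{u}) Prod.fst Prod.snd (by fun_prop)
    (by fun_prop) (fun _ _ => Prod.ext) (fun (m : Mach.{u}) z => P m z.1 z.2)
    (fun m R z => step m (fun a y => R (a, y)) z.1 z.2) (fun _ z w => w.1 < z.1 ∧ w.2 < w.1)
    (by fun_prop) (fun _ _ => P_iff.trans (step_congr fun _ ha _ =>
      ⟨fun h => ⟨⟨ha, P_lt h⟩, h⟩, And.right⟩))
    (fun R hR => tm_step (by fun_prop) (by fun_prop) (by fun_prop) (by fun_prop))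
    (fun _ _ _ h => h.1) (fun _ c a => ⟨max c (a.2 + 1), lt_max_of_lt_right (lt_add_one _),
      fun _ h₁ _ _ h => lt_max_of_lt_left (h.2.trans (h.1.trans h₁))⟩)
  exact this.comp (hm.pair (hd.pair hx))

@[fun_prop] theorem tm_wit {c : Γ → Ordinal.{u}} (hm : 𝒜.Tm m) (hc : 𝒜.Tm c) :
    𝒜.Tm (fun z => wit (m z) (c z)) := by
  unfold wit; fun_prop

@[fun_prop] theorem tm_ap {c i : Γ → Ordinal.{u}} (hm : 𝒜.Tm m) (hc : 𝒜.Tm c) (hi : 𝒜.Tm i) :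
    𝒜.Tm (fun z => ap (m z) (c z) (i z)) := by
  unfold ap; fun_prop

end Q

theorem am_o (c : Ordinal.{u}) [h : Par 𝒜 c] : 𝒜.Am (fun _ x => x = 𝒜.o c) :=
  Am.congr (Df.eq Tm.id (Tm.const c)) fun _ _ =>
    ⟨fun ⟨_, _, e, h⟩ => by rw [← e, h]; rfl, fun e => ⟨c, trivial, e.symm, rfl⟩⟩

/-- One machine in every world. -/
@[reducible] noncomputable def cdW (𝒜 : FO.{u, v} I V) (m : I → Mach.{u}) : Cd 𝒜 Mach.{u} where
  ι := fun _ => 𝒜.o 0
  cons := fun a i => a = m i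
  inj := fun ha hb _ => ha.trans hb.symm
  rng := Am.congr (am_o 0) fun i _ => ⟨fun e => ⟨m i, rfl, e.symm⟩, fun ⟨_, _, e⟩ => e.symm⟩

theorem hasQ_cdW (m : I → Mach.{u}) [h : DQ 𝒜 m] : @HasQ I V 𝒜 (cdW 𝒜 m) := by
  let _ := cdW 𝒜 m
  refine ⟨Tm.mk' (fun _ _ _ => trivial) (sndR h.κ) fun i x y hx _ => ?_, fun R hR =>
    Am.congr (Am.and (𝒜.fstR (am_o 0)) (sndR (h.Q R hR))) fun i z => ?_⟩
  · obtain rfl : x = m i := hx
    exact ⟨fun ⟨_, _, e, e'⟩ => 𝒜.o_inj ((pr_iff.1 e).2.trans e'),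
      fun e => ⟨_, _, rfl, congrArg 𝒜.o e⟩⟩
  · constructor
    · rintro ⟨⟨_, x, rfl, rfl⟩, _, _, e, h⟩
      exact ⟨m i, x, rfl, rfl, (pr_iff.1 e).2 ▸ h⟩
    · rintro ⟨_, x, rfl, rfl, h⟩
      exact ⟨⟨_, _, rfl, rfl⟩, _, _, rfl, h⟩

theorem par_cdW (m : Mach.{u}) : @Par I V 𝒜 _ (cdW 𝒜 fun _ => m) m := by
  let _ := cdW 𝒜 fun _ => m
  exact ⟨Tm.mk' (fun _ _ _ => rfl) (𝒜.fstR (Cd.rng (α := Ordinal.{u}))) fun i x y _ hy =>
    ⟨fun _ => hy, fun _ => ⟨_, _, rfl, x, trivial, rfl⟩⟩⟩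

open Classical in
/-- Two machines. -/
@[reducible] noncomputable def cdM (𝒜 : FO.{u, v} I V) (m m' : Mach.{u}) : Cd 𝒜 Mach.{u} where
  ι := fun a => if a = m then 𝒜.o 0 else 𝒜.o 1
  cons := fun a _ => a = m ∨ a = m'
  inj := by
    rintro a b - (rfl | rfl) (rfl | rfl) e
    · rfl
    · by_contra h
      simp [Ne.symm h, 𝒜.o_inj.eq_iff] at e
    · by_contra h
      simp [h, 𝒜.o_inj.eq_iff] at e
    · rfl
  rng := by
    by_cases h : m' = m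
    · exact Am.congr (am_o 0) fun i _ => by simp [h, eq_comm]
    · exact Am.congr (𝒜.nand (am_o 0).not (am_o 1).not) fun i _ => by
        simp only [exists_eq_or_imp, exists_eq_left, if_true, if_neg h]
        tauto

theorem par_cdM (m m' a : Mach.{u}) (ha : a = m ∨ a = m') : @Par I V 𝒜 _ (cdM 𝒜 m m') a := by
  let _ := cdM 𝒜 m m'
  obtain ⟨c, hc, e⟩ : ∃ c, 𝒜.Am (fun _ x => x = 𝒜.o c) ∧ ι 𝒜 a = 𝒜.o c := by
    by_cases h : a = m
    exacts [⟨0, am_o 0, if_pos h⟩, ⟨1, am_o 1, if_neg h⟩]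
  exact ⟨Tm.mk' (fun _ _ _ => ha) (sndR hc) fun i x y _ hy =>
    ⟨fun ⟨_, _, e₁, e₂⟩ => inj hy ha ((pr_iff.1 e₁).2.trans (e₂.trans e.symm)),
      fun h => ⟨_, _, rfl, h ▸ e⟩⟩⟩

theorem hasQ_cdM (m m' : Mach.{u}) [h : DQ 𝒜 fun _ => m] [h' : DQ 𝒜 fun _ => m'] :
    @HasQ I V 𝒜 (cdM 𝒜 m m') := by
  let _ := cdM 𝒜 m m'
  have := par_cdM (𝒜 := 𝒜) m m' m (Or.inl rfl)
  have := par_cdM (𝒜 := 𝒜) m m' m' (Or.inr rfl)
  have or : ∀ {R S}, 𝒜.Am R → 𝒜.Am S → 𝒜.Am (fun i x => R i x ∨ S i x) := fun hR hS =>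
    Am.congr (𝒜.nand hR.not hS.not) fun _ _ => by tauto
  have c : ∀ (a : Mach.{u}) [Par 𝒜 a], 𝒜.Am (fun _ x => x = ι 𝒜 a) := fun a _ =>
    Am.congr (Df.eq Tm.id (Tm.const a)) fun i _ =>
      ⟨fun ⟨_, _, e, h⟩ => by rw [← e, h], fun e => ⟨a, (Tm.const (Γ := ℕ) a).1 0 i trivial,
        e.symm, rfl⟩⟩
  refine ⟨Tm.mk' (fun _ _ _ => trivial) (or (Am.and (𝒜.fstR (c m)) (sndR h.κ))
    (Am.and (𝒜.fstR (c m')) (sndR h'.κ))) fun i x y hx _ => ⟨?_, ?_⟩, fun R hR =>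
    Am.congr (or (Am.and (𝒜.fstR (c m)) (sndR (h.Q R hR)))
      (Am.and (𝒜.fstR (c m')) (sndR (h'.Q R hR)))) fun i z => ⟨?_, ?_⟩⟩
  · rintro (⟨⟨_, _, e, rfl⟩, _, _, e', rfl⟩ | ⟨⟨_, _, e, rfl⟩, _, _, e', rfl⟩)
    · rw [inj hx (Or.inl rfl) (pr_iff.1 e).1]
      exact 𝒜.o_inj (pr_iff.1 e').2
    · rw [inj hx (Or.inr rfl) (pr_iff.1 e).1]
      exact 𝒜.o_inj (pr_iff.1 e').2
  · rintro rfl
    rcases hx with rfl | rfl
    exacts [Or.inl ⟨⟨_, _, rfl, rfl⟩, _, _, rfl, rfl⟩, Or.inr ⟨⟨_, _, rfl, rfl⟩, _, _, rfl, rfl⟩]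
  · rintro (⟨⟨_, x, rfl, rfl⟩, _, _, e, h⟩ | ⟨⟨_, x, rfl, rfl⟩, _, _, e, h⟩)
    exacts [⟨m, x, Or.inl rfl, rfl, (pr_iff.1 e).2 ▸ h⟩,
      ⟨m', x, Or.inr rfl, rfl, (pr_iff.1 e).2 ▸ h⟩]
  · rintro ⟨_, x, rfl | rfl, rfl, h⟩
    exacts [Or.inl ⟨⟨_, _, rfl, rfl⟩, _, _, rfl, h⟩, Or.inr ⟨⟨_, _, rfl, rfl⟩, _, _, rfl, h⟩]

theorem Am.param [Full 𝒜] {R : I → V → Prop} (h : 𝒜.Am R) (c : V) :
    𝒜.Am (fun i x => R i (𝒜.pr c x)) :=
  Am.congr (𝒜.ex (Am.and (𝒜.swR h) (sndR (Full.const c)))) fun i x => by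
    constructor
    · rintro ⟨y, ⟨a, b, e, h⟩, _, _, e', rfl⟩
      obtain ⟨rfl, rfl⟩ := pr_iff.1 e
      exact (pr_iff.1 e').2 ▸ h
    · exact fun h => ⟨c, ⟨_, _, rfl, h⟩, _, _, rfl, rfl⟩

end FO

/-- Closure conditions for families of relations on the ordinals. -/
structure OrdCl {I : Type} (Am : (I → Ordinal.{u} → Prop) → Prop) : Prop where
  nand : ∀ {R S}, Am R → Am S → Am (fun i x => ¬ (R i x ∧ S i x))
  ex : ∀ {R}, Am R → Am (fun i x => ∃ y, R i (G x y))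
  c4 : ∀ {R}, Am R → Am (fun i x => R i (fst x))
  c5 : ∀ {R}, Am R → Am (fun i x => R i (G (snd x) (fst x)))
  c6 : ∀ {R}, Am R → Am (fun i x => R i (G (fst (fst x)) (snd x)))
  c7 : ∀ {R}, Am R → Am (fun i x => R i (G (snd (fst x)) (snd x)))
  lt : Am (fun _ x => fst x < snd x)

theorem am_congr {I : Type} {Am : (I → Ordinal.{u} → Prop) → Prop} {R S : I → Ordinal.{u} → Prop}
    (h : Am R) (e : ∀ i x, R i x ↔ S i x) : Am S :=
  (funext fun i => funext fun x => propext (e i x) : R = S) ▸ h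

noncomputable def OrdCl.fo {I : Type} {Am : (I → Ordinal.{u} → Prop) → Prop} (h : OrdCl Am) :
    FO.{u, u + 1} I Ordinal.{u} where
  pr := G
  pr_inj := G_inj.1
  o := id
  o_inj := fun _ _ h => h
  Am := Am
  nand := h.nand
  ex := h.ex
  fstR := fun hR => am_congr (h.c4 hR) fun _ z =>
    ⟨fun h => ⟨_, _, (G_fst_snd z).symm, h⟩, fun ⟨_, _, e, h⟩ => by simpa [e] using h⟩
  swR := fun hR => am_congr (h.c5 hR) fun _ z =>
    ⟨fun h => ⟨_, _, (G_fst_snd z).symm, h⟩, fun ⟨_, _, e, h⟩ => by simpa [e] using h⟩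
  aR := fun hR => am_congr (h.c6 hR) fun _ z =>
    ⟨fun h => ⟨_, snd (fst z), _, by simp, h⟩, fun ⟨_, _, _, e, h⟩ => by simpa [e] using h⟩
  bR := fun hR => am_congr (h.c7 hR) fun _ z =>
    ⟨fun h => ⟨fst (fst z), _, _, by simp, h⟩, fun ⟨_, _, _, e, h⟩ => by simpa [e] using h⟩
  eq := by
    have h₁ := h.nand (h.nand h.lt h.lt) (h.nand (h.c5 h.lt) (h.c5 h.lt))
    refine am_congr (h.nand h₁ h₁) fun _ z => ?_
    simp only [and_self, not_not, fst_G, snd_G, not_lt]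
    exact ⟨fun h => ⟨fst z, by nth_rw 2 [le_antisymm h.2 h.1]; simp⟩,
      fun ⟨x, e⟩ => by simp [e]⟩
  lt := am_congr h.lt fun _ z =>
    ⟨fun h => ⟨_, _, (G_fst_snd z).symm, h⟩, fun ⟨_, _, e, h⟩ => by simpa [e] using h⟩

instance {I : Type} {Am : (I → Ordinal.{u} → Prop) → Prop} (h : OrdCl Am) : HasG h.fo :=
  ⟨FO.Tm.mk' (fun _ _ _ => trivial) h.fo.eq fun _ _ _ _ _ =>
    ⟨fun ⟨_, e⟩ => (G_inj.1 e).2.trans (G_inj.1 e).1.symm, fun e => ⟨_, congrArg (G _) e⟩⟩⟩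

theorem OrdCl.tm_iff {I : Type} {Am : (I → Ordinal.{u} → Prop) → Prop} (h : OrdCl Am)
    {R : Ordinal.{u} → Prop} : h.fo.Tm R ↔ Am (fun _ => R) :=
  ⟨fun hR => am_congr (Am := Am) hR.df fun _ x =>
    ⟨fun ⟨_, _, e, h⟩ => (show _ = x from e) ▸ h, fun h => ⟨x, trivial, rfl, h⟩⟩,
    fun hR => (FO.Df.mk' hR fun _ _ _ => Iff.rfl).tm⟩

end Pool.Agent.MP_9a6faa_lc

end

section

namespace Pool.Agent.MP_9a6faa_lc

open Set Order FO

universe u v w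

variable {m : Mach.{u}}

theorem lt_cd {t : Ordinal.{u}} (ht : 0 < t) (a b : Ordinal.{u}) :
    a < G t (G a b) ∧ b < G t (G a b) :=
  ⟨(left_le_G _ _).trans_lt (right_lt_G _ ht), (right_le_G _ _).trans_lt (right_lt_G _ ht)⟩

/-- Amenable classes of ordinals. -/
def AmS (m : Mach.{u}) (R : Unit → Ordinal.{u} → Prop) : Prop :=
  ∀ a, ∃ c, a ≤ c ∧ ∀ x < a, (P m c x ↔ R () x)

theorem AmS.unary {R S : Unit → Ordinal.{u} → Prop} (t : Ordinal.{u}) (ht : 0 < t)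
    (f : Ordinal.{u} → Ordinal.{u}) (hR : AmS m R) (hS : ∀ x, S () x ↔ R () (f x))
    (h : ∀ c x, x < c → (P m (G t (G c 0)) x ↔ P m c (f x))) : AmS m S := fun a => by
  obtain ⟨b, hb⟩ := bound_fun a f
  obtain ⟨c, h₁, h₂⟩ := hR (max a b)
  exact ⟨_, ((le_max_left _ _).trans h₁).trans (lt_cd ht c 0).1.le, fun x hx => by
    rw [h c x (hx.trans_le ((le_max_left _ _).trans h₁)), h₂ _ (lt_max_of_lt_right (hb x hx)), hS]⟩

theorem ordCl_S (m : Mach.{u}) : OrdCl (AmS m) where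
  nand := fun hR hS a => by
    obtain ⟨c, h₁, h₂⟩ := hR a
    obtain ⟨d, -, h₃⟩ := hS a
    have := h₁.trans (lt_cd one_pos c d).1.le
    exact ⟨_, this, fun x hx => by
      rw [P_iff]; simp [step, h₂ x hx, h₃ x hx, hx.trans_le this]⟩
  ex := fun {R} hR a => by
    obtain ⟨b, hb⟩ := bound_wit a (fun x y => R () (G x y))
    obtain ⟨c, h₁, h₂⟩ := hR (G a b)
    have h₀ : ∀ {x y}, x < a → y < b → G x y < G a b := G_lt_of_lt
    obtain ⟨c', h₃, h₄⟩ := hR c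
    obtain ⟨d, hd⟩ : ∃ d, d = G 8 (G c' (G a b)) := ⟨_, rfl⟩
    have hP : ∀ z, P m d z ↔ z < G a b ∧ R () z := fun z => by
      rw [P_iff, hd]
      have := (lt_cd (t := 8) (by simp) c' (G a b)).2
      by_cases hz : z < G a b
      · simp [step, hz, hz.trans this, h₄ z (hz.trans_le h₁)]
      · simp [step, hz]
    have := (left_le_G a _).trans (lt_cd two_pos d (G a d)).2.le
    refine ⟨_, this, fun x hx => ?_⟩
    have h₅ : G d x < G 2 (G d (G a d)) :=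
      (G_lt_G_right d (hx.trans_le (left_le_G _ _))).trans (right_lt_G _ two_pos)
    rw [P_iff]
    simp only [step, fst_G, snd_G, hx.trans_le this, h₅, hP]
    simp only [OfNat.ofNat_ne_one, false_and, true_and, OfNat.ofNat_eq_ofNat, Nat.reduceEqDiff,
      or_false, false_or]
    exact ⟨fun ⟨y, h⟩ => ⟨y, h.2⟩, fun h => let ⟨y, h₁, h₂⟩ := hb x hx h; ⟨y, h₀ hx h₁, h₂⟩⟩
  c4 := fun hR => hR.unary 4 (by simp) fst (fun _ => Iff.rfl) fun c x hx => by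
    rw [P_iff]; simp [step, hx.trans (lt_cd (t := 4) (by simp) c 0).1]
  c5 := fun hR => hR.unary 5 (by simp) _ (fun _ => Iff.rfl) fun c x hx => by
    rw [P_iff]; simp [step, hx.trans (lt_cd (t := 5) (by simp) c 0).1]
  c6 := fun hR => hR.unary 6 (by simp) _ (fun _ => Iff.rfl) fun c x hx => by
    rw [P_iff]; simp [step, hx.trans (lt_cd (t := 6) (by simp) c 0).1]
  c7 := fun hR => hR.unary 7 (by simp) _ (fun _ => Iff.rfl) fun c x hx => by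
    rw [P_iff]; simp [step, hx.trans (lt_cd (t := 7) (by simp) c 0).1]
  lt := fun a => by
    have := (lt_cd (t := 9) (by simp) a 0).1
    exact ⟨_, this.le, fun x hx => by rw [P_iff]; simp [step, hx.trans this]⟩

/-- The amenable classes as a first order calculus. -/
noncomputable def SS (m : Mach.{u}) : FO.{u, u + 1} Unit Ordinal.{u} := (ordCl_S m).fo

theorem AmS.exact {R : Unit → Ordinal.{u} → Prop} (h : AmS m R) (a : Ordinal.{u}) :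
    ∃ c, ∀ x, P m c x ↔ x < a ∧ R () x := by
  obtain ⟨c, -, h⟩ := h a
  refine ⟨G 8 (G c a), fun z => ?_⟩
  rw [P_iff]
  have := (lt_cd (t := 8) (by simp) c a).2
  by_cases hz : z < a
  · simp [step, hz, hz.trans this, h z hz]
  · simp [step, hz]

theorem amS_P : AmS m (fun _ x => P m (fst x) (snd x)) := fun a => by
  have := (lt_cd (t := 10) (by simp) a 0).1
  exact ⟨_, this.le, fun x hx => by rw [P_iff]; simp [step, hx.trans this]⟩

theorem amS_lt (b : Ordinal.{u}) : AmS m (fun _ x => x < b) := fun a => by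
  have h := (ordCl_S m).nand (ordCl_S m).lt ((ordCl_S m).nand (ordCl_S m).lt (ordCl_S m).lt)
  obtain ⟨c, h₁, h₂⟩ := h a
  have := h₁.trans (lt_cd (t := 8) (by simp) c b).1.le
  refine ⟨_, this, fun x hx => ?_⟩
  rw [P_iff]
  simp [step, hx.trans_le this, h₂ x hx]

instance : Full (SS m) := ⟨fun c => by
  have h₁ : (SS m).Am (fun _ x => x < c + 1) := amS_lt _
  have h₂ : (SS m).Am (fun _ x => x < c) := amS_lt _
  exact (h₁.and h₂.not).congr fun _ _ => by rw [lt_add_one_iff, not_lt, le_antisymm_iff]⟩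

theorem am_mem {Am : (Unit → Ordinal.{u} → Prop) → Prop}
    (h : Am (fun _ x => P m (fst x) (snd x))) : Am (fun _ z => ∃ s x, z = G s x ∧ P m s x) :=
  am_congr h fun _ z =>
    ⟨fun h => ⟨_, _, (G_fst_snd z).symm, h⟩, fun ⟨_, _, e, h⟩ => by simpa [e] using h⟩

theorem sep_of_amS {R : Unit → Ordinal.{u} → Prop} (h : AmS m R) (v a : Ordinal.{u}) :
    ∃ s, ∀ x < a, ∀ y < a, (P m s (G x y) ↔ R () (G v (G x y))) := by
  obtain ⟨c, -, hc⟩ := FO.Am.param (𝒜 := SS m) h v (G a a)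
  exact ⟨c, fun x hx y hy => hc _ (G_lt_of_lt hx hy)⟩

instance : HasSep (SS m) := ⟨fun _ => P m, am_mem amS_P, fun _ h _ => sep_of_amS h⟩

theorem amS_Q {R : Unit → Ordinal.{u} → Prop} (hR : AmS m R) :
    AmS m (fun _ x => m.Q (fun y => R () (G x y))) := fun a => by
  obtain ⟨c, h₁, h₂⟩ := hR (G a m.κ)
  have := ((left_le_G _ _).trans h₁).trans (lt_cd (t := 3) (by simp) c 0).1.le
  refine ⟨_, this, fun x hx => ?_⟩
  refine P_iff.trans (Iff.trans ?_ (m.congr fun y hy => h₂ _ (G_lt_of_lt hx hy)))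
  simp [step, hx.trans_le this]

instance : DQ (SS m) (fun _ => m) := ⟨Full.const _, fun _ => amS_Q⟩

noncomputable instance : Cd (SS m) Mach.{u} := cdW _ fun _ => m

instance : HasQ (SS m) := hasQ_cdW _

instance : Par (SS m) m := par_cdW _

theorem code_set {R : Ordinal.{u} → Prop} (h : (SS m).Tm R) (a : Ordinal.{u}) :
    ∃ c, ∀ x, P m c x ↔ x < a ∧ R x := AmS.exact ((ordCl_S m).tm_iff.1 h) a

theorem code_rel {R : Ordinal.{u} → Ordinal.{u} → Prop}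
    (h : (SS m).Tm (fun z : Ordinal.{u} × Ordinal.{u} => R z.1 z.2)) (a b : Ordinal.{u}) :
    ∃ c, ∀ x y, P m c (G x y) ↔ x < a ∧ y < b ∧ R x y := by
  obtain ⟨c, hc⟩ := code_set (m := m) (R := fun z => fst z < a ∧ snd z < b ∧ R (fst z) (snd z))
    (by fun_prop) (G a b)
  refine ⟨c, fun x y => (hc _).trans ?_⟩
  simp only [fst_G, snd_G]
  exact and_iff_right_of_imp fun h => G_lt_of_lt h.1 h.2.1

theorem code_graph {f : Ordinal.{u} → Ordinal.{u}} (h : (SS m).Tm f) (a : Ordinal.{u}) :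
    ∃ c, ∀ x y, P m c (G x y) ↔ x < a ∧ y = f x := by
  obtain ⟨b, hb⟩ := bound_fun a f
  obtain ⟨c, hc⟩ := code_rel (m := m) (R := fun x y => y = f x) (by fun_prop) a b
  exact ⟨c, fun x y => (hc x y).trans
    (and_congr_right fun hx => and_iff_right_of_imp fun e => e ▸ hb x hx)⟩

theorem ap_eq {c x y : Ordinal.{u}} (h : ∀ z ≤ y, P m c (G x z) ↔ z = y) : ap m c x = y :=
  mu_eq ((h y le_rfl).2 rfl) fun z hz h' => hz.ne ((h z hz.le).1 h')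

theorem code_fun {f : Ordinal.{u} → Ordinal.{u}} (h : (SS m).Tm f) (a : Ordinal.{u}) :
    ∃ c, ∀ x < a, ap m c x = f x := by
  obtain ⟨c, hc⟩ := code_graph h a
  exact ⟨c, fun x hx => ap_eq fun z _ => (hc x z).trans (and_iff_right hx)⟩

/-! ### Regularity -/

/-- Regularity with respect to a family of relations. -/
def RegA {I : Type} {V : Type v} (𝒜 : FO.{u, v} I V) (r : Ordinal.{u}) : Prop :=
  ∀ R : Ordinal.{u} → Ordinal.{u} → Prop,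
    𝒜.Tm (fun z : Ordinal.{u} × Ordinal.{u} => R z.1 z.2) →
    ∀ y < r, ∃ b < r, ∀ i < y, (∃ v < r, R i v) → ∃ v < b, R i v

def Reg (m : Mach.{u}) (r : Ordinal.{u}) : Prop := Ordinal.omega0 < r ∧
  ∀ c, ∀ y < r, ∃ b < r, ∀ i < y, (∃ v < r, P m c (G i v)) → ∃ v < b, P m c (G i v)

theorem Reg.regA {r : Ordinal.{u}} (h : Reg m r) : RegA (SS m) r := fun R hR y hy => by
  obtain ⟨c, hc⟩ := code_rel hR r r
  obtain ⟨b, h₁, h₂⟩ := h.2 c y hy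
  refine ⟨b, h₁, fun i hi ⟨v, h₃, h₄⟩ => ?_⟩
  obtain ⟨w, h₅, h₆⟩ := h₂ i hi ⟨v, h₃, (hc _ _).2 ⟨hi.trans hy, h₃, h₄⟩⟩
  exact ⟨w, h₅, ((hc _ _).1 h₆).2.2⟩

theorem RegA.bdd {I : Type} {V : Type v} {𝒜 : FO.{u, v} I V} {r : Ordinal.{u}} (h : RegA 𝒜 r)
    {f : Ordinal.{u} → Ordinal.{u}} (hf : 𝒜.Tm f) {y : Ordinal.{u}} (hy : y < r) :
    ∃ b < r, ∀ i < y, f i < r → f i < b := by
  obtain ⟨b, h₁, h₂⟩ := h (fun i v => v = f i) (by fun_prop) y hy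
  exact ⟨b, h₁, fun i hi h => let ⟨_, h₃, e⟩ := h₂ i hi ⟨_, h, rfl⟩; e ▸ h₃⟩

theorem Reg.bdd {r : Ordinal.{u}} (h : Reg m r) {f : Ordinal.{u} → Ordinal.{u}}
    (hf : (SS m).Tm f) {y : Ordinal.{u}} (hy : y < r) : ∃ b < r, ∀ i < y, f i < r → f i < b :=
  h.regA.bdd hf hy

theorem Reg.lim {r : Ordinal.{u}} (h : Reg m r) : Lim r :=
  ⟨Ordinal.omega0_pos.trans h.1, fun x hx => by
    obtain ⟨b, h₁, h₂⟩ := h.bdd (f := fun _ => x) (by fun_prop) (Ordinal.one_lt_omega0.trans h.1)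
    exact (add_one_le_iff.2 (h₂ 0 one_pos hx)).trans_lt h₁⟩

theorem Reg.add {r : Ordinal.{u}} (h : Reg m r) {a b : Ordinal.{u}} (ha : a < r) (hb : b < r) :
    a + b < r := by
  induction b using WellFoundedLT.induction with
  | ind b ih =>
    obtain ⟨c, h₁, h₂⟩ := h.bdd (f := fun i => a + i) (tm_add (by fun_prop) (by fun_prop)) hb
    refine lt_of_le_of_lt (not_lt.1 fun h₃ => ?_) (max_lt ha h₁)
    obtain ⟨x, hx⟩ := exists_add_of_le (le_max_left a c)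
    have h₄ : x < b := lt_of_add_lt_add_left (hx ▸ h₃)
    exact (h₂ x h₄ (ih x h₄ (h₄.trans hb))).not_ge (hx ▸ le_max_right a c)

theorem Reg.gcl {r : Ordinal.{u}} (h : Reg m r) : Gcl r := by
  have hH : ∀ a < r, Hf a < r := fun a ha => by
    induction a using WellFoundedLT.induction with
    | ind a ih =>
      obtain ⟨c, h₁, h₂⟩ := h.bdd (f := fun x => Hf x + x + x)
        (tm_add (tm_add (by fun_prop) Tm.id) Tm.id) ha
      exact (Hf_le_iff.2 fun x hx => add_one_le_iff.2 (h₂ x hx (h.add (h.add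
        (ih x hx (hx.trans ha)) (hx.trans ha)) (hx.trans ha)))).trans_lt h₁
  exact ⟨h.1, fun a ha b hb => (G_le_Hf a b).trans_lt
    (h.add (h.add (hH _ (max_lt ha hb)) (max_lt ha hb)) (max_lt ha hb))⟩

theorem Reg.limCl {r : Ordinal.{u}} (h : Reg m r) : LimCl r := fun x hx => by
  have hf : (SS m).Tm (fun z : ℕ × ℕ => gst^[z.2] (max x Ordinal.omega0)) :=
    tm_natRec (fun (_ : ℕ) n => gst^[n] (max x Ordinal.omega0)) (fun _ => max x Ordinal.omega0)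
      (fun _ _ y => gst y) (fun _ => rfl) (fun _ n => Function.iterate_succ_apply' _ _ _)
      (by fun_prop) (by fun_prop)
  obtain ⟨b, h₁, h₂⟩ := h.bdd (f := fun i => gst^[toN i] (max x Ordinal.omega0))
    (hf.comp (f := fun i => (0, toN i)) (by fun_prop)) h.1
  have h₃ : ∀ n, gst^[n] (max x Ordinal.omega0) < r := fun n => by
    induction n with
    | zero => exact max_lt hx h.1
    | succ n ih => rw [Function.iterate_succ_apply']; exact h.gcl.succ (h.gcl.G ih ih)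
  obtain ⟨y, h₄, h₅, h₆⟩ := gcl_of_iter (le_max_right x _) (b := b) fun n => by
    simpa using h₂ n (Ordinal.natCast_lt_omega0 n) (by simpa using h₃ n)
  exact ⟨y, h₄.trans_lt h₁, (le_max_left _ _).trans_lt h₅, h₆⟩

theorem exists_reg (m : Mach.{u}) (a : Ordinal.{u}) : ∃ r, a < r ∧ Reg m r := by
  obtain ⟨k, hk⟩ : ∃ k, k = succ (max a.card Cardinal.aleph0) := ⟨_, rfl⟩
  have hr : k.IsRegular := hk ▸ Cardinal.isRegular_succ (le_max_right _ _)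
  refine ⟨k.ord, Cardinal.lt_ord.2 (hk ▸ lt_succ_of_le (le_max_left _ _)),
    Cardinal.lt_ord.2 (hk ▸ lt_succ_of_le (by simp)), fun c y hy => ?_⟩
  let f : y.ToType → Ordinal.{u} := fun i => mu (fun v => v < k.ord ∧ P m c (G i.toOrd v))
  refine ⟨⨆ i, f i + 1, Ordinal.iSup_add_one_lt_of_lt_cof
    (by simpa [hr.cof_ord] using Cardinal.lt_ord.1 hy) fun i => ?_, fun i hi h => ?_⟩
  · by_cases h : ∃ v < k.ord, P m c (G i.toOrd v)
    · exact (mu_spec h).1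
    · exact (mu_neg h).trans_lt hr.ord_pos
  · refine ⟨_, ?_, (mu_spec h).2⟩
    simpa [f] using Ordinal.lt_iSup_add_one f (Ordinal.ToType.mk ⟨i, hi⟩)

/-- The next regular ordinal. -/
noncomputable def sc (m : Mach.{u}) (a : Ordinal.{u}) : Ordinal.{u} :=
  mu (fun r => a < r ∧ Reg m r)

theorem lt_sc (a : Ordinal.{u}) : a < sc m a := (mu_spec (exists_reg m a)).1

theorem reg_sc (a : Ordinal.{u}) : Reg m (sc m a) := (mu_spec (exists_reg m a)).2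

/-- A bound for codes of subsets. -/
noncomputable def cb (m : Mach.{u}) (a : Ordinal.{u}) : Ordinal.{u} :=
  mu (fun y => a < y ∧ Gcl y ∧ ∀ c, ∃ c' < y, ∀ x < a, (P m c x ↔ P m c' x))

theorem cb_spec (m : Mach.{u}) (a : Ordinal.{u}) : a < cb m a ∧ Gcl (cb m a) ∧
    ∀ c, ∃ c' < cb m a, ∀ x < a, (P m c x ↔ P m c' x) := by
  refine mu_spec (R := fun y => a < y ∧ Gcl y ∧ ∀ c, ∃ c' < y, ∀ x < a, (P m c x ↔ P m c' x)) ?_
  obtain ⟨b, hb⟩ := exists_bound (fun s : Set (Iio a) =>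
    mu (fun c => ∀ x : Iio a, x ∈ s ↔ P m c x))
  obtain ⟨y, h₁, h₂, h₃⟩ := exists_gcl₂ a b
  refine ⟨y, h₁, h₃, fun c => ⟨_, (hb {x | P m c x}).trans h₂, fun x hx => ?_⟩⟩
  exact mu_spec (R := fun c' => ∀ x : Iio a, x ∈ {x : Iio a | P m c x} ↔ P m c' x)
    ⟨c, fun _ => Iff.rfl⟩ ⟨x, hx⟩

theorem lt_cb (a : Ordinal.{u}) : a < cb m a := (cb_spec m a).1

theorem gcl_cb (a : Ordinal.{u}) : Gcl (cb m a) := (cb_spec m a).2.1

theorem code_set_cb {R : Ordinal.{u} → Prop} (h : (SS m).Tm R) (a : Ordinal.{u}) :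
    ∃ c < cb m a, ∀ x < a, (P m c x ↔ R x) := by
  obtain ⟨c, hc⟩ := code_set h a
  obtain ⟨c', h₁, h₂⟩ := (cb_spec m a).2.2 c
  exact ⟨c', h₁, fun x hx => (h₂ x hx).symm.trans ((hc x).trans (and_iff_right hx))⟩

theorem code_fun_cb {f : Ordinal.{u} → Ordinal.{u}} (h : (SS m).Tm f) {a : Ordinal.{u}}
    (ha : Gcl a) : ∃ c < cb m a, ∀ x < a, f x < a → ap m c x = f x := by
  obtain ⟨c, h₁, h₂⟩ := code_set_cb (m := m) (R := fun z => snd z = f (fst z)) (by fun_prop) a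
  exact ⟨c, h₁, fun x hx h => ap_eq fun z hz => by simp [h₂ _ (ha.G hx (hz.trans_lt h))]⟩

/-! ### Cofinality -/

/-- `f` maps a subset of `a` cofinally into `b`. -/
def Cof (f : Ordinal.{u} → Ordinal.{u}) (a b : Ordinal.{u}) : Prop :=
  ∀ x < b, ∃ i < a, x ≤ f i ∧ f i < b

noncomputable def cf (m : Mach.{u}) (b : Ordinal.{u}) : Ordinal.{u} :=
  mu (fun a => ∃ c, ∀ x < b, ∃ i < a, x ≤ ap m c i ∧ ap m c i < b)

theorem Cof.code {f : Ordinal.{u} → Ordinal.{u}} (hf : (SS m).Tm f) {a b : Ordinal.{u}}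
    (h : Cof f a b) : ∃ c, Cof (ap m c) a b := by
  obtain ⟨c, hc⟩ := code_fun hf a
  exact ⟨c, fun x hx => let ⟨i, h₁, h₂⟩ := h x hx; ⟨i, h₁, (hc i h₁).symm ▸ h₂⟩⟩

theorem cf_le {f : Ordinal.{u} → Ordinal.{u}} (hf : (SS m).Tm f) {a b : Ordinal.{u}}
    (h : Cof f a b) : cf m b ≤ a := mu_le (h.code hf)

theorem cf_spec (m : Mach.{u}) (b : Ordinal.{u}) : ∃ c, Cof (ap m c) (cf m b) b :=
  mu_spec (R := fun a => ∃ c, Cof (ap m c) a b)
    ⟨b, Cof.code Tm.id fun x hx => ⟨x, hx, le_rfl, hx⟩⟩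

theorem bdd_of_lt_cf {f : Ordinal.{u} → Ordinal.{u}} (hf : (SS m).Tm f) {a b : Ordinal.{u}}
    (h : a < cf m b) : ∃ x < b, ∀ i < a, f i < b → f i < x := by
  by_contra h'
  push Not at h'
  exact (cf_le hf fun x hx => let ⟨i, h₁, h₂, h₃⟩ := h' x hx; ⟨i, h₁, h₃, h₂⟩).not_gt h

theorem Reg.cf_eq {r : Ordinal.{u}} (h : Reg m r) : cf m r = r := by
  refine (cf_le Tm.id fun x hx => ⟨x, hx, le_rfl, hx⟩).antisymm (not_lt.1 fun h' => ?_)
  obtain ⟨c, hc⟩ := cf_spec m r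
  obtain ⟨b, h₁, h₂⟩ := h.bdd (f := ap m c) (by fun_prop) h'
  obtain ⟨i, h₃, h₄, h₅⟩ := hc b h₁
  exact (h₂ i h₃ h₅).not_ge h₄

theorem lim_cf {b : Ordinal.{u}} (h : 1 < cf m b) : Lim (cf m b) := by
  refine ⟨one_pos.trans h, fun x hx => not_le.1 fun h' => ?_⟩
  obtain ⟨d, hd⟩ := cf_spec m b
  obtain ⟨y, h₁, h₂⟩ := bdd_of_lt_cf (f := ap m d) (by fun_prop) hx
  have : ∃ z < b, ∀ i < cf m b, ap m d i < b → ap m d i ≤ z := by
    by_cases h₃ : ap m d x < b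
    · refine ⟨_, max_lt h₁ h₃, fun i hi h₄ => ?_⟩
      rcases (lt_add_one_iff.1 (hi.trans_le h')).lt_or_eq with h₅ | rfl
      exacts [le_max_of_le_left (h₂ i h₅ h₄).le, le_max_right _ _]
    · refine ⟨y, h₁, fun i hi h₄ => ?_⟩
      rcases (lt_add_one_iff.1 (hi.trans_le h')).lt_or_eq with h₅ | rfl
      exacts [(h₂ i h₅ h₄).le, absurd h₄ h₃]
  obtain ⟨z, h₃, h₄⟩ := this
  refine (cf_le (f := fun _ => z) (by fun_prop) fun w hw => ⟨0, one_pos, ?_, h₃⟩).not_gt h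
  obtain ⟨i, h₅, h₆, h₇⟩ := hd w hw
  exact h₆.trans (h₄ i h₅ h₇)

theorem reg_cf {b : Ordinal.{u}} (h : Ordinal.omega0 < cf m b) : Reg m (cf m b) := by
  refine ⟨h, fun c y hy => ?_⟩
  obtain ⟨d, hd⟩ := cf_spec m b
  let g : Ordinal.{u} → Ordinal.{u} := fun i =>
    mu (fun x => ∀ j < ap m c i + 1, ap m d j < b → ap m d j < x)
  obtain ⟨x, h₁, h₂⟩ := bdd_of_lt_cf (f := g) (by fun_prop) hy
  obtain ⟨j, h₃, h₄, h₅⟩ := hd x h₁
  refine ⟨j, h₃, fun i hi ⟨v, h₆, h₇⟩ => ⟨ap m c i, not_le.1 fun h₈ => ?_,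
    mu_spec (R := fun y => P m c (G i y)) ⟨v, h₇⟩⟩⟩
  obtain ⟨z, h₉, h₀⟩ := bdd_of_lt_cf (f := ap m d) (by fun_prop)
    ((lim_cf (Ordinal.one_lt_omega0.trans h)).2 (ap m c i)
      ((mu_le (R := fun y => P m c (G i y)) h₇).trans_lt h₆))
  exact ((mu_spec (R := fun x => ∀ j < ap m c i + 1, ap m d j < b → ap m d j < x) ⟨z, h₀⟩ j
    (lt_add_one_iff.2 h₈) h₅).trans (h₂ i hi ((mu_le h₀).trans_lt h₉))).not_ge h₄

theorem cf_eq_of_mono {f : Ordinal.{u} → Ordinal.{u}} (hf : (SS m).Tm f) {a b : Ordinal.{u}}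
    (hb : Lim b) (mono : ∀ x y, x ≤ y → y < a → f x ≤ f y) (lt : ∀ x < a, f x < b)
    (cof : ∀ y < b, ∃ x < a, y ≤ f x) : cf m a = cf m b := by
  obtain ⟨c, hc⟩ := cf_spec m a
  obtain ⟨d, hd⟩ := cf_spec m b
  refine le_antisymm (cf_le (f := fun i => mu (fun x => x < a ∧ ap m d i ≤ f x)) (by fun_prop)
    fun x hx => ?_) (cf_le (f := fun i => f (ap m c i)) (by fun_prop) fun y hy => ?_)
  · obtain ⟨i, h₁, h₂, h₃⟩ := hd _ (hb.2 _ (lt x hx))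
    obtain ⟨h₄, h₅⟩ := mu_spec (cof _ h₃)
    exact ⟨i, h₁, not_lt.1 fun h => (add_one_le_iff.1 (h₂.trans h₅)).not_ge (mono _ _ h.le hx), h₄⟩
  · obtain ⟨x, h₁, h₂⟩ := cof y hy
    obtain ⟨i, h₃, h₄, h₅⟩ := hc x h₁
    exact ⟨i, h₃, h₂.trans (mono _ _ h₄ h₅), lt _ h₅⟩

/-! ### The distinguished sequence of regular ordinals -/

noncomputable def th (m : Mach.{u}) : Ordinal.{u} := cb m m.κ

noncomputable def sa (m : Mach.{u}) (z : Ordinal.{u}) : Ordinal.{u} :=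
  sc m (sc m (cb m (mu (fun y => Gcl y ∧ th m < y ∧ ∀ x : Iio z, sa m x < y))))
termination_by z
decreasing_by exact x.2

noncomputable def se (m : Mach.{u}) (z : Ordinal.{u}) : Ordinal.{u} :=
  mu (fun y => Gcl y ∧ th m < y ∧ ∀ x < z, sa m x < y)

noncomputable def sb (m : Mach.{u}) (z : Ordinal.{u}) : Ordinal.{u} := sc m (cb m (se m z))

theorem sa_eq (m : Mach.{u}) (z : Ordinal.{u}) : sa m z = sc m (sb m z) := by
  rw [sa]
  simp only [sb, se, Subtype.forall, mem_Iio]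

theorem se_spec (m : Mach.{u}) (z : Ordinal.{u}) :
    Gcl (se m z) ∧ th m < se m z ∧ ∀ x < z, sa m x < se m z := by
  refine mu_spec (R := fun y => Gcl y ∧ th m < y ∧ ∀ x < z, sa m x < y) ?_
  obtain ⟨b, hb⟩ := bound_fun z (sa m)
  obtain ⟨y, h₁, h₂, h₃⟩ := exists_gcl₂ (th m) b
  exact ⟨y, h₃, h₁, fun x hx => (hb x hx).trans h₂⟩

theorem se_lt_sb (z : Ordinal.{u}) : se m z < sb m z := (lt_cb _).trans (lt_sc _)

theorem sb_lt_sa (z : Ordinal.{u}) : sb m z < sa m z := sa_eq m z ▸ lt_sc _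

theorem reg_sb (z : Ordinal.{u}) : Reg m (sb m z) := reg_sc _

theorem reg_sa (z : Ordinal.{u}) : Reg m (sa m z) := sa_eq m z ▸ reg_sc _

theorem sa_lt_sb {x z : Ordinal.{u}} (h : x < z) : sa m x < sb m z :=
  ((se_spec m z).2.2 x h).trans (se_lt_sb z)

theorem sa_strictMono : StrictMono (sa m) := fun _ z h => (sa_lt_sb h).trans (sb_lt_sa z)

theorem th_lt_sb (z : Ordinal.{u}) : th m < sb m z := (se_spec m z).2.1.trans (se_lt_sb z)

theorem th_lt_sa (z : Ordinal.{u}) : th m < sa m z := (th_lt_sb z).trans (sb_lt_sa z)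

theorem κ_lt_th : m.κ < th m := lt_cb _

theorem gcl_th : Gcl (th m) := gcl_cb _

/-- The ordinals that will get cofinality `ω`. -/
def Dt (m : Mach.{u}) (a : Ordinal.{u}) : Prop :=
  Lim a ∧ (cf m a ≤ th m ∨ ∃ z < th m, cf m a = sa m z)

theorem dt_sa {z : Ordinal.{u}} (h : z < th m) : Dt m (sa m z) :=
  ⟨(reg_sa z).lim, Or.inr ⟨z, h, (reg_sa z).cf_eq⟩⟩

theorem not_dt_sb (z : Ordinal.{u}) : ¬ Dt m (sb m z) := by
  rintro ⟨-, h | ⟨x, -, h⟩⟩ <;> rw [(reg_sb z).cf_eq] at h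
  · exact (th_lt_sb z).not_ge h
  · rcases lt_or_ge x z with h' | h'
    exacts [(sa_lt_sb h').ne' h, ((sb_lt_sa z).trans_le (sa_strictMono.monotone h')).ne h]

theorem Dt.of_le {a : Ordinal.{u}} (h : Lim a) (h' : cf m a ≤ th m) : Dt m a := ⟨h, Or.inl h'⟩

theorem dt_congr {a b : Ordinal.{u}} (ha : Lim a) (hb : Lim b) (h : cf m a = cf m b) :
    Dt m a ↔ Dt m b := by
  simp only [Dt, ha, hb, h]

namespace FO

variable {I : Type} {V : Type v} {𝒜 : FO.{u, v} I V} {Γ : Type*} [Cd 𝒜 Γ]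
variable [Cd 𝒜 Mach.{u}] [HasQ 𝒜] [HasSep 𝒜] {m : Γ → Mach.{u}} {a : Γ → Ordinal.{u}}

@[fun_prop] theorem tm_Reg (hm : 𝒜.Tm m) (ha : 𝒜.Tm a) : 𝒜.Tm (fun z => Reg (m z) (a z)) := by
  unfold Reg; fun_prop

@[fun_prop] theorem tm_sc (hm : 𝒜.Tm m) (ha : 𝒜.Tm a) : 𝒜.Tm (fun z => sc (m z) (a z)) := by
  unfold sc; fun_prop

@[fun_prop] theorem tm_cb (hm : 𝒜.Tm m) (ha : 𝒜.Tm a) : 𝒜.Tm (fun z => cb (m z) (a z)) := by
  unfold cb; fun_prop

@[fun_prop] theorem tm_cf (hm : 𝒜.Tm m) (ha : 𝒜.Tm a) : 𝒜.Tm (fun z => cf (m z) (a z)) := by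
  unfold cf; fun_prop

@[fun_prop] theorem tm_th (hm : 𝒜.Tm m) : 𝒜.Tm (fun z => th (m z)) := by
  unfold th; fun_prop

@[fun_prop] theorem tm_sa (hm : 𝒜.Tm m) (ha : 𝒜.Tm a) : 𝒜.Tm (fun z => sa (m z) (a z)) :=
  (tm_frec (𝒜 := 𝒜) sa (fun m k z => sc m (sc m (cb m
      (mu (fun y => Gcl y ∧ th m < y ∧ ∀ x < z, k x < y)))))
    (fun m z k hk => by
      rw [sa_eq, sb, se]
      congr 4
      exact funext fun y => propext (and_congr_right fun _ => and_congr_right fun _ =>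
        forall₂_congr fun x hx => by rw [hk x hx]))
    (fun k hk => by fun_prop)).comp (hm.pair ha)

@[fun_prop] theorem tm_Dt (hm : 𝒜.Tm m) (ha : 𝒜.Tm a) : 𝒜.Tm (fun z => Dt (m z) (a z)) := by
  unfold Dt; fun_prop

end FO

end Pool.Agent.MP_9a6faa_lc

end

section

namespace Pool.Agent.MP_9a6faa_lc

open Set Order FO Filter

universe u v w

/-- A normal measure, as an ultrafilter on the ordinals. -/
structure Meas where
  κ : Ordinal.{u}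
  U : Ultrafilter Ordinal.{u}
  hκ : ∀ᶠ y in (U : Filter Ordinal.{u}), y < κ
  hI : ∀ a < κ, ∀ᶠ y in (U : Filter Ordinal.{u}), a < y
  diag : ∀ X : Ordinal.{u} → Ordinal.{u} → Prop,
    (∀ a < κ, ∀ᶠ y in (U : Filter Ordinal.{u}), X a y) →
    ∀ᶠ y in (U : Filter Ordinal.{u}), ∀ a < y, X a y
  hω : Ordinal.omega0 < κ

theorem wf_of_ctbl {A B : Type*} (F : Filter A)
    (h : ∀ X : ℕ → A → Prop, (∀ n, ∀ᶠ y in F, X n y) → ∃ y, ∀ n, X n y)
    (e : B → A → Ordinal.{u}) : WellFounded (fun a b => ∀ᶠ y in F, e a y < e b y) := by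
  rw [wellFounded_iff_isEmpty_descending_chain]
  refine ⟨fun ⟨f, hf⟩ => ?_⟩
  obtain ⟨y, hy⟩ := h (fun n y => e (f (n + 1)) y < e (f n) y) hf
  exact (wellFounded_iff_isEmpty_descending_chain.1 Ordinal.lt_wf).1 ⟨fun n => e (f n) y, hy⟩

theorem exists_meas (X : Type u) [Uncountable X] (U : Ultrafilter X)
    (hU : CardinalInterFilter (U : Filter X) (Cardinal.mk X)) (np : ∀ x, {x} ∉ U) :
    Nonempty Meas.{u} := by
  obtain ⟨k, hk⟩ : ∃ k, k = (Cardinal.mk X).ord := ⟨_, rfl⟩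
  have comp : ∀ y < k, ∀ R : Ordinal.{u} → X → Prop, (∀ i < y, ∀ᶠ x in (U : Filter X), R i x) →
      ∀ᶠ x in (U : Filter X), ∀ i < y, R i x := fun y hy R h => by
    have := (eventually_cardinal_forall (l := (U : Filter X)) (ι := y.ToType)
      (p := fun x i => R i.toOrd x) (by simpa using Cardinal.lt_ord.1 (hk ▸ hy))).2
      fun i => h _ i.toOrd.2
    exact this.mono fun x hx i hi => by simpa using hx (Ordinal.ToType.mk ⟨i, hi⟩)
  have hω : Ordinal.omega0 < k := by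
    rw [hk, Cardinal.lt_ord]; simp
  obtain ⟨e⟩ : Nonempty (X ≃ k.ToType) := Cardinal.eq.1 (by simp [hk])
  have const : ∀ (f : X → Ordinal.{u}), ∀ a < k, (∀ᶠ x in (U : Filter X), f x < a) →
      ∃ b < a, ∀ᶠ x in (U : Filter X), f x = b := fun f a ha h => by
    by_contra h'
    push Not at h'
    obtain ⟨x, h₁, h₂⟩ := (h.and (comp a ha (fun i x => f x ≠ i)
      h')).exists
    exact h₂ _ h₁ rfl
  have succ : ∀ a < k, a + 1 < k := fun a ha =>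
    (hk ▸ Cardinal.isSuccLimit_ord (Cardinal.aleph0_le_mk X)).add_one_lt ha
  have wf := wf_of_ctbl (U : Filter X) (fun R h => by
    obtain ⟨x, hx⟩ := (comp _ hω (fun i x => R (toN i) x) fun i _ => h _).exists
    exact ⟨x, fun n => by simpa using hx n (Ordinal.natCast_lt_omega0 n)⟩)
    (id : (X → Ordinal.{u}) → _)
  obtain ⟨f, ⟨h₁, h₂⟩, hmin⟩ := wf.has_min
    {f | (∀ x, f x < k) ∧ ∀ a < k, ∀ᶠ x in (U : Filter X), a < f x}
    ⟨fun x => (e x).toOrd, fun x => (e x).toOrd.2, fun a ha => by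
      by_contra h
      obtain ⟨b, -, hb⟩ := const (fun x => (e x).toOrd) _ (succ a ha)
        ((Ultrafilter.eventually_not.2 h).mono fun x hx => lt_add_one_iff.2 (not_lt.1 hx))
      obtain ⟨x, hx⟩ := hb.exists
      refine np x (mem_of_superset hb fun y hy => e.injective ?_)
      exact Ordinal.ToType.mk.symm.injective (Subtype.ext (hy.trans hx.symm))⟩
  refine ⟨⟨k, U.map f, Eventually.of_forall (f := (U : Filter X)) h₁, h₂, fun R hR => ?_, hω⟩⟩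
  by_contra h
  have h' : ∀ᶠ x in (U : Filter X), ∃ a, a < f x ∧ ¬ R a (f x) :=
    (Ultrafilter.eventually_not (f := U).2 h).mono fun x hx => by simpa using hx
  let g : X → Ordinal.{u} := fun x => mu (fun a => a < f x ∧ ¬ R a (f x))
  have hg : ∀ x, g x < k := fun x => by
    by_cases h : ∃ a, a < f x ∧ ¬ R a (f x)
    exacts [(mu_spec h).1.trans (h₁ x), (mu_neg h).trans_lt (Ordinal.omega0_pos.trans hω)]
  have := hmin g
  simp only [mem_ofPred_eq, hg, implies_true, true_and, imp_not_comm] at this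
  have := this (h'.mono fun x hx => (mu_spec hx).1)
  push Not at this
  obtain ⟨a, ha, h₃⟩ := this
  obtain ⟨b, hb, h₄⟩ := const g _ (succ a ha)
    (h₃.mono fun x hx => lt_add_one_iff.2 hx)
  obtain ⟨x, h₅, h₆, h₇⟩ := (h₄.and (h'.and (hR b (hb.trans (succ a ha))))).exists
  exact (mu_spec h₆).2 (h₅.symm ▸ h₇ :)

/-- Iterated largeness quantifier. -/
def QL (m : Mach.{u}) (R : OL.{u} → Prop) : ℕ → OL.{u} → Prop
  | 0, e => R e
  | k + 1, e => m.Q (fun z => QL m R k (z :: e))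

@[fun_prop] theorem FO.tm_QL {I : Type} {V : Type v} {𝒜 : FO.{u, v} I V} {Γ : Type*} [Cd 𝒜 Γ]
    [Cd 𝒜 Mach.{u}] [HasQ 𝒜] [HasSep 𝒜] {m : Γ → Mach.{u}} {R : Γ → OL.{u} → Prop} {k : Γ → ℕ}
    {e : Γ → OL.{u}} (hm : 𝒜.Tm m) (hR : 𝒜.Tm (fun z : Γ × OL.{u} => R z.1 z.2)) (hk : 𝒜.Tm k)
    (he : 𝒜.Tm e) : 𝒜.Tm (fun z => QL (m z) (fun l => R z l) (k z) (e z)) := by
  have := tm_grec (𝒜 := 𝒜) (A := ℕ × OL.{u}) (fun a => a.1) (fun a => encL a.2) (by fun_prop)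
    (by fun_prop) (fun _ _ h h' => Prod.ext (Nat.cast_injective h) (encL_inj h'))
    (fun (g : Γ) a => QL (m g) (R g) a.1 a.2)
    (fun g X a => (a.1 = 0 ∧ R g a.2) ∨ ∃ n, a.1 = n + 1 ∧ (m g).Q (fun z => X (n, z :: a.2)))
    (fun g a x => x.1 < a.1 ∧ ∃ z < (m g).κ, x.2 = z :: a.2) (by fun_prop)
    (fun g a => by
      obtain ⟨_ | n, e⟩ := a
      · simp [QL]
      · simpa [QL] using (m g).congr fun y hy => by simp [hy])
    (fun X hX => by fun_prop) (fun _ _ _ h => Nat.cast_lt.2 h.1) (fun g _ a => by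
      obtain ⟨b, h₁, h₂, h₃⟩ := exists_gcl₂ (encL a.2) (m g).κ
      refine ⟨b, h₁, fun a _ h x ⟨_, z, hz, e⟩ => ?_⟩
      rw [e]
      exact h₃.succ (h₃.G (hz.trans h₂) h))
  exact this.comp (Tm.id.pair (hk.pair he))

theorem QL.mono {m : Mach.{u}} {A : Ordinal.{u} → Prop} (hA : ∀ X Y : Ordinal.{u} → Prop,
    (∀ y, A y → X y → Y y) → m.Q X → m.Q Y) {R S : OL.{u} → Prop} {k : ℕ} {e e' : OL.{u}}
    (h : ∀ l : OL.{u}, (∀ x ∈ l, A x) → R (l ++ e) → S (l ++ e')) (hR : QL m R k e) :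
    QL m S k e' := by
  induction k generalizing e e' with
  | zero => exact h [] (by simp) hR
  | succ k ih =>
    refine hA _ _ (fun y hy => ih fun l hl => ?_) hR
    simpa using h (l ++ [y]) (by simpa [or_imp, forall_and, hy] using hl)

theorem QL.mono' {m : Mach.{u}} {R S : OL.{u} → Prop} {k : ℕ} {e e' : OL.{u}}
    (h : ∀ l : OL.{u}, (∀ x ∈ l, x < m.κ) → R (l ++ e) → S (l ++ e')) (hR : QL m R k e) :
    QL m S k e' := hR.mono m.loc h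

theorem QL.exists {m : Mach.{u}} {A : Ordinal.{u} → Prop}
    (hA : ∀ X : Ordinal.{u} → Prop, m.Q X → ∃ y, A y ∧ X y) {R : OL.{u} → Prop} {k : ℕ}
    {e : OL.{u}} (hR : QL m R k e) : ∃ l : OL.{u}, (∀ x ∈ l, A x) ∧ R (l ++ e) := by
  induction k generalizing e with
  | zero => exact ⟨[], by simp, hR⟩
  | succ k ih =>
    obtain ⟨y, h₁, h₂⟩ := hA _ hR
    obtain ⟨l, h₃, h₄⟩ := ih h₂
    exact ⟨l ++ [y], by simpa [or_imp, forall_and, h₁] using h₃, by simpa using h₄⟩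

theorem dec_concat {l : OL.{u}} {z : Ordinal.{u}} :
    Dec (l ++ [z]) ↔ Dec l ∧ ∀ x ∈ l, z < x := by
  simp [Dec, List.pairwise_append]

namespace Meas

variable (μ : Meas.{u})

def mach : Mach.{u} := ⟨μ.κ, fun X => ∀ᶠ y in (μ.U : Filter Ordinal.{u}), X y,
  fun _ _ h hX => (hX.and μ.hκ).mono fun y hy => h y hy.2 hy.1⟩

theorem compl {y : Ordinal.{u}} (hy : y < μ.κ) {X : Ordinal.{u} → Ordinal.{u} → Prop}
    (h : ∀ i < y, ∀ᶠ z in (μ.U : Filter Ordinal.{u}), X i z) :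
    ∀ᶠ z in (μ.U : Filter Ordinal.{u}), ∀ i < y, X i z := by
  refine ((μ.diag (fun i z => i < y → X i z) fun i _ => ?_).and (μ.hI y hy)).mono
    fun z hz i hi => hz.1 i (hi.trans hz.2) hi
  by_cases hi : i < y
  exacts [(h i hi).mono fun _ h _ => h, Eventually.of_forall fun _ h => absurd h hi]

theorem ctbl {X : ℕ → Ordinal.{u} → Prop} (h : ∀ n, ∀ᶠ z in (μ.U : Filter Ordinal.{u}), X n z) :
    ∀ᶠ z in (μ.U : Filter Ordinal.{u}), ∀ n, X n z :=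
  (μ.compl μ.hω (X := fun i => X (toN i)) fun _ _ => h _).mono fun z hz n => by
    simpa using hz n (Ordinal.natCast_lt_omega0 n)

theorem regress {f : Ordinal.{u} → Ordinal.{u}} (h : ∀ᶠ y in (μ.U : Filter Ordinal.{u}), f y < y) :
    ∃ v, ∀ᶠ y in (μ.U : Filter Ordinal.{u}), f y = v := by
  by_contra h'
  push Not at h'
  obtain ⟨y, h₁, h₂⟩ := (h.and (μ.diag (fun v y => f y ≠ v)
    fun v _ => h' v)).exists
  exact h₂ _ h₁ rfl

theorem reg (m : Mach.{u}) : Reg m μ.κ := by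
  refine ⟨μ.hω, fun c y hy => ?_⟩
  refine (μ.hκ.and (μ.compl hy
    (X := fun i z => (∃ v < μ.κ, P m c (G i v)) → ∃ v < z, P m c (G i v)) fun i _ => ?_)).exists
  by_cases h : ∃ v < μ.κ, P m c (G i v)
  · obtain ⟨v, h₁, h₂⟩ := h
    exact (μ.hI v h₁).mono fun z hz _ => ⟨v, hz, h₂⟩
  · exact Eventually.of_forall fun _ h' => absurd h' h

theorem gcl : Gcl μ.κ := (μ.reg μ.mach).gcl

theorem limCl : LimCl μ.κ := (μ.reg μ.mach).limCl

variable {μ} {R : OL.{u} → Prop} {k : ℕ} {e : OL.{u}}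

theorem QL_not : QL μ.mach (fun l => ¬ R l) k e ↔ ¬ QL μ.mach R k e := by
  induction k generalizing e with
  | zero => rfl
  | succ k ih =>
    simp only [QL, ih]
    exact Ultrafilter.eventually_not

theorem QL_hom (h : QL μ.mach R k e) : ∃ Z : Ordinal.{u} → Prop,
    (∀ᶠ z in (μ.U : Filter Ordinal.{u}), Z z) ∧
      ∀ l : OL.{u}, Dec l → (∀ x ∈ l, Z x) → l.length = k → R (l ++ e) := by
  induction k generalizing e with
  | zero =>
    exact ⟨fun _ => True, by simp, fun l _ _ hl => by rwa [List.length_eq_zero_iff.1 hl]⟩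
  | succ k ih =>
    have : ∀ z, ∃ Z : Ordinal.{u} → Prop, (∀ᶠ x in (μ.U : Filter Ordinal.{u}), Z x) ∧
        (QL μ.mach R k (z :: e) → ∀ l : OL.{u}, Dec l → (∀ x ∈ l, Z x) → l.length = k →
          R (l ++ z :: e)) := fun z => by
      by_cases h : QL μ.mach R k (z :: e)
      · obtain ⟨Z, h₁, h₂⟩ := ih h
        exact ⟨Z, h₁, fun _ => h₂⟩
      · exact ⟨fun _ => True, by simp, fun h' => absurd h' h⟩
    choose Z h₁ h₂ using this
    refine ⟨_, Eventually.and h (μ.diag Z fun a _ => h₁ a), fun l hl h₃ h₄ => ?_⟩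
    obtain rfl | ⟨l, z, rfl⟩ := List.eq_nil_or_concat' l
    · simp at h₄
    · rw [dec_concat] at hl
      simpa using h₂ z (h₃ z (by simp)).1 l hl.1
        (fun x hx => (h₃ x (by simp [hx])).2 z (hl.2 x hx)) (by simpa using h₄)

theorem QL_of_hom {Z : Ordinal.{u} → Prop} (hZ : ∀ᶠ z in (μ.U : Filter Ordinal.{u}), Z z)
    (h : ∀ l : OL.{u}, Dec l → (∀ x ∈ l, Z x) → l.length = k → R (l ++ e)) :
    QL μ.mach R k e := by
  induction k generalizing e Z with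
  | zero => exact h [] List.Pairwise.nil (by simp) rfl
  | succ k ih =>
    refine (hZ.and μ.hκ).mono fun z hz => ih (hZ.and (μ.hI z hz.2)) fun l h₁ h₂ h₃ => ?_
    simpa using h (l ++ [z]) (dec_concat.2 ⟨h₁, fun x hx => (h₂ x hx).2⟩)
      (by simpa [or_imp, forall_and, hz.1] using fun x hx => (h₂ x hx).1) (by simp [h₃])

end Meas

end Pool.Agent.MP_9a6faa_lc

end

section

namespace Pool.Agent.MP_9a6faa_lc

open Set Order FO Filter

universe u v w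

theorem G_iso {A : Type*} (r : A → Ordinal.{u}) (D : A → A → A → Prop) (h₁ : ∀ c, ∃ a b, D c a b)
    (h₂ : ∀ {c a b c' a' b'}, D c a b → D c' a' b' →
      (r c < r c' ↔ ML (r a) (r b) (r a') (r b')))
    (h₃ : ∀ {c a b a' b'}, D c a b → ML (r a') (r b') (r a) (r b) → ∃ c', D c' a' b')
    (h₄ : ∀ a, ∀ v < r a, ∃ a', r a' = v) {c a b : A} (h : D c a b) : r c = G (r a) (r b) := by
  induction c using rk_ind r generalizing a b with
  | h c ih =>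
    refine eq_of_lt_iff fun x => ⟨fun hx => ?_, fun hx => ?_⟩
    · obtain ⟨c', rfl⟩ := h₄ c x hx
      obtain ⟨a', b', h'⟩ := h₁ c'
      rw [ih c' hx h', G_lt_iff]
      exact (h₂ h' h).1 hx
    · obtain ⟨s, t, rfl⟩ := G_surj x
      rw [G_lt_iff] at hx
      have key : ∀ y ≤ max s t, ∃ a', r a' = y := fun y hy => by
        have : y ≤ max (r a) (r b) := hy.trans (hx.elim le_of_lt fun h => h.1.le)
        rcases le_max_iff.1 this with h | h <;> rcases h.lt_or_eq with h | h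
        exacts [h₄ _ _ h, ⟨_, h.symm⟩, h₄ _ _ h, ⟨_, h.symm⟩]
      obtain ⟨a', rfl⟩ := key s (le_max_left _ _)
      obtain ⟨b', rfl⟩ := key t (le_max_right _ _)
      obtain ⟨c', h'⟩ := h₃ h hx
      have := (h₂ h' h).2 hx
      rwa [ih c' this h'] at this

theorem wit_le (m : Mach.{u}) (c : Ordinal.{u}) : wit m c ≤ c := by
  by_cases h : ∃ y, P m (fst c) (G (snd c) y)
  · have := mu_spec h
    exact (right_le_G _ _).trans ((P_lt this).le.trans (fst_le c))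
  · exact (mu_neg h).trans_le zero_le

def HN (m : Mach.{u}) (r : Ordinal.{u}) (e : OL.{u}) : ℕ → Ordinal.{u} → Prop
  | 0, v => v ∈ e ∧ v < r
  | n + 1, v => ∃ a b, HN m r e n a ∧ HN m r e n b ∧
      (v = a ∨ (v = G a b ∧ v < r) ∨ v = fst a ∨ v = snd a ∨ v = wit m a)

/-- The hull of a list below `r`. -/
def InH (m : Mach.{u}) (r : Ordinal.{u}) (e : OL.{u}) (v : Ordinal.{u}) : Prop := ∃ n, HN m r e n v

variable {m : Mach.{u}} {r s a b v : Ordinal.{u}} {e e' : OL.{u}}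

theorem HN.mono {n k : ℕ} (h : HN m r e n v) (hk : n ≤ k) : HN m r e k v := by
  induction k, hk using Nat.le_induction with
  | base => exact h
  | succ k _ ih => exact ⟨v, v, ih, ih, Or.inl rfl⟩

namespace InH

theorem base (h : v ∈ e) (h' : v < r) : InH m r e v := ⟨0, h, h'⟩

theorem pair (ha : InH m r e a) (hb : InH m r e b) (h : G a b < r) : InH m r e (G a b) :=
  let ⟨n, ha⟩ := ha; let ⟨k, hb⟩ := hb
  ⟨max n k + 1, a, b, ha.mono (le_max_left _ _), hb.mono (le_max_right _ _), by simp [h]⟩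

theorem fst (ha : InH m r e a) : InH m r e (fst a) :=
  let ⟨n, ha⟩ := ha; ⟨n + 1, a, a, ha, ha, by simp⟩

theorem snd (ha : InH m r e a) : InH m r e (snd a) :=
  let ⟨n, ha⟩ := ha; ⟨n + 1, a, a, ha, ha, by simp⟩

theorem wit (ha : InH m r e a) : InH m r e (wit m a) :=
  let ⟨n, ha⟩ := ha; ⟨n + 1, a, a, ha, ha, by simp⟩

theorem ind {C : Ordinal.{u} → Prop} (h₀ : ∀ v ∈ e, v < r → C v)
    (h₁ : ∀ a b, C a → C b → G a b < r → C (G a b))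
    (h₂ : ∀ a, C a → C (MP_9a6faa_lc.fst a) ∧ C (MP_9a6faa_lc.snd a) ∧ C (MP_9a6faa_lc.wit m a))
    (h : InH m r e v) : C v := by
  obtain ⟨n, h⟩ := h
  induction n generalizing v with
  | zero => exact h₀ v h.1 h.2
  | succ n ih =>
    obtain ⟨a, b, ha, hb, rfl | ⟨rfl, h⟩ | rfl | rfl | rfl⟩ := h
    exacts [ih ha, h₁ _ _ (ih ha) (ih hb) h, (h₂ _ (ih ha)).1, (h₂ _ (ih ha)).2.1,
      (h₂ _ (ih ha)).2.2]

theorem lt (h : InH m r e v) : v < r :=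
  h.ind (C := (· < r)) (fun _ _ h => h) (fun _ _ _ _ h => h) fun a h =>
    ⟨(fst_le a).trans_lt h, (snd_le a).trans_lt h, (wit_le m a).trans_lt h⟩

theorem cut (h : InH m r e v) (hr : r ≤ s) (he : ∀ x ∈ e, x < r → InH m s e' x) :
    InH m s e' v :=
  h.ind he (fun _ _ ha hb h => ha.pair hb (h.trans_le hr)) fun _ h => ⟨h.fst, h.snd, h.wit⟩

theorem mono (h : InH m r e v) (hr : r ≤ s) (he : ∀ x ∈ e, x ∈ e') : InH m s e' v :=
  h.cut hr fun x h₁ h₂ => base (he x h₁) (h₂.trans_le hr)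

theorem congr {m' : Mach.{u}} (h : InH m r e v) (hm : ∀ d < r, ∀ x, P m d x ↔ P m' d x) :
    InH m' r e v :=
  h.ind (fun _ => base) (fun _ _ => pair) fun a h => ⟨h.fst, h.snd, by
    have : MP_9a6faa_lc.wit m a = MP_9a6faa_lc.wit m' a :=
      congrArg mu (funext fun _ => propext (hm _ ((fst_le a).trans_lt h.lt) _))
    exact this ▸ h.wit⟩

theorem lim (h : InH m s e v) (hs : Lim s) : ∃ r < s, InH m r e v :=
  h.ind (C := fun v => ∃ r < s, InH m r e v)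
    (fun v h₁ h₂ => ⟨v + 1, hs.2 v h₂, base h₁ (lt_add_one v)⟩)
    (fun a b ⟨r, h₁, ha⟩ ⟨t, h₂, hb⟩ h => ⟨max (max r t) (G a b + 1),
      max_lt (max_lt h₁ h₂) (hs.2 _ h),
      (ha.mono (le_max_of_le_left (le_max_left _ _)) fun _ => id).pair
        (hb.mono (le_max_of_le_left (le_max_right _ _)) fun _ => id)
        (lt_max_of_lt_right (lt_add_one _))⟩)
    fun _ ⟨r, h₁, h⟩ => ⟨⟨r, h₁, h.fst⟩, ⟨r, h₁, h.snd⟩, r, h₁, h.wit⟩

theorem succ (h : InH m (r + 1) e v) :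
    v = r ∨ InH m r (e ++ [MP_9a6faa_lc.fst r, MP_9a6faa_lc.snd r, MP_9a6faa_lc.wit m r]) v := by
  have key : ∀ x ≤ r, x ∈ e ++ [MP_9a6faa_lc.fst r, MP_9a6faa_lc.snd r, MP_9a6faa_lc.wit m r] →
      x = r ∨ InH m r (e ++ [MP_9a6faa_lc.fst r, MP_9a6faa_lc.snd r, MP_9a6faa_lc.wit m r]) x :=
    fun x h₁ h₂ => h₁.eq_or_lt.imp_right (base h₂)
  refine h.ind (C := fun v => v = r ∨ InH m r _ v)
    (fun v h₁ h₂ => key v (lt_add_one_iff.1 h₂) (by simp [h₁])) (fun a b ha hb h => ?_) ?_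
  · refine (lt_add_one_iff.1 h).eq_or_lt.imp_right fun h => ?_
    exact (ha.resolve_left ((left_le_G a b).trans_lt h).ne).pair
      (hb.resolve_left ((right_le_G a b).trans_lt h).ne) h
  · rintro a (rfl | h)
    · exact ⟨key _ (fst_le _) (by simp), key _ (snd_le _) (by simp), key _ (wit_le _ _) (by simp)⟩
    · exact ⟨Or.inr h.fst, Or.inr h.snd, Or.inr h.wit⟩

theorem countable (m : Mach.{u}) (r : Ordinal.{u}) (e : OL.{u}) : {v | InH m r e v}.Countable := by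
  have : ∀ n, {v | HN m r e n v}.Countable := fun n => by
    induction n with
    | zero => exact (List.finite_toSet e).countable.mono fun _ h => h.1
    | succ n ih =>
      refine ((((ih.union (ih.image2 ih G)).union (ih.image MP_9a6faa_lc.fst)).union
        (ih.image MP_9a6faa_lc.snd)).union (ih.image (MP_9a6faa_lc.wit m))).mono ?_
      rintro v ⟨a, b, ha, hb, rfl | ⟨rfl, h⟩ | rfl | rfl | rfl⟩
      exacts [Or.inl (Or.inl (Or.inl (Or.inl ha))),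
        Or.inl (Or.inl (Or.inl (Or.inr ⟨a, ha, b, hb, rfl⟩))),
        Or.inl (Or.inl (Or.inr ⟨a, ha, rfl⟩)), Or.inl (Or.inr ⟨a, ha, rfl⟩), Or.inr ⟨a, ha, rfl⟩]
  exact (countable_iUnion this).mono fun v ⟨n, h⟩ => mem_iUnion.2 ⟨n, h⟩

end InH

/-- Finitely many small parameters can be replaced by one. -/
theorem InH.compress {y : Ordinal.{u}} (hy : Gcl y) (hs : y ≤ s) (p l : OL.{u})
    (hl : ∀ x ∈ l, x < s → ∃ b < y, InH m s (b :: p) x) :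
    ∃ b < y, ∀ x ∈ l, x < s → InH m s (b :: p) x := by
  induction l with
  | nil => exact ⟨0, hy.pos, by simp⟩
  | cons x l ih =>
    obtain ⟨b, h₁, h₂⟩ := ih fun z hz => hl z (List.mem_cons_of_mem _ hz)
    by_cases hx : x < s
    · obtain ⟨c, h₃, h₄⟩ := hl x List.mem_cons_self hx
      have h₅ : InH m s (G b c :: p) (G b c) := base (by simp) ((hy.G h₁ h₃).trans_le hs)
      refine ⟨G b c, hy.G h₁ h₃, fun z hz h₆ => ?_⟩
      rcases List.mem_cons.1 hz with rfl | hz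
      · refine h₄.cut le_rfl fun w hw h₇ => ?_
        rcases List.mem_cons.1 hw with rfl | hw
        exacts [by simpa using h₅.snd, base (by simp [hw]) h₇]
      · refine (h₂ z hz h₆).cut le_rfl fun w hw h₇ => ?_
        rcases List.mem_cons.1 hw with rfl | hw
        exacts [by simpa using h₅.fst, base (by simp [hw]) h₇]
    · exact ⟨b, h₁, fun z hz h₃ => h₂ z ((List.mem_cons.1 hz).resolve_left
        fun e => hx (e ▸ h₃)) h₃⟩

/-- Hypotheses of condensation. -/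
structure Cond (m : Mach.{u}) (s : Ordinal.{u}) (H : Ordinal.{u} → Prop) : Prop where
  lt : ∀ {x}, H x → x < s
  pair : ∀ {a b}, H a → H b → G a b < s → H (G a b)
  fst : ∀ {a}, H a → H (fst a)
  snd : ∀ {a}, H a → H (snd a)
  wit : ∀ {a}, H a → H (wit m a)
  nat : ∀ x < Ordinal.omega0, H x
  fix : ∀ X Y : Ordinal.{u} → Prop, (∀ y, H y → col H y = y → X y → Y y) → m.Q X → m.Q Y

namespace Cond

variable {H : Ordinal.{u} → Prop} (h : Cond m s H) {c d x y : Ordinal.{u}}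
include h

omit h in
theorem col_ML {a' b' : Ordinal.{u}} (ha : H a) (hb : H b) (ha' : H a') (hb' : H b') :
    ML (col H a) (col H b) (col H a') (col H b') ↔ ML a b a' b' := by
  have mx : ∀ x y, max (col H x) (col H y) = col H (max x y) := fun x y =>
    (Monotone.map_max fun _ _ => col_mono).symm
  have hm : ∀ {x y}, H x → H y → H (max x y) := fun {x y} hx hy => by
    rcases max_choice x y with e | e <;> rwa [e]
  have eq : ∀ {x y}, H x → H y → (col H x = col H y ↔ x = y) := fun hx hy =>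
    ⟨col_inj hx hy, congrArg _⟩
  simp only [ML, mx, col_lt_iff (hm ha hb), col_lt_iff ha, col_lt_iff hb, eq ha ha',
    eq (hm ha hb) (hm ha' hb')]

theorem col_G (ha : H a) (hb : H b) (hs : G a b < s) : col H (G a b) = G (col H a) (col H b) :=
  G_iso (A := {x // H x}) (fun x => col H x.1) (fun c a b => c.1 = G a.1 b.1)
    (fun c => ⟨⟨_, h.fst c.2⟩, ⟨_, h.snd c.2⟩, (G_fst_snd _).symm⟩)
    (fun {c a b c' a' b'} e e' => by
      rw [col_lt_iff c.2, col_ML a.2 b.2 a'.2 b'.2, e, e', G_lt_iff])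
    (fun {c a b a' b'} e hl => ⟨⟨_, h.pair a'.2 b'.2 ((G_lt_iff.2
      ((col_ML a'.2 b'.2 a.2 b.2).1 hl)).trans (e ▸ h.lt c.2))⟩, rfl⟩)
    (fun _ _ hv => let ⟨z, _, h₁, h₂⟩ := col_surj hv; ⟨⟨z, h₁⟩, h₂⟩)
    (c := ⟨_, h.pair ha hb hs⟩) (a := ⟨a, ha⟩) (b := ⟨b, hb⟩) rfl

theorem col_fst (ha : H a) : MP_9a6faa_lc.fst (col H a) = col H (MP_9a6faa_lc.fst a) := by
  rw [← G_fst_snd a, h.col_G (h.fst ha) (h.snd ha) (by simpa using h.lt ha)]; simp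

theorem col_snd (ha : H a) : MP_9a6faa_lc.snd (col H a) = col H (MP_9a6faa_lc.snd a) := by
  rw [← G_fst_snd a, h.col_G (h.fst ha) (h.snd ha) (by simpa using h.lt ha)]; simp

theorem col_nat (ha : H a) (n : ℕ) : col H a = n ↔ a = n := by
  have hn := Ordinal.natCast_lt_omega0 n
  have : col H n = n := col_eq_self fun z hz => h.nat z (hz.trans hn)
  exact ⟨fun e => col_inj ha (h.nat _ hn) (e.trans this.symm), fun e => e ▸ this⟩

theorem G_lt (ha : H a) (hb : H b) (hc : c ≤ s) : G (col H a) (col H b) < col H c ↔ G a b < c := by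
  refine ⟨fun h' => ?_, fun h' => ?_⟩
  · obtain ⟨w, h₁, h₂, h₃⟩ := col_surj h'
    have e₁ := h.col_fst h₂
    have e₂ := h.col_snd h₂
    rw [h₃] at e₁ e₂
    rw [col_inj ha (h.fst h₂) (by simpa using e₁), col_inj hb (h.snd h₂) (by simpa using e₂)]
    simpa using h₁
  · rw [← h.col_G ha hb (h'.trans_le hc)]
    exact col_lt (h.pair ha hb (h'.trans_le hc)) h'

theorem inv2 (ha : H a) (ih : ∀ x, H x → (P m (col H a) (col H x) ↔ P m a x)) (hx : H x)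
    (hy : H y) : P m (col H a) (G (col H x) (col H y)) ↔ P m a (G x y) := by
  by_cases h' : G x y < a
  · rw [← h.col_G hx hy (h'.trans (h.lt ha)), ih _ (h.pair hx hy (h'.trans (h.lt ha)))]
  · exact iff_of_false (fun h₁ => h' ((h.G_lt hx hy (h.lt ha).le).1 (P_lt h₁)))
      fun h₁ => h' (P_lt h₁)

theorem inv3 (ha : H a) (ih : ∀ x, H x → (P m (col H a) (col H x) ↔ P m a x)) (hx : H x)
    (h' : ∃ y, P m (col H a) (G (col H x) y)) : ∃ y, P m a (G x y) := by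
  obtain ⟨y, hy⟩ := h'
  obtain ⟨z, -, h₁, rfl⟩ := col_surj ((right_le_G _ _).trans_lt (P_lt hy))
  exact ⟨z, (h.inv2 ha ih hx h₁).1 hy⟩

theorem P_inv (hd : H d) (hx : H x) : P m (col H d) (col H x) ↔ P m d x := by
  induction d using WellFoundedLT.induction generalizing x with
  | ind d ih =>
    have tg := h.col_nat (h.fst hd)
    have ha := h.fst (h.snd hd)
    have hb := h.snd (h.snd hd)
    rw [P_iff, P_iff (d := d), step, step, col_lt_iff hx]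
    refine and_congr_right fun hxd => ?_
    simp only [h.col_fst, h.col_snd, hd, hx, h.fst, h.snd]
    rcases eq_zero_or_pos (MP_9a6faa_lc.fst d) with h0 | h0
    · simp [h0, eq_comm (a := (0 : Ordinal.{u})), col_eq_self]
    have i₁ := fun x => ih _ ((fst_le _).trans_lt (snd_lt h0)) ha (x := x)
    have i₂ := fun x => ih _ ((snd_le _).trans_lt (snd_lt h0)) hb (x := x)
    refine or_congr (and_congr (by simpa using tg 1) ?_) (or_congr (and_congr (tg 2) ?_)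
      (or_congr (and_congr (tg 3) ?_) (or_congr (and_congr (tg 4) (i₁ _ (h.fst hx)))
      (or_congr (and_congr (tg 5) (h.inv2 ha i₁ (h.snd hx) (h.fst hx)))
      (or_congr (and_congr (tg 6) (h.inv2 ha i₁ (h.fst (h.fst hx)) (h.snd hx)))
      (or_congr (and_congr (tg 7) (h.inv2 ha i₁ (h.snd (h.fst hx)) (h.snd hx)))
      (or_congr (and_congr (tg 8) (and_congr (col_lt_iff hx) (i₁ _ hx)))
      (or_congr (and_congr (tg 9) (col_lt_iff (h.fst hx))) (and_congr (tg 10)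
        (ih _ ((fst_le _).trans_lt hxd) (h.fst hx) (h.snd hx)))))))))))
    · rw [i₁ _ hx, i₂ _ hx]
    · rw [h.G_lt ha hx (h.lt hd).le]
      refine and_congr_right fun h₁ => ⟨h.inv3 ha i₁ hx, fun h₂ => ?_⟩
      have h₃ := h.wit (h.pair ha hx (h₁.trans (h.lt hd)))
      rw [wit_G] at h₃
      exact ⟨_, (h.inv2 ha i₁ hx h₃).2 (mu_spec h₂)⟩
    · exact ⟨h.fix _ _ fun y hy e h₁ => (h.inv2 ha i₁ hx hy).1 (e.symm ▸ h₁),
        h.fix _ _ fun y hy e h₁ => e ▸ (h.inv2 ha i₁ hx hy).2 h₁⟩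

theorem P_inv2 (ha : H a) (hx : H x) (hy : H y) :
    P m (col H a) (G (col H x) (col H y)) ↔ P m a (G x y) :=
  h.inv2 ha (fun _ => h.P_inv ha) hx hy

theorem col_wit (hc : H c) : MP_9a6faa_lc.wit m (col H c) = col H (MP_9a6faa_lc.wit m c) := by
  rw [MP_9a6faa_lc.wit, h.col_fst hc, h.col_snd hc]
  by_cases h' : ∃ y, P m (MP_9a6faa_lc.fst c) (G (MP_9a6faa_lc.snd c) y)
  · refine mu_eq ((h.P_inv2 (h.fst hc) (h.snd hc) (h.wit hc)).2 (mu_spec h')) fun z hz h₁ => ?_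
    obtain ⟨y, h₂, h₃, rfl⟩ := col_surj hz
    exact not_of_lt_mu h₂ ((h.P_inv2 (h.fst hc) (h.snd hc) h₃).1 h₁)
  · rw [mu_neg fun h₁ => h' (h.inv3 (h.fst hc) (fun _ => h.P_inv (h.fst hc)) (h.snd hc) h₁),
      MP_9a6faa_lc.wit, mu_neg h', col_eq_self (by simp)]

end Cond

open Classical in
/-- The collapse, extended by the identity. -/
noncomputable def colx (s : Ordinal.{u}) (H : Ordinal.{u} → Prop) (x : Ordinal.{u}) : Ordinal.{u} :=
  if x < s then col H x else x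

theorem colx_le (H : Ordinal.{u} → Prop) (x : Ordinal.{u}) : colx s H x ≤ x := by
  unfold colx; split_ifs
  exacts [col_le _ _, le_rfl]

theorem Cond.inH {H : Ordinal.{u} → Prop} (h : Cond m s H) (hr : r ≤ s)
    (he : ∀ x ∈ e, x < s → H x) (hv : InH m r e v) :
    H v ∧ InH m (col H r) (e.map (colx s H)) (col H v) := by
  refine hv.ind (C := fun v => H v ∧ InH m (col H r) (e.map (colx s H)) (col H v))
    (fun x h₁ h₂ => ?_) (fun a b ha hb h₁ => ?_) fun a ha => ?_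
  · have h₃ := h₂.trans_le hr
    exact ⟨he x h₁ h₃, InH.base (List.mem_map.2 ⟨x, h₁, if_pos h₃⟩) (col_lt (he x h₁ h₃) h₂)⟩
  · refine ⟨h.pair ha.1 hb.1 (h₁.trans_le hr), ?_⟩
    rw [h.col_G ha.1 hb.1 (h₁.trans_le hr)]
    exact ha.2.pair hb.2 ((h.G_lt ha.1 hb.1 hr).2 h₁)
  · exact ⟨⟨h.fst ha.1, h.col_fst ha.1 ▸ ha.2.fst⟩, ⟨h.snd ha.1, h.col_snd ha.1 ▸ ha.2.snd⟩,
      h.wit ha.1, h.col_wit ha.1 ▸ ha.2.wit⟩

theorem Cond.QL {H : Ordinal.{u} → Prop} (h : Cond m s H) {R S : OL.{u} → Prop}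
    (hR : ∀ e : OL.{u}, (∀ x ∈ e, x < s → H x) → R e → S (e.map (colx s H))) {k : ℕ}
    (he : ∀ x ∈ e, x < s → H x) (h' : QL m R k e) : QL m S k (e.map (colx s H)) := by
  induction k generalizing e with
  | zero => exact hR e he h'
  | succ k ih =>
    refine h.fix _ _ (fun y hy e₁ h₁ => ?_) h'
    have := ih (e := y :: e) (by simpa [hy] using he) h₁
    rwa [List.map_cons, colx, if_pos (h.lt hy), e₁] at this

/-- A collapse that fixes a list and the top fixes its hull. -/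
theorem Cond.fixes {H : Ordinal.{u} → Prop} (h : Cond m s H) (hs : col H s = s)
    (he : ∀ x ∈ e, x < s → H x) (he' : e.map (colx s H) = e) (hv : InH m s e v) :
    H v ∧ col H v = v := by
  have key : ∀ {v}, InH m s e v → H v ∧ InH m s e (col H v) := fun hv => by
    simpa only [hs, he'] using h.inH le_rfl he hv
  refine ⟨(key hv).1, ?_⟩
  induction v using WellFoundedLT.induction with
  | ind v ih =>
    refine (col_le H v).eq_or_lt.resolve_right fun h₁ => ?_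
    exact (col_lt (key (key hv).2).1 h₁).ne (ih _ h₁ (key hv).2)

@[fun_prop] theorem FO.tm_InH {I : Type} {V : Type v} {𝒜 : FO.{u, v} I V} {Γ : Type*} [Cd 𝒜 Γ]
    [Cd 𝒜 Mach.{u}] [HasQ 𝒜] [HasSep 𝒜] {m : Γ → Mach.{u}} {r v : Γ → Ordinal.{u}}
    {e : Γ → OL.{u}} (hm : 𝒜.Tm m) (hr : 𝒜.Tm r) (he : 𝒜.Tm e) (hv : 𝒜.Tm v) :
    𝒜.Tm (fun z => InH (m z) (r z) (e z) (v z)) := by
  have := tm_grec (𝒜 := 𝒜) (A := ℕ × Ordinal.{u}) (fun a => a.1) (fun a => a.2) (by fun_prop)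
    (by fun_prop) (fun _ _ h h' => Prod.ext (Nat.cast_injective h) h')
    (fun (g : Γ) a => HN (m g) (r g) (e g) a.1 a.2)
    (fun g X z => (z.1 = 0 ∧ z.2 ∈ e g ∧ z.2 < r g) ∨ ∃ n, z.1 = n + 1 ∧ ∃ a b, X (n, a) ∧
      X (n, b) ∧ (z.2 = a ∨ (z.2 = G a b ∧ z.2 < r g) ∨ z.2 = fst a ∨ z.2 = snd a ∨
        z.2 = wit (m g) a))
    (fun g a x => x.1 < a.1 ∧ x.2 < r g) (by fun_prop)
    (fun g a => by
      obtain ⟨_ | n, v⟩ := a
      · simp [HN]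
      · have : ∀ a, (a < r g ∧ HN (m g) (r g) (e g) n a) ↔ HN (m g) (r g) (e g) n a :=
          fun a => and_iff_right_of_imp fun h => InH.lt ⟨n, h⟩
        simp [HN, this])
    (fun X hX => by fun_prop) (fun _ _ _ h => Nat.cast_lt.2 h.1) (fun g _ a =>
      ⟨max (r g) (a.2 + 1), lt_max_of_lt_right (lt_add_one _),
        fun _ _ _ _ h => lt_max_of_lt_left h.2⟩)
  exact tm_ex (this.comp (f := fun z : Γ × ℕ => (z.1, z.2, v z.1)) (by fun_prop))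

end Pool.Agent.MP_9a6faa_lc

end

section

namespace Pool.Agent.MP_9a6faa_lc

open Set Order FO Filter

universe u v w

theorem exists_dec (l : OL.{u}) : ∃ s : OL.{u}, Dec s ∧ ∀ x, x ∈ s ↔ x ∈ l :=
  ⟨l.toFinset.sort (· ≥ ·), (Finset.sortedGT_sort _).pairwise, by simp⟩

def Gd (m : Mach.{u}) (r : Ordinal.{u}) (p : OL.{u}) (b v : Ordinal.{u}) : Prop :=
  ∃ k : ℕ, QL m (fun l => InH m r l v) k (b :: p)

def Cov (m : Mach.{u}) (r : Ordinal.{u}) (p : OL.{u}) (r' : Ordinal.{u}) (p' : OL.{u})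
    (a : Ordinal.{u}) : Prop := ∀ b < a, ∀ v < a, Gd m r p b v → Gd m r' p' b v

def NR (m : Mach.{u}) (g r : Ordinal.{u}) : Prop :=
  ∀ a < m.κ, ∀ p, ∃ r' < g, ∃ p', Cov m r p r' p' a

def Base (m : Mach.{u}) (g : Ordinal.{u}) (t : Prop) (v : Ordinal.{u}) (e : OL.{u}) : Prop :=
  (t ∧ InH m g e v) ∨ (¬ t ∧ v < g ∧ ∃ z x, e = [z, x] ∧ P m v (G x z))

/-- The covering property of the hierarchy. -/
def Star (m : Mach.{u}) : Prop := ∀ g, m.κ ≤ g → (∀ r, NR m g r) ∨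
  ∃ s p, Lim s ∧ (∀ r < s, NR m g r) ∧ ∀ (t : Prop) (k : ℕ) v e,
    m.Q (fun z => QL m (fun l => Base m g t v l) k (z :: e)) → ∃ n < m.κ, ∀ a, n ≤ a → a < m.κ →
      LimCl a → ¬ QL m (fun l => Base m g t v l) k (a :: e) →
        ∃ y < a, ∀ x < a, ∃ b < y, Gd m s p b x

namespace FO

variable {I : Type} {V : Type v} {𝒜 : FO.{u, v} I V} {Γ : Type*} [Cd 𝒜 Γ]
variable [Cd 𝒜 Mach.{u}] [HasQ 𝒜] [HasSep 𝒜] {m : Γ → Mach.{u}}

@[fun_prop] theorem tm_Gd {r b v : Γ → Ordinal.{u}} {p : Γ → OL.{u}} (hm : 𝒜.Tm m) (hr : 𝒜.Tm r)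
    (hp : 𝒜.Tm p) (hb : 𝒜.Tm b) (hv : 𝒜.Tm v) :
    𝒜.Tm (fun z => Gd (m z) (r z) (p z) (b z) (v z)) := by
  unfold Gd; fun_prop

@[fun_prop] theorem tm_NR {g r : Γ → Ordinal.{u}} (hm : 𝒜.Tm m) (hg : 𝒜.Tm g) (hr : 𝒜.Tm r) :
    𝒜.Tm (fun z => NR (m z) (g z) (r z)) := by
  unfold NR Cov; fun_prop

@[fun_prop] theorem tm_Base {g v : Γ → Ordinal.{u}} {t : Γ → Prop} {e : Γ → OL.{u}} (hm : 𝒜.Tm m)
    (hg : 𝒜.Tm g) (ht : 𝒜.Tm t) (hv : 𝒜.Tm v) (he : 𝒜.Tm e) :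
    𝒜.Tm (fun z => Base (m z) (g z) (t z) (v z) (e z)) := by
  unfold Base; fun_prop

theorem tm_Star : 𝒜.Tm (fun m : Mach.{u} => Star m) := by
  unfold Star; fun_prop

end FO

variable {m : Mach.{u}} {g r s : Ordinal.{u}} {p : OL.{u}} {H : Ordinal.{u} → Prop}

theorem NR.succ (h : NR m g r) (hr : m.κ ≤ r) : NR m g (r + 1) := fun a ha p => by
  obtain ⟨r', h₁, p', h₂⟩ := h a ha (p ++ [fst r, snd r, wit m r])
  refine ⟨r', h₁, p', fun b hb v hv ⟨k, hk⟩ => h₂ b hb v hv ⟨k, hk.mono' fun l _ h => ?_⟩⟩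
  simpa using h.succ.resolve_left (hv.trans (ha.trans_le hr)).ne

theorem Cond.base (h : Cond m s H) (hg : g ≤ s) (hg' : col H g = g) {t : Prop} {v : Ordinal.{u}}
    (hv : v < s → H v ∧ col H v = v) (e : OL.{u}) (he : ∀ x ∈ e, x < s → H x)
    (hb : Base m g t v e) : Base m g t v (e.map (colx s H)) := by
  rcases hb with ⟨ht, hb⟩ | ⟨ht, h₁, z, x, rfl, h₂⟩
  · refine Or.inl ⟨ht, ?_⟩
    simpa only [hg', (hv (hb.lt.trans_le hg)).2] using (h.inH hg he hb).2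
  · have h₃ := h₁.trans_le hg
    have hz := ((right_le_G _ _).trans_lt (P_lt h₂)).trans h₃
    have hx := ((left_le_G _ _).trans_lt (P_lt h₂)).trans h₃
    refine Or.inr ⟨ht, h₁, col H z, col H x, by simp [colx, hz, hx], ?_⟩
    rw [← (hv h₃).2]
    exact (h.P_inv2 (hv h₃).1 (he x (by simp) hx) (he z (by simp) hz)).2 h₂

namespace Meas

variable (μ : Meas.{u})

theorem cond {y : Ordinal.{u}} (hy : Gcl y) (hs : μ.κ ≤ s) {Z : Ordinal.{u} → Prop}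
    (hZ : ∀ᶠ z in (μ.U : Filter Ordinal.{u}), Z z)
    (hH : ∀ v, H v ↔ ∃ e : OL.{u}, (∀ x ∈ e, x < y ∨ Z x ∨ x ∈ p) ∧ InH μ.mach s e v) :
    Cond μ.mach s H := by
  have hZ' : ∀ᶠ z in (μ.U : Filter Ordinal.{u}), H z := (hZ.and μ.hκ).mono fun z hz =>
    (hH z).2 ⟨[z], by simp [hz.1], InH.base (by simp) (hz.2.trans_le hs)⟩
  have fix : ∀ᶠ z in (μ.U : Filter Ordinal.{u}), col H z = z := by
    by_contra h
    obtain ⟨v, hv⟩ := μ.regress ((Ultrafilter.eventually_not.2 h).mono fun z hz =>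
      (col_le H z).lt_of_ne hz)
    obtain ⟨a, h₁, h₂, h₃⟩ := (hv.and (hZ'.and μ.hκ)).exists
    obtain ⟨b, h₄, h₅⟩ := (hv.and (μ.hI a h₃)).exists
    exact (col_lt h₂ h₅).ne (h₁.trans h₄.symm)
  simp only [funext fun v => propext (hH v)] at hZ' fix ⊢
  refine ⟨fun ⟨_, _, h⟩ => h.lt, fun ⟨e, h₁, h₂⟩ ⟨e', h₃, h₄⟩ h => ⟨e ++ e', fun x hx =>
    (List.mem_append.1 hx).elim (h₁ x) (h₃ x), (h₂.mono le_rfl fun _ => List.mem_append_left _).pair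
      (h₄.mono le_rfl fun _ => List.mem_append_right _) h⟩, fun ⟨e, h₁, h₂⟩ => ⟨e, h₁, h₂.fst⟩,
    fun ⟨e, h₁, h₂⟩ => ⟨e, h₁, h₂.snd⟩, fun ⟨e, h₁, h₂⟩ => ⟨e, h₁, h₂.wit⟩,
    fun x hx => ⟨[x], by simp [hx.trans hy.1], InH.base (by simp) (hx.trans (μ.hω.trans_le hs))⟩,
    fun X Y h hX => (Eventually.and hX (hZ'.and fix)).mono fun z hz => h z hz.2.1 hz.2.2 hz.1⟩

theorem exists_hull {n y : Ordinal.{u}} (hy : Gcl y) (hn : n ≤ y) (hk : y < μ.κ) (hs : μ.κ ≤ s)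
    (h₁ : ∀ r < s, NR μ.mach g r) (h₂ : ¬ ∃ r' < g, ∃ p', Cov μ.mach s p r' p' n)
    (h₃ : ∀ q, encL q < encL p → ∃ r' < g, ∃ p', Cov μ.mach s q r' p' n)
    {X : Ordinal.{u} → Prop} (hX : ∀ᶠ z in (μ.U : Filter Ordinal.{u}), X z) :
    ∃ H z, Cond μ.mach s H ∧ col H s = s ∧ p.map (colx s H) = p ∧ (∀ x < y, H x) ∧
      (∀ x ∈ p, x < s → H x) ∧ (∀ v, H v → ∃ b < μ.κ, InH μ.mach s (b :: p) (col H v)) ∧
      H z ∧ X z ∧ y < z ∧ ∀ w < z, H w → ∃ b < y, Gd μ.mach s p b w := by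
  have : ∀ w b (k : ℕ), ∃ Z : Ordinal.{u} → Prop, (∀ᶠ z in (μ.U : Filter Ordinal.{u}), Z z) ∧
      ∀ l : OL.{u}, Dec l → (∀ x ∈ l, Z x) → l.length = k → InH μ.mach s (l ++ b :: p) w →
        Gd μ.mach s p b w := fun w b k => by
    by_cases h : QL μ.mach (fun l => InH μ.mach s l w) k (b :: p)
    · exact ⟨fun _ => True, by simp, fun _ _ _ _ _ => ⟨k, h⟩⟩
    · obtain ⟨Z, h₁, h₂⟩ := QL_hom (QL_not.2 h)
      exact ⟨Z, h₁, fun l h₃ h₄ h₅ h₆ => absurd h₆ (h₂ l h₃ h₄ h₅)⟩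
  choose Y hY hY' using this
  obtain ⟨Z, hZ⟩ : ∃ Z : Ordinal.{u} → Prop, ∀ z, Z z ↔
    X z ∧ y < z ∧ z < μ.κ ∧ ∀ w < z, ∀ b < y, ∀ k, Y w b k z := ⟨_, fun _ => Iff.rfl⟩
  have hZU : ∀ᶠ z in (μ.U : Filter Ordinal.{u}), Z z := by
    simp only [hZ]
    exact hX.and ((μ.hI y hk).and (μ.hκ.and (μ.diag _ fun w _ => μ.compl hk fun b _ =>
      μ.ctbl fun k => hY w b k)))
  obtain ⟨H, hH⟩ : ∃ H : Ordinal.{u} → Prop, ∀ v, H v ↔
    ∃ e : OL.{u}, (∀ x ∈ e, x < y ∨ Z x ∨ x ∈ p) ∧ InH μ.mach s e v := ⟨_, fun _ => Iff.rfl⟩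
  have hc := μ.cond hy hs hZU hH
  have one : ∀ x < s, x < y ∨ Z x ∨ x ∈ p → H x := fun x h h' =>
    (hH x).2 ⟨[x], by simpa using h', InH.base (by simp) h⟩
  have hHy : ∀ x < y, H x := fun x hx => one x (hx.trans (hk.trans_le hs)) (Or.inl hx)
  have hHp : ∀ x ∈ p, x < s → H x := fun x h h' => one x h' (Or.inr (Or.inr h))
  have cov : Cov μ.mach s p (col H s) (p.map (colx s H)) n := fun b hb v hv ⟨k, h⟩ => by
    have e : ∀ x < n, col H x = x := fun x hx =>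
      col_eq_self fun z hz => hHy z (hz.trans (hx.trans_le hn))
    have := hc.QL (S := fun l => InH μ.mach (col H s) l v) (fun e' he h =>
      e v hv ▸ (hc.inH le_rfl he h).2) (by simpa [hHy b (hb.trans_le hn)] using hHp) h
    rw [List.map_cons, colx, if_pos (hb.trans_le (hn.trans (hk.le.trans hs))), e b hb] at this
    exact ⟨k, this⟩
  have e₁ : col H s = s := (col_le H s).eq_or_lt.resolve_right fun h => by
    obtain ⟨r', h₄, p', h₅⟩ := h₁ _ h n (hn.trans_lt hk) (p.map (colx s H))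
    exact h₂ ⟨r', h₄, p', fun b hb v hv h => h₅ b hb v hv (cov b hb v hv h)⟩
  have e₂ : p.map (colx s H) = p := encL_inj <|
    (encL_map_le (colx_le H) p).eq_or_lt.resolve_right fun h => by
      obtain ⟨r', h₄, p', h₅⟩ := h₃ _ h
      exact h₂ ⟨r', h₄, p', fun b hb v hv h => h₅ b hb v hv
        (by simpa only [e₁] using cov b hb v hv h)⟩
  obtain ⟨h₄, h₅, h₆, -⟩ := (hZ _).1 (mu_spec hZU.exists)
  refine ⟨H, mu Z, hc, e₁, e₂, hHy, hHp, fun v hv => ?_,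
    one _ (h₆.trans_le hs) (Or.inr (Or.inl (mu_spec hZU.exists))), h₄, h₅, fun w hw h => ?_⟩
  · obtain ⟨e, he, h⟩ := (hH v).1 hv
    have := (hc.inH le_rfl (fun x hx h => one x h (he x hx)) h).2
    rw [e₁] at this
    obtain ⟨b, hb, h⟩ := InH.compress (m := μ.mach) μ.gcl hs p (e.map (colx s H)) fun x hx h => by
      obtain ⟨x, h₇, rfl⟩ := List.mem_map.1 hx
      rcases he x h₇ with h₈ | h₈ | h₈
      · exact ⟨_, (colx_le H x).trans_lt (h₈.trans hk), InH.base List.mem_cons_self h⟩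
      · exact ⟨_, (colx_le H x).trans_lt ((hZ x).1 h₈).2.2.1, InH.base List.mem_cons_self h⟩
      · exact ⟨0, μ.gcl.pos, InH.base (List.mem_cons_of_mem _ (e₂ ▸ List.mem_map_of_mem h₈)) h⟩
    exact ⟨b, hb, this.cut le_rfl h⟩
  · classical
    obtain ⟨e, he, h⟩ := (hH w).1 h
    obtain ⟨l, hl, hl'⟩ := exists_dec (e.filter Z)
    obtain ⟨b, hb, h₇⟩ := InH.compress (m := μ.mach) hy (hk.le.trans hs) (l ++ p) e fun x hx h => by
      rcases he x hx with h₈ | h₈ | h₈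
      · exact ⟨x, h₈, InH.base (by simp) h⟩
      · exact ⟨0, hy.pos, InH.base (by simp [hl', hx, h₈]) h⟩
      · exact ⟨0, hy.pos, InH.base (by simp [h₈]) h⟩
    refine ⟨b, hb, hY' w b _ l hl (fun x hx => ?_) rfl
      ((h.cut le_rfl h₇).mono le_rfl fun x => by simp; tauto)⟩
    have h₈ : Z x := by simpa using (List.mem_filter.1 ((hl' x).1 hx)).2
    exact ((hZ x).1 h₈).2.2.2 w (hw.trans_le (mu_le h₈)) b hb _

variable {μ} in
theorem fix_gd (h : Cond μ.mach s H) (hs : col H s = s) {b v : Ordinal.{u}}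
    (hp : p.map (colx s H) = p) (hp' : ∀ x ∈ p, x < s → H x) (hb : ∀ x ≤ b, H x)
    (hv : Gd μ.mach s p b v) : H v ∧ col H v = v := by
  obtain ⟨k, hv⟩ := hv
  obtain ⟨l, h₁, h₂⟩ := hv.exists (A := fun y => H y ∧ col H y = y) fun X hX =>
    Eventually.exists (h.fix X _ (fun y h₁ h₂ h₃ => ⟨⟨h₁, h₂⟩, h₃⟩) hX)
  refine h.fixes hs (fun x hx h₃ => ?_) ?_ h₂
  · rcases List.mem_append.1 hx with hx | hx
    · exact (h₁ x hx).1
    · rcases List.mem_cons.1 hx with rfl | hx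
      exacts [hb _ le_rfl, hp' x hx h₃]
  · rw [List.map_append, List.map_cons, hp, colx, if_pos (h.lt (hb b le_rfl)),
      col_eq_self fun z hz => hb z hz.le, List.map_congr_left (g := id), List.map_id]
    exact fun x hx => (if_pos (h.lt (h₁ x hx).1)).trans (h₁ x hx).2

theorem star : Star μ.mach := fun g hg => by
  refine or_iff_not_imp_left.2 fun h => ?_
  obtain ⟨s, hs, h₁⟩ := wellFounded_lt.has_min {r | ¬ NR μ.mach g r} (not_forall.1 h)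
  replace h₁ : ∀ r < s, NR μ.mach g r := fun r hr => not_not.1 fun h => h₁ r h hr
  have hgs : g ≤ s := not_lt.1 fun h => hs fun a _ p => ⟨s, h, p, fun _ _ _ _ => id⟩
  have hks : μ.κ ≤ s := hg.trans hgs
  have hl : Lim s := ⟨μ.gcl.pos.trans_le hks, fun x hx => (add_one_le_iff.2 hx).lt_of_ne fun e => by
    rcases lt_or_ge x μ.κ with h | h
    · exact (μ.gcl.succ h).not_ge (e ▸ hks)
    · exact hs (e ▸ (h₁ x hx).succ h)⟩
  simp only [mem_ofPred_eq, NR, not_forall] at hs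
  obtain ⟨n, hn, hs⟩ := hs
  obtain ⟨p, h₂, h₃⟩ := (InvImage.wf encL wellFounded_lt).has_min
    {p | ¬ ∃ r' < g, ∃ p', Cov μ.mach s p r' p' n} hs
  replace h₃ : ∀ q, encL q < encL p → ∃ r' < g, ∃ p', Cov μ.mach s q r' p' n :=
    fun q hq => not_not.1 fun h => h₃ q h hq
  refine ⟨s, p, hl, h₁, fun t k v e hQ => ?_⟩
  obtain ⟨b₀, hb₀, h₀⟩ := InH.compress (m := μ.mach) μ.gcl hks p (g :: v :: e) fun c _ hc => by
    obtain ⟨y, h₄, h₅, h₆⟩ := μ.limCl n hn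
    obtain ⟨H, -, -, e₁, -, -, -, h, -⟩ := μ.exists_hull h₆ h₅.le h₄ hks h₁ h₂ h₃ μ.hκ
    obtain ⟨w, -, h₇, rfl⟩ := col_surj (e₁.symm ▸ hc : c < col H s)
    exact h w h₇
  refine ⟨max n b₀ + 1, μ.gcl.succ (max_lt hn hb₀), fun a h₄ h₅ h₆ h₇ => ?_⟩
  rw [add_one_le_iff, max_lt_iff] at h₄
  obtain ⟨w, h₈, b, hb, hw⟩ : ∃ w, (a ≤ w ∧ w < μ.κ) ∧ ∃ b < a, Gd μ.mach s p b w := by
    by_contra h'
    obtain ⟨H, z, hc, e₁, e₂, hy, hp, -, hz, hX, hyz, hw⟩ := μ.exists_hull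
      (h₆.gcl (zero_le.trans_lt h₄.1)) h₄.1.le h₅ hks h₁ h₂ h₃ (Eventually.and hQ μ.hκ)
    have fx : ∀ x ∈ g :: v :: e, x < s → H x ∧ col H x = x := fun x hx h => fix_gd hc e₁ e₂ hp
      (fun y h => hy y (h.trans_lt h₄.2)) ⟨0, h₀ x hx h⟩
    have e₃ : col H z = a := by
      refine le_antisymm (le_of_forall_lt fun x hx => ?_) ((col_eq_self hy).ge.trans
        (col_mono hyz.le))
      obtain ⟨w, h₈, h₉, h⟩ := lt_col.1 hx
      exact (h.trans (col_le H w)).trans_lt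
        (not_le.1 fun h => h' ⟨w, ⟨h, h₈.trans hX.2⟩, hw w h₈ h₉⟩)
    have := hc.QL (hc.base hgs (hgs.eq_or_lt.elim (fun e => e ▸ e₁)
      fun h => (fx g (by simp) h).2) (fx v (by simp))) (e := z :: e)
      (by simpa [hz] using fun x hx h => (fx x (by simp [hx]) h).1) hX.1
    rw [List.map_cons, colx, if_pos (hc.lt hz), e₃, List.map_congr_left (g := id),
      List.map_id] at this
    · exact h₇ this
    · intro x hx
      by_cases h : x < s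
      exacts [(if_pos h).trans (fx x (by simp [hx]) h).2, if_neg h]
  obtain ⟨y, h₉, hby, hny, hy⟩ := h₆.two hb h₄.1
  obtain ⟨H, z, hc, e₁, e₂, hH, hp, -, -, hX, -, h⟩ := μ.exists_hull hy hny.le (h₉.trans h₅) hks
    h₁ h₂ h₃ (μ.hI w h₈.2)
  refine ⟨y, h₉, fun x hx => ?_⟩
  obtain ⟨x', h₁₀, h₁₁, rfl⟩ := col_surj ((hx.trans_le h₈.1).trans_eq
    (fix_gd hc e₁ e₂ hp (fun y h => hH y (h.trans_lt hby)) hw).2.symm)
  obtain ⟨b', hb', h'⟩ := h x' (h₁₀.trans hX) h₁₁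
  exact ⟨b', hb', (fix_gd hc e₁ e₂ hp (fun y h => hH y (h.trans_lt hb')) h').2.symm ▸ h'⟩

end Meas

end Pool.Agent.MP_9a6faa_lc

end

section

namespace Pool.Agent.MP_9a6faa_lc

open Set Order FO Filter

universe u v w

abbrev Asg := Ordinal.{u} → Ordinal.{u}

/-- Increasing assignments into `Z`. -/
def Gh (s : OL.{u}) (Z : Ordinal.{u} → Prop) (h : Asg.{u}) : Prop :=
  (∀ a ∈ s, Z (h a)) ∧ ∀ a ∈ s, ∀ b ∈ s, a < b → h a < h b

/-- Dependence on finitely many coordinates. -/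
def Dep (L : OL.{u}) (Φ : Asg.{u} → Prop) : Prop := ∀ h h', (∀ a ∈ L, h a = h' a) → Φ h → Φ h'

theorem Dep.not {L : OL.{u}} {Φ : Asg.{u} → Prop} (h : Dep L Φ) : Dep L (fun x => ¬ Φ x) :=
  fun _ _ e h₁ h₂ => h₁ (h _ _ (fun a ha => (e a ha).symm) h₂)

noncomputable def nxt (Z T : Ordinal.{u} → Prop) (a : Ordinal.{u}) : Ordinal.{u} :=
  mu (fun z => Z z ∧ ∀ b : Iio a, T b → nxt Z T b < z)
termination_by a
decreasing_by exact b.2

namespace Meas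

variable (μ : Meas.{u})

instance : CountableInterFilter (μ.U : Filter Ordinal.{u}) := ⟨fun S hS h => by
  rcases S.eq_empty_or_nonempty with rfl | hne
  · simp
  · obtain ⟨f, rfl⟩ := hS.exists_eq_range hne
    exact (μ.ctbl (X := fun n z => z ∈ f n) fun n => h _ ⟨n, rfl⟩).mono fun z hz =>
      show z ∈ ⋂₀ range f by simpa using hz⟩

@[fun_prop] theorem tm_ev {I : Type} {V : Type v} {𝒜 : FO.{u, v} I V} {Γ : Type*} [Cd 𝒜 Γ]
    [Cd 𝒜 Mach.{u}] [HasQ 𝒜] [Par 𝒜 μ.mach] {R : Γ → Ordinal.{u} → Prop}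
    (hR : 𝒜.Tm (fun z : Γ × Ordinal.{u} => R z.1 z.2)) :
    𝒜.Tm (fun z => Filter.Eventually (fun y => R z y) (μ.U : Filter Ordinal.{u})) :=
  tm_Q (m := fun _ => μ.mach) (by fun_prop) hR

/-- The filter of the iterated ultrapower. -/
def AE : Filter Asg.{u} where
  sets := {Φ | ∃ (s : OL.{u}) (Z : Ordinal.{u} → Prop),
    (∀ᶠ z in (μ.U : Filter Ordinal.{u}), Z z) ∧ ∀ h, Gh s Z h → h ∈ Φ}
  univ_sets := ⟨[], fun _ => True, by simp, fun _ _ => trivial⟩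
  sets_of_superset := fun ⟨s, Z, h₁, h₂⟩ h => ⟨s, Z, h₁, fun x hx => h (h₂ x hx)⟩
  inter_sets := fun ⟨s, Z, h₁, h₂⟩ ⟨t, Y, h₃, h₄⟩ => ⟨s ++ t, _, h₁.and h₃, fun x hx =>
    ⟨h₂ x ⟨fun a ha => (hx.1 a (by simp [ha])).1,
      fun a ha b hb => hx.2 a (by simp [ha]) b (by simp [hb])⟩,
    h₄ x ⟨fun a ha => (hx.1 a (by simp [ha])).2,
      fun a ha b hb => hx.2 a (by simp [ha]) b (by simp [hb])⟩⟩⟩

variable {μ}

theorem ae_gh (s : OL.{u}) {Z : Ordinal.{u} → Prop}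
    (hZ : ∀ᶠ z in (μ.U : Filter Ordinal.{u}), Z z) : ∀ᶠ h in μ.AE, Gh s Z h :=
  ⟨s, Z, hZ, fun _ h => h⟩

theorem ae_point (Φ : ℕ → Asg.{u} → Prop) (h : ∀ n, ∀ᶠ x in μ.AE, Φ n x) : ∃ x, ∀ n, Φ n x := by
  choose s Z h₁ h₂ using h
  obtain ⟨T, hT⟩ : ∃ T : Ordinal.{u} → Prop, T = fun a => ∃ n, a ∈ s n := ⟨_, rfl⟩
  obtain ⟨Y, hY⟩ : ∃ Y : Ordinal.{u} → Prop, ∀ z, Y z ↔ z < μ.κ ∧ ∀ n, Z n z :=
    ⟨_, fun _ => Iff.rfl⟩
  have hc : {a | T a}.Countable := by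
    rw [hT, ofPred_exists]
    exact countable_iUnion fun n => (List.finite_toSet (s n)).countable
  have key : ∀ a, Y (nxt Y T a) ∧ ∀ b : Iio a, T b → nxt Y T b < nxt Y T a := fun a => by
    induction a using WellFoundedLT.induction with
    | ind a ih =>
      rw [nxt]
      refine mu_spec (R := fun z => Y z ∧ ∀ b : Iio a, T b → nxt Y T b < z) ?_
      have := (eventually_countable_ball (l := (μ.U : Filter Ordinal.{u}))
        (hc.mono (inter_subset_left (t := Iio a))) (p := fun z b _ => nxt Y T b < z)).2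
        fun b hb => μ.hI _ ((hY _).1 (ih b hb.2).1).1
      obtain ⟨z, h₃, h₄⟩ := ((μ.hκ.and (μ.ctbl h₁)).and this).exists
      exact ⟨z, (hY _).2 h₃, fun b hb => h₄ b ⟨hb, b.2⟩⟩
  exact ⟨nxt Y T, fun n => h₂ n _ ⟨fun a _ => ((hY _).1 (key a).1).2 n,
    fun a ha b _ h => (key b).2 ⟨a, h⟩ (hT ▸ ⟨n, ha⟩)⟩⟩

instance : μ.AE.NeBot := Filter.eventually_false_iff_eq_bot.not.1 (fun h =>
  let ⟨_, h⟩ := ae_point (fun _ _ => False) fun _ => h; h 0) |> Filter.NeBot.mk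

variable {L : OL.{u}} {Φ : Asg.{u} → Prop}

theorem dich (h : Dep L Φ) : ∃ Z : Ordinal.{u} → Prop, (∀ᶠ z in (μ.U : Filter Ordinal.{u}), Z z) ∧
    ((∀ x, Gh L Z x → Φ x) ∨ ∀ x, Gh L Z x → ¬ Φ x) := by
  obtain ⟨s, h₁, h₂⟩ := exists_dec L
  have key : ∀ {Z x}, Gh L Z x → Dec (s.map x) ∧ ∀ y ∈ s.map x, Z y := fun {Z x} hx =>
    ⟨List.pairwise_map.2 (List.Pairwise.imp_of_mem
      (fun ha hb h => hx.2 _ ((h₂ _).1 hb) _ ((h₂ _).1 ha) h) h₁),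
      List.forall_mem_map.2 fun a ha => hx.1 a ((h₂ a).1 ha)⟩
  by_cases h' : QL μ.mach (fun z => ∃ x, s.map x = z ∧ Φ x) s.length []
  · obtain ⟨Z, h₃, h₄⟩ := QL_hom h'
    refine ⟨Z, h₃, Or.inl fun x hx => ?_⟩
    obtain ⟨y, e, hy⟩ := h₄ _ (key hx).1 (key hx).2 (by simp)
    exact h _ _ (fun a ha => List.map_inj_left.1 (by simpa using e) a ((h₂ a).2 ha)) hy
  · obtain ⟨Z, h₃, h₄⟩ := QL_hom (QL_not.2 h')
    exact ⟨Z, h₃, Or.inr fun x hx h₅ => h₄ _ (key hx).1 (key hx).2 (by simp) ⟨x, by simp, h₅⟩⟩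

theorem ae_supp (h : Dep L Φ) (h' : ∀ᶠ x in μ.AE, Φ x) : ∃ Z : Ordinal.{u} → Prop,
    (∀ᶠ z in (μ.U : Filter Ordinal.{u}), Z z) ∧ ∀ x, Gh L Z x → Φ x := by
  obtain ⟨Z, h₁, h₂ | h₂⟩ := dich (μ := μ) h
  · exact ⟨Z, h₁, h₂⟩
  · obtain ⟨x, h₃, h₄⟩ := (h'.and (ae_gh L h₁)).exists
    exact absurd h₃ (h₂ x h₄)

theorem ae_not (h : Dep L Φ) : (∀ᶠ x in μ.AE, ¬ Φ x) ↔ ¬ ∀ᶠ x in μ.AE, Φ x := by
  refine ⟨fun h₁ h₂ => let ⟨_, h₃, h₄⟩ := (h₁.and h₂).exists; h₃ h₄, fun h₁ => ?_⟩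
  obtain ⟨Z, h₂, h₃ | h₃⟩ := dich (μ := μ) h
  exacts [absurd ((ae_gh L h₂).mono h₃) h₁, (ae_gh L h₂).mono h₃]

theorem fubini' {b : Ordinal.{u}} (h : Dep L Φ) (hb : ∀ a ∈ L, a ≤ b) (h' : ∀ᶠ x in μ.AE, Φ x) :
    ∀ᶠ x in μ.AE, ∀ᶠ y in (μ.U : Filter Ordinal.{u}), Φ (Function.update x b y) := by
  obtain ⟨Z, h₁, h₂⟩ := ae_supp h h'
  refine (ae_gh L (h₁.and μ.hκ)).mono fun x hx => ?_
  refine (h₁.and ((eventually_all_finite (List.finite_toSet L) (p := fun a y => x a < y)).2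
    fun a ha => μ.hI _ (hx.1 a ha).2)).mono fun y hy => h₂ _ ⟨fun a ha => ?_, fun a ha c hc h => ?_⟩
  · by_cases e : a = b
    · simpa [e] using hy.1
    · simpa [e] using (hx.1 a ha).1
  · rw [Function.update_of_ne (h.trans_le (hb c hc)).ne]
    by_cases e : c = b
    · simpa [e] using hy.2 a ha
    · simpa [e] using hx.2 a ha c hc h

theorem fubini {b : Ordinal.{u}} (h : Dep L Φ) (hb : ∀ a ∈ L, a ≤ b) : (∀ᶠ x in μ.AE, Φ x) ↔
    ∀ᶠ x in μ.AE, ∀ᶠ y in (μ.U : Filter Ordinal.{u}), Φ (Function.update x b y) := by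
  refine ⟨fubini' h hb, fun h₁ => not_not.1 fun h₂ => ?_⟩
  obtain ⟨x, h₃, h₄⟩ := (h₁.and (fubini' h.not hb ((ae_not h).2 h₂))).exists
  obtain ⟨y, h₅, h₆⟩ := (h₃.and h₄).exists
  exact h₆ h₅

theorem ae_encL (L : OL.{u}) : ∀ᶠ x in μ.AE, encL (L.map x) < μ.κ :=
  (ae_gh L μ.hκ).mono fun _ hx => μ.gcl.encL (List.forall_mem_map.2 hx.1)

theorem ae_lt {a b : Ordinal.{u}} (h : a < b) : ∀ᶠ x in μ.AE, x a < x b :=
  (ae_gh [a, b] μ.hκ).mono fun _ hx => hx.2 a (by simp) b (by simp) h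

theorem ae_mem {Z : Ordinal.{u} → Prop} (hZ : ∀ᶠ z in (μ.U : Filter Ordinal.{u}), Z z)
    (a : Ordinal.{u}) : ∀ᶠ x in μ.AE, Z (x a) :=
  (ae_gh [a] hZ).mono fun _ hx => hx.1 a (by simp)

/-! ### Definable functions of finite support -/

variable (μ) in
def FnL {α : Type*} [Cd (SS μ.mach) α] (L : OL.{u}) (e : Asg.{u} → α) : Prop :=
  ∃ F : OL.{u} → α, (SS μ.mach).Tm F ∧ ∀ x, e x = F (L.map x)

variable (μ) in
def Fn {α : Type*} [Cd (SS μ.mach) α] (b : Ordinal.{u}) (e : Asg.{u} → α) : Prop :=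
  ∃ L : OL.{u}, (∀ a ∈ L, a < b) ∧ μ.FnL L e

variable {α β : Type*} [Cd (SS μ.mach) α] [Cd (SS μ.mach) β] {b : Ordinal.{u}}
variable {e : Asg.{u} → α} {e' : Asg.{u} → β}

theorem fnL_map {K : OL.{u}} (h : ∀ a ∈ K, a ∈ L) : μ.FnL L (fun x => K.map x) := by
  induction K with
  | nil => exact ⟨fun _ => [], by fun_prop, fun _ => rfl⟩
  | cons a K ih =>
    obtain ⟨F, h₁, h₂⟩ := ih fun c hc => h c (List.mem_cons_of_mem _ hc)
    obtain ⟨i, hi, rfl⟩ := List.getElem_of_mem (h a List.mem_cons_self)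
    exact ⟨fun w => w.getD i 0 :: F w, by fun_prop, fun x => by simp [h₂ x, hi]⟩

theorem FnL.mono {K : OL.{u}} (h : μ.FnL K e) (hK : ∀ a ∈ K, a ∈ L) : μ.FnL L e := by
  obtain ⟨F, h₁, h₂⟩ := h
  obtain ⟨T, h₃, h₄⟩ := fnL_map (μ := μ) hK
  exact ⟨fun w => F (T w), h₁.comp h₃, fun x => (h₂ x).trans (congrArg F (h₄ x))⟩

theorem FnL.dep (h : μ.FnL L e) (R : α → Prop) : Dep L (fun x => R (e x)) := by
  obtain ⟨F, -, h⟩ := h
  intro x y hxy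
  simp only [h, List.map_congr_left hxy]
  exact id

theorem Fn.comp {f : α → β} (h : μ.Fn b e) (hf : (SS μ.mach).Tm f) : μ.Fn b (fun x => f (e x)) :=
  let ⟨L, h₁, F, h₂, h₃⟩ := h; ⟨L, h₁, fun w => f (F w), hf.comp h₂, fun x => congrArg f (h₃ x)⟩

theorem FnL.pair (h : μ.FnL L e) (h' : μ.FnL L e') : μ.FnL L (fun x => (e x, e' x)) :=
  let ⟨F, h₁, h₂⟩ := h; let ⟨F', h₃, h₄⟩ := h'
  ⟨fun w => (F w, F' w), h₁.pair h₃, fun x => Prod.ext (h₂ x) (h₄ x)⟩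

theorem Fn.pair (h : μ.Fn b e) (h' : μ.Fn b e') : μ.Fn b (fun x => (e x, e' x)) :=
  let ⟨L, h₁, h₂⟩ := h; let ⟨K, h₃, h₄⟩ := h'
  ⟨L ++ K, fun a ha => (List.mem_append.1 ha).elim (h₁ a) (h₃ a),
    (h₂.mono fun _ => List.mem_append_left _).pair (h₄.mono fun _ => List.mem_append_right _)⟩

theorem Fn.const (c : Ordinal.{u}) : μ.Fn b (fun _ => c) :=
  ⟨[], by simp, fun _ => c, by fun_prop, fun _ => rfl⟩

theorem Fn.map (h : ∀ a ∈ L, a < b) : μ.Fn b (fun x => L.map x) := ⟨L, h, fnL_map fun _ => id⟩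

theorem Fn.proj {a : Ordinal.{u}} (h : a < b) : μ.Fn b (fun x => x a) :=
  (Fn.map (L := [a]) (by simpa using h)).comp (f := fun w => w.headD 0) (by fun_prop)

theorem Fn.mono {c : Ordinal.{u}} (h : μ.Fn b e) (hc : b ≤ c) : μ.Fn c e :=
  let ⟨L, h₁, h₂⟩ := h; ⟨L, fun a ha => (h₁ a ha).trans_le hc, h₂⟩

theorem Fn.ae_not (h : μ.Fn b e) (R : α → Prop) :
    (∀ᶠ x in μ.AE, ¬ R (e x)) ↔ ¬ ∀ᶠ x in μ.AE, R (e x) :=
  let ⟨_, _, h⟩ := h; Meas.ae_not (h.dep R)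

theorem Fn.small (hb : Lim b) (h : μ.Fn b e) : ∃ c < b, μ.Fn c e := by
  obtain ⟨L, h₁, h₂⟩ := h
  obtain ⟨c, h₃, h₄⟩ : ∃ c < b, ∀ a ∈ L, a < c := by
    clear h₂
    induction L with
    | nil => exact ⟨0, hb.1, by simp⟩
    | cons a L ih =>
      obtain ⟨c, h₃, h₄⟩ := ih fun x hx => h₁ x (List.mem_cons_of_mem _ hx)
      exact ⟨max c (a + 1), max_lt h₃ (hb.2 a (h₁ a List.mem_cons_self)), by
        simpa using fun x hx => Or.inl (h₄ x hx)⟩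
  exact ⟨c, h₃, L, h₄, h₂⟩

/-- Fubini for a new top coordinate. -/
theorem Fn.top (h : μ.Fn b e) (R : α → Ordinal.{u} → Prop) : (∀ᶠ x in μ.AE, R (e x) (x b)) ↔
    ∀ᶠ x in μ.AE, ∀ᶠ y in (μ.U : Filter Ordinal.{u}), R (e x) y := by
  obtain ⟨L, h₁, F, -, h₂⟩ := h
  have : ∀ x y, e (Function.update x b y) = e x := fun x y => by
    rw [h₂, h₂, List.map_congr_left fun a ha => Function.update_of_ne (h₁ a ha).ne _ _]
  rw [fubini (L := b :: L) (b := b) (fun x y h => by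
    rw [h b (by simp), h₂, h₂, List.map_congr_left fun a ha => h a (by simp [ha])]; exact id)
    (by simpa using fun a ha => (h₁ a ha).le)]
  simp [this]

/-- Values below a coordinate only depend on smaller coordinates. -/
theorem Fn.drop {c : Ordinal.{u}} {e : Asg.{u} → Ordinal.{u}} (h : μ.Fn c e)
    (h' : ∀ᶠ x in μ.AE, e x < x b) : ∃ e', μ.Fn b e' ∧ ∀ᶠ x in μ.AE, e x = e' x := by
  induction c using WellFoundedLT.induction generalizing e with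
  | ind c ih =>
    obtain ⟨L, h₁, h₂⟩ := h
    by_cases h₃ : ∀ a ∈ L, a < b
    · exact ⟨e, ⟨L, h₃, h₂⟩, Eventually.of_forall fun _ => rfl⟩
    push Not at h₃
    obtain ⟨a, ha, hba⟩ := h₃
    obtain ⟨t, ht, hm⟩ := (List.finite_toSet L).toFinset.exists_max_image id ⟨a, by simpa⟩
    simp only [Finite.mem_toFinset, mem_ofPred_eq, id] at ht hm
    obtain ⟨K, hK⟩ : ∃ K : OL.{u}, K = L.filter (· ≠ t) := ⟨_, rfl⟩
    have hK' : ∀ x ∈ K, x < t := fun x hx => by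
      simp only [hK, List.mem_filter, decide_eq_true_eq] at hx
      exact (hm x hx.1).lt_of_ne hx.2
    obtain ⟨F, hF, h₄⟩ := h₂.mono (L := t :: K) fun x hx => by simp [hK, hx, em]
    have hf : μ.Fn t (fun x => mu (fun v => μ.mach.Q (fun y => F (y :: K.map x) = v))) :=
      (Fn.map hK').comp (f := fun w => mu (fun v => μ.mach.Q (fun y => F (y :: w) = v)))
        (by fun_prop)
    have h₅ : ∀ᶠ x in μ.AE, e x < x t := by
      rcases (hba.trans (hm a ha)).eq_or_lt with rfl | h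
      exacts [h', (h'.and (ae_lt h)).mono fun _ h => h.1.trans h.2]
    have h₆ : ∀ᶠ x in μ.AE, e x = mu (fun v => μ.mach.Q (fun y => F (y :: K.map x) = v)) := by
      simp only [h₄, List.map_cons] at h₅ ⊢
      refine ((Fn.map hK').top (fun w y => F (y :: w) =
        mu (fun v => μ.mach.Q (fun y => F (y :: w) = v)))).2
        ((((Fn.map hK').top (fun w y => F (y :: w) < y)).1 h₅).mono fun x hx => ?_)
      exact mu_spec (μ.regress hx)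
    obtain ⟨e', h₇, h₈⟩ := ih t (h₁ t ht) hf ((h'.and h₆).mono fun _ h => h.2 ▸ h.1)
    exact ⟨e', h₇, (h₆.and h₈).mono fun _ h => h.1.trans h.2⟩

variable (μ) in
noncomputable def valc (L : OL.{u}) (c : Ordinal.{u}) (x : Asg.{u}) : Ordinal.{u} :=
  ap μ.mach c (encL (L.map x))

theorem Fn.valc (h : ∀ a ∈ L, a < b) (c : Ordinal.{u}) : μ.Fn b (μ.valc L c) :=
  (Fn.map h).comp (f := fun w => ap μ.mach c (encL w)) (by fun_prop)

theorem Fn.rep {e : Asg.{u} → Ordinal.{u}} (h : μ.Fn b e) {B : Ordinal.{u}} (hB : Gcl B)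
    (hk : μ.κ ≤ B) (h' : ∀ᶠ x in μ.AE, e x < B) :
    ∃ L : OL.{u}, (∀ a ∈ L, a < b) ∧ ∃ c < cb μ.mach B, ∀ᶠ x in μ.AE, e x = μ.valc L c x := by
  obtain ⟨L, h₁, F, h₂, h₃⟩ := h
  obtain ⟨c, h₄, h₅⟩ := code_fun_cb (m := μ.mach) (f := fun z => F (decL z)) (by fun_prop) hB
  refine ⟨L, h₁, c, h₄, (h'.and (ae_encL L)).mono fun x hx => ?_⟩
  rw [Meas.valc, h₅ _ (hx.2.trans_le hk) (by simpa [h₃] using hx.1), decL_encL, h₃]

theorem Fn.bdd {e : Asg.{u} → Ordinal.{u}} (h : μ.Fn b e) :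
    ∃ B, Gcl B ∧ μ.κ ≤ B ∧ ∀ᶠ x in μ.AE, e x < B := by
  obtain ⟨L, -, F, -, h⟩ := h
  obtain ⟨c, hc⟩ := bound_fun μ.κ (fun z => F (decL z))
  obtain ⟨B, h₁, h₂, h₃⟩ := exists_gcl₂ c μ.κ
  exact ⟨B, h₃, h₂.le, (ae_encL L).mono fun x hx => by simpa [h] using (hc _ hx).trans h₁⟩

end Meas

end Pool.Agent.MP_9a6faa_lc

end

section

namespace Pool.Agent.MP_9a6faa_lc

open Set Order FO Filter

universe u v w

noncomputable def dl (m : Mach.{u}) : Ordinal.{u} := mu (fun y => ∀ n : ℕ, sa m n < y)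

theorem sa_lt_dl (m : Mach.{u}) (n : ℕ) : sa m n < dl m :=
  mu_spec (R := fun y => ∀ n : ℕ, sa m n < y) (exists_bound _) n

theorem lt_dl {m : Mach.{u}} {x : Ordinal.{u}} (h : x < dl m) : ∃ n : ℕ, x < sb m n := by
  have := not_of_lt_mu h
  push Not at this
  obtain ⟨n, h⟩ := this
  exact ⟨n + 1, h.trans_lt (sa_lt_sb (by simp))⟩

theorem ev_lt_sb {m : Mach.{u}} {x : Ordinal.{u}} (h : x < dl m) : ∀ᶠ n : ℕ in atTop, x < sb m n := by
  obtain ⟨n, h⟩ := lt_dl h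
  exact (eventually_gt_atTop n).mono fun k hk =>
    h.trans ((sb_lt_sa _).trans (sa_lt_sb (Nat.cast_lt.2 hk)))

theorem limCl_dl (m : Mach.{u}) : LimCl (dl m) := fun _ hx =>
  let ⟨n, h⟩ := lt_dl hx; ⟨_, sa_lt_dl m n, h.trans (sb_lt_sa _), (reg_sa _).gcl⟩

theorem th_lt_dl (m : Mach.{u}) : th m < dl m := (th_lt_sa _).trans (sa_lt_dl m 0)

theorem gcl_dl (m : Mach.{u}) : Gcl (dl m) := (limCl_dl m).gcl (zero_le.trans_lt (th_lt_dl m))

/-- The machine of the iterated ultrapower. -/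
noncomputable def Mach.it (m : Mach.{u}) : Mach.{u} :=
  ⟨dl m, fun X => ∀ᶠ n : ℕ in atTop, X (sa m n),
    fun _ _ h hX => hX.mono fun n => h _ (sa_lt_dl m n)⟩

namespace Meas

variable {μ : Meas.{u}}

theorem QL_iff_ae {s : OL.{u}} (hs : Dec s) {R : OL.{u} → Prop} :
    QL μ.mach R s.length [] ↔ ∀ᶠ x in μ.AE, R (s.map x) := by
  have key : ∀ {R : OL.{u} → Prop}, QL μ.mach R s.length [] → ∀ᶠ x in μ.AE, R (s.map x) :=
    fun h => by
      obtain ⟨Z, h₁, h₂⟩ := QL_hom h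
      exact (ae_gh s h₁).mono fun x hx => by
        simpa using h₂ (s.map x) (List.pairwise_map.2 (List.Pairwise.imp_of_mem
          (fun ha hb h => hx.2 _ hb _ ha h) hs)) (List.forall_mem_map.2 hx.1) (by simp)
  refine ⟨key, fun h => not_not.1 fun h' => ?_⟩
  obtain ⟨x, h₁, h₂⟩ := (h.and (key (QL_not.2 h'))).exists
  exact h₂ h₁

theorem tm_ae {Γ : Type*} [Cd (SS μ.mach) Γ] {R : Γ → OL.{u} → Prop} {l : Γ → OL.{u}}
    (hR : (SS μ.mach).Tm (fun z : Γ × OL.{u} => R z.1 z.2)) (hl : (SS μ.mach).Tm l) :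
    (SS μ.mach).Tm (fun z => ∀ᶠ x in μ.AE, R z ((l z).map x)) := by
  refine Tm.congrP (Q := fun z => ∃ s : OL.{u}, Dec s ∧ (∀ a, a ∈ s ↔ a ∈ l z) ∧
    QL μ.mach (fun y => ∃ w : OL.{u}, w.length = (l z).length ∧ (∀ i j : ℕ, i < (l z).length →
      j < s.length → (l z).getD i 0 = s.getD j 0 → w.getD i 0 = y.getD j 0) ∧ R z w) s.length [])
    (by fun_prop) fun z => ?_
  have key : ∀ s : OL.{u}, (∀ a, a ∈ s ↔ a ∈ l z) → ∀ x : Asg.{u},
      (∃ w : OL.{u}, w.length = (l z).length ∧ (∀ i j : ℕ, i < (l z).length → j < s.length →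
        (l z).getD i 0 = s.getD j 0 → w.getD i 0 = (s.map x).getD j 0) ∧ R z w) ↔
      R z ((l z).map x) := fun s hs x => by
    refine ⟨fun ⟨w, h₁, h₂, h₃⟩ => ?_, fun h => ⟨_, by simp, fun i j hi hj e => ?_, h⟩⟩
    · rwa [← List.ext_getElem (l₁ := w) (l₂ := (l z).map x) (by simpa) fun i hi hi' => ?_]
      obtain ⟨j, hj, e⟩ := List.getElem_of_mem ((hs _).2 (List.getElem_mem (h₁ ▸ hi)))
      simpa [hi, hj, e] using h₂ i j (h₁ ▸ hi) hj (by simp [hj, e, h₁ ▸ hi])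
    · simp only [List.getD_eq_getElem?_getD, List.getElem?_eq_getElem hi,
        List.getElem?_eq_getElem hj, Option.getD_some] at e
      simp [hi, hj, e]
  refine ⟨fun ⟨s, h₁, h₂, h₃⟩ => (QL_iff_ae h₁).1 h₃ |>.mono fun x => (key s h₂ x).1, fun h => ?_⟩
  obtain ⟨s, h₁, h₂⟩ := exists_dec (l z)
  exact ⟨s, h₁, h₂, (QL_iff_ae h₁).2 (h.mono fun x => (key s h₂ x).2)⟩

variable (μ)

/-- Elements of the iterated ultrapower. -/
abbrev El (e : Asg.{u} → Ordinal.{u}) : Prop := μ.Fn (dl μ.mach) e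

theorem el_wf : WellFounded (fun a b : {e // μ.El e} => ∀ᶠ x in μ.AE, a.1 x < b.1 x) :=
  wf_of_ctbl _ ae_point Subtype.val

noncomputable def rk0 : {e // μ.El e} → Ordinal.{u} :=
  μ.el_wf.fix fun _ ih => mu (fun a => ∀ e' h, ih e' h < a)

open Classical in
noncomputable def rk (e : Asg.{u} → Ordinal.{u}) : Ordinal.{u} :=
  if h : μ.El e then μ.rk0 ⟨e, h⟩ else 0

variable {μ} {e e' : Asg.{u} → Ordinal.{u}}

theorem rk_eq (he : μ.El e) :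
    μ.rk e = mu (fun a => ∀ e', μ.El e' → (∀ᶠ x in μ.AE, e' x < e x) → μ.rk e' < a) := by
  rw [rk, dif_pos he, rk0, WellFounded.fix_eq]
  refine congrArg mu (funext fun a => propext ?_)
  rw [Subtype.forall]
  exact forall₂_congr fun e' h => by rw [rk, dif_pos h, rk0]

theorem rk_congr (he : μ.El e) (he' : μ.El e') (h : ∀ᶠ x in μ.AE, e x = e' x) :
    μ.rk e = μ.rk e' := by
  rw [rk_eq he, rk_eq he']
  refine congrArg mu (funext fun a => propext (forall₂_congr fun f _ => imp_congr_left ?_))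
  exact eventually_congr (h.mono fun x hx => by rw [hx])

theorem rk_lt (he : μ.El e) (he' : μ.El e') (h : ∀ᶠ x in μ.AE, e x < e' x) :
    μ.rk e < μ.rk e' := by
  rw [rk_eq he']
  refine mu_spec (R := fun a => ∀ f, μ.El f → (∀ᶠ x in μ.AE, f x < e' x) → μ.rk f < a) ?_ e he h
  obtain ⟨B, h₁, h₂, h₃⟩ := he'.bdd
  obtain ⟨a, ha⟩ := bound_fun (G (dl μ.mach) (cb μ.mach B))
    (fun z => μ.rk (μ.valc (decL (fst z)) (snd z)))
  refine ⟨a, fun f hf h₄ => ?_⟩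
  obtain ⟨L, h₅, c, h₆, h₇⟩ := hf.rep h₁ h₂ ((h₄.and h₃).mono fun _ h => h.1.trans h.2)
  simpa [rk_congr hf (Fn.valc h₅ c) h₇] using ha _ (G_lt_of_lt ((gcl_dl _).encL h₅) h₆)

theorem ae_tri (he : μ.El e) (he' : μ.El e') : (∀ᶠ x in μ.AE, e x < e' x) ∨
    (∀ᶠ x in μ.AE, e x = e' x) ∨ ∀ᶠ x in μ.AE, e' x < e x := by
  by_contra h
  rw [not_or, not_or, ← (he.pair he').ae_not (fun z => z.1 < z.2),
    ← (he.pair he').ae_not (fun z => z.1 = z.2), ← (he.pair he').ae_not (fun z => z.2 < z.1)] at h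
  obtain ⟨x, h₁, h₂, h₃⟩ := (h.1.and (h.2.1.and h.2.2)).exists
  exact h₂ (le_antisymm (not_lt.1 h₃) (not_lt.1 h₁))

theorem rk_lt_iff (he : μ.El e) (he' : μ.El e') :
    μ.rk e < μ.rk e' ↔ ∀ᶠ x in μ.AE, e x < e' x := by
  refine ⟨fun h => ?_, rk_lt he he'⟩
  rcases ae_tri he he' with h' | h' | h'
  exacts [h', absurd (rk_congr he he' h') h.ne, absurd (rk_lt he' he h') h.not_gt]

theorem rk_eq_iff (he : μ.El e) (he' : μ.El e') :
    μ.rk e = μ.rk e' ↔ ∀ᶠ x in μ.AE, e x = e' x := by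
  refine ⟨fun h => ?_, rk_congr he he'⟩
  rcases ae_tri he he' with h' | h' | h'
  exacts [absurd h (rk_lt he he' h').ne, h', absurd h (rk_lt he' he h').ne']

theorem rk_down (he : μ.El e) {a : Ordinal.{u}} (h : a ≤ μ.rk e) : ∃ f, μ.El f ∧ μ.rk f = a := by
  obtain ⟨r, hr⟩ : ∃ r, μ.rk e = r := ⟨_, rfl⟩
  induction r using WellFoundedLT.induction generalizing e with
  | ind r ih =>
    rcases h.eq_or_lt with rfl | h
    · exact ⟨e, he, rfl⟩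
    · have := not_of_lt_mu (h.trans_eq (rk_eq he))
      push Not at this
      obtain ⟨f, h₁, h₂, h₃⟩ := this
      exact ih _ (hr ▸ rk_lt h₁ he h₂) h₁ h₃ rfl

variable (μ) in
noncomputable def j (a : Ordinal.{u}) : Ordinal.{u} := μ.rk (fun _ => a)

variable (μ) in
noncomputable def kp (b : Ordinal.{u}) : Ordinal.{u} := μ.rk (fun x => x b)

theorem j_strictMono : StrictMono μ.j := fun _ _ h =>
  rk_lt (Fn.const _) (Fn.const _) (Eventually.of_forall fun _ => h)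

theorem rk_surj (a : Ordinal.{u}) : ∃ f, μ.El f ∧ μ.rk f = a :=
  rk_down (Fn.const a) j_strictMono.le_apply

theorem El.max (he : μ.El e) (he' : μ.El e') : μ.El (fun x => max (e x) (e' x)) :=
  (he.pair he').comp (f := fun z => Max.max z.1 z.2) (by fun_prop)

theorem El.G (he : μ.El e) (he' : μ.El e') : μ.El (fun x => G (e x) (e' x)) :=
  (he.pair he').comp (f := fun z => MP_9a6faa_lc.G z.1 z.2) (by fun_prop)

theorem El.fst (he : μ.El e) : μ.El (fun x => fst (e x)) := he.comp (by fun_prop)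

theorem El.snd (he : μ.El e) : μ.El (fun x => snd (e x)) := he.comp (by fun_prop)

theorem rk_max (he : μ.El e) (he' : μ.El e') :
    max (μ.rk e) (μ.rk e') = μ.rk (fun x => max (e x) (e' x)) := by
  rcases ae_tri he he' with h | h | h
  · rw [max_eq_right (rk_lt he he' h).le]
    exact rk_congr he' (he.max he') (h.mono fun x hx => (max_eq_right hx.le).symm)
  · rw [max_eq_right (rk_congr he he' h).le]
    exact rk_congr he' (he.max he') (h.mono fun x hx => (max_eq_right hx.le).symm)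
  · rw [max_eq_left (rk_lt he' he h).le]
    exact rk_congr he (he.max he') (h.mono fun x hx => (max_eq_left hx.le).symm)

theorem rk_ML {f f' : Asg.{u} → Ordinal.{u}} (he : μ.El e) (hf : μ.El f) (he' : μ.El e')
    (hf' : μ.El f') (h : ML (μ.rk e) (μ.rk f) (μ.rk e') (μ.rk f')) :
    ∀ᶠ x in μ.AE, G (e x) (f x) < G (e' x) (f' x) := by
  simp only [ML, rk_max, he, hf, he', hf', rk_lt_iff, rk_eq_iff, El.max] at h
  simp only [G_lt_iff]
  rcases h with h | ⟨h, h' | ⟨h', h''⟩⟩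
  exacts [h.mono fun _ => Or.inl, (h.and h').mono fun _ h => Or.inr ⟨h.1, Or.inl h.2⟩,
    (h.and (h'.and h'')).mono fun _ h => Or.inr ⟨h.1, Or.inr h.2⟩]

theorem rk_G (he : μ.El e) (he' : μ.El e') :
    G (μ.rk e) (μ.rk e') = μ.rk (fun x => G (e x) (e' x)) :=
  (G_iso (A := {e // μ.El e}) (fun e => μ.rk e.1)
    (fun c a b => c.1 = fun x => G (a.1 x) (b.1 x))
    (fun c => ⟨⟨_, c.2.fst⟩, ⟨_, c.2.snd⟩, by simp⟩)
    (fun {c a b c' a' b'} h h' => by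
      rw [rk_lt_iff c.2 c'.2, h, h']
      refine ⟨fun h₁ => ?_, rk_ML a.2 b.2 a'.2 b'.2⟩
      rcases ML_tri (μ.rk a.1) (μ.rk b.1) (μ.rk a'.1) (μ.rk b'.1) with h₂ | h₂ | h₂
      · exact h₂
      · rw [rk_eq_iff a.2 a'.2, rk_eq_iff b.2 b'.2] at h₂
        obtain ⟨x, h₃, h₄, h₅⟩ := (h₁.and (h₂.1.and h₂.2)).exists
        simp [h₄, h₅] at h₃
      · obtain ⟨x, h₃, h₄⟩ := (h₁.and (rk_ML a'.2 b'.2 a.2 b.2 h₂)).exists
        exact absurd h₃ h₄.not_gt)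
    (fun {_ _ _ a b} _ _ => ⟨⟨_, a.2.G b.2⟩, rfl⟩)
    (fun _ v _ => let ⟨f, h₁, h₂⟩ := rk_surj v; ⟨⟨f, h₁⟩, h₂⟩)
    (c := ⟨_, he.G he'⟩) (a := ⟨e, he⟩) (b := ⟨e', he'⟩) rfl).symm

theorem rk_fst (he : μ.El e) : fst (μ.rk e) = μ.rk (fun x => fst (e x)) := by
  have := rk_G he.fst he.snd
  simp only [G_fst_snd] at this
  rw [← this, fst_G]

theorem rk_snd (he : μ.El e) : snd (μ.rk e) = μ.rk (fun x => snd (e x)) := by
  have := rk_G he.fst he.snd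
  simp only [G_fst_snd] at this
  rw [← this, snd_G]

/-! ### Critical points -/

variable {a b : Ordinal.{u}}

theorem kp_lt (h : a < b) (hb : b < dl μ.mach) : μ.kp a < μ.kp b :=
  rk_lt (Fn.proj (h.trans hb)) (Fn.proj hb) (ae_lt h)

theorem lt_kp (hb : b < dl μ.mach) (h : a < μ.kp b) :
    ∃ e, μ.Fn b e ∧ μ.rk e = a ∧ ∀ᶠ x in μ.AE, e x < μ.κ := by
  obtain ⟨e, he, rfl⟩ := rk_surj (μ := μ) a
  have h₁ := (rk_lt_iff he (Fn.proj hb)).1 h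
  obtain ⟨f, h₂, h₃⟩ := he.drop h₁
  exact ⟨f, h₂, (rk_congr he (h₂.mono hb.le) h₃).symm,
    (h₁.and (h₃.and (ae_mem μ.hκ b))).mono fun x h => h.2.1 ▸ h.1.trans h.2.2⟩

theorem rk_lt_kp (hb : b < dl μ.mach) (he : μ.Fn b e) (h : ∀ᶠ x in μ.AE, e x < μ.κ) :
    μ.rk e < μ.kp b :=
  rk_lt (he.mono hb.le) (Fn.proj hb) ((he.top (· < ·)).2 (h.mono fun _ => μ.hI _))

theorem lt_kp_zero (h : a < μ.kp 0) : ∃ c < μ.κ, μ.j c = a := by
  obtain ⟨e, ⟨L, h₁, F, -, h₂⟩, rfl, h₃⟩ := lt_kp (gcl_dl _).pos h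
  obtain rfl : L = [] := List.eq_nil_iff_forall_not_mem.2 fun a ha => by simpa using h₁ a ha
  obtain rfl : e = fun _ => F [] := funext h₂
  exact ⟨_, h₃.exists.elim fun _ => id, rfl⟩

theorem j_lt_kp (ha : a < μ.κ) : μ.j a < μ.kp 0 :=
  rk_lt_kp (gcl_dl _).pos (Fn.const a) (Eventually.of_forall fun _ => ha)

theorem j_small (ha : a < μ.κ) : μ.j a = a := by
  induction a using WellFoundedLT.induction with
  | ind a ih =>
    refine le_antisymm (le_of_forall_lt fun x hx => ?_) j_strictMono.le_apply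
    obtain ⟨c, h, rfl⟩ := lt_kp_zero (hx.trans (j_lt_kp ha))
    have := j_strictMono.lt_iff_lt.1 hx
    rwa [ih c this h]

theorem kp_zero : μ.kp 0 = μ.κ :=
  eq_of_lt_iff fun _ => ⟨fun h => let ⟨_, h₁, h₂⟩ := lt_kp_zero h; h₂ ▸ (j_small h₁).symm ▸ h₁,
    fun h => j_small h ▸ j_lt_kp h⟩

theorem kp_cont (hb : b < dl μ.mach) (hl : Lim b) (h : a < μ.kp b) : ∃ c < b, a < μ.kp c := by
  obtain ⟨e, h₁, rfl, h₂⟩ := lt_kp hb h
  obtain ⟨c, h₃, h₄⟩ := h₁.small hl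
  exact ⟨c, h₃, rk_lt_kp (h₃.trans hb) h₄ h₂⟩

theorem le_kp (hb : b < dl μ.mach) : b ≤ μ.kp b := by
  induction b using WellFoundedLT.induction with
  | ind b ih =>
    exact le_of_forall_lt fun x hx => (ih x hx (hx.trans hb)).trans_lt (kp_lt hx hb)

/-! ### The iteration is definable in the ground model -/

variable (μ) in
noncomputable def vc (z : Ordinal.{u}) : Asg.{u} → Ordinal.{u} := μ.valc (decL (fst z)) (snd z)

variable (μ) in
def Ok (z : Ordinal.{u}) : Prop := ∀ a, a ∈ decL (fst z) → a < dl μ.mach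

theorem Ok.el {z : Ordinal.{u}} (h : μ.Ok z) : μ.El (μ.vc z) := Fn.valc h _

theorem El.code (he : μ.El e) : ∃ z, μ.Ok z ∧ μ.rk (μ.vc z) = μ.rk e := by
  obtain ⟨B, h₁, h₂, h₃⟩ := he.bdd
  obtain ⟨L, h₄, c, -, h₅⟩ := he.rep h₁ h₂ h₃
  exact ⟨MP_9a6faa_lc.G (encL L) c, by simpa [Ok] using h₄, by simp [vc, rk_congr he (Fn.valc h₄ c) h₅]⟩

variable (μ) in
/-- The least code of an ordinal of the iterate. -/
noncomputable def rep (a : Ordinal.{u}) : Ordinal.{u} := mu (fun z => μ.Ok z ∧ μ.rk (μ.vc z) = a)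

theorem rep_spec (a : Ordinal.{u}) : μ.Ok (μ.rep a) ∧ μ.rk (μ.vc (μ.rep a)) = a := by
  obtain ⟨e, h, rfl⟩ := rk_surj (μ := μ) a
  exact mu_spec h.code

section Def

variable {Γ : Type*} [Cd (SS μ.mach) Γ] {f g : Γ → Ordinal.{u}}

@[fun_prop] theorem tm_Ok (hf : (SS μ.mach).Tm f) : (SS μ.mach).Tm (fun z => μ.Ok (f z)) := by
  unfold Ok; fun_prop

variable (μ) in
def Ltc (y z : Ordinal.{u}) : Prop := ∀ᶠ x in μ.AE, μ.vc y x < μ.vc z x

@[fun_prop] theorem tm_Ltc (hf : (SS μ.mach).Tm f) (hg : (SS μ.mach).Tm g) :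
    (SS μ.mach).Tm (fun z => μ.Ltc (f z) (g z)) := by
  refine (tm_ae (R := fun z w => ∃ s t : OL.{u}, w = s ++ t ∧
    s.length = (decL (fst (f z))).length ∧
    ap μ.mach (snd (f z)) (encL s) < ap μ.mach (snd (g z)) (encL t))
    (l := fun z => decL (fst (f z)) ++ decL (fst (g z))) (by fun_prop) (by fun_prop)).congrP
    fun z => eventually_congr (Eventually.of_forall fun x => ⟨?_, fun h => ⟨_, _, List.map_append,
      by simp, h⟩⟩)
  rintro ⟨s, t, h₁, h₂, h₃⟩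
  obtain ⟨rfl, rfl⟩ := List.append_inj (List.map_append.symm.trans h₁) (by simp [h₂])
  exact h₃

theorem rk_vc_iff {z : Ordinal.{u}} (hz : μ.Ok z) : μ.rk (μ.vc z) = a ↔
    (∀ c < a, μ.Ltc (μ.rep c) z) ∧ ∀ y, μ.Ok y → μ.Ltc y z → ∃ c < a, ¬ μ.Ltc (μ.rep c) y := by
  have key : ∀ c {y}, μ.Ok y → (μ.Ltc (μ.rep c) y ↔ c < μ.rk (μ.vc y)) := fun c y hy => by
    rw [Ltc, ← rk_lt_iff (rep_spec c).1.el hy.el, (rep_spec c).2]
  constructor
  · rintro rfl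
    exact ⟨fun c => (key c hz).2, fun y hy h =>
      ⟨_, rk_lt hy.el hz.el h, (key _ hy).not.2 (lt_irrefl _)⟩⟩
  · rintro ⟨h₁, h₂⟩
    refine le_antisymm (not_lt.1 fun h => ?_) (le_of_forall_lt fun c hc => (key c hz).1 (h₁ c hc))
    obtain ⟨c, h₃, h₄⟩ := h₂ _ (rep_spec a).1 ((key a hz).2 h)
    exact h₄ ((key c (rep_spec a).1).2 ((rep_spec a).2.symm ▸ h₃))

@[fun_prop] theorem tm_rep (hf : (SS μ.mach).Tm f) : (SS μ.mach).Tm (fun z => μ.rep (f z)) :=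
  (tm_frec (𝒜 := SS μ.mach) (Γ := Ordinal.{u}) (fun _ => μ.rep)
    (fun _ k a => mu (fun z => μ.Ok z ∧ (∀ c < a, μ.Ltc (k c) z) ∧
      ∀ y, μ.Ok y → μ.Ltc y z → ∃ c < a, ¬ μ.Ltc (k c) y))
    (fun _ a k hk => congrArg mu (funext fun z => propext (and_congr_right fun hz => by
      rw [rk_vc_iff hz]
      exact and_congr (forall₂_congr fun c hc => by rw [hk c hc]) (forall₃_congr fun _ _ _ =>
        exists_congr fun c => and_congr_right fun hc => by rw [hk c hc]))))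
    (fun k hk => by fun_prop)).comp (hf.pair hf)

variable (μ) in
noncomputable def rkc (z : Ordinal.{u}) : Ordinal.{u} :=
  mu (fun a => ¬ μ.Ltc (μ.rep a) z)

@[fun_prop] theorem tm_rkc (hf : (SS μ.mach).Tm f) : (SS μ.mach).Tm (fun z => μ.rkc (f z)) := by
  unfold rkc; fun_prop

theorem rkc_eq {z : Ordinal.{u}} (hz : μ.Ok z) : μ.rkc z = μ.rk (μ.vc z) := by
  have key : ∀ c, (μ.Ltc (μ.rep c) z ↔ c < μ.rk (μ.vc z)) := fun c => by
    rw [Ltc, ← rk_lt_iff (rep_spec c).1.el hz.el, (rep_spec c).2]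
  exact mu_eq ((key _).not.2 (lt_irrefl _)) fun c hc => not_not.2 ((key c).2 hc)

@[fun_prop] theorem tm_j (hf : (SS μ.mach).Tm f) : (SS μ.mach).Tm (fun z => μ.j (f z)) :=
  tm_of_rel (Q := fun z y => ∃ c, ap μ.mach c 0 = f z ∧ y = μ.rkc (G 0 c)) (by fun_prop)
    fun z y => by
      have : ∀ c, μ.rkc (G 0 c) = μ.j (ap μ.mach c 0) := fun c => by
        have e : decL (0 : Ordinal.{u}) = [] := decL_encL []
        rw [rkc_eq (by simp [Ok, e]), vc, fst_G, snd_G, e]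
        rfl
      obtain ⟨c, hc⟩ := code_fun (m := μ.mach) (f := fun _ => f z) (by fun_prop) 1
      exact ⟨fun ⟨c, h₁, h₂⟩ => h₁ ▸ h₂.trans (this c),
        fun h => ⟨c, hc 0 one_pos, by rw [this, hc 0 one_pos, h]⟩⟩

end Def

theorem Fn.code (he : μ.Fn b e) (hb : b ≤ dl μ.mach) {B y : Ordinal.{u}} (hB : Gcl B)
    (hk : μ.κ ≤ B) (h : ∀ᶠ x in μ.AE, e x < B) (hy : Gcl y) (h₁ : b ≤ y) (h₂ : cb μ.mach B ≤ y) :
    ∃ z < y, μ.rkc z = μ.rk e := by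
  obtain ⟨L, h₃, c, h₄, h₅⟩ := he.rep hB hk h
  have h₆ : ∀ a ∈ L, a < dl μ.mach := fun a ha => (h₃ a ha).trans_le hb
  refine ⟨G (encL L) c, hy.G (hy.encL fun a ha => (h₃ a ha).trans_le h₁) (h₄.trans_le h₂), ?_⟩
  rw [rkc_eq (by simpa [Ok] using h₆), rk_congr (he.mono hb) (Fn.valc h₆ c) h₅]
  simp [vc]

theorem kp_self (hr : Reg μ.mach a) (h₁ : th μ.mach < a) (h₂ : a < dl μ.mach) : μ.kp a = a := by
  refine le_antisymm (le_of_forall_lt fun x hx => ?_) (le_kp h₂)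
  obtain ⟨b, h₃, h₄⟩ := kp_cont h₂ hr.lim hx
  obtain ⟨y, h₅, h₆, h₇, h₈⟩ := hr.limCl.two h₃ h₁
  obtain ⟨c, h₉, h⟩ := hr.bdd (f := μ.rkc) (by fun_prop) h₅
  refine not_le.1 fun h' => ?_
  obtain ⟨e, he, e₁, he'⟩ := lt_kp (h₃.trans h₂) (h₉.trans (h'.trans_lt h₄))
  obtain ⟨z, hz, e₂⟩ := he.code (h₃.trans h₂).le μ.gcl le_rfl he' h₈ h₆.le h₇.le
  exact (h z hz (by rwa [e₂, e₁])).ne (e₂.trans e₁)

theorem kp_sa (n : ℕ) : μ.kp (sa μ.mach n) = sa μ.mach n :=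
  kp_self (reg_sa _) (th_lt_sa _) (sa_lt_dl _ n)

theorem kp_sb (n : ℕ) : μ.kp (sb μ.mach n) = sb μ.mach n :=
  kp_self (reg_sb _) (th_lt_sb _) ((sb_lt_sa _).trans (sa_lt_dl _ n))

theorem kp_lt_dl (hb : b < dl μ.mach) : μ.kp b < dl μ.mach := by
  obtain ⟨n, h⟩ := lt_dl hb
  have := (sb_lt_sa _).trans (sa_lt_dl μ.mach n)
  exact (kp_lt h this).trans (by rwa [kp_sb])

theorem j_κ : μ.j μ.κ = dl μ.mach := by
  refine eq_of_lt_iff fun x => ⟨fun h => ?_, fun h => (le_kp h).trans_lt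
    (rk_lt (Fn.proj h) (Fn.const _) (ae_mem μ.hκ x))⟩
  obtain ⟨e, he, rfl⟩ := rk_surj (μ := μ) x
  obtain ⟨c, h₁, h₂⟩ := he.small (gcl_dl _).lim
  exact (rk_lt_kp h₁ h₂ ((rk_lt_iff he (Fn.const _)).1 h)).trans (kp_lt_dl h₁)

end Meas

end Pool.Agent.MP_9a6faa_lc

end

section

namespace Pool.Agent.MP_9a6faa_lc

open Set Order FO Filter

universe u v w

theorem OrdCl.tm_world {I : Type} {Am : (I → Ordinal.{u} → Prop) → Prop} (h : OrdCl Am)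
    {R : I → Ordinal.{u} → Prop} (hR : Am R) :
    h.fo.Tm (fun z : h.fo.Wd × Ordinal.{u} => R z.1.w z.2) := by
  refine (Df.mk' (sndR (𝒜 := h.fo) hR) fun i z hz => ?_).tm
  obtain ⟨⟨j⟩, x⟩ := z
  obtain rfl : j = i := hz.1
  exact ⟨fun ⟨_, _, e, h⟩ => (show x = _ from (G_inj.1 e).2) ▸ h, fun h => ⟨_, _, rfl, h⟩⟩

theorem FO.tm_cdW {I : Type} {V : Type v} {𝒜 : FO.{u, v} I V} (m : I → Mach.{u}) :
    @Tm I V 𝒜 _ _ _ (cdW 𝒜 m) (fun w : 𝒜.Wd => m w.w) := by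
  let _ := cdW 𝒜 m
  exact Tm.mk' (fun x i h => congrArg m h) 𝒜.eq fun i x y hx hy =>
    ⟨fun _ => hy.trans (congrArg m hx).symm, fun _ => ⟨_, rfl⟩⟩

namespace Meas

variable (μ : Meas.{u})

def AmL (R : Bool → Ordinal.{u} → Prop) : Prop := AmS μ.mach (fun _ => R false) ∧
  ∀ e, μ.El e → (R true (μ.rk e) ↔ ∀ᶠ x in μ.AE, R false (e x))

theorem ordCl_L : OrdCl μ.AmL where
  nand := fun {R S} hR hS => ⟨(ordCl_S _).nand hR.1 hS.1, fun e he => by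
    beta_reduce
    rw [hR.2 e he, hS.2 e he, ← eventually_and, he.ae_not (fun z => R false z ∧ S false z)]⟩
  ex := fun {R} hR => ⟨(ordCl_S _).ex hR.1, fun e he => by
    constructor
    · rintro ⟨y, h⟩
      obtain ⟨f, hf, rfl⟩ := rk_surj (μ := μ) y
      rw [rk_G he hf, hR.2 _ (he.G hf)] at h
      exact h.mono fun _ h => ⟨_, h⟩
    · intro h
      have h₀ : (SS μ.mach).Tm (R false) := (ordCl_S _).tm_iff.2 hR.1
      have hf := he.comp (f := fun z => mu (fun y => R false (G z y))) (by fun_prop)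
      exact ⟨_, by rw [rk_G he hf, hR.2 _ (he.G hf)]; exact h.mono fun _ h => mu_spec h⟩⟩
  c4 := fun hR => ⟨(ordCl_S _).c4 hR.1, fun e he => by
    beta_reduce
    rw [rk_fst he, hR.2 _ he.fst]⟩
  c5 := fun hR => ⟨(ordCl_S _).c5 hR.1, fun e he => by
    beta_reduce
    rw [rk_fst he, rk_snd he, rk_G he.snd he.fst, hR.2 _ (he.snd.G he.fst)]⟩
  c6 := fun hR => ⟨(ordCl_S _).c6 hR.1, fun e he => by
    beta_reduce
    rw [rk_fst he, rk_snd he, rk_fst he.fst, rk_G he.fst.fst he.snd,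
      hR.2 _ (he.fst.fst.G he.snd)]⟩
  c7 := fun hR => ⟨(ordCl_S _).c7 hR.1, fun e he => by
    beta_reduce
    rw [rk_fst he, rk_snd he, rk_snd he.fst, rk_G he.fst.snd he.snd,
      hR.2 _ (he.fst.snd.G he.snd)]⟩
  lt := ⟨(ordCl_S _).lt, fun e he => by
    beta_reduce
    rw [rk_fst he, rk_snd he, rk_lt_iff he.fst he.snd]⟩

/-- The calculus of relations satisfying the theorem of Los. -/
noncomputable def LL : FO.{u, u + 1} Bool Ordinal.{u} := μ.ordCl_L.fo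

noncomputable def mw (b : Bool) : Mach.{u} := _root_.cond b μ.mach.it μ.mach

variable {μ}

theorem AmL.tail {R : Bool → Ordinal.{u} → Prop} (hR : μ.AmL R) {e : Asg.{u} → Ordinal.{u}}
    (he : μ.El e) : ∃ c < dl μ.mach, ∀ b, c ≤ b → b < dl μ.mach →
      (R true (G (μ.rk e) (μ.kp b)) ↔
        ∀ᶠ x in μ.AE, ∀ᶠ y in (μ.U : Filter Ordinal.{u}), R false (G (e x) y)) := by
  obtain ⟨c, h₁, h₂⟩ := he.small (gcl_dl _).lim
  exact ⟨c, h₁, fun b h₃ h₄ => by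
    rw [kp, rk_G he (Fn.proj h₄), hR.2 _ (he.G (Fn.proj h₄)),
      (h₂.mono h₃).top (fun z y => R false (G z y))]⟩

theorem AmL.Q {R : Bool → Ordinal.{u} → Prop} (hR : μ.AmL R) {e : Asg.{u} → Ordinal.{u}}
    (he : μ.El e) : μ.mach.it.Q (fun y => R true (G (μ.rk e) y)) ↔
      ∀ᶠ x in μ.AE, ∀ᶠ y in (μ.U : Filter Ordinal.{u}), R false (G (e x) y) := by
  obtain ⟨c, h₁, h₂⟩ := hR.tail he
  refine (eventually_congr ((ev_lt_sb h₁).mono fun n hn => ?_)).trans eventually_const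
  rw [← h₂ _ (hn.trans (sb_lt_sa _)).le (sa_lt_dl _ n), kp_sa]

instance : DQ μ.LL μ.mw where
  κ := ⟨Full.const (𝒜 := SS μ.mach) _, fun _ he => by
    rw [← rk_eq_iff he (Fn.const _)]
    exact Iff.of_eq (congrArg (_ = ·) (j_κ (μ := μ)).symm)⟩
  Q := fun _ hR => ⟨amS_Q hR.1, fun _ => AmL.Q hR⟩

noncomputable instance : Cd μ.LL Mach.{u} := cdW _ μ.mw

instance : HasQ μ.LL := hasQ_cdW _

instance : HasG μ.LL := inferInstanceAs (HasG μ.ordCl_L.fo)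

variable (μ) in
/-- `y` is the element of the iterate represented by `x`. -/
structure Lift {Γ : Type*} [Cd μ.LL Γ] (y : Γ) (x : Asg.{u} → Γ) : Prop where
  c1 : Cd.cons μ.LL y true
  c0 : ∀ h, Cd.cons μ.LL (x h) false
  el : μ.El (fun h => Cd.ι μ.LL (x h))
  eq : μ.rk (fun h => Cd.ι μ.LL (x h)) = Cd.ι μ.LL y

variable {Γ Δ : Type*} [Cd μ.LL Γ] [Cd μ.LL Δ] {y : Γ} {x : Asg.{u} → Γ}

theorem Lift.los (h : μ.Lift y x) {Φ : Γ → Prop} (hΦ : μ.LL.Tm Φ) :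
    Φ y ↔ ∀ᶠ h in μ.AE, Φ (x h) := by
  have := hΦ.df.2 _ h.el
  rw [h.eq] at this
  simpa only [ev_iff (h.c0 _), ev_iff h.c1] using this

theorem Lift.pair {y' : Δ} {x' : Asg.{u} → Δ} (h : μ.Lift y x) (h' : μ.Lift y' x') :
    μ.Lift (y, y') (fun h => (x h, x' h)) :=
  ⟨⟨h.c1, h'.c1⟩, fun z => ⟨h.c0 z, h'.c0 z⟩, h.el.G h'.el,
    (rk_G h.el h'.el).symm.trans (congrArg₂ G h.eq h'.eq)⟩

theorem El.lift {e : Asg.{u} → Ordinal.{u}} (h : μ.El e) : μ.Lift (μ.rk e) e :=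
  ⟨trivial, fun _ => trivial, h, rfl⟩

theorem lift_j (c : Ordinal.{u}) : μ.Lift (μ.j c) (fun _ => c) := El.lift (Fn.const c)

theorem lift_wd : μ.Lift (⟨true⟩ : μ.LL.Wd) (fun _ => ⟨false⟩) :=
  ⟨rfl, fun _ => rfl, Fn.const _, j_small μ.gcl.pos⟩

theorem lift_mach : μ.Lift μ.mach.it (fun _ => μ.mach) :=
  ⟨rfl, fun _ => rfl, Fn.const _, j_small μ.gcl.pos⟩

theorem Lift.map (h : μ.Lift y x) {f : Γ → Δ} (hf : μ.LL.Tm f) :
    μ.Lift (f y) (fun h => f (x h)) := by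
  obtain ⟨R, h₀, hR⟩ : ∃ R : Ordinal.{u} → Prop, (SS μ.mach).Tm R ∧ ∀ z, R z ↔
      ∃ a, Cd.cons μ.LL a false ∧ z = G (Cd.ι μ.LL a) (Cd.ι μ.LL (f a)) :=
    ⟨_, (ordCl_S _).tm_iff.2 hf.gr.1, fun _ => Iff.rfl⟩
  have el : μ.El (fun h => Cd.ι μ.LL (f (x h))) := by
    convert h.el.comp (f := fun z => mu (fun y => R (G z y))) (by fun_prop) using 2 with z
    refine (mu_eq (R := fun y => R (G _ y)) ((hR _).2 ⟨_, h.c0 z, rfl⟩)
      fun w hw h' => hw.ne ?_).symm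
    obtain ⟨a, ha, e⟩ := (hR _).1 h'
    rw [(G_inj.1 e).2, Cd.inj (h.c0 z) ha (G_inj.1 e).1]
  refine ⟨hf.1 _ _ h.c1, fun z => hf.1 _ _ (h.c0 z), el, ?_⟩
  obtain ⟨a, ha, e⟩ := (hf.gr.2 _ (h.el.G el)).2 (Eventually.of_forall fun z => ⟨_, h.c0 z, rfl⟩)
  rw [← rk_G h.el el, h.eq] at e
  rw [(G_inj.1 e).2, Cd.inj h.c1 ha (G_inj.1 e).1]

theorem transfer {Φ : μ.LL.Wd → Prop} (h : μ.LL.Tm Φ) (h₀ : Φ ⟨false⟩) : Φ ⟨true⟩ :=
  (lift_wd.los h).2 (Eventually.of_forall fun _ => h₀)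

theorem amL_P : μ.AmL (fun i z => P (μ.mw i) (fst z) (snd z)) := by
  let R : Bool → Ordinal.{u} → Prop := fun i z => _root_.cond i (∃ e, μ.El e ∧ μ.rk e = z ∧
    ∀ᶠ x in μ.AE, P μ.mach (fst (e x)) (snd (e x))) (P μ.mach (fst z) (snd z))
  have hR : μ.AmL R := ⟨amS_P, fun e he => ⟨fun ⟨f, hf, h₁, h₂⟩ =>
    (h₂.and ((rk_eq_iff hf he).1 h₁)).mono fun x h => h.2 ▸ h.1, fun h => ⟨e, he, rfl, h⟩⟩⟩
  have h₁ : μ.LL.Tm (fun z : μ.LL.Wd × Ordinal.{u} => R z.1.w z.2) := μ.ordCl_L.tm_world hR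
  have h₂ : μ.LL.Tm (fun w : μ.LL.Wd => μ.mw w.w) := tm_cdW _
  have := P_unique (transfer (Φ := fun w => ∀ d x, R w.w (G d x) ↔
    step (μ.mw w.w) (fun a y => R w.w (G a y)) d x) (tm_all (tm_all (tm_iff
      (h₁.comp (f := fun z : (μ.LL.Wd × _) × _ => (z.1.1, G z.1.2 z.2)) (by fun_prop))
      (tm_step (h₂.comp (by fun_prop)) (h₁.comp
        (f := fun z : ((μ.LL.Wd × _) × _) × _ × _ => (z.1.1.1, G z.2.1 z.2.2)) (by fun_prop))
        (by fun_prop) (by fun_prop))))) fun d x => by simpa [R, mw] using P_iff)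
  refine am_congr hR fun i z => ?_
  cases i
  exacts [Iff.rfl, by simpa using this (fst z) (snd z)]

noncomputable instance : HasSep μ.LL where
  mem := fun i => P (μ.mw i)
  mem_am := Am.congr (𝒜 := μ.LL) (R := fun i z => P (μ.mw i) (fst z) (snd z)) amL_P fun _ z =>
    ⟨fun h => ⟨_, _, (G_fst_snd z).symm, h⟩, fun ⟨s, x, e, h⟩ => by
      simpa [show z = G s x from e] using h⟩
  sep := fun R hR i => by
    have h₁ : μ.LL.Tm (fun z : μ.LL.Wd × Ordinal.{u} => R z.1.w z.2) := μ.ordCl_L.tm_world hR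
    have h₂ := μ.ordCl_L.tm_world amL_P
    cases i
    · exact sep_of_amS hR.1
    · obtain ⟨S, hS, e⟩ : ∃ S : μ.LL.Wd × Ordinal.{u} → Prop, μ.LL.Tm S ∧
        ∀ w z, S (w, z) ↔ R w.w z := ⟨_, h₁, fun _ _ => Iff.rfl⟩
      obtain ⟨T, hT, e'⟩ : ∃ T : μ.LL.Wd × Ordinal.{u} → Prop, μ.LL.Tm T ∧
        ∀ w s z, T (w, G s z) ↔ P (μ.mw w.w) s z := ⟨_, h₂, fun _ _ _ => by simp⟩
      have := transfer (Φ := fun w => ∀ v c, ∃ s, ∀ a < c, ∀ b < c,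
        (T (w, G s (G a b)) ↔ S (w, G v (G a b)))) (by fun_prop)
        (by simp only [e, e']; exact sep_of_amS hR.1)
      simp only [e, e'] at this
      exact this

theorem star_it : Star μ.mach.it :=
  (lift_mach.los tm_Star).2 (Eventually.of_forall fun _ => μ.star)

theorem lift_list {L : OL.{u}} (h : ∀ a ∈ L, a < dl μ.mach) :
    μ.Lift (L.map μ.kp) (fun x => L.map x) := by
  induction L with
  | nil => exact ⟨trivial, fun _ => trivial, Fn.const _, j_small μ.gcl.pos⟩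
  | cons a L ih =>
    exact ((El.lift (Fn.proj (h a List.mem_cons_self))).pair
      (ih fun b hb => h b (List.mem_cons_of_mem _ hb))).map
      (f := fun z : Ordinal.{u} × OL.{u} => z.1 :: z.2) (by fun_prop)

theorem rk_ap (c : Ordinal.{u}) {e : Asg.{u} → Ordinal.{u}} (he : μ.El e) :
    μ.rk (fun x => ap μ.mach c (e x)) = ap μ.mach.it (μ.j c) (μ.rk e) :=
  ((lift_mach.pair ((lift_j c).pair he.lift)).map
    (f := fun z : Mach.{u} × Ordinal.{u} × Ordinal.{u} => ap z.1 z.2.1 z.2.2) (by fun_prop)).eq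

theorem rk_valc {L : OL.{u}} (h : ∀ a ∈ L, a < dl μ.mach) (c : Ordinal.{u}) :
    μ.rk (μ.valc L c) = ap μ.mach.it (μ.j c) (encL (L.map μ.kp)) :=
  (rk_ap c (lift_list h).el).trans (congrArg _ (lift_list h).eq)

theorem P_j {c : Ordinal.{u}} {e : Asg.{u} → Ordinal.{u}} (he : μ.El e) :
    P μ.mach.it (μ.j c) (μ.rk e) ↔ ∀ᶠ x in μ.AE, P μ.mach c (e x) :=
  (lift_mach.pair ((lift_j c).pair he.lift)).los
    (Φ := fun z : Mach.{u} × Ordinal.{u} × Ordinal.{u} => P z.1 z.2.1 z.2.2) (by fun_prop)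

theorem P_j_small {c a : Ordinal.{u}} (ha : a < μ.κ) : P μ.mach.it (μ.j c) a ↔ P μ.mach c a := by
  rw [← eventually_const (f := μ.AE) (p := P μ.mach c a), ← P_j (Fn.const a)]
  exact Iff.of_eq (congrArg _ (j_small ha).symm)

theorem P_j_κ {c : Ordinal.{u}} :
    P μ.mach.it (μ.j c) μ.κ ↔ ∀ᶠ y in (μ.U : Filter Ordinal.{u}), P μ.mach c y := by
  rw [← kp_zero, kp, P_j (Fn.proj (gcl_dl _).pos),
    (Fn.const (μ := μ) (b := 0) c).top (fun a y => P μ.mach a y), eventually_const]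

/-- Definable sets are decided by the tail of the critical points. -/
theorem tail_dec {X : Mach.{u} × Ordinal.{u} × Ordinal.{u} → Prop} (hX : μ.LL.Tm X)
    (v : Ordinal.{u}) : ∃ c < dl μ.mach, ∀ b, c ≤ b → b < dl μ.mach →
      (X (μ.mach.it, v, μ.kp b) ↔ μ.mach.it.Q (fun y => X (μ.mach.it, v, y))) := by
  have h₂ : μ.LL.Tm (fun w : μ.LL.Wd => μ.mw w.w) := tm_cdW _
  have hR : μ.LL.Am (fun i z => X (μ.mw i, fst z, snd z)) := by
    refine Am.congr (μ.LL.ex (μ.LL.swR (hX.comp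
      (f := fun z : μ.LL.Wd × Ordinal.{u} => (μ.mw z.1.w, fst z.2, snd z.2))
      ((h₂.comp (by fun_prop)).pair (by fun_prop))).df)) fun i z => ⟨?_, fun h =>
        ⟨_, _, _, rfl, (⟨i⟩, z), ⟨rfl, trivial⟩, rfl, h⟩⟩
    rintro ⟨_, _, _, e, ⟨⟨j⟩, w⟩, ⟨rfl, -⟩, e', h⟩
    rwa [(G_inj.1 e).1, ← (G_inj.1 e').2]
  replace hR : μ.AmL (fun i z => X (μ.mw i, fst z, snd z)) := hR
  obtain ⟨e, he, rfl⟩ := rk_surj (μ := μ) v
  obtain ⟨c, h₁, h₃⟩ := AmL.tail hR he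
  refine ⟨c, h₁, fun b h₄ h₅ => ?_⟩
  simpa [mw] using (h₃ b h₄ h₅).trans (AmL.Q hR he).symm

end Meas

end Pool.Agent.MP_9a6faa_lc

end

section

namespace Pool.Agent.MP_9a6faa_lc

open Set Order FO Filter

universe u v w

theorem mu_lt {a : Ordinal.{u}} {S : Ordinal.{u} → Prop} (h : ∃ c < a, S c) :
    mu S < a ∧ S (mu S) :=
  let ⟨c, h₁, h₂⟩ := h; ⟨(mu_le h₂).trans_lt h₁, mu_spec ⟨c, h₂⟩⟩

@[fun_prop] theorem FO.tm_lmap {I : Type} {V : Type v} {𝒜 : FO.{u, v} I V} {Γ : Type*} [Cd 𝒜 Γ]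
    [HasSep 𝒜] {f : Γ → Ordinal.{u} → Ordinal.{u}} {l : Γ → OL.{u}}
    (hf : 𝒜.Tm (fun z : Γ × Ordinal.{u} => f z.1 z.2)) (hl : 𝒜.Tm l) :
    𝒜.Tm (fun z => (l z).map (fun x => f z x)) :=
  (tm_listRec (𝒜 := 𝒜) (fun g (l : OL.{u}) => l.map (f g)) (fun _ => [])
    (fun g x _ r => f g x :: r) (fun _ => rfl) (fun _ _ _ => rfl) (by fun_prop)
    (by fun_prop)).comp (Tm.id.pair hl)

theorem FO.tm_of_am {V : Type v} {𝒜 : FO.{u, v} Unit V} {Γ : Type*} [Cd 𝒜 Γ] {R : Unit → V → Prop}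
    (h : 𝒜.Am R) : 𝒜.Tm (fun x : Γ => R () (Cd.ι 𝒜 x)) := (Df.mk' h fun _ _ _ => Iff.rfl).tm

theorem FO.am_of_tm {V : Type v} {𝒜 : FO.{u, v} Unit V} {R : 𝒜.Ob → Prop} (h : 𝒜.Tm R) :
    𝒜.Am (fun _ x => R x) :=
  Am.congr h.df fun _ x =>
    ⟨fun ⟨_, _, e, h⟩ => (show _ = x from e) ▸ h, fun h => ⟨x, trivial, rfl, h⟩⟩

instance (m : Mach.{u}) : DQ (SS m) (fun _ => m.it) where
  κ := Full.const _
  Q := fun R hR => by
    have h : (SS m).Tm (R ()) := (ordCl_S m).tm_iff.2 hR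
    exact (ordCl_S m).tm_iff.1 (Tm.congrP (𝒜 := SS m)
      (Q := fun x => ∃ k : ℕ, ∀ n : ℕ, k ≤ n → R () (G x (sa m n))) (by fun_prop)
      fun _ => eventually_atTop.symm)

section It

variable {m : Mach.{u}} {Γ : Type*} [Cd (SS m) Γ] {r b v : Γ → Ordinal.{u}} {p : Γ → OL.{u}}

@[fun_prop] theorem tm_ap_it (hr : (SS m).Tm r) (hb : (SS m).Tm b) :
    (SS m).Tm (fun z => ap m.it (r z) (b z)) := by
  let _ := cdW (SS m) fun _ => m.it
  have := hasQ_cdW (𝒜 := SS m) fun _ => m.it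
  have := par_cdW (𝒜 := SS m) m.it
  fun_prop

@[fun_prop] theorem tm_InH_it (hr : (SS m).Tm r) (hp : (SS m).Tm p) (hv : (SS m).Tm v) :
    (SS m).Tm (fun z => InH m.it (r z) (p z) (v z)) := by
  let _ := cdW (SS m) fun _ => m.it
  have := hasQ_cdW (𝒜 := SS m) fun _ => m.it
  have := par_cdW (𝒜 := SS m) m.it
  fun_prop

@[fun_prop] theorem tm_Gd_it (hr : (SS m).Tm r) (hp : (SS m).Tm p) (hb : (SS m).Tm b)
    (hv : (SS m).Tm v) : (SS m).Tm (fun z => Gd m.it (r z) (p z) (b z) (v z)) := by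
  let _ := cdW (SS m) fun _ => m.it
  have := hasQ_cdW (𝒜 := SS m) fun _ => m.it
  have := par_cdW (𝒜 := SS m) m.it
  fun_prop

/-- Lists from the distinguished sequence. -/
noncomputable def al (m : Mach.{u}) (i : Ordinal.{u}) : OL.{u} := (decL i).map (sa m)

@[fun_prop] theorem tm_al (hr : (SS m).Tm r) : (SS m).Tm (fun z => al m (r z)) := by
  unfold al; fun_prop

theorem exists_al {l : OL.{u}} (h : ∀ x ∈ l, ∃ n : ℕ, x = sa m n) :
    ∃ i < Ordinal.omega0, al m i = l := by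
  obtain ⟨k, h₁, rfl⟩ : ∃ k : OL.{u}, (∀ x ∈ k, x < Ordinal.omega0) ∧ k.map (sa m) = l := by
    induction l with
    | nil => exact ⟨[], by simp, rfl⟩
    | cons a l ih =>
      obtain ⟨k, h₁, rfl⟩ := ih fun x hx => h x (List.mem_cons_of_mem _ hx)
      obtain ⟨n, rfl⟩ := h a List.mem_cons_self
      exact ⟨n :: k, by simpa using h₁, rfl⟩
  exact ⟨_, encL_omega h₁, by simp [al]⟩

theorem Gd.al {r b v : Ordinal.{u}} {p : OL.{u}} (h : Gd m.it r p b v) :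
    ∃ i < Ordinal.omega0, InH m.it r (al m i ++ b :: p) v := by
  obtain ⟨k, h⟩ := h
  obtain ⟨l, h₁, h₂⟩ := h.exists (A := fun x => ∃ n : ℕ, x = sa m n) fun X hX =>
    let ⟨n, h⟩ := Eventually.exists hX; ⟨_, ⟨n, rfl⟩, h⟩
  obtain ⟨i, h₃, rfl⟩ := exists_al h₁
  exact ⟨i, h₃, h₂⟩

theorem Gd.countable (r b : Ordinal.{u}) (p : OL.{u}) : {v | Gd m.it r p b v}.Countable :=
  (countable_iUnion fun n : ℕ => InH.countable m.it r (MP_9a6faa_lc.al m n ++ b :: p)).mono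
    fun _ h => by
      obtain ⟨i, h₁, h₂⟩ := Gd.al h
      obtain ⟨n, rfl⟩ := Ordinal.lt_omega0.1 h₁
      exact mem_iUnion.2 ⟨n, h₂⟩

theorem Gd.mono {m : Mach.{u}} {r s b v : Ordinal.{u}} {p : OL.{u}} (h : Gd m r p b v)
    (hr : r ≤ s) : Gd m s p b v :=
  let ⟨k, h⟩ := h; ⟨k, h.mono' fun _ _ h => h.mono hr fun _ => id⟩

theorem Gd.lim {s b v : Ordinal.{u}} {p : OL.{u}} (h : Gd m.it s p b v) (hs : Lim s)
    (hc : Ordinal.omega0 < cf m s) : ∃ r < s, Gd m.it r p b v := by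
  obtain ⟨k, h⟩ := h
  obtain ⟨x, h₁, h₂⟩ := bdd_of_lt_cf
    (f := fun i => mu (fun r => InH m.it r (MP_9a6faa_lc.al m i ++ b :: p) v)) (by fun_prop) hc
  refine ⟨x, h₁, k, h.mono (A := fun x => ∃ n : ℕ, x = sa m n)
    (fun X Y h hX => Eventually.mono hX fun n => h _ ⟨n, rfl⟩) fun l hl h => ?_⟩
  obtain ⟨i, h₃, rfl⟩ := exists_al hl
  obtain ⟨h₄, h₅⟩ := mu_lt (h.lim hs)
  exact h₅.mono (h₂ i h₃ h₄).le fun _ => id

end It

theorem Base.const {m : Mach.{u}} {g v z z' : Ordinal.{u}} {t : Prop} {l e : OL.{u}} (hz : g ≤ z)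
    (h : Base m g t v (l ++ z :: e)) : Base m g t v (l ++ z' :: e) := by
  rcases h with ⟨ht, h⟩ | ⟨-, h₁, a, x, h₂, h₃⟩
  · refine Or.inl ⟨ht, h.cut le_rfl fun x h₁ h₂ => InH.base ?_ h₂⟩
    have : x ≠ z := (h₂.trans_le hz).ne
    simp only [List.mem_append, List.mem_cons] at h₁ ⊢
    tauto
  · have : z ∈ [a, x] := by simp [← h₂]
    have h₄ : max x a < z := (((max_le_G x a).trans_lt (P_lt h₃)).trans h₁).trans_le hz
    simp only [List.mem_cons, List.not_mem_nil, or_false] at this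
    rcases this with rfl | rfl <;> simp at h₄

namespace Meas

variable {μ : Meas.{u}} {V : Type v} {𝒞 : FO.{u, v} Unit V}

theorem bdd_of_ctbl [Full 𝒞] [HasSep 𝒞] {a : Ordinal.{u}} (ha : RegA 𝒞 a) (hk : μ.κ ≤ a)
    {T : Ordinal.{u} → Prop} (hT : 𝒞.Tm T) (hc : {x | T x}.Countable) :
    ∃ b < a, ∀ x < a, T x → x < b := by
  have h₁ : col T a < a := not_le.1 fun h => by
    have h₂ : (Iio μ.κ).Countable := (hc.image (col T)).mono fun x hx =>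
      let ⟨z, _, h₃, h₄⟩ := col_surj (lt_of_lt_of_le hx (hk.trans h)); h₄ ▸ mem_image_of_mem _ h₃
    obtain ⟨z, h₃, h₄⟩ := (μ.hκ.and ((eventually_countable_ball h₂
      (p := fun z b _ => b < z)).2 μ.hI)).exists
    exact (h₄ z h₃).false
  obtain ⟨b, h₂, h₃⟩ := ha (fun i v => T v ∧ col T v = i) (by fun_prop) _ h₁
  refine ⟨b, h₂, fun x hx h => ?_⟩
  obtain ⟨v, h₄, h₅, h₆⟩ := h₃ _ (col_lt h hx) ⟨x, hx, h, rfl⟩
  exact col_inj h₅ h h₆ ▸ h₄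

section Junk

variable [Full 𝒞] [HasSep 𝒞] {g a : Ordinal.{u}}
  (hG : ∀ r < g, ∀ p, 𝒞.Tm (fun z : Ordinal.{u} × Ordinal.{u} => Gd μ.mach.it r p z.1 z.2))
  (ha : RegA 𝒞 a) (hk : μ.κ < a) (hd : a < dl μ.mach)
include hG ha hk hd

theorem nr_bdd {r y : Ordinal.{u}} (h : NR μ.mach.it g r) (hy : y < a) (p : OL.{u}) :
    ∃ c < a, ∀ b < y, ∀ x < a, Gd μ.mach.it r p b x → x < c := by
  obtain ⟨r', h₁, p', h₂⟩ := h a hd p
  obtain ⟨R, hR, e⟩ : ∃ R : Ordinal.{u} × Ordinal.{u} → Prop, 𝒞.Tm R ∧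
    ∀ b x, R (b, x) ↔ Gd μ.mach.it r' p' b x := ⟨_, hG r' h₁ p', fun _ _ => Iff.rfl⟩
  obtain ⟨c, h₃, h₄⟩ := ha (fun b c => ∀ x < a, R (b, x) → x < c) (by fun_prop) y hy
  refine ⟨c, h₃, fun b hb x hx h => ?_⟩
  obtain ⟨v, h₅, h₆⟩ := h₄ b hb (bdd_of_ctbl ha hk.le (T := fun x => R (b, x)) (by fun_prop)
    (by simpa only [e] using Gd.countable r' b p'))
  exact (h₆ x hx ((e _ _).2 (h₂ b (hb.trans hy) x hx h))).trans h₅

theorem junk_top (h : ∀ r, NR μ.mach.it g r) (hl : LimCl a) (hj : ∀ b < dl μ.mach, μ.kp b ≠ a) :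
    cf μ.mach a ≤ th μ.mach := by
  obtain ⟨b, h₁, h₂⟩ := wellFounded_lt.has_min {b | b < dl μ.mach ∧ a ≤ μ.kp b} ⟨a, hd, le_kp hd⟩
  have h₃ := h₁.2.lt_of_ne (hj b h₁.1).symm
  replace h₂ : ∀ c < b, μ.kp c < a := fun c hc => not_le.1 fun h => h₂ c ⟨hc.trans h₁.1, h⟩ hc
  obtain ⟨y, h₄, h₅, h₆⟩ : ∃ y < a, Gcl y ∧ ∀ c < b, μ.kp c < y := by
    by_cases h : Lim b
    · obtain ⟨c, h₄, h₅⟩ := kp_cont h₁.1 h h₃
      exact absurd (h₂ c h₄) h₅.not_gt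
    · rcases eq_zero_or_pos b with rfl | h0
      · exact absurd (kp_zero ▸ h₃) hk.not_gt
      · simp only [Lim, h0, true_and, not_forall, not_lt] at h
        obtain ⟨x, h₄, h₅⟩ := h
        obtain ⟨y, h₆, h₇, h₈⟩ := hl _ (h₂ x h₄)
        refine ⟨y, h₆, h₈, fun c hc => lt_of_le_of_lt ?_ h₇⟩
        rcases (lt_add_one_iff.1 (hc.trans_le h₅)).eq_or_lt with rfl | h
        exacts [le_rfl, (kp_lt h (h₄.trans h₁.1)).le]
  refine cf_le (f := fun c => mu (fun x => ∀ b < y, ap μ.mach.it (μ.j c) b < a →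
    ap μ.mach.it (μ.j c) b < x)) (by fun_prop) fun x hx => ?_
  obtain ⟨e, h₇, rfl, h₈⟩ := lt_kp h₁.1 (hx.trans h₃)
  obtain ⟨L, h₉, c, hc, h₀⟩ := h₇.rep μ.gcl le_rfl h₈
  have hL : ∀ x ∈ L, x < dl μ.mach := fun x hx => (h₉ x hx).trans h₁.1
  rw [rk_congr (h₇.mono h₁.1.le) (Fn.valc hL c) h₀, rk_valc hL] at hx ⊢
  obtain ⟨r, h₁₀, h₁₁, h₁₂⟩ := exists_gcl₂ (μ.j c) y
  obtain ⟨w, h₁₃, h₁₄⟩ := nr_bdd hG ha hk hd (h r) h₄ [μ.j c]
  have h₁₅ : ∀ b < y, ap μ.mach.it (μ.j c) b < a → ap μ.mach.it (μ.j c) b < w := fun b hb h =>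
    h₁₄ b hb _ h ⟨0, wit_G _ _ _ ▸ InH.wit ((InH.base (by simp) h₁₀).pair
      (InH.base (by simp) (hb.trans h₁₁)) (h₁₂.G h₁₀ (hb.trans h₁₁)))⟩
  obtain ⟨h₁₆, h₁₇⟩ := mu_lt (S := fun w => ∀ b < y, ap μ.mach.it (μ.j c) b < a →
    ap μ.mach.it (μ.j c) b < w) ⟨w, h₁₃, h₁₅⟩
  exact ⟨c, hc, (h₁₇ _ (h₅.encL (List.forall_mem_map.2 fun x hx => h₆ x (h₉ x hx))) hx).le, h₁₆⟩

theorem junk_mid {s y : Ordinal.{u}} {p : OL.{u}} (hs : Lim s) (h : ∀ r < s, NR μ.mach.it g r)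
    (hl : Lim a) (hy : y < a) (hj : ∀ x < a, ∃ b < y, Gd μ.mach.it s p b x) :
    Dt μ.mach a ↔ cf μ.mach s ≤ Ordinal.omega0 ∨ Dt μ.mach s := by
  rcases le_or_gt (cf μ.mach s) Ordinal.omega0 with hc | hc
  · refine iff_of_true (Dt.of_le hl (le_trans ?_ gcl_th.1.le)) (Or.inl hc)
    obtain ⟨d, h₁⟩ := cf_spec μ.mach s
    refine cf_le (f := fun i => mu (fun c => ∀ b < y, ∀ x < a,
      InH μ.mach.it (ap μ.mach d (fst i)) (al μ.mach (snd i) ++ b :: p) x → x < c))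
      (by fun_prop) fun x hx => ?_
    obtain ⟨b, h₂, h₃⟩ := hj x hx
    obtain ⟨i, h₄, h₅⟩ := h₃.al
    obtain ⟨r, h₆, h₇⟩ := h₅.lim hs
    obtain ⟨n, h₈, h₉, h₀⟩ := h₁ r h₆
    obtain ⟨w, h₁₀, h₁₁⟩ := nr_bdd hG ha hk hd (h _ h₀) hy (al μ.mach i ++ p)
    obtain ⟨h₁₂, h₁₃⟩ := mu_lt (S := fun w => ∀ b < y, ∀ x < a,
      InH μ.mach.it (ap μ.mach d n) (al μ.mach i ++ b :: p) x → x < w) ⟨w, h₁₀,
      fun b hb x hx h => h₁₁ b hb x hx ⟨0, h.mono le_rfl fun x => by simp; tauto⟩⟩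
    refine ⟨G n i, G_omega (h₈.trans_le hc) h₄, ?_⟩
    simp only [fst_G, snd_G]
    exact ⟨(h₁₃ b h₂ x hx (h₇.mono h₉ fun _ => id)).le, h₁₂⟩
  · rw [or_iff_right hc.not_ge]
    have key := fun r hr => mu_lt (nr_bdd hG ha hk hd (h r hr) hy p)
    refine dt_congr hl hs (cf_eq_of_mono (f := fun r => mu (fun c => ∀ b < y, ∀ x < a,
      Gd μ.mach.it r p b x → x < c)) (by fun_prop) hl (fun r r' h₁ h₂ =>
      mu_le fun b hb x hx h => (key r' h₂).2 b hb x hx (h.mono h₁)) (fun r hr => (key r hr).1)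
      fun x hx => ?_).symm
    obtain ⟨b, h₁, h₂⟩ := hj x hx
    obtain ⟨r, h₃, h₄⟩ := h₂.lim hs hc
    exact ⟨r, h₃, ((key r h₃).2 b h₁ x hx h₄).le⟩

end Junk

variable (𝒞) in
def RegC [HasSep 𝒞] (a : Ordinal.{u}) : Prop := ∀ s : 𝒞.Ob, ∀ y < a, ∃ b < a, ∀ i < y,
  (∃ v < a, Mem2 ⟨()⟩ s i v) → ∃ v < b, Mem2 ⟨()⟩ s i v

theorem RegC.regA [HasSep 𝒞] {a : Ordinal.{u}} (h : RegC 𝒞 a) : RegA 𝒞 a := fun R hR y hy => by
  obtain ⟨s, hs⟩ := sep2 (𝒜 := 𝒞) (Γ := ℕ) (R := fun _ => R) (by fun_prop) (x := 0) (i := ())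
    trivial a
  obtain ⟨b, h₁, h₂⟩ := h s y hy
  refine ⟨b, h₁, fun i hi ⟨v, h₃, h₄⟩ => ?_⟩
  obtain ⟨w, h₅, h₆⟩ := h₂ i hi ⟨v, h₃, (hs _ (hi.trans hy) _ h₃).2 h₄⟩
  exact ⟨w, h₅, (hs _ (hi.trans hy) _ (h₅.trans h₁)).1 h₆⟩

variable (μ 𝒞) in
/-- The machine that guesses the measure of the iterate from the cofinality pattern. -/
noncomputable def guess [HasSep 𝒞] : Mach.{u} :=
  ⟨dl μ.mach, fun X => ∃ t : Prop, ∃ n < dl μ.mach, ∀ a, n ≤ a → a < dl μ.mach →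
    LimCl a → RegC 𝒞 a → (Dt μ.mach a ↔ t) → X a,
    fun _ _ h ⟨t, n, h₁, h₂⟩ => ⟨t, n, h₁, fun a h₃ h₄ h₅ h₆ h₇ => h a h₄ (h₂ a h₃ h₄ h₅ h₆ h₇)⟩⟩

instance : Par 𝒞 (⟨()⟩ : 𝒞.Wd) :=
  ⟨Tm.mk' (fun _ _ _ => rfl) (𝒞.fstR (Cd.rng (α := Ordinal.{u}))) fun _ x _ _ _ =>
    ⟨fun _ => rfl, fun _ => ⟨_, _, rfl, x, trivial, rfl⟩⟩⟩

theorem dq_guess [Full 𝒞] [HasSep 𝒞] (hD : 𝒞.Tm (Dt μ.mach)) : DQ 𝒞 (fun _ => μ.guess 𝒞) where
  κ := Full.const _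
  Q := fun R hR => by
    obtain ⟨S, hS, e⟩ : ∃ S : 𝒞.Ob × Ordinal.{u} → Prop, 𝒞.Tm S ∧
      ∀ x y, S (x, y) = R () (𝒞.pr x (𝒞.o y)) := ⟨_, tm_of_am hR, fun _ _ => rfl⟩
    obtain ⟨D, hD, e'⟩ : ∃ D : Ordinal.{u} → Prop, 𝒞.Tm D ∧ D = Dt μ.mach := ⟨_, hD, rfl⟩
    simp only [← e, guess, RegC, ← e']
    exact am_of_tm (by fun_prop)

theorem tail_base (g v : Ordinal.{u}) (t : Prop) (k : ℕ) (e : OL.{u}) :
    ∃ c < dl μ.mach, ∀ b, c ≤ b → b < dl μ.mach →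
      (QL μ.mach.it (fun l => Base μ.mach.it g t v l) k (μ.kp b :: e) ↔
        μ.mach.it.Q (fun y => QL μ.mach.it (fun l => Base μ.mach.it g t v l) k (y :: e))) := by
  simpa using tail_dec (μ := μ) (X := fun z => QL z.1 (fun l => Base z.1 (fst z.2.1) t
    (fst (snd z.2.1)) l) (toN (fst (snd (snd z.2.1)))) (z.2.2 :: decL (snd (snd (snd z.2.1)))))
    (by fun_prop) (G g (G v (G k (encL e))))

section Main

variable [Full 𝒞] [HasSep 𝒞] (hD : 𝒞.Tm (Dt μ.mach))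
  (hS : ∀ s : 𝒞.Ob, (SS μ.mach).Tm (fun z : Ordinal.{u} × Ordinal.{u} => Mem2 ⟨()⟩ s z.1 z.2))

omit [Full 𝒞] in
theorem P_guess_aux {g : Ordinal.{u}} (h : ∀ a < g, ∀ x,
    (μ.guess 𝒞).Q (fun z => P μ.mach.it a (G x z)) ↔ μ.mach.it.Q (fun z => P μ.mach.it a (G x z))) :
    ∀ d ≤ g, ∀ x, P (μ.guess 𝒞) d x ↔ P μ.mach.it d x := fun d => by
  induction d using WellFoundedLT.induction with
  | ind d ih =>
    intro hd x
    rw [P_iff, step_congr fun a ha => ih a ha (ha.le.trans hd), P_iff (d := d), step, step]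
    by_cases h₃ : fst d = 3
    · rw [h _ (((fst_le _).trans_lt (snd_lt (by simp [h₃]))).trans_le hd)]
    · simp only [h₃, false_and]

include hD hS

theorem guess_base (g : Ordinal.{u}) : ∀ (t : Prop) (k : ℕ) v e,
    (μ.guess 𝒞).Q (fun z => QL μ.mach.it (fun l => Base μ.mach.it g t v l) k (z :: e)) ↔
      μ.mach.it.Q (fun z => QL μ.mach.it (fun l => Base μ.mach.it g t v l) k (z :: e)) := by
  induction g using WellFoundedLT.induction with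
  | ind g ih =>
  intro t k v e
  obtain ⟨c, h₁, h₂⟩ := tail_base (μ := μ) g v t k e
  refine ⟨fun ⟨t, n, h₃, h₄⟩ => ?_, fun hQ => ?_⟩
  · have reg : ∀ {a}, Reg μ.mach a → RegC 𝒞 a := fun h s => h.regA _ (hS s)
    obtain ⟨i, h₅, h₆⟩ := ((ev_lt_sb h₁).and (ev_lt_sb h₃)).exists
    by_cases ht : t
    · rw [← h₂ _ (h₅.trans (sb_lt_sa _)).le (sa_lt_dl _ i), kp_sa]
      exact h₄ _ (h₆.trans (sb_lt_sa _)).le (sa_lt_dl _ i) (reg_sa _).limCl (reg (reg_sa _))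
        (iff_of_true (dt_sa (gcl_th.nat i)) ht)
    · have := (sb_lt_sa _).trans (sa_lt_dl μ.mach i)
      rw [← h₂ _ h₅.le this, kp_sb]
      exact h₄ _ h₆.le this (reg_sb _).limCl (reg (reg_sb _)) (iff_of_false (not_dt_sb _) ht)
  rcases lt_or_ge g (dl μ.mach) with hg | hg
  · obtain ⟨i, h₃, h₄⟩ := (Eventually.and hQ (ev_lt_sb hg)).exists
    exact ⟨True, g, hg, fun a _ _ _ _ _ => h₃.mono' fun l _ =>
      Base.const (h₄.trans (sb_lt_sa _)).le⟩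
  have hG : ∀ r < g, ∀ p,
      𝒞.Tm (fun z : Ordinal.{u} × Ordinal.{u} => Gd μ.mach.it r p z.1 z.2) := fun r hr p => by
    let _ := cdW 𝒞 fun _ => μ.guess 𝒞
    have := dq_guess hD
    have := hasQ_cdW (𝒜 := 𝒞) fun _ => μ.guess 𝒞
    have := par_cdW (𝒜 := 𝒞) (μ.guess 𝒞)
    refine Tm.congrP (Q := fun z => Gd (μ.guess 𝒞) r p z.1 z.2) (by fun_prop) fun z =>
      exists_congr fun k => ?_
    have hP := P_guess_aux (μ := μ) (𝒞 := 𝒞) (g := r) fun a ha x => by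
      simpa [QL, Base] using ih _ ((add_one_le_iff.2 ha).trans_lt hr) False 0 a [x]
    generalize z.1 :: p = l
    induction k generalizing l with
    | zero => exact ⟨fun h => InH.congr h fun d hd => hP d hd.le,
        fun h => InH.congr h fun d hd x => (hP d hd.le x).symm⟩
    | succ k ih' =>
      simp only [QL, ih']
      simpa [Base] using ih r hr True k z.2 l
  have hk : μ.κ < dl μ.mach := κ_lt_th.trans (th_lt_dl μ.mach)
  rcases star_it g hg with h | ⟨s, p, hs, h, h₃⟩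
  · have h₃ : μ.κ ≤ μ.kp c := kp_zero ▸ by
      rcases eq_zero_or_pos c with rfl | h
      exacts [le_rfl, (kp_lt h h₁).le]
    refine ⟨False, μ.kp c + 1, (gcl_dl _).succ (kp_lt_dl h₁), fun a h₄ h₅ h₆ h₇ h₈ => ?_⟩
    rw [add_one_le_iff] at h₄
    by_cases hj : ∃ b < dl μ.mach, μ.kp b = a
    · obtain ⟨b, h₉, rfl⟩ := hj
      exact (h₂ b (not_lt.1 fun h => h₄.not_gt (kp_lt h h₁)) h₉).2 hQ
    · exact (h₈.1 (Dt.of_le (h₆.gcl (zero_le.trans_lt h₄)).lim (junk_top hG h₇.regA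
        (h₃.trans_lt h₄) h₅ h h₆ fun b hb e => hj ⟨b, hb, e⟩))).elim
  · obtain ⟨n, h₄, h₅⟩ := h₃ t k v e hQ
    refine ⟨¬ (cf μ.mach s ≤ Ordinal.omega0 ∨ Dt μ.mach s), max n (μ.κ + 1),
      max_lt h₄ ((gcl_dl _).succ hk), fun a h₆ h₇ h₈ h₉ h₀ => not_not.1 fun hn => ?_⟩
    rw [max_le_iff, add_one_le_iff] at h₆
    obtain ⟨y, h₁₀, h₁₁⟩ := h₅ a h₆.1 h₇ h₈ hn
    exact iff_not_self ((junk_mid hG h₉.regA h₆.2 h₇ hs h
      (h₈.gcl (zero_le.trans_lt h₆.2)).lim h₁₀ h₁₁).symm.trans h₀)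

/-- The hierarchy of the iterate is definable from the cofinality pattern. -/
theorem tm_P_it : 𝒞.Tm (fun z : Ordinal.{u} × Ordinal.{u} => P μ.mach.it z.1 z.2) := by
  let _ := cdW 𝒞 fun _ => μ.guess 𝒞
  have := dq_guess hD
  have := hasQ_cdW (𝒜 := 𝒞) fun _ => μ.guess 𝒞
  have := par_cdW (𝒜 := 𝒞) (μ.guess 𝒞)
  refine Tm.congrP (Q := fun z => P (μ.guess 𝒞) z.1 z.2) (by fun_prop) fun z =>
    P_guess_aux (fun a _ x => ?_) _ le_rfl _
  simpa [QL, Base] using guess_base hD hS (a + 1) False 0 a [x]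

end Main

end Meas

end Pool.Agent.MP_9a6faa_lc

end

section

namespace Pool.Agent.MP_9a6faa_lc

open Set Order FO Filter

universe u v w

namespace Meas

variable {μ : Meas.{u}}

theorem cf_j {a : Ordinal.{u}} (h : Reg μ.mach a) (hk : μ.κ < a) :
    Lim (μ.j a) ∧ cf μ.mach (μ.j a) = a := by
  have hl : Lim (μ.j a) :=
    ((lift_j a).los (Φ := Lim) (by fun_prop)).2 (Eventually.of_forall fun _ => h.lim)
  refine ⟨hl, (cf_eq_of_mono (f := μ.j) (by fun_prop) hl (fun _ _ h _ => j_strictMono.monotone h)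
    (fun _ h => j_strictMono h) fun y hy => ?_).symm.trans h.cf_eq⟩
  obtain ⟨e, he, rfl⟩ := rk_surj (μ := μ) y
  have h₁ := (rk_lt_iff he (Fn.const _)).1 hy
  obtain ⟨L, h₂, F, h₃, h₄⟩ := id he
  obtain ⟨b, h₅, h₆⟩ := h.bdd (f := fun z => F (decL z)) (by fun_prop) hk
  refine ⟨b, h₅, (rk_lt he (Fn.const b) ((h₁.and (ae_encL L)).mono fun x hx => ?_)).le⟩
  simpa [h₄] using h₆ _ hx.2 (by simpa [h₄] using hx.1)

theorem not_dt {e f : Asg.{u} → Ordinal.{u}} (he : μ.El e) (hf : μ.El f)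
    (h₁ : ∀ᶠ x in μ.AE, e x < th μ.mach) (h₂ : ∀ᶠ x in μ.AE, f x = sa μ.mach (e x))
    (h₃ : ∀ z < th μ.mach, μ.rk e ≠ μ.j z) : ¬ Dt μ.mach (μ.rk f) := by
  obtain ⟨s, h₄, h₅⟩ := wellFounded_lt.has_min {s | s ≤ th μ.mach ∧ ∀ᶠ x in μ.AE, e x < s}
    ⟨_, le_rfl, h₁⟩
  have h₆ : ∀ z < s, ∀ᶠ x in μ.AE, z < e x := fun z hz => by
    rcases ae_tri he (Fn.const z) with h | h | h
    exacts [absurd hz (h₅ z ⟨hz.le.trans h₄.1, h⟩),
      absurd (rk_congr he (Fn.const z) h) (h₃ z (hz.trans_le h₄.1)), h]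
  have hl : Lim s := ⟨let ⟨_, h⟩ := h₄.2.exists; zero_le.trans_lt h, fun z hz =>
    let ⟨_, h⟩ := ((h₆ z hz).and h₄.2).exists; (add_one_le_iff.2 h.1).trans_lt h.2⟩
  obtain ⟨g₁, g₂, g₃⟩ := se_spec μ.mach s
  have up : cf μ.mach (μ.rk f) ≤ cb μ.mach (se μ.mach s) := by
    refine cf_le (f := μ.rkc) (by fun_prop) fun y hy => ?_
    obtain ⟨g, hg, rfl⟩ := rk_surj (μ := μ) y
    obtain ⟨z, h₇, h₈⟩ := Fn.code hg le_rfl g₁ (κ_lt_th.trans g₂).le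
      ((((rk_lt_iff hg hf).1 hy).and (h₂.and h₄.2)).mono fun x h =>
        h.1.trans (h.2.1 ▸ g₃ _ h.2.2)) (gcl_cb _)
      ((mu_le fun n => g₃ _ (hl.nat n)).trans (lt_cb _).le) le_rfl
    exact ⟨z, h₇, h₈.ge, h₈ ▸ hy⟩
  have low : ∀ z < s, sa μ.mach z < cf μ.mach (μ.rk f) := fun z hz => not_le.1 fun h => by
    obtain ⟨c, hc⟩ := cf_spec μ.mach (μ.rk f)
    obtain ⟨F, hF, eF⟩ : ∃ F : Ordinal.{u} → Ordinal.{u}, (SS μ.mach).Tm F ∧ ∀ i w,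
        F (G i w) = ap μ.mach (snd (μ.rep (ap μ.mach c i))) w :=
      ⟨fun t => ap μ.mach (snd (μ.rep (ap μ.mach c (fst t)))) (snd t), by fun_prop, by simp⟩
    have key : ∀ w, z < w → _ := fun w hw => mu_lt ((reg_sa w).bdd hF
      ((sb_lt_sa (m := μ.mach) (z + 1)).trans_le (sa_strictMono.monotone (add_one_le_iff.2 hw))))
    have hg := he.comp (f := fun w => mu (fun b => ∀ i < sb μ.mach (z + 1),
      F i < sa μ.mach w → F i < b)) (by fun_prop)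
    obtain ⟨i, h₇, h₈, h₉⟩ := hc _ (rk_lt hg hf (((h₆ z hz).and h₂).mono fun x h =>
      h.2 ▸ (key _ h.1).1))
    obtain ⟨r₁, r₂⟩ := rep_spec (μ := μ) (ap μ.mach c i)
    rw [← r₂] at h₈ h₉
    refine (rk_lt r₁.el hg ((((rk_lt_iff r₁.el hf).1 h₉).and ((h₆ z hz).and (h₂.and
      (ae_encL (decL (fst (μ.rep (ap μ.mach c i)))))))).mono fun x h => ?_)).not_ge h₈
    have := (key _ h.2.1).2 _ ((reg_sb (z + 1)).gcl.G
      ((h₇.trans_le ‹_›).trans (sa_lt_sb (lt_add_one z)))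
      (h.2.2.2.trans (κ_lt_th.trans (th_lt_sb _))))
    rw [eF] at this
    exact this (h.2.2.1 ▸ h.1)
  rintro ⟨-, h | ⟨z, -, h⟩⟩
  · exact ((th_lt_sa 0).trans (low 0 hl.1)).not_ge h
  · rcases lt_or_ge z s with h' | h'
    · exact (low z h').ne' h
    · exact (up.trans_lt (((lt_sc _).trans (sb_lt_sa s)).trans_le
        (sa_strictMono.monotone h'))).ne h

/-- The cofinality pattern decodes the range of the embedding. -/
theorem decode {d : Ordinal.{u}} (hd : ∀ z < th μ.mach, ap μ.mach d z = sa μ.mach z)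
    {y : Ordinal.{u}} (hy : y < μ.j (th μ.mach)) :
    Dt μ.mach (ap μ.mach.it (μ.j d) y) ↔ ∃ z < th μ.mach, y = μ.j z := by
  constructor
  · obtain ⟨e, he, rfl⟩ := rk_surj (μ := μ) y
    have h₁ := (rk_lt_iff he (Fn.const _)).1 hy
    refine not_imp_not.1 fun h => rk_ap d he ▸ not_dt he (he.comp (by fun_prop)) h₁
      (h₁.mono fun x => hd _) fun z hz e => h ⟨z, hz, e⟩
  · rintro ⟨z, hz, rfl⟩
    have := cf_j (reg_sa (m := μ.mach) z) (κ_lt_th.trans (th_lt_sa z))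
    rw [j, j, ← j, ← rk_ap d (Fn.const z), hd z hz]
    exact ⟨this.1, Or.inr ⟨z, hz, this.2⟩⟩

/-- The measure is definable from the cofinality pattern. -/
theorem meas_def {V : Type v} {𝒞 : FO.{u, v} Unit V} [Full 𝒞] [HasSep 𝒞]
    (hD : 𝒞.Tm (Dt μ.mach))
    (hS : ∀ s : 𝒞.Ob, (SS μ.mach).Tm (fun z : Ordinal.{u} × Ordinal.{u} => Mem2 ⟨()⟩ s z.1 z.2)) :
    ∃ (T : Ordinal.{u} → Prop) (R : Ordinal.{u} × Ordinal.{u} → Prop), 𝒞.Tm T ∧ 𝒞.Tm R ∧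
      ∀ X : Ordinal.{u} → Prop, (SS μ.mach).Tm X →
        ((∀ᶠ x in (μ.U : Filter Ordinal.{u}), X x) ↔ ∃ y, T y ∧ ∀ x < μ.κ, (X x ↔ R (y, x))) := by
  obtain ⟨d, hd⟩ := code_fun (m := μ.mach) (f := sa μ.mach) (by fun_prop) (th μ.mach)
  obtain ⟨R, hR, e⟩ : ∃ R : Ordinal.{u} × Ordinal.{u} → Prop, 𝒞.Tm R ∧
    ∀ a b, R (a, b) = P μ.mach.it a b := ⟨_, tm_P_it hD hS, fun _ _ => rfl⟩
  obtain ⟨D, hD', e'⟩ : ∃ D : Ordinal.{u} → Prop, 𝒞.Tm D ∧ D = Dt μ.mach := ⟨_, hD, rfl⟩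
  refine ⟨fun y => y < μ.j (th μ.mach) ∧ D (mu (fun v => R (μ.j d, G y v))) ∧ R (y, μ.κ), R,
    by fun_prop, hR, fun X hX => ?_⟩
  simp only [e, e']
  constructor
  · intro h
    obtain ⟨c, h₁, h₂⟩ := code_set_cb hX μ.κ
    exact ⟨μ.j c, ⟨j_strictMono h₁, (decode hd (j_strictMono h₁)).2 ⟨c, h₁, rfl⟩,
      P_j_κ.2 ((h.and μ.hκ).mono fun x hx => (h₂ x hx.2).2 hx.1)⟩,
      fun x hx => ((P_j_small hx).trans (h₂ x hx)).symm⟩
  · rintro ⟨y, ⟨h₁, h₂, h₃⟩, h₄⟩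
    obtain ⟨c, -, rfl⟩ := (decode hd h₁).1 h₂
    exact ((P_j_κ.1 h₃).and μ.hκ).mono fun x hx => (h₄ x hx.2).2 ((P_j_small hx.2).2 hx.1)

end Meas

end Pool.Agent.MP_9a6faa_lc

end
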