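import Pool.Agent.MP_9a6faa_lc.Defs
import Pool.Agent.Mg.F9a6faa.G897a99

section

namespace Pool.Agent.MP_9a6faa_lc

open FirstOrder

universe u v

/-- Formulas of set theory with de Bruijn indices. -/
inductive Fml : Type
  | mem (i j : ℕ) : Fml
  | eq (i j : ℕ) : Fml
  | bot : Fml
  | imp (φ ψ : Fml) : Fml
  | all (φ : Fml) : Fml

def cons {α : Type v} (x : α) (w : ℕ → α) : ℕ → α
  | 0 => x
  | k + 1 => w k

@[simp] theorem cons_zero {α : Type v} (x : α) (w : ℕ → α) : cons x w 0 = x := rfl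
@[simp] theorem cons_succ {α : Type v} (x : α) (w : ℕ → α) (k : ℕ) : cons x w (k + 1) = w k := rfl

/-- The environment given by a list, with a default value. -/
def env {α : Type v} (d : α) (l : List α) : ℕ → α := fun k => l.getD k d

theorem env_cons {α : Type v} (d x : α) (l : List α) : env d (x :: l) = cons x (env d l) := by
  funext k; cases k <;> simp [env]

theorem env_map {α β : Type v} (f : α → β) (d : α) (l : List α) :
    env (f d) (l.map f) = fun k => f (env d l k) := by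
  funext k
  simp [env, List.getD_eq_getElem?_getD]

theorem env_mem {α : Type v} {S : Set α} {d : α} {l : List α} (hd : d ∈ S)
    (hl : ∀ x ∈ l, x ∈ S) (k : ℕ) : env d l k ∈ S := by
  unfold env
  rw [List.getD_eq_getElem?_getD]
  cases h : l[k]? with
  | none => simpa using hd
  | some a => simpa using hl a (List.mem_of_getElem? h)

theorem comp_cons {α β : Type v} (f : α → β) (x : α) (w : ℕ → α) :
    (fun k => f (cons x w k)) = cons (f x) (fun k => f (w k)) := by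
  funext k; cases k <;> rfl

def Sat {M : Type v} (E : M → M → Prop) : Fml → (ℕ → M) → Prop
  | .mem i j, w => E (w i) (w j)
  | .eq i j, w => w i = w j
  | .bot, _ => False
  | .imp φ ψ, w => Sat E φ w → Sat E ψ w
  | .all φ, w => ∀ x, Sat E φ (cons x w)

def liftIdx (f : ℕ → ℕ) : ℕ → ℕ
  | 0 => 0
  | k + 1 => f k + 1

def Fml.rename : Fml → (ℕ → ℕ) → Fml
  | .mem i j, f => .mem (f i) (f j)
  | .eq i j, f => .eq (f i) (f j)
  | .bot, _ => .bot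
  | .imp φ ψ, f => .imp (φ.rename f) (ψ.rename f)
  | .all φ, f => .all (φ.rename (liftIdx f))

theorem sat_rename {M : Type v} (E : M → M → Prop) : ∀ (φ : Fml) (f : ℕ → ℕ) (w : ℕ → M),
    Sat E (φ.rename f) w ↔ Sat E φ (fun k => w (f k)) := by
  intro φ
  induction φ with
  | mem i j => intro f w; rfl
  | eq i j => intro f w; rfl
  | bot => intro f w; rfl
  | imp φ ψ ih₁ ih₂ => intro f w; simp only [Fml.rename, Sat, ih₁, ih₂]
  | all φ ih =>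
    intro f w
    simp only [Fml.rename, Sat, ih]
    refine forall_congr' fun x => ?_
    have : (fun k => cons x w (liftIdx f k)) = cons x (fun k => w (f k)) := by
      funext k; cases k <;> rfl
    rw [this]

/-- A property of valuations that is uniformly expressed by a formula. -/
def UDef (Ψ : ∀ (M : Type v), (M → M → Prop) → (ℕ → M) → Prop) : Prop :=
  ∃ φ : Fml, ∀ (M : Type v) (E : M → M → Prop) (w : ℕ → M), Sat E φ w ↔ Ψ M E w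

namespace UDef

variable {Φ Ψ : ∀ (M : Type v), (M → M → Prop) → (ℕ → M) → Prop}
variable {Θ : ∀ (M : Type v), (M → M → Prop) → (ℕ → M) → M → Prop}

theorem mem (i j : ℕ) : UDef.{v} (fun _ E w => E (w i) (w j)) := ⟨.mem i j, fun _ _ _ => Iff.rfl⟩

theorem eq (i j : ℕ) : UDef.{v} (fun _ _ w => w i = w j) := ⟨.eq i j, fun _ _ _ => Iff.rfl⟩

theorem bot : UDef.{v} (fun _ _ _ => False) := ⟨.bot, fun _ _ _ => Iff.rfl⟩

theorem sat (φ : Fml) (f : ℕ → ℕ) : UDef.{v} (fun _ E w => Sat E φ (fun k => w (f k))) :=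
  ⟨φ.rename f, fun _ E w => sat_rename E φ f w⟩

theorem imp (h₁ : UDef Φ) (h₂ : UDef Ψ) : UDef (fun M E w => Φ M E w → Ψ M E w) := by
  obtain ⟨φ, h₁⟩ := h₁
  obtain ⟨ψ, h₂⟩ := h₂
  exact ⟨.imp φ ψ, fun M E w => by simp only [Sat, h₁, h₂]⟩

theorem congr (h : UDef Φ) (e : ∀ M E w, Φ M E w ↔ Ψ M E w) : UDef Ψ := by
  obtain ⟨φ, h⟩ := h
  exact ⟨φ, fun M E w => (h M E w).trans (e M E w)⟩

theorem not (h : UDef Φ) : UDef (fun M E w => ¬ Φ M E w) := h.imp bot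

theorem ne (i j : ℕ) : UDef.{v} (fun _ _ w => w i ≠ w j) := (eq i j).not

theorem and (h₁ : UDef Φ) (h₂ : UDef Ψ) : UDef (fun M E w => Φ M E w ∧ Ψ M E w) :=
  (h₁.imp h₂.not).not.congr fun _ _ _ => by tauto

theorem or (h₁ : UDef Φ) (h₂ : UDef Ψ) : UDef (fun M E w => Φ M E w ∨ Ψ M E w) :=
  (h₁.not.imp h₂).congr fun _ _ _ => by tauto

theorem iff (h₁ : UDef Φ) (h₂ : UDef Ψ) : UDef (fun M E w => Φ M E w ↔ Ψ M E w) :=
  ((h₁.imp h₂).and (h₂.imp h₁)).congr fun _ _ _ => by tauto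

theorem all (h : UDef (fun M E w => Θ M E (fun k => w (k + 1)) (w 0))) :
    UDef (fun M E w => ∀ x, Θ M E w x) := by
  obtain ⟨φ, h⟩ := h
  refine ⟨.all φ, fun M E w => ?_⟩
  simp only [Sat, h]
  rfl

theorem ex (h : UDef (fun M E w => Θ M E (fun k => w (k + 1)) (w 0))) :
    UDef (fun M E w => ∃ x, Θ M E w x) :=
  (all (Θ := fun M E w x => ¬ Θ M E w x) h.not).not.congr fun _ _ _ => by simp

theorem isPair (i j k : ℕ) : UDef.{v} (fun _ E w => IsPair E (w i) (w j) (w k)) := by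
  unfold IsPair
  repeat' first
    | exact mem _ _ | exact eq _ _ | apply UDef.and | apply UDef.or | apply UDef.iff
    | apply UDef.all

theorem app (i j k : ℕ) : UDef.{v} (fun _ E w => App E (w i) (w j) (w k)) := by
  unfold App
  repeat' first
    | exact mem _ _ | exact eq _ _ | exact isPair _ _ _ | apply UDef.and | apply UDef.ex

theorem isFun (i j k : ℕ) : UDef.{v} (fun _ E w => IsFun E (w i) (w j) (w k)) := by
  unfold IsFun ExistsUnique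
  repeat' first
    | exact mem _ _ | exact eq _ _ | exact isPair _ _ _ | exact app _ _ _
    | apply UDef.and | apply UDef.or | apply UDef.iff
    | apply UDef.not | apply UDef.imp | apply UDef.all | apply UDef.ex

end UDef

/-! ### Translation from Mathlib formulas -/

def tvar {β : Type v} : Language.graph.Term β → β
  | .var b => b
  | .func f _ => Empty.elim f

theorem realize_tvar {M : Type v} (E : M → M → Prop) {β : Type v} (t : Language.graph.Term β)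
    (w : β → M) : @Language.Term.realize _ M (memStr E) β w t = w (tvar t) := by
  cases t with
  | var b => rfl
  | func f _ => exact Empty.elim f

def shiftIdx {α : Type v} {n : ℕ} (f : α ⊕ Fin n → ℕ) : α ⊕ Fin (n + 1) → ℕ
  | .inl a => f (.inl a) + 1
  | .inr i => Fin.lastCases 0 (fun j => f (.inr j) + 1) i

def trRel {β : Type v} (f : β → ℕ) : {l : ℕ} → Language.graphRel l →
    (Fin l → Language.graph.Term β) → Fml
  | _, .adj, ts => .mem (f (tvar (ts 0))) (f (tvar (ts 1)))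

def tr {α : Type v} : {n : ℕ} → Language.graph.BoundedFormula α n → (α ⊕ Fin n → ℕ) → Fml
  | _, .falsum, _ => .bot
  | _, .equal t₁ t₂, f => .eq (f (tvar t₁)) (f (tvar t₂))
  | _, .rel r ts, f => trRel f r ts
  | _, .imp φ ψ, f => .imp (tr φ f) (tr ψ f)
  | _, .all φ, f => .all (tr φ (shiftIdx f))

theorem sat_tr {M : Type v} (E : M → M → Prop) {α : Type v} (a : α → M) :
    ∀ {n : ℕ} (φ : Language.graph.BoundedFormula α n) (f : α ⊕ Fin n → ℕ) (xs : Fin n → M)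
      (w : ℕ → M), (∀ b, w (f b) = Sum.elim a xs b) →
      (Sat E (tr φ f) w ↔ @Language.BoundedFormula.Realize _ M (memStr E) α n φ a xs) := by
  intro n φ
  induction φ with
  | falsum => intro f xs w _; rfl
  | equal t₁ t₂ =>
    intro f xs w h
    simp only [tr, Sat, h, Language.BoundedFormula.Realize, realize_tvar]
  | rel r ts =>
    intro f xs w h
    cases r
    simp only [tr, trRel, Sat, h, Language.BoundedFormula.Realize, realize_tvar]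
    rfl
  | imp φ ψ ih₁ ih₂ =>
    intro f xs w h
    simp only [tr, Sat, Language.BoundedFormula.Realize, ih₁ f xs w h, ih₂ f xs w h]
  | all φ ih =>
    intro f xs w h
    simp only [tr, Sat, Language.BoundedFormula.Realize]
    refine forall_congr' fun x => ih _ _ _ ?_
    rintro (b | i)
    · simpa [shiftIdx] using h (.inl b)
    · refine Fin.lastCases ?_ (fun j => ?_) i
      · simp [shiftIdx]
      · simpa [shiftIdx] using h (.inr j)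

theorem exists_fml_of_definable {M : Type v} (E : M → M → Prop) {n : ℕ} (S : Set (Fin n → M))
    (h : @Set.Definable M Set.univ Language.graph (memStr E) (Fin n) S) :
    ∃ (φ : Fml) (l : List M), ∀ (x : Fin n → M) (w : ℕ → M) (d : M), (∀ i : Fin n, w i = x i) →
      (∀ k, w (k + n) = env d l k) → (Sat E φ w ↔ x ∈ S) := by
  classical
  let _ := memStr E
  obtain ⟨A, -, h⟩ := Set.definable_iff_finitely_definable.1 h
  obtain ⟨φ, rfl⟩ := Set.definable_iff_exists_formula_sum.1 h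
  let l : List M := A.toList
  have hl : ∀ a : (A : Set M), ∃ k, l[k]? = some a.1 := fun a =>
    List.mem_iff_getElem?.1 (Finset.mem_toList.2 a.2)
  choose idx hidx using hl
  let f : ((A : Set M) ⊕ Fin n) ⊕ Fin 0 → ℕ :=
    Sum.elim (Sum.elim (fun a => idx a + n) (fun i => i)) Fin.elim0
  refine ⟨tr φ f, l, fun x w d hx hw => ?_⟩
  refine sat_tr E _ φ f _ w ?_
  rintro ((a | i) | i)
  · simp [f, hw, env, List.getD_eq_getElem?_getD, hidx]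
  · simp [f, hx]
  · exact i.elim0

theorem exists_fml_of_definable₁ {M : Type v} (E : M → M → Prop) (S : Set M)
    (h : @Set.Definable₁ M Set.univ Language.graph (memStr E) S) :
    ∃ (φ : Fml) (l : List M), ∀ (x d : M), (Sat E φ (cons x (env d l)) ↔ x ∈ S) := by
  obtain ⟨φ, l, h⟩ := exists_fml_of_definable E _ h
  refine ⟨φ, l, fun x d => h ![x] _ d (fun i => ?_) (fun k => rfl)⟩
  fin_cases i; rfl

theorem exists_fml_of_definable₂ {M : Type v} (E : M → M → Prop) (R : Set (M × M))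
    (h : @Set.Definable₂ M Set.univ Language.graph (memStr E) R) :
    ∃ (φ : Fml) (l : List M), ∀ (x y d : M),
      (Sat E φ (cons y (cons x (env d l))) ↔ (x, y) ∈ R) := by
  let _ := memStr E
  have h' : (Set.univ : Set M).Definable Language.graph {x : Fin 2 → M | (x 1, x 0) ∈ R} := by
    have := Set.Definable.preimage_comp (Equiv.swap (0 : Fin 2) 1) h
    convert this using 1
    ext x
    simp
  obtain ⟨φ, l, h⟩ := exists_fml_of_definable E _ h'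
  refine ⟨φ, l, fun x y d => h ![y, x] _ d (fun i => ?_) (fun k => rfl)⟩
  fin_cases i <;> rfl

end Pool.Agent.MP_9a6faa_lc

end

section

namespace Pool.Agent.MP_9a6faa_lc

open Set Order FO

universe u v w

variable {m : Mach.{u}}

/-- The set coded by an ordinal. -/
noncomputable def val0 (m : Mach.{u}) (c : Ordinal.{u}) : ZFSet.{u} :=
  ZFSet.range (fun z : {z : Iio c // P m c z} => val0 m z.1)
termination_by c
decreasing_by exact z.1.2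

theorem mem_val0 {c : Ordinal.{u}} {x : ZFSet.{u}} : x ∈ val0 m c ↔ ∃ z, P m c z ∧ val0 m z = x := by
  rw [val0, ZFSet.mem_range]
  exact ⟨fun ⟨z, h⟩ => ⟨z.1, z.2, h⟩, fun ⟨z, h₁, h₂⟩ => ⟨⟨⟨z, P_lt h₁⟩, h₁⟩, h₂⟩⟩

def Eq0 (m : Mach.{u}) (a b : Ordinal.{u}) : Prop := val0 m a = val0 m b

def Mem0 (m : Mach.{u}) (a b : Ordinal.{u}) : Prop := val0 m a ∈ val0 m b

/-- The least code of a set of codes. -/
noncomputable def cs (m : Mach.{u}) (R : Ordinal.{u} → Prop) : Ordinal.{u} :=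
  mu (fun c => ∀ z, P m c z ↔ R z)

theorem cs_spec {R : Ordinal.{u} → Prop} (h : (SS m).Tm R) (hb : ∃ b, ∀ z, R z → z < b)
    (z : Ordinal.{u}) : P m (cs m R) z ↔ R z := by
  obtain ⟨b, hb⟩ := hb
  obtain ⟨c, hc⟩ := code_set h b
  exact mu_spec (R := fun c => ∀ z, P m c z ↔ R z)
    ⟨c, fun z => (hc z).trans (and_iff_right_of_imp (hb z))⟩ z

noncomputable def on (m : Mach.{u}) (a : Ordinal.{u}) : Ordinal.{u} :=
  cs m (fun z => ∃ b : Iio a, z = on m b)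
termination_by a
decreasing_by exact b.2

noncomputable def up (m : Mach.{u}) (a b : Ordinal.{u}) : Ordinal.{u} :=
  cs m (fun z => z = a ∨ z = b)

noncomputable def pn (m : Mach.{u}) (a b : Ordinal.{u}) : Ordinal.{u} := up m (up m a a) (up m a b)

/-- Linear orders whose ground model cofinality is of the distinguished type. -/
def DCof (m : Mach.{u}) (R : ZFSet.{u} → ZFSet.{u} → Prop) : Prop :=
  IsLin R ∧ ∃ a c, Dt m a ∧
    (∀ i j, i < j → j < a → R (val0 m (ap m c i)) (val0 m (ap m c j))) ∧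
    ∀ x, Fld R x → ∃ i < a, R x (val0 m (ap m c i))

def DCof0 (m : Mach.{u}) (R : Ordinal.{u} → Ordinal.{u} → Prop) : Prop :=
  ((∀ x, ¬ R x x) ∧ (∀ x y z, R x y → R y z → R x z) ∧
    ∀ x y, (∃ z, R x z ∨ R z x) → (∃ z, R y z ∨ R z y) → R x y ∨ Eq0 m x y ∨ R y x) ∧
  ∃ a c, Dt m a ∧ (∀ i j, i < j → j < a → R (ap m c i) (ap m c j)) ∧
    ∀ x, (∃ z, R x z ∨ R z x) → ∃ i < a, R x (ap m c i)

theorem dcof_iff {R : ZFSet.{u} → ZFSet.{u} → Prop} (h : ∀ x, Fld R x → ∃ c, val0 m c = x) :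
    DCof0 m (fun a b => R (val0 m a) (val0 m b)) ↔ DCof m R := by
  have fld : ∀ x, (∃ z, R (val0 m x) (val0 m z) ∨ R (val0 m z) (val0 m x)) ↔ Fld R (val0 m x) :=
    fun x => ⟨fun ⟨z, h⟩ => ⟨_, h⟩, fun ⟨y, h'⟩ => by
      obtain ⟨c, rfl⟩ := h y ⟨_, h'.symm⟩
      exact ⟨c, h'⟩⟩
  simp only [DCof0, fld]
  refine and_congr ⟨fun ⟨h₁, h₂, h₃⟩ => ⟨fun x hx => ?_, fun x y z hx hy => ?_,
    fun x y hx hy => ?_⟩, fun ⟨h₁, h₂, h₃⟩ => ⟨fun _ => h₁ _, fun _ _ _ => h₂ _ _ _,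
      fun _ _ => h₃ _ _⟩⟩ (exists₂_congr fun a c => and_congr_right fun _ =>
        and_congr_right fun _ => ⟨fun h₁ x hx => ?_, fun h₁ _ => h₁ _⟩)
  · obtain ⟨c, rfl⟩ := h x ⟨x, Or.inl hx⟩
    exact h₁ c hx
  · obtain ⟨a, rfl⟩ := h x ⟨y, Or.inl hx⟩
    obtain ⟨b, rfl⟩ := h y ⟨z, Or.inl hy⟩
    obtain ⟨c, rfl⟩ := h z ⟨_, Or.inr hy⟩
    exact h₂ a b c hx hy
  · obtain ⟨a, rfl⟩ := h x hx
    obtain ⟨b, rfl⟩ := h y hy
    exact h₃ a b hx hy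
  · obtain ⟨a, rfl⟩ := h x hx
    exact h₁ a hx

noncomputable def QF.enc : QF → Ordinal.{u}
  | .mem i j => G 1 (G i j)
  | .eq i j => G 2 (G i j)
  | .bot => G 3 0
  | .imp φ ψ => G 4 (G φ.enc ψ.enc)
  | .all φ => G 5 φ.enc
  | .cof φ => G 6 φ.enc

theorem QF.enc_inj : Function.Injective QF.enc.{u} := by
  intro φ
  induction φ with
  | imp φ ψ ih₁ ih₂ =>
    intro χ h
    cases χ <;> simp [QF.enc, G_inj] at h
    rw [ih₁ h.1, ih₂ h.2]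
  | all φ ih | cof φ ih =>
    intro χ h
    cases χ <;> simp [QF.enc, G_inj] at h
    rw [ih h]
  | _ => intro χ h; cases χ <;> simp_all [QF.enc, G_inj]

instance : Nonempty QF := ⟨.bot⟩

def QF.sw (A B : ℕ → ℕ → Prop) (C : QF → QF → Prop) (D E : QF → Prop) : QF → Prop
  | .mem i j => A i j
  | .eq i j => B i j
  | .bot => False
  | .imp φ ψ => C φ ψ
  | .all φ => D φ
  | .cof φ => E φ

theorem QF.sw_iff {A B : ℕ → ℕ → Prop} {C : QF → QF → Prop} {D E : QF → Prop} (χ : QF) :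
    ((∃ i j : ℕ, (χ.enc = G.{u} 1 (G i j) ∧ A i j) ∨ (χ.enc = G.{u} 2 (G i j) ∧ B i j)) ∨
      (∃ φ ψ : QF, χ.enc = G.{u} 4 (G φ.enc ψ.enc) ∧ C φ ψ) ∨
      ∃ φ : QF, (χ.enc = G.{u} 5 φ.enc ∧ D φ) ∨ (χ.enc = G.{u} 6 φ.enc ∧ E φ)) ↔
    χ.sw A B C D E := by
  cases χ <;> simp [QF.enc, G_inj, QF.sw, QF.enc_inj.eq_iff]

/-- Satisfaction in the set coded by `A`. -/
def Sat0 (m : Mach.{u}) (A d : Ordinal.{u}) (φ : QF) (l : OL.{u}) : Prop :=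
  SatQ (· ∈ ·) (DCof m) {x | x ∈ val0 m A} (val0 m d) φ (l.map (val0 m))

noncomputable def dc (m : Mach.{u}) (A : Ordinal.{u}) (φ : QF) (l : OL.{u}) : Ordinal.{u} :=
  cs m (fun z => P m A z ∧ Sat0 m A z φ (z :: l))

/-- Codes of the levels of the hierarchy. -/
noncomputable def lv (m : Mach.{u}) (a : Ordinal.{u}) : Ordinal.{u} :=
  cs m (fun z => ∃ b : Iio a, ∃ φ l, (∀ x, x ∈ l → P m (lv m b) x) ∧ z = dc m (lv m b) φ l)
termination_by a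
decreasing_by all_goals exact b.2

namespace FO

variable {I : Type} {V : Type v} {𝒜 : FO.{u, v} I V} {Γ : Type*} [Cd 𝒜 Γ] [HasSep 𝒜]

theorem df_isF : 𝒜.Df (fun c : Ordinal.{u} => ∃ φ, QF.enc φ = c) := by
  have := tm_grec (𝒜 := 𝒜) (Γ := Ordinal.{u}) (A := Ordinal.{u}) id id Tm.id Tm.id
    (fun _ _ h _ => h) (fun _ c => ∃ φ, QF.enc φ = c)
    (fun _ R c => (∃ i j : ℕ, c = G 1 (G i j) ∨ c = G 2 (G i j)) ∨ c = G 3 0 ∨
      ∃ a b, R a ∧ R b ∧ (c = G 4 (G a b) ∨ c = G 5 a ∨ c = G 6 a))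
    (fun _ a x => x < a) (by fun_prop)
    (fun _ c => by
      constructor
      · rintro ⟨_ | _ | _ | ⟨φ, ψ⟩ | φ | φ, rfl⟩
        exacts [Or.inl ⟨_, _, Or.inl rfl⟩, Or.inl ⟨_, _, Or.inr rfl⟩, Or.inr (Or.inl rfl),
          Or.inr (Or.inr ⟨_, _, ⟨(lt_cd (by simp) _ _).1, φ, rfl⟩, ⟨(lt_cd (by simp) _ _).2, ψ, rfl⟩,
            Or.inl rfl⟩),
          Or.inr (Or.inr ⟨_, _, ⟨right_lt_G _ (by simp), φ, rfl⟩, ⟨right_lt_G _ (by simp), φ, rfl⟩,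
            Or.inr (Or.inl rfl)⟩),
          Or.inr (Or.inr ⟨_, _, ⟨right_lt_G _ (by simp), φ, rfl⟩, ⟨right_lt_G _ (by simp), φ, rfl⟩,
            Or.inr (Or.inr rfl)⟩)]
      · rintro (⟨i, j, rfl | rfl⟩ | rfl | ⟨_, _, ⟨-, φ, rfl⟩, ⟨-, ψ, rfl⟩, rfl | rfl | rfl⟩)
        exacts [⟨.mem i j, rfl⟩, ⟨.eq i j, rfl⟩, ⟨.bot, rfl⟩, ⟨.imp φ ψ, rfl⟩, ⟨.all φ, rfl⟩,
          ⟨.cof φ, rfl⟩])
    (fun R hR => by fun_prop) (fun _ _ _ h => h)
    (fun _ _ a => ⟨a + 1, lt_add_one a, fun _ _ h _ h' => h'.trans h⟩)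
  exact (this.comp (Tm.id.pair Tm.id)).df

noncomputable instance : Cd 𝒜 QF := cdOfEnc QF.enc QF.enc_inj df_isF

instance : Pure 𝒜 QF := ⟨fun _ _ => trivial⟩

@[fun_prop] theorem tm_enc {φ : Γ → QF} (h : 𝒜.Tm φ) : 𝒜.Tm (fun z => QF.enc.{u} (φ z)) := by
  have : 𝒜.Tm QF.enc.{u} := Tm.mk' (fun _ _ _ => trivial) 𝒜.eq fun i x y _ _ => by
    constructor
    · rintro ⟨z, e⟩
      obtain ⟨e₁, e₂⟩ := pr_iff.1 e
      exact 𝒜.o_inj (e₂.trans e₁.symm)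
    · rintro rfl
      exact ⟨_, rfl⟩
  exact this.comp h

variable [Cd 𝒜 Mach.{u}] [HasQ 𝒜] {m : Γ → Mach.{u}} {a b : Γ → Ordinal.{u}}

@[fun_prop] theorem tm_Eq0 (hm : 𝒜.Tm m) (ha : 𝒜.Tm a) (hb : 𝒜.Tm b) :
    𝒜.Tm (fun z => Eq0 (m z) (a z) (b z)) := by
  have := tm_grec (𝒜 := 𝒜) (A := Ordinal.{u} × Ordinal.{u}) Prod.fst Prod.snd (by fun_prop)
    (by fun_prop) (fun _ _ => Prod.ext) (fun (m : Mach.{u}) z => Eq0 m z.1 z.2)
    (fun m R z => (∀ x, P m z.1 x → ∃ y, P m z.2 y ∧ R (x, y)) ∧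
      ∀ y, P m z.2 y → ∃ x, P m z.1 x ∧ R (x, y))
    (fun _ z w => w.1 < z.1 ∧ w.2 < z.2) (by fun_prop) (fun m z => by
      constructor
      · intro h
        refine ⟨fun x hx => ?_, fun y hy => ?_⟩
        · obtain ⟨y, h₁, h₂⟩ := mem_val0.1 (h ▸ mem_val0.2 ⟨x, hx, rfl⟩ : _ ∈ val0 m z.2)
          exact ⟨y, h₁, ⟨P_lt hx, P_lt h₁⟩, h₂.symm⟩
        · obtain ⟨x, h₁, h₂⟩ := mem_val0.1 (h ▸ mem_val0.2 ⟨y, hy, rfl⟩ : _ ∈ val0 m z.1)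
          exact ⟨x, h₁, ⟨P_lt h₁, P_lt hy⟩, h₂⟩
      · rintro ⟨h₁, h₂⟩
        refine ZFSet.ext fun w => ?_
        simp only [mem_val0]
        exact ⟨fun ⟨x, hx, e⟩ => let ⟨y, h₃, _, h₄⟩ := h₁ x hx; ⟨y, h₃, h₄.symm.trans e⟩,
          fun ⟨y, hy, e⟩ => let ⟨x, h₃, _, h₄⟩ := h₂ y hy; ⟨x, h₃, h₄.trans e⟩⟩)
    (fun R hR => by fun_prop) (fun _ _ _ h => h.1)
    (fun _ _ a => ⟨a.2 + 1, lt_add_one _, fun _ _ h _ h' => h'.2.trans h⟩)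
  exact this.comp (hm.pair (ha.pair hb))

@[fun_prop] theorem tm_Mem0 (hm : 𝒜.Tm m) (ha : 𝒜.Tm a) (hb : 𝒜.Tm b) :
    𝒜.Tm (fun z => Mem0 (m z) (a z) (b z)) :=
  Tm.congrP (Q := fun z => ∃ x, P (m z) (b z) x ∧ Eq0 (m z) x (a z)) (by fun_prop)
    fun _ => mem_val0.symm

@[fun_prop] theorem tm_cs {R : Γ → Ordinal.{u} → Prop} (hm : 𝒜.Tm m)
    (hR : 𝒜.Tm (fun z : Γ × Ordinal.{u} => R z.1 z.2)) :
    𝒜.Tm (fun z => cs (m z) (fun x => R z x)) := by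
  unfold cs; fun_prop

@[fun_prop] theorem tm_on (hm : 𝒜.Tm m) (ha : 𝒜.Tm a) : 𝒜.Tm (fun z => on (m z) (a z)) :=
  (tm_frec (𝒜 := 𝒜) on (fun m k a => cs m (fun z => ∃ b < a, z = k b))
    (fun m a k hk => by
      rw [on]
      exact congrArg _ (funext fun z => propext ⟨fun ⟨b, h, e⟩ => ⟨⟨b, h⟩, hk b h ▸ e⟩,
        fun ⟨b, e⟩ => ⟨b, b.2, (hk b b.2).symm ▸ e⟩⟩))
    (fun k hk => by fun_prop)).comp (hm.pair ha)

@[fun_prop] theorem tm_pn (hm : 𝒜.Tm m) (ha : 𝒜.Tm a) (hb : 𝒜.Tm b) :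
    𝒜.Tm (fun z => pn (m z) (a z) (b z)) := by
  unfold pn up; fun_prop

@[fun_prop] theorem tm_DCof0 {R : Γ → Ordinal.{u} → Ordinal.{u} → Prop} (hm : 𝒜.Tm m)
    (hR : 𝒜.Tm (fun z : Γ × Ordinal.{u} × Ordinal.{u} => R z.1 z.2.1 z.2.2)) :
    𝒜.Tm (fun z => DCof0 (m z) (fun x y => R z x y)) := by
  unfold DCof0; fun_prop

omit [Cd 𝒜 Mach.{u}] [HasQ 𝒜] in
@[fun_prop] theorem tm_sw {A B : Γ → ℕ → ℕ → Prop} {C : Γ → QF → QF → Prop} {D E : Γ → QF → Prop}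
    {φ : Γ → QF} (hA : 𝒜.Tm (fun z : Γ × ℕ × ℕ => A z.1 z.2.1 z.2.2))
    (hB : 𝒜.Tm (fun z : Γ × ℕ × ℕ => B z.1 z.2.1 z.2.2))
    (hC : 𝒜.Tm (fun z : Γ × QF × QF => C z.1 z.2.1 z.2.2))
    (hD : 𝒜.Tm (fun z : Γ × QF => D z.1 z.2)) (hE : 𝒜.Tm (fun z : Γ × QF => E z.1 z.2))
    (hφ : 𝒜.Tm φ) : 𝒜.Tm (fun z => QF.sw (fun i j => A z i j) (fun i j => B z i j)
      (fun i j => C z i j) (fun i => D z i) (fun i => E z i) (φ z)) :=
  Tm.congrP (by fun_prop) fun z => QF.sw_iff.{u} (φ z)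

@[fun_prop] theorem tm_Sat0 {φ : Γ → QF} {l : Γ → OL.{u}} (hm : 𝒜.Tm m) (ha : 𝒜.Tm a)
    (hb : 𝒜.Tm b) (hφ : 𝒜.Tm φ) (hl : 𝒜.Tm l) :
    𝒜.Tm (fun z => Sat0 (m z) (a z) (b z) (φ z) (l z)) := by
  have := tm_grec (𝒜 := 𝒜) (A := QF × OL.{u}) (fun z => z.1.enc) (fun z => encL z.2) (by fun_prop)
    (by fun_prop) (fun _ _ h h' => Prod.ext (QF.enc_inj h) (encL_inj h'))
    (fun (g : Γ) z => Sat0 (m g) (a g) (b g) z.1 z.2)
    (fun g R z => QF.sw (fun i j => Mem0 (m g) (z.2.getD i (b g)) (z.2.getD j (b g)))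
      (fun i j => Eq0 (m g) (z.2.getD i (b g)) (z.2.getD j (b g)))
      (fun φ ψ => R (φ, z.2) → R (ψ, z.2)) (fun φ => ∀ x, P (m g) (a g) x → R (φ, x :: z.2))
      (fun φ => DCof0 (m g) (fun x y => ∃ s t, P (m g) (a g) s ∧
        P (m g) (a g) t ∧ Eq0 (m g) x s ∧ Eq0 (m g) y t ∧ R (φ, s :: t :: z.2))) z.1)
    (fun g z w => w.1.enc < z.1.enc.{u} ∧ (w.2 = z.2 ∨ (∃ x < a g, w.2 = x :: z.2) ∨
      ∃ x < a g, ∃ y < a g, w.2 = x :: y :: z.2)) (by fun_prop)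
    (fun g z => by
      obtain ⟨_ | _ | _ | ⟨φ, ψ⟩ | φ | φ, l⟩ := z
      · simp only [QF.sw, Sat0, SatQ, Mem0, List.getD_map]
      · simp only [QF.sw, Sat0, SatQ, Eq0, List.getD_map]
      · exact Iff.rfl
      · exact imp_congr (and_iff_right ⟨(lt_cd (by simp) _ _).1, Or.inl rfl⟩).symm
          (and_iff_right ⟨(lt_cd (by simp) _ _).2, Or.inl rfl⟩).symm
      · exact ⟨fun h x hx => ⟨⟨right_lt_G _ (by simp), Or.inr (Or.inl ⟨x, P_lt hx, rfl⟩)⟩,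
          h _ (mem_val0.2 ⟨x, hx, rfl⟩)⟩,
          fun h _ hx => let ⟨x, hx, e⟩ := mem_val0.1 hx; e ▸ (h x hx).2⟩
      · simp only [QF.sw]
        rw [Sat0, SatQ, ← dcof_iff fun x ⟨y, h⟩ => by
          obtain ⟨c, -, e⟩ := mem_val0.1 (h.elim (·.1) (·.2.1))
          exact ⟨c, e⟩]
        refine iff_of_eq (congrArg (DCof0 (m g)) (funext₂ fun x y => propext ⟨fun ⟨h₁, h₂, h₃⟩ => ?_,
          fun ⟨s, t, h₁, h₂, h₃, h₄, _, h₅⟩ => ?_⟩))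
        · obtain ⟨s, h₄, e⟩ := mem_val0.1 h₁
          obtain ⟨t, h₅, e'⟩ := mem_val0.1 h₂
          exact ⟨s, t, h₄, h₅, e.symm, e'.symm, ⟨right_lt_G _ (by simp),
            Or.inr (Or.inr ⟨s, P_lt h₄, t, P_lt h₅, rfl⟩)⟩, by rwa [← e, ← e'] at h₃⟩
        · rw [h₃, h₄]
          exact ⟨mem_val0.2 ⟨s, h₁, rfl⟩, mem_val0.2 ⟨t, h₂, rfl⟩, h₅⟩)
    (fun R hR => by fun_prop) (fun _ _ _ h => h.1) (fun g _ z => by
      obtain ⟨y, h₁, h₂, h₃⟩ := exists_gcl₂ (encL z.2) (a g)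
      refine ⟨y, h₁, fun z _ h w hw => ?_⟩
      rcases hw.2 with e | ⟨s, hs, e⟩ | ⟨s, hs, t, ht, e⟩ <;> rw [e]
      exacts [h, h₃.succ (h₃.G (hs.trans h₂) h),
        h₃.succ (h₃.G (hs.trans h₂) (h₃.succ (h₃.G (ht.trans h₂) h)))])
  exact (this.comp (f := fun z => (z, φ z, l z)) (Tm.id.pair (hφ.pair hl)) :)

@[fun_prop] theorem tm_dc {φ : Γ → QF} {l : Γ → OL.{u}} (hm : 𝒜.Tm m) (ha : 𝒜.Tm a)
    (hφ : 𝒜.Tm φ) (hl : 𝒜.Tm l) : 𝒜.Tm (fun z => dc (m z) (a z) (φ z) (l z)) := by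
  unfold dc; fun_prop

@[fun_prop] theorem tm_lv (hm : 𝒜.Tm m) (ha : 𝒜.Tm a) : 𝒜.Tm (fun z => lv (m z) (a z)) :=
  (tm_frec (𝒜 := 𝒜) lv (fun m k a => cs m (fun z => ∃ b < a, ∃ φ l,
      (∀ x, x ∈ l → P m (k b) x) ∧ z = dc m (k b) φ l))
    (fun m a k hk => by
      rw [lv]
      exact congrArg _ (funext fun z => propext ⟨fun ⟨b, h, e⟩ => ⟨⟨b, h⟩, hk b h ▸ e⟩,
        fun ⟨b, e⟩ => ⟨b, b.2, (hk b b.2).symm ▸ e⟩⟩))
    (fun k hk => by fun_prop)).comp (hm.pair ha)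

end FO

theorem P_on {a z : Ordinal.{u}} : P m (on m a) z ↔ ∃ b < a, z = on m b := by
  obtain ⟨c, hc⟩ := bound_fun a (on m)
  rw [on, ← cs_spec (m := m) (R := fun z => ∃ b < a, z = on m b) (by fun_prop)
    ⟨c, fun _ ⟨b, h, e⟩ => e ▸ hc b h⟩]
  simp

@[simp] theorem val0_on (a : Ordinal.{u}) : val0 m (on m a) = a.toZFSet := by
  induction a using WellFoundedLT.induction with
  | ind a ih =>
    ext x
    simp only [mem_val0, P_on, Ordinal.mem_toZFSet_iff]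
    exact ⟨fun ⟨_, ⟨b, h, e⟩, e'⟩ => ⟨b, h, by rw [← e', e, ih b h]⟩,
      fun ⟨b, h, e⟩ => ⟨_, ⟨b, h, rfl⟩, (ih b h).trans e⟩⟩

theorem P_up {a b z : Ordinal.{u}} : P m (up m a b) z ↔ z = a ∨ z = b :=
  cs_spec (by fun_prop) ⟨max a b + 1, by rintro _ (rfl | rfl) <;> simp⟩ z

theorem val0_up (a b : Ordinal.{u}) : val0 m (up m a b) = {val0 m a, val0 m b} := by
  ext x
  simp [mem_val0, P_up, eq_comm]

@[simp] theorem val0_pn (a b : Ordinal.{u}) :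
    val0 m (pn m a b) = ZFSet.pair (val0 m a) (val0 m b) := by
  simp [pn, val0_up, ZFSet.pair]

theorem P_dc {A z : Ordinal.{u}} {φ : QF} {l : OL.{u}} :
    P m (dc m A φ l) z ↔ P m A z ∧ Sat0 m A z φ (z :: l) :=
  cs_spec (by fun_prop) ⟨A, fun _ h => P_lt h.1⟩ z

theorem P_lv {a z : Ordinal.{u}} : P m (lv m a) z ↔
    ∃ b < a, ∃ φ l, (∀ x, x ∈ l → P m (lv m b) x) ∧ z = dc m (lv m b) φ l := by
  obtain ⟨c, hc⟩ := bound_fun a (lv m)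
  obtain ⟨y, h₁, h₂⟩ := exists_gcl c
  obtain ⟨d, hd⟩ := exists_bound (fun t : Iio a × QF × Iio y => dc m (lv m t.1) t.2.1 (decL t.2.2))
  rw [lv, ← cs_spec (m := m) (R := fun z => ∃ b < a, ∃ φ l, (∀ x, x ∈ l → P m (lv m b) x) ∧
    z = dc m (lv m b) φ l) (by fun_prop) ⟨d, fun _ ⟨b, h, φ, l, h₃, e⟩ => by
      simpa [e] using hd (⟨b, h⟩, φ, ⟨encL l, h₂.encL fun x hx =>
        ((P_lt (h₃ x hx)).trans (hc b h)).trans h₁⟩)⟩]
  simp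

end Pool.Agent.MP_9a6faa_lc

end

section

namespace Pool.Agent.MP_9a6faa_lc

open Set Order Ordinal

universe u

/-- Membership on a class of sets. -/
def ES (A : ZFSet.{u} → Prop) (x y : Subtype A) : Prop := x.1 ∈ y.1

/-- Transitive classes closed under pairs. -/
structure TrP (A : ZFSet.{u} → Prop) : Prop where
  tr : ∀ {x y}, A x → y ∈ x → A y
  up : ∀ {x y}, A x → A y → A {x, y}

theorem left_mem_pair {A x y : ZFSet.{u}} (h : A.IsTransitive) (e : ZFSet.pair x y ∈ A) : x ∈ A :=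
  h.mem_trans (y := {x}) (by simp) (h.mem_trans (by simp [ZFSet.pair]) e)

theorem right_mem_pair {A x y : ZFSet.{u}} (h : A.IsTransitive) (e : ZFSet.pair x y ∈ A) : y ∈ A :=
  h.mem_trans (y := {x, y}) (by simp) (h.mem_trans (by simp [ZFSet.pair]) e)

namespace TrP

variable {A : ZFSet.{u} → Prop} (h : TrP A)
include h

theorem pair {x y : ZFSet.{u}} (hx : A x) (hy : A y) : A (ZFSet.pair x y) := by
  simpa [ZFSet.pair] using h.up (h.up hx hx) (h.up hx hy)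

theorem ext {a b : Subtype A} (e : ∀ x, ES A x a ↔ ES A x b) : a = b :=
  Subtype.ext (ZFSet.ext fun z => ⟨fun hz => (e ⟨z, h.tr a.2 hz⟩).1 hz,
    fun hz => (e ⟨z, h.tr b.2 hz⟩).2 hz⟩)

theorem isOrd_iff {a : Subtype A} : IsOrd (ES A) a ↔ ∃ x : Ordinal.{u}, x.toZFSet = a.1 := by
  refine Iff.trans ?_ ZFSet.isOrdinal_iff_mem_range_toZFSet
  constructor
  · rintro ⟨h₁, h₂⟩
    refine ZFSet.isOrdinal_iff_trichotomous.2 ⟨fun x hx y hy =>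
      h₁ ⟨x, h.tr a.2 hx⟩ ⟨y, h.tr (h.tr a.2 hx) hy⟩ hx hy, ⟨fun x y h₃ h₄ => ?_⟩⟩
    rcases h₂ ⟨x, h.tr a.2 x.2⟩ ⟨y, h.tr a.2 y.2⟩ x.2 y.2 with e | e | e
    exacts [absurd e h₃, Subtype.ext (congrArg (fun z => z.1) e), absurd e h₄]
  · refine fun ha => ⟨fun x y hx hy => ha.mem_trans hy hx, fun x y hx hy => ?_⟩
    simpa only [Subtype.ext_iff, ES] using (ha.mem hx).mem_trichotomous (ha.mem hy)

theorem up_iff {z a b : Subtype A} : (∀ x, ES A x z ↔ x = a ∨ x = b) ↔ z.1 = {a.1, b.1} := by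
  refine Iff.trans ?_ (Subtype.ext_iff (a1 := z) (a2 := ⟨_, h.up a.2 b.2⟩))
  refine ⟨fun e => h.ext fun x => (e x).trans ?_, fun e x => ?_⟩ <;>
    simp [ES, Subtype.ext_iff, *]

theorem isPair_iff {p a b : Subtype A} : IsPair (ES A) p a b ↔ p.1 = ZFSet.pair a.1 b.1 := by
  have e : ∀ z : Subtype A, (∀ x, ES A x z ↔ x = a) ↔ z.1 = {a.1} := fun z => by
    simpa using h.up_iff (z := z) (a := a) (b := a)
  simp only [IsPair, e, h.up_iff]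
  refine Iff.trans ?_ (Subtype.ext_iff (a1 := p) (a2 := ⟨_, h.pair a.2 b.2⟩))
  refine ⟨fun e => h.ext fun x => (e x).trans ?_, fun e x => ?_⟩ <;> simp [ES, ZFSet.pair, *]

theorem app_iff {f a b : Subtype A} : App (ES A) f a b ↔ ZFSet.pair a.1 b.1 ∈ f.1 := by
  simp only [App, h.isPair_iff]
  exact ⟨fun ⟨_, h, e⟩ => e ▸ h, fun e => ⟨⟨_, h.pair a.2 b.2⟩, e, rfl⟩⟩

theorem isOmega_iff {w : Subtype A} : IsOmega (ES A) w ↔ w.1 = toZFSet ω := by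
  have o : ∀ {a b : Ordinal.{u}}, A a.toZFSet → b < a → A b.toZFSet := fun ha hb =>
    h.tr ha (toZFSet_mem_toZFSet_iff.2 hb)
  obtain ⟨w, hw⟩ := w
  constructor
  · rintro ⟨h₁, ⟨x, h₂⟩, h₃, h₄⟩
    obtain ⟨a, rfl⟩ : ∃ x : Ordinal.{u}, x.toZFSet = w := h.isOrd_iff.1 h₁
    obtain ⟨b, hb, -⟩ := mem_toZFSet_iff.1 h₂
    refine congrArg toZFSet (le_antisymm (not_lt.1 fun h₅ => ?_) (omega0_le.2 fun n => ?_))
    · obtain ⟨y, h₆, h₇⟩ := h₄ ⟨_, o hw h₅⟩ (toZFSet_mem_toZFSet_iff.2 h₅)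
        ⟨⟨_, o (o hw h₅) omega0_pos⟩, toZFSet_mem_toZFSet_iff.2 omega0_pos⟩
      obtain ⟨c, hc, e⟩ := mem_toZFSet_iff.1 h₆
      have := isSuccLimit_omega0.add_one_lt hc
      exact h₇ ⟨_, o (o hw h₅) this⟩ (toZFSet_mem_toZFSet_iff.2 this)
        (e ▸ toZFSet_mem_toZFSet_iff.2 (lt_add_one c) : y.1 ∈ _)
    · refine (Lim.nat ⟨zero_le.trans_lt hb, fun c hc => ?_⟩ n).le
      obtain ⟨y, h₅, h₆⟩ := h₃ ⟨_, o hw hc⟩ (toZFSet_mem_toZFSet_iff.2 hc)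
      obtain ⟨d, hd, e⟩ := mem_toZFSet_iff.1 h₅
      rw [ES, ← e] at h₆
      exact (add_one_le_iff.2 (toZFSet_mem_toZFSet_iff.1 h₆)).trans_lt hd
  · rintro (rfl : w = _)
    refine ⟨h.isOrd_iff.2 ⟨_, rfl⟩, ⟨⟨_, o hw omega0_pos⟩, toZFSet_mem_toZFSet_iff.2 omega0_pos⟩,
      fun x hx => ?_, fun x hx ⟨y, hy⟩ => ?_⟩ <;> obtain ⟨c, hc, e⟩ := mem_toZFSet_iff.1 hx
    · have := isSuccLimit_omega0.add_one_lt hc
      exact ⟨⟨_, o hw this⟩, toZFSet_mem_toZFSet_iff.2 this,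
        (e ▸ toZFSet_mem_toZFSet_iff.2 (lt_add_one c) : x.1 ∈ _)⟩
    · obtain ⟨_ | n, rfl⟩ := lt_omega0.1 hc
      · exact absurd hy (by simp [ES, ← e])
      · refine ⟨⟨_, o hw (natCast_lt_omega0 n)⟩,
          (e ▸ toZFSet_mem_toZFSet_iff.2 (by simp) : _ ∈ x.1), fun z hz h₁ => ?_⟩
        rw [ES, ← e] at hz
        obtain ⟨d, hd, e'⟩ := mem_toZFSet_iff.1 hz
        rw [ES, ← e'] at h₁
        exact (toZFSet_mem_toZFSet_iff.1 h₁).not_ge (by simpa using hd)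

end TrP

variable {m : Mach.{u}}

/-- Properties uniformly definable over transitive sets. -/
def QD (m : Mach.{u}) (Ψ : ZFSet.{u} → (ℕ → ZFSet.{u}) → Prop) : Prop :=
  ∃ φ : QF, ∀ A : ZFSet.{u}, A.IsTransitive → ∀ d l, d ∈ A → (∀ x ∈ l, x ∈ A) →
    (SatQ (· ∈ ·) (DCof m) {x | x ∈ A} d φ l ↔ Ψ A (env d l))

namespace QD

variable {Φ Ψ : ZFSet.{u} → (ℕ → ZFSet.{u}) → Prop}
variable {Θ : ZFSet.{u} → (ℕ → ZFSet.{u}) → ZFSet.{u} → Prop}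

theorem mem (i j : ℕ) : QD m (fun _ w => w i ∈ w j) := ⟨.mem i j, fun _ _ _ _ _ _ => Iff.rfl⟩

theorem eq (i j : ℕ) : QD m (fun _ w => w i = w j) := ⟨.eq i j, fun _ _ _ _ _ _ => Iff.rfl⟩

theorem imp (h₁ : QD m Φ) (h₂ : QD m Ψ) : QD m (fun A w => Φ A w → Ψ A w) :=
  let ⟨φ, h₁⟩ := h₁; let ⟨ψ, h₂⟩ := h₂
  ⟨.imp φ ψ, fun A hA d l hd hl => imp_congr (h₁ A hA d l hd hl) (h₂ A hA d l hd hl)⟩

theorem congr (h : QD m Φ) (e : ∀ A, A.IsTransitive → ∀ w, (∀ k, w k ∈ A) → (Φ A w ↔ Ψ A w)) :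
    QD m Ψ :=
  let ⟨φ, h⟩ := h
  ⟨φ, fun A hA d l hd hl => (h A hA d l hd hl).trans
    (e A hA _ (env_mem (S := {x | x ∈ A}) hd hl))⟩

theorem not (h : QD m Φ) : QD m (fun A w => ¬ Φ A w) :=
  h.imp ⟨.bot, fun _ _ _ _ _ _ => Iff.rfl⟩

theorem and (h₁ : QD m Φ) (h₂ : QD m Ψ) : QD m (fun A w => Φ A w ∧ Ψ A w) :=
  (h₁.imp h₂.not).not.congr fun _ _ _ _ => by tauto

theorem or (h₁ : QD m Φ) (h₂ : QD m Ψ) : QD m (fun A w => Φ A w ∨ Ψ A w) :=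
  (h₁.not.imp h₂).congr fun _ _ _ _ => by tauto

theorem iff (h₁ : QD m Φ) (h₂ : QD m Ψ) : QD m (fun A w => Φ A w ↔ Ψ A w) :=
  ((h₁.imp h₂).and (h₂.imp h₁)).congr fun _ _ _ _ => by tauto

theorem all (h : QD m (fun A w => Θ A (fun k => w (k + 1)) (w 0))) :
    QD m (fun A w => ∀ x ∈ A, Θ A w x) :=
  let ⟨φ, h⟩ := h
  ⟨.all φ, fun A hA d l hd hl => forall₂_congr fun x hx =>
    h A hA d (x :: l) hd (List.forall_mem_cons.2 ⟨hx, hl⟩)⟩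

theorem ex (h : QD m (fun A w => Θ A (fun k => w (k + 1)) (w 0))) :
    QD m (fun A w => ∃ x ∈ A, Θ A w x) :=
  (all (Θ := fun A w x => ¬ Θ A w x) h.not).not.congr fun _ _ _ _ => by simp

theorem cof {Θ : ZFSet.{u} → (ℕ → ZFSet.{u}) → ZFSet.{u} → ZFSet.{u} → Prop}
    (h : QD m (fun A w => Θ A (fun k => w (k + 2)) (w 0) (w 1))) :
    QD m (fun A w => DCof m (fun x y => x ∈ A ∧ y ∈ A ∧ Θ A w x y)) :=
  let ⟨φ, h⟩ := h
  ⟨.cof φ, fun A hA d l hd hl => iff_of_eq (congrArg (DCof m) (funext₂ fun x y => propext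
    (and_congr_right fun hx => and_congr_right fun hy => h A hA d (x :: y :: l) hd
      (List.forall_mem_cons.2 ⟨hx, List.forall_mem_cons.2 ⟨hy, hl⟩⟩))))⟩

theorem up (i j k : ℕ) : QD m (fun _ w => w i = {w j, w k}) :=
  (all (Θ := fun _ w x => x ∈ w i ↔ x = w j ∨ x = w k)
    ((mem _ _).iff ((eq _ _).or (eq _ _)))).congr fun A hA w hw => by
      refine ⟨fun h => ZFSet.ext fun x => ?_, fun h x _ => by simp [h]⟩
      rw [ZFSet.mem_pair]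
      exact ⟨fun hx => (h x (hA.mem_trans hx (hw i))).1 hx,
        fun hx => (h x (by rcases hx with rfl | rfl <;> exact hw _)).2 hx⟩

theorem pair (i j k : ℕ) : QD m (fun _ w => w i = ZFSet.pair (w j) (w k)) :=
  (ex (Θ := fun A w s => ∃ t ∈ A, w i = {s, t} ∧ s = {w j, w j} ∧ t = {w j, w k})
    (ex (((up _ 1 0).and ((up 1 _ _).and (up 0 _ _)))))).congr fun A hA w hw => by
      constructor
      · rintro ⟨_, -, _, -, h, rfl, rfl⟩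
        simpa [ZFSet.pair] using h
      · exact fun h => ⟨_, hA.mem_trans (by simp [h, ZFSet.pair]) (hw i), _,
          hA.mem_trans (by simp [h, ZFSet.pair]) (hw i), by simpa [ZFSet.pair] using h, rfl, rfl⟩

theorem ord (i : ℕ) : QD m (fun _ w => (w i).IsOrdinal) :=
  (all (Θ := fun A w x => ∀ y ∈ A, x ∈ y → (y ∈ w i → x ∈ w i) ∧
      ∀ z ∈ A, y ∈ z → z ∈ w i → x ∈ z)
    (all ((mem 1 0).imp (((mem 0 _).imp (mem 1 _)).and
      (all ((mem 1 0).imp ((mem 0 _).imp (mem 2 0)))))))).congr fun A hA w hw => by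
    refine ⟨fun h => ⟨fun y hy x hx => ?_, fun {x y z} h₁ h₂ h₃ => ?_⟩, fun h x _ y _ h₁ =>
      ⟨h.mem_trans h₁, fun z _ h₂ h₃ => h.mem_trans' h₁ h₂ h₃⟩⟩
    · have := hA.mem_trans hy (hw i)
      exact (h x (hA.mem_trans hx this) y this hx).1 hy
    · have h₄ := hA.mem_trans h₃ (hw i)
      have h₅ := hA.mem_trans h₂ h₄
      exact (h x (hA.mem_trans h₁ h₅) y h₅ h₁).2 z h₄ h₂ h₃

end QD

end Pool.Agent.MP_9a6faa_lc

end

section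

namespace Pool.Agent.MP_9a6faa_lc

open Set Order Ordinal FO

universe u

variable {m : Mach.{u}}

/-- The levels of the hierarchy. -/
noncomputable def Lv (m : Mach.{u}) (a : Ordinal.{u}) : ZFSet.{u} := val0 m (lv m a)

theorem mem_val0_dc {A : Ordinal.{u}} {φ : QF} {l : OL.{u}} {x : ZFSet.{u}} :
    x ∈ val0 m (dc m A φ l) ↔ x ∈ val0 m A ∧
      SatQ (· ∈ ·) (DCof m) {y | y ∈ val0 m A} x φ (x :: l.map (val0 m)) := by
  simp only [mem_val0, P_dc]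
  exact ⟨fun ⟨z, ⟨h₁, h₂⟩, e⟩ => e ▸ ⟨⟨z, h₁, rfl⟩, by simpa only [mem_val0, Sat0, List.map_cons] using h₂⟩,
    fun ⟨⟨z, h₁, e⟩, h₂⟩ => ⟨z, ⟨h₁, by
      subst e; simpa only [mem_val0, Sat0, List.map_cons] using h₂⟩, e⟩⟩

theorem exists_codes {A : Ordinal.{u}} {l : List ZFSet.{u}} (h : ∀ y ∈ l, y ∈ val0 m A) :
    ∃ k : OL.{u}, (∀ x, x ∈ k → P m A x) ∧ k.map (val0 m) = l := by
  induction l with
  | nil => exact ⟨[], by simp, rfl⟩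
  | cons a l ih =>
    obtain ⟨k, h₁, rfl⟩ := ih fun y hy => h y (List.mem_cons_of_mem _ hy)
    obtain ⟨z, h₂, rfl⟩ := mem_val0.1 (h a List.mem_cons_self)
    exact ⟨z :: k, List.forall_mem_cons.2 ⟨h₂, h₁⟩, rfl⟩

theorem mem_Lv {a : Ordinal.{u}} {x : ZFSet.{u}} : x ∈ Lv m a ↔ ∃ b < a, ∃ φ l,
    (∀ y ∈ l, y ∈ Lv m b) ∧ Defines (· ∈ ·) (DCof m) {y | y ∈ Lv m b} φ l x := by
  constructor
  · intro h
    obtain ⟨_, h', rfl⟩ := mem_val0.1 h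
    obtain ⟨b, hb, φ, l, h₀, rfl⟩ := P_lv.1 h'
    refine ⟨b, hb, φ, l.map (val0 m), fun y hy => ?_, fun _ => mem_val0_dc⟩
    obtain ⟨z, hz, rfl⟩ := List.mem_map.1 hy
    exact mem_val0.2 ⟨z, h₀ z hz, rfl⟩
  · rintro ⟨b, hb, φ, l, h₁, h₂⟩
    obtain ⟨k, h₃, rfl⟩ := exists_codes h₁
    exact mem_val0.2 ⟨_, P_lv.2 ⟨b, hb, φ, k, h₃, rfl⟩,
      ZFSet.ext fun y => mem_val0_dc.trans (h₂ y).symm⟩

theorem Lv_mono {a b : Ordinal.{u}} {x : ZFSet.{u}} (h : a ≤ b) (hx : x ∈ Lv m a) : x ∈ Lv m b :=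
  let ⟨c, h₁, h₂⟩ := mem_Lv.1 hx; mem_Lv.2 ⟨c, h₁.trans_le h, h₂⟩

theorem Lv_trans (a : Ordinal.{u}) : (Lv m a).IsTransitive := fun _ hx y hy =>
  let ⟨_, h₁, _, _, _, h₂⟩ := mem_Lv.1 hx; Lv_mono h₁.le ((h₂ y).1 hy).1

theorem mem_Lv_succ {a : Ordinal.{u}} {x : ZFSet.{u}} : x ∈ Lv m (a + 1) ↔ ∃ φ l,
    (∀ y ∈ l, y ∈ Lv m a) ∧ Defines (· ∈ ·) (DCof m) {y | y ∈ Lv m a} φ l x := by
  refine ⟨fun h => ?_, fun h => mem_Lv.2 ⟨a, lt_add_one a, h⟩⟩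
  obtain ⟨b, h₁, h₂⟩ := mem_Lv.1 h
  rcases (lt_add_one_iff.1 h₁).eq_or_lt with rfl | h₃
  · exact h₂
  · have := mem_Lv.2 ⟨b, h₃, h₂⟩
    exact ⟨.mem 0 1, [x], by simpa using this, fun y =>
      (and_iff_right_of_imp fun hy => (Lv_trans a).mem_trans hy this).symm⟩

theorem mem_Lv_lim {a : Ordinal.{u}} (h : ∀ b < a, b + 1 < a) {x : ZFSet.{u}} :
    x ∈ Lv m a ↔ ∃ b < a, x ∈ Lv m b :=
  ⟨fun hx => let ⟨b, h₁, h₂⟩ := mem_Lv.1 hx; ⟨b + 1, h b h₁, mem_Lv_succ.2 h₂⟩,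
    fun ⟨_, h₁, h₂⟩ => Lv_mono h₁.le h₂⟩

theorem QD.def {Ψ : ZFSet.{u} → (ℕ → ZFSet.{u}) → Prop} (h : QD m Ψ) {l : List ZFSet.{u}}
    {a : Ordinal.{u}} (hl : ∀ y ∈ l, y ∈ Lv m a) :
    ∃ X ∈ Lv m (a + 1), ∀ x, x ∈ X ↔ x ∈ Lv m a ∧ Ψ (Lv m a) (env x (x :: l)) := by
  obtain ⟨φ, h⟩ := h
  refine ⟨(Lv m a).sep fun x => Ψ (Lv m a) (env x (x :: l)), mem_Lv_succ.2 ⟨φ, l, hl, fun x => ?_⟩,
    fun x => ZFSet.mem_sep⟩
  exact ZFSet.mem_sep.trans (and_congr_right fun hx =>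
    (h _ (Lv_trans a) x _ hx (List.forall_mem_cons.2 ⟨hx, hl⟩)).symm)

/-- The union of the hierarchy. -/
def InC (m : Mach.{u}) (x : ZFSet.{u}) : Prop := ∃ a, x ∈ Lv m a

theorem exists_Lv (a : Ordinal.{u}) {l : List ZFSet.{u}} (h : ∀ y ∈ l, InC m y) :
    ∃ b, a ≤ b ∧ ∀ y ∈ l, y ∈ Lv m b := by
  induction l with
  | nil => exact ⟨a, le_rfl, by simp⟩
  | cons x l ih =>
    obtain ⟨b, h₁, h₂⟩ := ih fun y hy => h y (List.mem_cons_of_mem _ hy)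
    obtain ⟨c, h₃⟩ := h x List.mem_cons_self
    exact ⟨max b c, le_max_of_le_left h₁, List.forall_mem_cons.2
      ⟨Lv_mono (le_max_right _ _) h₃, fun y hy => Lv_mono (le_max_left _ _) (h₂ y hy)⟩⟩

theorem QD.inC {Ψ : (ℕ → ZFSet.{u}) → Prop} (h : QD m fun _ => Ψ) {l : List ZFSet.{u}}
    (hl : ∀ y ∈ l, InC m y) (a : Ordinal.{u}) :
    ∃ b X, a ≤ b ∧ (∀ y ∈ l, y ∈ Lv m b) ∧ InC m X ∧
      ∀ x, x ∈ X ↔ x ∈ Lv m b ∧ Ψ (env x (x :: l)) :=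
  let ⟨b, h₁, h₂⟩ := exists_Lv a hl
  let ⟨X, h₃, h₄⟩ := h.def h₂
  ⟨b, X, h₁, h₂, ⟨_, h₃⟩, h₄⟩

theorem trP_C (m : Mach.{u}) : TrP (InC m) where
  tr := fun ⟨a, h⟩ h' => ⟨a, (Lv_trans a).mem_trans h' h⟩
  up := fun {x y} hx hy => by
    obtain ⟨b, X, -, h₁, h₂, h₃⟩ := ((QD.eq 0 1).or (QD.eq 0 2)).inC (m := m) (l := [x, y])
      (by simp [hx, hy]) 0
    refine (ZFSet.ext fun z => (h₃ z).trans ?_ : X = {x, y}) ▸ h₂
    rw [ZFSet.mem_pair]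
    exact and_iff_right_of_imp fun h => h₁ z (by simpa [env] using h)

theorem inC_Lv (a : Ordinal.{u}) : InC m (Lv m a) := by
  obtain ⟨X, h₁, h₂⟩ := (QD.eq (m := m) 0 0).def (l := []) (a := a) (by simp)
  exact ⟨_, (ZFSet.ext fun z => (h₂ z).trans (and_iff_left rfl) : X = _) ▸ h₁⟩

theorem boundC (s : ZFSet.{u}) (R : ZFSet.{u} → ZFSet.{u} → Prop) :
    ∃ b, ∀ x ∈ s, (∃ y, InC m y ∧ R x y) → ∃ y ∈ Lv m b, R x y := by
  obtain ⟨b, hb⟩ := exists_bound (fun x : s => mu (fun c => ∃ y ∈ Lv m c, R x y))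
  refine ⟨b, fun x hx ⟨y, ⟨c, h₁⟩, h₂⟩ => ?_⟩
  obtain ⟨z, h₃, h₄⟩ := mu_spec (R := fun c => ∃ y ∈ Lv m c, R x y) ⟨c, y, h₁, h₂⟩
  exact ⟨z, Lv_mono (hb ⟨x, hx⟩).le h₃, h₄⟩

theorem inC_ord (a : Ordinal.{u}) : InC m a.toZFSet := by
  induction a using WellFoundedLT.induction with
  | ind a ih =>
    obtain ⟨b, hb⟩ := boundC (m := m) a.toZFSet Eq
    obtain ⟨X, h₁, h₂⟩ := (QD.ord (m := m) 0).def (l := []) (a := b) (by simp)
    have h₃ : X.IsOrdinal := ZFSet.isOrdinal_iff_forall_mem_isOrdinal.2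
      ⟨fun x hx y hy => (h₂ y).2 ⟨(Lv_trans b).mem_trans hy ((h₂ x).1 hx).1,
        ((h₂ x).1 hx).2.mem hy⟩, fun x hx => ((h₂ x).1 hx).2⟩
    rcases ((ZFSet.isOrdinal_toZFSet a).subset_iff_eq_or_mem h₃).1 fun x hx => by
      obtain ⟨c, hc, rfl⟩ := mem_toZFSet_iff.1 hx
      obtain ⟨_, h, rfl⟩ := hb _ hx ⟨_, ih c hc, rfl⟩
      exact (h₂ _).2 ⟨h, ZFSet.isOrdinal_toZFSet c⟩ with e | e
    exacts [⟨_, e ▸ h₁⟩, (trP_C m).tr ⟨_, h₁⟩ e]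

/-- Amenable subclasses. -/
def AmC (m : Mach.{u}) (R : Unit → Subtype (InC m) → Prop) : Prop :=
  ∀ a, ∃ X, InC m X ∧ ∀ x : Subtype (InC m), x.1 ∈ Lv m a → (x.1 ∈ X ↔ R () x)

theorem QD.am {Ψ : (ℕ → ZFSet.{u}) → Prop} (h : QD m fun _ => Ψ) {l : List ZFSet.{u}}
    (hl : ∀ y ∈ l, InC m y) : AmC m (fun _ x => Ψ (env x.1 (x.1 :: l))) := fun a =>
  let ⟨_, X, h₁, _, h₂, h₃⟩ := h.inC hl a
  ⟨X, h₂, fun x hx => (h₃ x).trans (and_iff_right (Lv_mono h₁ hx))⟩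

theorem AmC.exact {R : Unit → Subtype (InC m) → Prop} (h : AmC m R) (a : Ordinal.{u}) :
    ∃ X, InC m X ∧ ∀ x : Subtype (InC m), x.1 ∈ X ↔ x.1 ∈ Lv m a ∧ R () x := by
  obtain ⟨X, h₁, h₂⟩ := h a
  obtain ⟨b, Y, h₃, -, h₄, h₅⟩ := ((QD.mem 0 1).and (QD.mem 0 2)).inC (m := m) (l := [Lv m a, X])
    (by simp [h₁, inC_Lv]) a
  exact ⟨Y, h₄, fun x => (h₅ x).trans ((and_iff_right_of_imp fun h => Lv_mono h₃ h.1).trans
    (and_congr_right (h₂ x)))⟩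

theorem AmC.img {R : Unit → Subtype (InC m) → Prop} (h : AmC m R)
    {Ψ : ZFSet.{u} → ZFSet.{u} → Prop} (hΨ : QD m fun _ w => Ψ (w 1) (w 0)) :
    AmC m (fun _ x => ∃ z, R () z ∧ Ψ x.1 z.1) := fun a => by
  obtain ⟨b, hb⟩ := boundC (m := m) (Lv m a) (fun x z => ∃ h, R () ⟨z, h⟩ ∧ Ψ x z)
  obtain ⟨X, h₁, h₂⟩ := h.exact b
  obtain ⟨Y, h₃, h₄⟩ := ((QD.ex (Θ := fun _ w z => z ∈ w 1 ∧ Ψ (w 0) z)
    ((QD.mem 0 2).and hΨ)).congr (Ψ := fun _ w => ∃ z ∈ w 1, Ψ (w 0) z) fun A hA w hw =>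
      exists_congr fun z => and_iff_right_of_imp fun h => hA.mem_trans h.1 (hw 1)).am
    (l := [X]) (by simpa using h₁) a
  refine ⟨Y, h₃, fun x hx => (h₄ x hx).trans ⟨fun ⟨z, h₅, h₆⟩ => ?_, fun ⟨z, h₅, h₆⟩ => ?_⟩⟩
  · exact ⟨⟨z, (trP_C m).tr h₁ h₅⟩, ((h₂ ⟨z, _⟩).1 h₅).2, h₆⟩
  · obtain ⟨y, h₇, h₈, h₉, h₀⟩ := hb _ hx ⟨z, z.2, z.2, h₅, h₆⟩
    exact ⟨y, (h₂ ⟨y, h₈⟩).2 ⟨h₇, h₉⟩, h₀⟩

theorem AmC.congr {R S : Unit → Subtype (InC m) → Prop} (h : AmC m R)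
    (e : ∀ x, R () x ↔ S () x) : AmC m S := fun a =>
  let ⟨X, h₁, h₂⟩ := h a; ⟨X, h₁, fun x hx => (h₂ x hx).trans (e x)⟩

theorem InC.left {x y : ZFSet.{u}} (h : InC m (ZFSet.pair x y)) : InC m x :=
  let ⟨a, h⟩ := h; ⟨a, left_mem_pair (Lv_trans a) h⟩

theorem InC.right {x y : ZFSet.{u}} (h : InC m (ZFSet.pair x y)) : InC m y :=
  let ⟨a, h⟩ := h; ⟨a, right_mem_pair (Lv_trans a) h⟩

theorem lp {A x y z : ZFSet.{u}} (h : A.IsTransitive) (hz : z ∈ A) (e : z = ZFSet.pair x y) :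
    x ∈ A := left_mem_pair h (e ▸ hz)

theorem rp {A x y z : ZFSet.{u}} (h : A.IsTransitive) (hz : z ∈ A) (e : z = ZFSet.pair x y) :
    y ∈ A := right_mem_pair h (e ▸ hz)

theorem QD.exl {Θ : (ℕ → ZFSet.{u}) → ZFSet.{u} → Prop}
    (h : QD m (fun _ w => Θ (fun k => w (k + 1)) (w 0)))
    (e : ∀ A : ZFSet.{u}, A.IsTransitive → ∀ w, (∀ k, w k ∈ A) → ∀ x, Θ w x → x ∈ A) :
    QD m (fun _ w => ∃ x, Θ w x) :=
  (QD.ex (Θ := fun _ => Θ) h).congr fun A hA w hw =>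
    exists_congr fun x => and_iff_right_of_imp (e A hA w hw x)

/-- The union of the hierarchy as a first order calculus. -/
noncomputable def CC (m : Mach.{u}) : FO.{u, u + 1} Unit (Subtype (InC m)) where
  pr := fun a b => ⟨ZFSet.pair a.1 b.1, (trP_C m).pair a.2 b.2⟩
  pr_inj := fun e => by
    have := ZFSet.pair_inj.1 (congrArg Subtype.val e)
    exact ⟨Subtype.ext this.1, Subtype.ext this.2⟩
  o := fun a => ⟨a.toZFSet, inC_ord a⟩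
  o_inj := fun _ _ e => toZFSet_injective (congrArg Subtype.val e)
  Am := AmC m
  nand := fun hR hS a => by
    obtain ⟨X, h₁, h₂⟩ := hR a
    obtain ⟨Y, h₃, h₄⟩ := hS a
    obtain ⟨Z, h₅, h₆⟩ := ((QD.mem 0 1).and (QD.mem 0 2)).not.am (m := m) (l := [X, Y])
      (by simp [h₁, h₃]) a
    exact ⟨Z, h₅, fun x hx => (h₆ x hx).trans (not_congr (and_congr (h₂ x hx) (h₄ x hx)))⟩
  ex := fun hR => (hR.img (Ψ := fun x z => ∃ y, z = ZFSet.pair x y) (QD.exl (QD.pair 1 2 0)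
    fun _ hA _ hw _ e => rp hA (hw 0) e)).congr fun _ =>
      ⟨fun ⟨⟨_, h⟩, h₁, y, e⟩ => by subst e; exact ⟨⟨y, h.right⟩, h₁⟩,
        fun ⟨_, h⟩ => ⟨_, h, _, rfl⟩⟩
  fstR := fun hR => (hR.img (Ψ := fun z x => ∃ y, z = ZFSet.pair x y) (QD.exl (QD.pair 2 1 0)
    fun _ hA _ hw _ e => rp hA (hw 1) e)).congr fun ⟨_, h⟩ =>
      ⟨fun ⟨x, h₁, y, e⟩ => by subst e; exact ⟨x, ⟨y, h.right⟩, rfl, h₁⟩,
        fun ⟨x, y, e, h⟩ => ⟨x, h, y, congrArg Subtype.val e⟩⟩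
  swR := fun hR => (hR.img (Ψ := fun z s => ∃ x y, z = ZFSet.pair x y ∧ s = ZFSet.pair y x)
    (QD.exl (QD.exl ((QD.pair 3 1 0).and (QD.pair 2 0 1))
      fun _ hA _ hw _ e => rp hA (hw 2) e.1)
      fun _ hA _ hw _ ⟨_, e⟩ => lp hA (hw 1) e.1)).congr fun ⟨_, h⟩ =>
      ⟨fun ⟨⟨_, _⟩, h₁, x, y, e, e'⟩ => by
        subst e e'; exact ⟨⟨x, h.left⟩, ⟨y, h.right⟩, rfl, h₁⟩,
        fun ⟨x, y, e, h⟩ => ⟨_, h, x, y, congrArg Subtype.val e, rfl⟩⟩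
  aR := fun hR => (hR.img (Ψ := fun z s => ∃ p t x y, z = ZFSet.pair p t ∧
      p = ZFSet.pair x y ∧ s = ZFSet.pair x t)
    (QD.exl (QD.exl (QD.exl (QD.exl ((QD.pair 5 3 2).and ((QD.pair 3 1 0).and (QD.pair 4 1 2)))
      fun _ hA _ hw _ e => rp hA (hw 2) e.2.1)
      fun _ hA _ hw _ ⟨_, e⟩ => lp hA (hw 1) e.2.1)
      fun _ hA _ hw _ ⟨_, _, e⟩ => rp hA (hw 2) e.1)
      fun _ hA _ hw _ ⟨_, _, _, e⟩ => lp hA (hw 1) e.1)).congr fun ⟨_, h⟩ =>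
      ⟨fun ⟨⟨_, _⟩, h₁, _, t, x, y, e, e₁, e₂⟩ => by
        subst e e₁ e₂; exact ⟨⟨x, h.left.left⟩, ⟨y, h.left.right⟩, ⟨t, h.right⟩, rfl, h₁⟩,
        fun ⟨x, y, t, e, h⟩ => ⟨_, h, _, t, x, y, congrArg Subtype.val e, rfl, rfl⟩⟩
  bR := fun hR => (hR.img (Ψ := fun z s => ∃ p t x y, z = ZFSet.pair p t ∧
      p = ZFSet.pair x y ∧ s = ZFSet.pair y t)
    (QD.exl (QD.exl (QD.exl (QD.exl ((QD.pair 5 3 2).and ((QD.pair 3 1 0).and (QD.pair 4 0 2)))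
      fun _ hA _ hw _ e => rp hA (hw 2) e.2.1)
      fun _ hA _ hw _ ⟨_, e⟩ => lp hA (hw 1) e.2.1)
      fun _ hA _ hw _ ⟨_, _, e⟩ => rp hA (hw 2) e.1)
      fun _ hA _ hw _ ⟨_, _, _, e⟩ => lp hA (hw 1) e.1)).congr fun ⟨_, h⟩ =>
      ⟨fun ⟨⟨_, _⟩, h₁, _, t, x, y, e, e₁, e₂⟩ => by
        subst e e₁ e₂; exact ⟨⟨x, h.left.left⟩, ⟨y, h.left.right⟩, ⟨t, h.right⟩, rfl, h₁⟩,
        fun ⟨x, y, t, e, h⟩ => ⟨_, h, _, t, x, y, congrArg Subtype.val e, rfl, rfl⟩⟩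
  eq := ((QD.exl (Θ := fun w x => w 0 = ZFSet.pair x x) (QD.pair 1 0 0)
    fun _ hA _ hw _ e => lp hA (hw 0) e).am (l := []) (by simp)).congr fun ⟨_, h⟩ =>
      ⟨fun ⟨x, e⟩ => by subst e; exact ⟨⟨x, h.left⟩, rfl⟩,
        fun ⟨x, e⟩ => ⟨x, congrArg Subtype.val e⟩⟩
  lt := ((QD.exl (Θ := fun w x => ∃ y, w 0 = ZFSet.pair x y ∧ y.IsOrdinal ∧ x ∈ y)
    (QD.exl ((QD.pair 2 1 0).and ((QD.ord 0).and (QD.mem 1 0)))
      fun _ hA _ hw _ e => rp hA (hw 1) e.1)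
      fun _ hA _ hw _ ⟨_, e⟩ => lp hA (hw 0) e.1).am (l := [])
        (by simp)).congr fun ⟨_, h⟩ => by
      constructor
      · rintro ⟨x, y, rfl, h₁, h₂⟩
        obtain ⟨b, rfl⟩ := ZFSet.isOrdinal_iff_mem_range_toZFSet.1 h₁
        obtain ⟨a, h₃, rfl⟩ := mem_toZFSet_iff.1 h₂
        exact ⟨a, b, rfl, h₃⟩
      · exact fun ⟨a, b, e, h⟩ => ⟨_, _, congrArg Subtype.val e, ZFSet.isOrdinal_toZFSet b,
          toZFSet_mem_toZFSet_iff.2 h⟩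

theorem CC_am {R : Unit → Subtype (InC m) → Prop} : (CC m).Am R ↔ AmC m R := Iff.rfl

instance : Full (CC m) := ⟨fun c => CC_am.2 <|
  ((QD.eq 0 1).am (l := [c.1]) (by simpa using c.2)).congr
  fun _ => Subtype.ext_iff.symm⟩

instance : HasSep (CC m) where
  mem := fun _ s x => x.1 ∈ s.1
  mem_am := CC_am.2 <| ((QD.exl (Θ := fun w s => ∃ x, w 0 = ZFSet.pair s x ∧ x ∈ s)
    (QD.exl ((QD.pair 2 1 0).and (QD.mem 0 1))
      fun _ hA _ hw _ e => rp hA (hw 1) e.1)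
      fun _ hA _ hw _ ⟨_, e⟩ => lp hA (hw 0) e.1).am (l := [])
        (by simp)).congr fun ⟨_, h⟩ =>
      ⟨fun ⟨s, x, e, h₁⟩ => by subst e; exact ⟨⟨s, h.left⟩, ⟨x, h.right⟩, rfl, h₁⟩,
        fun ⟨s, x, e, h⟩ => ⟨s, x, congrArg Subtype.val e, h⟩⟩
  sep := fun R hR i v a => by
    obtain ⟨b, hb⟩ := boundC (m := m) (ZFSet.prod a.toZFSet a.toZFSet) Eq
    obtain ⟨X, h₁, h₂⟩ := Am.param (𝒜 := CC m) hR v b
    refine ⟨⟨X, h₁⟩, fun x hx y hy => h₂ _ ?_⟩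
    obtain ⟨_, h, rfl⟩ := hb _ (ZFSet.pair_mem_prod.2 ⟨toZFSet_mem_toZFSet_iff.2 hx,
      toZFSet_mem_toZFSet_iff.2 hy⟩) ⟨_, (trP_C m).pair (inC_ord x) (inC_ord y), rfl⟩
    exact h

end Pool.Agent.MP_9a6faa_lc

end

section

namespace Pool.Agent.MP_9a6faa_lc

open Set Order Ordinal FO Filter

universe u

variable {m : Mach.{u}}

theorem dcof_ord {a : Ordinal.{u}} : DCof m (fun x y => x ∈ y ∧ y ∈ a.toZFSet) ↔ Dt m a := by
  have ha := ZFSet.isOrdinal_toZFSet a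
  have fld : ∀ x, Fld (fun x y => x ∈ y ∧ y ∈ a.toZFSet) x → x ∈ a.toZFSet :=
    fun x ⟨y, h⟩ => h.elim (fun h => ha.mem_trans h.1 h.2) And.right
  constructor
  · rintro ⟨-, b, c, h₁, h₂, h₃⟩
    obtain ⟨f, hf, ef⟩ : ∃ f : Ordinal.{u} → Ordinal.{u}, (SS m).Tm f ∧
        ∀ i < b, f i < a ∧ val0 m (ap m c i) = (f i).toZFSet := by
      refine ⟨fun i => mu (fun x => Eq0 m (ap m c i) (on m x)), by fun_prop, fun i hi => ?_⟩
      obtain ⟨x, h₄, h₅⟩ := mem_toZFSet_iff.1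
        (fld _ ⟨_, Or.inl (h₂ i _ (lt_add_one i) (h₁.1.2 i hi))⟩)
      have := mu_lt (S := fun x => Eq0 m (ap m c i) (on m x)) ⟨x, h₄, by simp [Eq0, h₅]⟩
      exact ⟨this.1, this.2.trans (val0_on _)⟩
    have mono : ∀ i j, i < j → j < b → f i < f j := fun i j h h' => by
      simpa [(ef i (h.trans h')).2, (ef j h').2] using (h₂ i j h h').1
    have cof : ∀ y < a, ∃ x < b, y ≤ f x := fun y hy => by
      rcases eq_zero_or_pos y with rfl | h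
      · exact ⟨0, h₁.1.1, zero_le⟩
      · obtain ⟨i, h₄, h₅⟩ := h₃ y.toZFSet ⟨toZFSet 0, Or.inr
          ⟨toZFSet_mem_toZFSet_iff.2 h, toZFSet_mem_toZFSet_iff.2 hy⟩⟩
        exact ⟨i, h₄, le_of_lt (by simpa [(ef i h₄).2] using h₅.1)⟩
    have hl : Lim a := ⟨zero_le.trans_lt (ef 0 h₁.1.1).1, fun y hy => by
      obtain ⟨x, h₄, h₅⟩ := cof y hy
      exact (add_one_le_iff.2 (h₅.trans_lt (mono _ _ (lt_add_one x) (h₁.1.2 x h₄)))).trans_lt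
        (ef _ (h₁.1.2 x h₄)).1⟩
    refine (dt_congr h₁.1 hl (cf_eq_of_mono hf hl (fun x y h h' => ?_)
      (fun x hx => (ef x hx).1) cof)).1 h₁
    rcases h.eq_or_lt with rfl | h
    exacts [le_rfl, (mono _ _ h h').le]
  · intro h
    obtain ⟨c, hc⟩ := code_fun (m := m) (f := on m) (by fun_prop) a
    refine ⟨⟨fun x h => ZFSet.mem_irrefl x h.1, fun x y z h₁ h₂ =>
      ⟨ha.mem_trans' h₁.1 h₂.1 h₂.2, h₂.2⟩, fun x y hx hy => ?_⟩, a, c, h,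
      fun i j h₁ h₂ => by simp [hc i (h₁.trans h₂), hc j h₂, h₁, h₂], fun x hx => ?_⟩
    · simpa [fld x hx, fld y hy] using (ha.mem (fld x hx)).mem_trichotomous (ha.mem (fld y hy))
    · obtain ⟨y, hy, rfl⟩ := mem_toZFSet_iff.1 (fld x hx)
      exact ⟨_, h.1.2 y hy, by simp [hc _ (h.1.2 y hy), -toZFSet_add_one, h.1.2 y hy]⟩

theorem tm_Dt_C : (CC m).Tm (Dt m) :=
  (Df.mk' (CC_am.2 (((QD.cof (Θ := fun _ w x y => x ∈ y ∧ y ∈ w 0)
    ((QD.mem 0 1).and (QD.mem 1 2))).congr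
    (Ψ := fun _ w => DCof m (fun x y => x ∈ y ∧ y ∈ w 0)) fun A hA w hw =>
      iff_of_eq (congrArg (DCof m) (funext₂ fun x y => propext ⟨fun h => h.2.2, fun h =>
        have := hA.mem_trans h.2 (hw 0)
        ⟨hA.mem_trans h.1 this, this, h⟩⟩))).am (l := []) (by simp)))
    fun _ _ _ => dcof_ord).tm

theorem InC.code {x : ZFSet.{u}} (h : InC m x) : ∃ c, val0 m c = x :=
  let ⟨_, h⟩ := h; let ⟨c, _, e⟩ := mem_val0.1 h; ⟨c, e⟩

noncomputable instance : Cd (CC m) (Subtype (InC m)) := inferInstanceAs (Cd (CC m) (CC m).Ob)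

instance : Pure (CC m) (Subtype (InC m)) := ⟨fun _ _ => trivial⟩

section

variable {Γ : Type*} [Cd (CC m) Γ]

@[fun_prop] theorem tm_ES {f g : Γ → Subtype (InC m)} (hf : (CC m).Tm f) (hg : (CC m).Tm g) :
    (CC m).Tm (fun z => ES (InC m) (f z) (g z)) :=
  have : Pure (CC m) (CC m).Wd := ⟨fun _ _ => rfl⟩
  tm_MemO (w := fun _ => ⟨()⟩) (by fun_prop) hg hf

/-- The ordinals of the model. -/
noncomputable def oC (m : Mach.{u}) (a : Ordinal.{u}) : Subtype (InC m) := ⟨a.toZFSet, inC_ord a⟩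

@[fun_prop] theorem tm_oC {f : Γ → Ordinal.{u}} (hf : (CC m).Tm f) :
    (CC m).Tm (fun z => oC m (f z)) := tm_ob hf

end

theorem exists_setC {R : Subtype (InC m) → Prop} (h : (CC m).Tm R) (s : ZFSet.{u})
    (hs : ∀ x, R x → x.1 ∈ s) : ∃ X, ∀ x, ES (InC m) x X ↔ R x := by
  obtain ⟨b, hb⟩ := boundC (m := m) s Eq
  obtain ⟨X, h₁, h₂⟩ := (CC_am.1 (am_of_tm h)).exact b
  refine ⟨⟨X, h₁⟩, fun x => (h₂ x).trans (and_iff_right_of_imp fun hx => ?_)⟩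
  obtain ⟨_, h, rfl⟩ := hb _ (hs x hx) ⟨_, x.2, rfl⟩
  exact h

theorem ES_oC {a : Ordinal.{u}} {x : Subtype (InC m)} :
    ES (InC m) x (oC m a) ↔ ∃ b < a, oC m b = x := by
  simp only [ES, oC, mem_toZFSet_iff, Subtype.ext_iff]

theorem Meas.isMeas (μ : Meas.{u}) : IsMeas (ES (InC μ.mach)) (oC μ.mach μ.κ) := by
  have tr := trP_C μ.mach
  have lt : ∀ {a b}, ES _ (oC μ.mach a) (oC μ.mach b) ↔ a < b := toZFSet_mem_toZFSet_iff
  obtain ⟨T, R, hT, hR, h⟩ := μ.meas_def tm_Dt_C fun s => by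
    obtain ⟨c, hc⟩ := s.2.code
    exact Tm.congrP (Q := fun z : Ordinal.{u} × Ordinal.{u} =>
      Mem0 μ.mach (pn μ.mach (on μ.mach z.1) (on μ.mach z.2)) c) (by fun_prop)
      fun z => by simp only [Mem0, val0_pn, val0_on, hc]; rfl
  obtain ⟨F, hF⟩ := exists_setC (m := μ.mach) (R := fun A => (∀ x, ES _ x A → ES _ x (oC _ μ.κ)) ∧
    ∃ y, T y ∧ ∀ x < μ.κ, (ES _ (oC _ x) A ↔ R (y, x))) (by fun_prop) (ZFSet.powerset μ.κ.toZFSet)
    fun A hA => ZFSet.mem_powerset.2 fun x hx => hA.1 ⟨x, tr.tr A.2 hx⟩ hx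
  have hF' : ∀ A, ES _ A F ↔ (∀ x, ES _ x A → ES _ x (oC _ μ.κ)) ∧
      ∀ᶠ x in (μ.U : Filter Ordinal.{u}), ES _ (oC μ.mach x) A := fun A => by
    obtain ⟨c, hc⟩ := A.2.code
    exact (hF A).trans (and_congr_right fun _ => (h _ (Tm.congrP
      (Q := fun z => Mem0 μ.mach (on μ.mach z) c) (by fun_prop)
      fun z => by simp only [Mem0, val0_on, hc]; rfl)).symm)
  refine ⟨tr.isOrd_iff.2 ⟨_, rfl⟩, ⟨oC _ ω, tr.isOmega_iff.2 rfl, lt.2 μ.hω⟩, F,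
    fun A hA => ((hF' A).1 hA).1, fun A B hA h₁ h₂ => (hF' B).2 ⟨h₂, ((hF' A).1 hA).2.mono
      fun _ => h₁ _⟩, fun A B hA hB => ?_, fun A hA => ?_, fun A x hA => ?_, fun a f ha hf => ?_⟩
  · obtain ⟨C, hC⟩ := exists_setC (R := fun x => ES _ x A ∧ ES _ x B) (by fun_prop) A.1
      fun _ h => h.1
    exact ⟨C, (hF' C).2 ⟨fun x hx => ((hF' A).1 hA).1 x ((hC x).1 hx).1,
      (((hF' A).1 hA).2.and ((hF' B).1 hB).2).mono fun _ => (hC _).2⟩, hC⟩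
  · obtain ⟨C, hC⟩ := exists_setC (R := fun x => ES _ x (oC _ μ.κ) ∧ ¬ ES _ x A) (by fun_prop) _
      fun _ h => h.1
    refine or_iff_not_imp_left.2 fun h => ⟨C, (hF' C).2 ⟨fun x hx => ((hC x).1 hx).1, ?_⟩, hC⟩
    exact (μ.hκ.and (Ultrafilter.eventually_not.2 fun h' => h ((hF' A).2 ⟨hA, h'⟩))).mono
      fun x hx => (hC _).2 ⟨lt.2 hx.1, hx.2⟩
  · obtain ⟨y, h₁, h₂⟩ := (((hF' A).1 hA).2.and μ.hκ).exists
    obtain ⟨z, h₃, h₄⟩ := (((hF' A).1 hA).2.and (μ.hI y h₂)).exists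
    by_cases e : oC _ y = x
    · exact ⟨_, h₃, fun e' => h₄.ne (toZFSet_injective (congrArg Subtype.val (e.trans e'.symm)))⟩
    · exact ⟨_, h₁, e⟩
  · obtain ⟨C, hC⟩ := exists_setC (R := fun x => ES _ x (oC _ μ.κ) ∧
      ∀ i A, App (ES _) f i A → ES _ x A) (by unfold App IsPair; fun_prop) _ fun _ h => h.1
    obtain ⟨a, h₁, rfl⟩ := ES_oC.1 ha
    have key : ∀ i A, App (ES _) f i A → ES _ i (oC _ a) ∧ ES _ A F := fun i A ⟨p, h₂, h₃⟩ => by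
      obtain ⟨j, B, h₄, h₅, h₆⟩ := hf.1 p h₂
      have := ZFSet.pair_inj.1 ((tr.isPair_iff.1 h₃).symm.trans (tr.isPair_iff.1 h₆))
      exact ⟨(this.1 ▸ h₄ : i.1 ∈ _), (this.2 ▸ h₅ : A.1 ∈ _)⟩
    refine ⟨C, (hF' C).2 ⟨fun x hx => ((hC x).1 hx).1, (μ.hκ.and (μ.compl h₁
      (X := fun i z => ∀ A, App (ES _) f (oC _ i) A → ES _ (oC _ z) A) fun i hi => ?_)).mono
      fun x hx => (hC _).2 ⟨lt.2 hx.1, fun i A h₂ => ?_⟩⟩, hC⟩
    · obtain ⟨A, h₂, h₃⟩ := hf.2 _ (lt.2 hi)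
      exact ((hF' A).1 (key _ _ h₂).2).2.mono fun z hz B hB => h₃ B hB ▸ hz
    · obtain ⟨i, hi, rfl⟩ := ES_oC.1 (key _ _ h₂).1
      exact hx.2 i hi A h₂

end Pool.Agent.MP_9a6faa_lc

end

section

namespace Pool.Agent.MP_9a6faa_lc

open Set Order FO

universe u

/-- Codes of parameter-free definitions. -/
inductive Cx : Type
  | nand (a b : Cx) : Cx
  | ex (a : Cx) : Cx
  | c4 (a : Cx) : Cx
  | c5 (a : Cx) : Cx
  | c6 (a : Cx) : Cx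
  | c7 (a : Cx) : Cx
  | qq (a : Cx) : Cx
  | lt : Cx
  | pp : Cx
  | kk : Cx
  deriving Countable

def Cx.ev (m : Mach.{u}) : Cx → Ordinal.{u} → Prop
  | .nand a b, x => ¬ (a.ev m x ∧ b.ev m x)
  | .ex a, x => ∃ y, a.ev m (G x y)
  | .c4 a, x => a.ev m (fst x)
  | .c5 a, x => a.ev m (G (snd x) (fst x))
  | .c6 a, x => a.ev m (G (fst (fst x)) (snd x))
  | .c7 a, x => a.ev m (G (snd (fst x)) (snd x))
  | .qq a, x => m.Q (fun y => a.ev m (G x y))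
  | .lt, x => fst x < snd x
  | .pp, x => P m (fst x) (snd x)
  | .kk, x => x = m.κ

/-- Classes definable without parameters. -/
def AmF (m : Mach.{u}) (R : Unit → Ordinal.{u} → Prop) : Prop := ∃ c : Cx, R = fun _ => c.ev m

theorem ordCl_F (m : Mach.{u}) : OrdCl (AmF m) where
  nand := by rintro _ _ ⟨a, rfl⟩ ⟨b, rfl⟩; exact ⟨.nand a b, rfl⟩
  ex := by rintro _ ⟨a, rfl⟩; exact ⟨.ex a, rfl⟩
  c4 := by rintro _ ⟨a, rfl⟩; exact ⟨.c4 a, rfl⟩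
  c5 := by rintro _ ⟨a, rfl⟩; exact ⟨.c5 a, rfl⟩
  c6 := by rintro _ ⟨a, rfl⟩; exact ⟨.c6 a, rfl⟩
  c7 := by rintro _ ⟨a, rfl⟩; exact ⟨.c7 a, rfl⟩
  lt := ⟨.lt, rfl⟩

noncomputable def FF (m : Mach.{u}) : FO.{u, u + 1} Unit Ordinal.{u} := (ordCl_F m).fo

variable {m : Mach.{u}}

theorem Cx.amS (c : Cx) : AmS m (fun _ => c.ev m) := by
  induction c with
  | nand a b ih₁ ih₂ => exact (ordCl_S m).nand ih₁ ih₂
  | ex a ih => exact (ordCl_S m).ex ih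
  | c4 a ih => exact (ordCl_S m).c4 ih
  | c5 a ih => exact (ordCl_S m).c5 ih
  | c6 a ih => exact (ordCl_S m).c6 ih
  | c7 a ih => exact (ordCl_S m).c7 ih
  | qq a ih => exact amS_Q ih
  | lt => exact (ordCl_S m).lt
  | pp => exact amS_P
  | kk => exact Full.const (𝒜 := SS m) _

instance : HasSep (FF m) := ⟨fun _ => P m, am_mem (Am := AmF m) ⟨.pp, rfl⟩,
  by rintro _ ⟨c, rfl⟩ _; exact sep_of_amS c.amS⟩

instance : DQ (FF m) (fun _ => m) := ⟨⟨.kk, rfl⟩, by rintro _ ⟨a, rfl⟩; exact ⟨.qq a, rfl⟩⟩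

noncomputable instance : Cd (FF m) Mach.{u} := cdW _ fun _ => m

instance : HasQ (FF m) := hasQ_cdW _

instance : Par (FF m) m := par_cdW _

theorem FF_tm {R : Ordinal.{u} → Prop} (h : (FF m).Tm R) : ∃ c : Cx, R = c.ev m :=
  let ⟨c, e⟩ := (ordCl_F m).tm_iff.1 h; ⟨c, congrFun e ()⟩

theorem Cx.tm (c : Cx) : (FF m).Tm (c.ev m) := (ordCl_F m).tm_iff.2 ⟨c, rfl⟩

theorem FF_SS {R : Ordinal.{u} → Prop} (h : (FF m).Tm R) : (SS m).Tm R :=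
  let ⟨c, e⟩ := FF_tm h; e ▸ (ordCl_S m).tm_iff.2 c.amS

theorem par_of {α β : Type*} [Cd (FF m) α] [Cd (FF m) β] {f : α → β} (hf : (FF m).Tm f) (a : α)
    [Par (FF m) a] : Par (FF m) (f a) := ⟨hf.comp (Tm.const a)⟩

instance : Countable {a : Ordinal.{u} // Par (FF m) a} := by
  refine Set.Countable.to_subtype (s := {a | Par (FF m) a})
    ((Set.countable_range fun c : Cx => mu (c.ev m)).mono fun a (ha : Par _ a) => ?_)
  obtain ⟨c, e⟩ := FF_tm (m := m) (R := fun x => x = a) (by fun_prop)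
  exact ⟨c, (congrArg mu e).symm.trans (mu_eq rfl fun _ h => h.ne)⟩

/-- Definable elements form an elementary substructure. -/
theorem wit_par {α : Type*} [Cd (FF m) α] [Pure (FF m) α] {Q : α → Prop} (h : (FF m).Tm Q)
    (e : ∃ y, Q y) : ∃ y, Par (FF m) y ∧ Q y := by
  have h₁ : (FF m).Tm (fun a : α => (Cd.ι (FF m) a : Ordinal.{u})) :=
    ⟨fun _ _ _ => trivial, (Tm.ι' (𝒜 := FF m) (Γ := α)).2⟩
  obtain ⟨y, h₂, h₃⟩ := mu_spec (R := fun x => ∃ y, Cd.ι (FF m) y = x ∧ Q y)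
    (let ⟨y, h⟩ := e; ⟨_, y, rfl, h⟩)
  exact ⟨y, ⟨tm_of_rel (Q := fun _ z => Cd.ι (FF m) z = mu (fun x => ∃ y, Cd.ι (FF m) y = x ∧ Q y))
    (by fun_prop) fun _ z => h₂ ▸ ⟨Cd.inj (Pure.pure z ()) (Pure.pure y ()), congrArg _⟩⟩, h₃⟩

theorem all_par {α : Type*} [Cd (FF m) α] [Pure (FF m) α] {Q : α → Prop} (h : (FF m).Tm Q)
    (e : ∀ y, Par (FF m) y → Q y) (y : α) : Q y := by
  by_contra h'
  obtain ⟨z, h₁, h₂⟩ := wit_par (m := m) (Q := fun y => ¬ Q y) (by fun_prop) ⟨y, h'⟩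
  exact h₂ (e z h₁)

theorem par_list {l : OL.{u}} : Par (FF m) l ↔ ∀ x ∈ l, Par (FF m) x := by
  induction l with
  | nil => exact ⟨by simp, fun _ => inferInstance⟩
  | cons a l ih =>
    rw [List.forall_mem_cons, ← ih]
    exact ⟨fun _ => ⟨par_of (f := fun l : OL.{u} => l.headD 0) (by fun_prop) (a :: l),
      par_of (f := fun l : OL.{u} => l.tail) (by fun_prop) (a :: l)⟩,
      fun ⟨_, _⟩ => ⟨by fun_prop⟩⟩

end Pool.Agent.MP_9a6faa_lc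

end

section

namespace Pool.Agent.MP_9a6faa_lc

open Set Order FO

universe u v

variable {m : Mach.{u}}

open Classical in
/-- Every nonempty coded type is coded by ordinals. -/
@[reducible] noncomputable def ocS (m : Mach.{u}) (σ : Type*) [Cd (SS m) σ] [Pure (SS m) σ]
    (x₀ : σ) : OC (SS m) σ :=
  have h₁ : (SS m).Tm (fun a : σ => (Cd.ι (SS m) a : Ordinal.{u})) :=
    ⟨fun _ _ _ => trivial, (Tm.ι' (𝒜 := SS m) (Γ := σ)).2⟩
  have h₂ : ∀ {a b : σ}, Cd.ι (SS m) a = Cd.ι (SS m) b → a = b :=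
    Cd.inj (Pure.pure _ ()) (Pure.pure _ ())
  { enc := Cd.ι (SS m)
    dec := fun c => if h : ∃ x, Cd.ι (SS m) x = c then h.choose else x₀
    dec_enc := fun b => by
      have h : ∃ x, Cd.ι (SS m) x = Cd.ι (SS m) b := ⟨b, rfl⟩
      exact (dif_pos h).trans (h₂ h.choose_spec)
    tm_enc := h₁
    tm_dec := tm_of_rel (Q := fun c (x : σ) => Cd.ι (SS m) x = c ∨
        (x = x₀ ∧ ¬ ∃ y : σ, Cd.ι (SS m) y = c)) (by fun_prop) fun c x => by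
      split_ifs with h
      · exact (or_iff_left fun h' => h'.2 h).trans
          ⟨fun e => h₂ (e.trans h.choose_spec.symm), fun e => e ▸ h.choose_spec⟩
      · exact (or_iff_right fun e => h ⟨x, e⟩).trans (and_iff_left h) }

theorem exists_skolem {Γ σ : Type*} [Cd (SS m) Γ] [Cd (SS m) σ] [Pure (SS m) σ]
    {Q : Γ → σ → Prop} (hQ : (SS m).Tm (fun z : Γ × σ => Q z.1 z.2)) (x₀ : σ)
    (h : ∀ x, ∃ y, Q x y) : ∃ f : Γ → σ, (SS m).Tm f ∧ ∀ x, Q x (f x) := by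
  let _ := ocS m σ x₀
  have hd := OC.tm_dec (𝒜 := SS m) (β := σ)
  exact ⟨fun x => OC.dec (SS m) (mu fun c => Q x (OC.dec (SS m) c)), by fun_prop, fun x =>
    mu_spec (R := fun c => Q x (OC.dec (SS m) c))
      (let ⟨y, h⟩ := h x; ⟨OC.enc (SS m) y, (OC.dec_enc (𝒜 := SS m) y).symm ▸ h⟩)⟩

theorem exists_rec {σ : Type*} [Cd (SS m) σ] [Pure (SS m) σ]
    {Q : σ × Ordinal.{u} × OL.{u} → σ → Prop}
    (hQ : (SS m).Tm (fun z : (σ × Ordinal.{u} × OL.{u}) × σ => Q z.1 z.2)) (x₀ : σ)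
    (h : ∀ x, ∃ y, Q x y) :
    ∃ f : OL.{u} → σ, (SS m).Tm f ∧ f [] = x₀ ∧ ∀ x l, Q (f l, x, l) (f (x :: l)) := by
  let _ := ocS m σ x₀
  obtain ⟨g, hg, eg⟩ := exists_skolem hQ x₀ h
  exact ⟨fun l => l.rec x₀ (fun x l r => g (r, x, l)), (tm_listRec (𝒜 := SS m) (Γ := ℕ)
    (fun _ l => l.rec x₀ (fun x l r => g (r, x, l))) (fun _ => x₀) (fun _ x l r => g (r, x, l))
    (fun _ => rfl) (fun _ _ _ => rfl) (by fun_prop) (by fun_prop)).comp (f := fun l => (0, l))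
    (by fun_prop), rfl, fun _ _ => eg _⟩

noncomputable def lam (m : Mach.{u}) : Ordinal.{u} := se m (th m)

theorem gcl_lam : Gcl (lam m) := (se_spec m _).1

theorem letter_lt {x y : Ordinal.{u}} (hx : x < th m) (hy : y < sa m x) : G x y < lam m :=
  gcl_lam.G (hx.trans (se_spec m _).2.1) (hy.trans ((se_spec m _).2.2 x hx))

/-- The nodes of the tree coded by `p`. -/
def In (m : Mach.{u}) (p : Ordinal.{u}) (t : OL.{u}) : Prop := encL t < lam m ∧ P m p (encL t)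

/-- Splitting nodes. -/
def Spl (m : Mach.{u}) (R : OL.{u} → Prop) (s : OL.{u}) : Prop :=
  R s ∧ ∀ x < th m, ∀ y < sa m x, ∃ z, y ≤ z ∧ z < sa m x ∧ R (G x z :: s)

def Tree (m : Mach.{u}) (R : OL.{u} → Prop) : Prop :=
  R [] ∧ (∀ s t, s <:+ t → R t → R s) ∧ ∀ t, R t → ∃ s, t <:+ s ∧ Spl m R s

/-- The forcing conditions. -/
def Cn (m : Mach.{u}) : Type (u + 1) := {p : Ordinal.{u} // p < cb m (lam m) ∧ Tree m (In m p)}

instance : Preorder (Cn m) where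
  le := fun q p => ∀ t, In m q.1 t → In m p.1 t
  le_refl := fun _ _ h => h
  le_trans := fun _ _ _ h h' t ht => h' t (h t ht)

namespace FO

variable {I : Type} {V : Type v} {𝒜 : FO.{u, v} I V} {Γ : Type*} [Cd 𝒜 Γ]
variable [Cd 𝒜 Mach.{u}] [HasQ 𝒜] [HasSep 𝒜] [Par 𝒜 m]

instance : Par 𝒜 (th m) := ⟨by fun_prop⟩

instance : Par 𝒜 (lam m) := ⟨by unfold lam se; fun_prop⟩

@[fun_prop] theorem tm_In {p : Γ → Ordinal.{u}} {t : Γ → OL.{u}} (hp : 𝒜.Tm p) (ht : 𝒜.Tm t) :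
    𝒜.Tm (fun z => In m (p z) (t z)) := by
  unfold In; fun_prop

@[fun_prop] theorem tm_Spl {R : Γ → OL.{u} → Prop} {t : Γ → OL.{u}}
    (hR : 𝒜.Tm (fun z : Γ × OL.{u} => R z.1 z.2)) (ht : 𝒜.Tm t) :
    𝒜.Tm (fun z => Spl m (fun s => R z s) (t z)) := by
  unfold Spl; fun_prop

noncomputable instance : Cd 𝒜 (Cn m) := cdOfEnc Subtype.val Subtype.val_injective
  (Tm.df (Tm.congrP (Q := fun p => p < cb m (lam m) ∧ Tree m (fun t => In m p t))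
    (by unfold Tree; fun_prop) fun p => ⟨fun h => ⟨⟨p, h⟩, rfl⟩, fun ⟨q, e⟩ => e ▸ q.2⟩))

instance : Pure 𝒜 (Cn m) := ⟨fun _ _ => trivial⟩

@[fun_prop] theorem tm_cval {p : Γ → Cn m} (h : 𝒜.Tm p) : 𝒜.Tm (fun z => (p z).1) := by
  have : 𝒜.Tm (fun p : Cn m => p.1) := Tm.mk' (fun _ _ _ => trivial) 𝒜.eq fun i x y _ _ => by
    constructor
    · rintro ⟨z, e⟩
      obtain ⟨e₁, e₂⟩ := pr_iff.1 e
      exact 𝒜.o_inj (e₂.trans e₁.symm)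
    · rintro rfl
      exact ⟨_, rfl⟩
  exact this.comp h

@[fun_prop] theorem tm_cle {p q : Γ → Cn m} (hp : 𝒜.Tm p) (hq : 𝒜.Tm q) :
    𝒜.Tm (fun z => p z ≤ q z) :=
  Tm.congrP (Q := fun z => ∀ t, In m (p z).1 t → In m (q z).1 t) (by fun_prop) fun _ => Iff.rfl

end FO

theorem mk_cond {R : OL.{u} → Prop} (hR : (SS m).Tm R) (h₁ : ∀ t, R t → encL t < lam m)
    (h₂ : Tree m R) : ∃ p : Cn m, ∀ t, In m p.1 t ↔ R t := by
  obtain ⟨c, h₃, h₄⟩ := code_set_cb (m := m) (R := fun x => R (decL x)) (by fun_prop) (lam m)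
  have e : In m c = R := funext fun t => propext
    ⟨fun h => by simpa using (h₄ _ h.1).1 h.2, fun h => ⟨h₁ t h, (h₄ _ (h₁ t h)).2 (by simpa)⟩⟩
  exact ⟨⟨c, h₃, e ▸ h₂⟩, fun t => iff_of_eq (congrFun e t)⟩

theorem encL_mono {s t : OL.{u}} (h : s <:+ t) : encL s ≤ encL t := by
  induction t with
  | nil => rw [List.suffix_nil.1 h]
  | cons a t ih =>
    rcases List.suffix_cons_iff.1 h with rfl | h
    exacts [le_rfl, (ih h).trans (encL_lt_cons a t).le]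

instance : Nonempty (Cn m) :=
  let ⟨p, _⟩ := mk_cond (m := m) (R := fun t => encL t < lam m) (by fun_prop) (fun _ h => h)
    ⟨gcl_lam.pos, fun _ _ h h' => (encL_mono h).trans_lt h', fun t h => ⟨t, List.suffix_rfl, h,
      fun _ hx y hy => ⟨y, le_rfl, hy, gcl_lam.succ (gcl_lam.G (letter_lt hx hy) h)⟩⟩⟩
  ⟨p⟩

namespace Cn

theorem down (p : Cn m) {s t : OL.{u}} (h : s <:+ t) (ht : In m p.1 t) : In m p.1 s :=
  p.2.2.2.1 s t h ht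

theorem spl (p : Cn m) {t : OL.{u}} (ht : In m p.1 t) : ∃ s, t <:+ s ∧ Spl m (In m p.1) s :=
  p.2.2.2.2 t ht

theorem long (p : Cn m) {t : OL.{u}} (ht : In m p.1 t) (n : ℕ) :
    ∃ s, t <:+ s ∧ In m p.1 s ∧ n ≤ s.length := by
  induction n with
  | zero => exact ⟨t, List.suffix_rfl, ht, Nat.zero_le _⟩
  | succ n ih =>
    obtain ⟨s, h₁, h₂, h₃⟩ := ih
    obtain ⟨r, h₄, -, h₅⟩ := p.spl h₂
    obtain ⟨z, -, -, h₆⟩ := h₅ 0 gcl_th.pos 0 (reg_sa 0).lim.1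
    exact ⟨_, h₁.trans (h₄.trans (List.suffix_cons _ _)), h₆,
      Nat.succ_le_succ (h₃.trans h₄.length_le)⟩

theorem res (p : Cn m) {t : OL.{u}} (ht : In m p.1 t) :
    ∃ q : Cn m, ∀ s, In m q.1 s ↔ In m p.1 s ∧ (s <:+ t ∨ t <:+ s) := by
  refine mk_cond (by fun_prop) (fun _ h => h.1.1) ⟨⟨p.2.2.1, Or.inl List.nil_suffix⟩,
    fun s r h₁ h₂ => ⟨p.down h₁ h₂.1, h₂.2.elim (fun h => Or.inl (h₁.trans h))
      (List.suffix_or_suffix_of_suffix h₁)⟩, fun s h => ?_⟩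
  obtain ⟨r, h₁, h₂, h₃⟩ : ∃ r, s <:+ r ∧ t <:+ r ∧ In m p.1 r :=
    h.2.elim (fun e => ⟨t, e, List.suffix_rfl, ht⟩) fun e => ⟨s, List.suffix_rfl, e, h.1⟩
  obtain ⟨w, h₄, h₅, h₆⟩ := p.spl h₃
  refine ⟨w, h₁.trans h₄, ⟨h₅, Or.inr (h₂.trans h₄)⟩, fun x hx y hy => ?_⟩
  obtain ⟨z, h₇, h₈, h₉⟩ := h₆ x hx y hy
  exact ⟨z, h₇, h₈, h₉, Or.inr ((h₂.trans h₄).trans (List.suffix_cons _ _))⟩

/-- The node `t` is an initial segment of the stem of `p`. -/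
def Stem (p : Cn m) (t : OL.{u}) : Prop := ∀ s, In m p.1 s → s <:+ t ∨ t <:+ s

theorem Stem.mem {p : Cn m} {t : OL.{u}} (h : p.Stem t) : In m p.1 t := by
  obtain ⟨s, -, h₁, h₂⟩ := p.long p.2.2.1 t.length
  rcases h s h₁ with e | e
  exacts [e.eq_of_length_le h₂ ▸ h₁, p.down e h₁]

theorem Stem.mono {p q : Cn m} {t : OL.{u}} (h : p.Stem t) (e : q ≤ p) : q.Stem t :=
  fun s hs => h s (e s hs)

theorem exists_stem (p : Cn m) {t : OL.{u}} (ht : In m p.1 t) : ∃ q ≤ p, q.Stem t :=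
  let ⟨q, h⟩ := p.res ht; ⟨q, fun s hs => ((h s).1 hs).1, fun s hs => ((h s).1 hs).2⟩

end Cn

end Pool.Agent.MP_9a6faa_lc

end

section

namespace Pool.Agent.MP_9a6faa_lc

open Set Order FO

universe u

variable {m : Mach.{u}}

/-- Ranked winning positions of the first player. -/
theorem exists_rank {H : Ordinal.{u} × OL.{u} → Prop} (hH : (SS m).Tm H) :
    ∃ B : Ordinal.{u} × Ordinal.{u} × OL.{u} → Prop, (SS m).Tm B ∧ ∀ b r a, B (b, r, a) ↔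
      ∃ x < th m, ∃ y < sa m x, ∀ z, y ≤ z → z < sa m x → H (b, G x z :: a) →
        ∃ r' < r, B (b, r', G x z :: a) := by
  let X : Ordinal.{u} → Ordinal.{u} → OL.{u} → Prop := fun b => orec id fun R _ a =>
    ∃ x < th m, ∃ y < sa m x, ∀ z, y ≤ z → z < sa m x → H (b, G x z :: a) →
      ∃ r', R r' (G x z :: a)
  have hX : ∀ b r a, X b r a ↔ ∃ x < th m, ∃ y < sa m x, ∀ z, y ≤ z → z < sa m x →
      H (b, G x z :: a) → ∃ r' < r, X b r' (G x z :: a) := fun b r a => orec_iff _ _ _ _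
  refine ⟨fun z => X z.1 z.2.1 z.2.2, ?_, hX⟩
  refine tm_grec (𝒜 := SS m) (A := Ordinal.{u} × OL.{u}) Prod.fst (fun a => encL a.2)
    (by fun_prop) (by fun_prop) (fun _ _ h h' => Prod.ext h (encL_inj h')) (fun b a => X b a.1 a.2)
    (fun b R a => ∃ x < th m, ∃ y < sa m x, ∀ z, y ≤ z → z < sa m x → H (b, G x z :: a.2) →
      ∃ r', R (r', G x z :: a.2)) (fun _ a w => w.1 < a.1 ∧ ∃ x < lam m, w.2 = x :: a.2)
    (by fun_prop) (fun b a => (hX _ _ _).trans (exists_congr fun x => and_congr_right fun hx =>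
      exists_congr fun y => and_congr_right fun _ => forall₃_congr fun z _ hz =>
        imp_congr_right fun _ => exists_congr fun r => and_congr_left fun _ =>
          (and_iff_left ⟨_, letter_lt hx hz, rfl⟩).symm))
    (fun R hR => by fun_prop) (fun _ _ _ h => h.1) fun _ _ a => ?_
  obtain ⟨y, h₁, h₂, h₃⟩ := exists_gcl₂ (encL a.2) (lam m)
  refine ⟨y, h₁, fun a _ h w ⟨_, x, hx, e⟩ => ?_⟩
  rw [e]
  exact h₃.succ (h₃.G (hx.trans h₂) h)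

/-- The open game is won by the second player for some bound. -/
theorem game {ρ : Ordinal.{u}} (hρ : Reg m ρ) (hθ : th m < ρ) (hS : ∀ x < th m, ρ ≠ sa m x)
    {V : OL.{u} → Prop} {β : OL.{u} → Ordinal.{u}} (hV : (SS m).Tm V) (hβ : (SS m).Tm β)
    (V0 : V []) (Vs : ∀ a, V a → ∀ x < th m, ∀ y < sa m x, ∃ z, y ≤ z ∧ z < sa m x ∧ V (G x z :: a))
    (hb : ∀ a, V a → β a < ρ) :
    ∃ b < ρ, ∃ W : OL.{u} → Prop, (SS m).Tm W ∧ W [] ∧ ∀ a, W a → ∀ x < th m, ∀ y < sa m x,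
      ∃ z, y ≤ z ∧ z < sa m x ∧ V (G x z :: a) ∧ β (G x z :: a) ≤ b ∧ W (G x z :: a) := by
  obtain ⟨B, hB, eB⟩ := exists_rank (m := m) (H := fun z => V z.2 ∧ β z.2 ≤ z.1) (by fun_prop)
  suffices ∃ b < ρ, ∀ r, ¬ B (b, r, []) by
    obtain ⟨b, h₁, h₂⟩ := this
    refine ⟨b, h₁, fun a => ∀ r, ¬ B (b, r, a), by fun_prop, h₂, fun a h x hx y hy => ?_⟩
    obtain ⟨r, hr⟩ := bound_wit (sa m x) (fun z r => B (b, r, G x z :: a))
    by_contra h₃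
    push Not at h₃
    exact h r ((eB _ _ _).2 ⟨x, hx, y, hy, fun z h₄ h₅ h₆ => hr z h₅ (h₃ z h₄ h₅ h₆.1 h₆.2)⟩)
  obtain ⟨Wn, hW, eW⟩ : ∃ Wn : Ordinal.{u} × OL.{u} × Ordinal.{u} × Ordinal.{u} → Prop,
      (SS m).Tm Wn ∧ ∀ b a x y, Wn (b, a, x, y) ↔ ∀ z, y ≤ z → z < sa m x →
        V (G x z :: a) ∧ β (G x z :: a) ≤ b →
          ∃ r' < mu (fun r => B (b, r, a)), B (b, r', G x z :: a) :=
    ⟨fun w => ∀ z, w.2.2.2 ≤ z → z < sa m w.2.2.1 →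
      V (G w.2.2.1 z :: w.2.1) ∧ β (G w.2.2.1 z :: w.2.1) ≤ w.1 →
        ∃ r' < mu (fun r => B (w.1, r, w.2.1)), B (w.1, r', G w.2.2.1 z :: w.2.1), by fun_prop,
      fun _ _ _ _ => Iff.rfl⟩
  obtain ⟨M, hM, M0, eM⟩ := exists_rec (m := m) (σ := OL.{u}) (Q := fun w a =>
    (sa m (fst w.2.1) < ρ → a = w.2.1 :: w.1) ∧ (V w.1 → fst w.2.1 < th m → ρ < sa m (fst w.2.1) →
      ∃ z < sa m (fst w.2.1), a = G (fst w.2.1) z :: w.1 ∧ V a ∧ ∀ b < ρ,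
        (∃ y < sa m (fst w.2.1), Wn (b, w.1, fst w.2.1, y)) → ∃ y ≤ z, Wn (b, w.1, fst w.2.1, y)))
    (by fun_prop) [] (fun ⟨a, x, _⟩ => by
      by_cases h : V a ∧ fst x < th m ∧ ρ < sa m (fst x)
      · obtain ⟨c, h₁, h₂⟩ := (reg_sa (fst x)).regA (fun b y => Wn (b, a, fst x, y)) (by fun_prop)
          ρ h.2.2
        obtain ⟨z, h₃, h₄, h₅⟩ := Vs a h.1 _ h.2.1 c h₁
        exact ⟨_, fun h' => absurd h' h.2.2.not_gt, fun _ _ _ => ⟨z, h₄, rfl, h₅, fun b hb h' =>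
          let ⟨y, h₆, h₇⟩ := h₂ b hb h'; ⟨y, h₆.le.trans h₃, h₇⟩⟩⟩
      · exact ⟨_, fun _ => rfl, fun h₁ h₂ h₃ => absurd ⟨h₁, h₂, h₃⟩ h⟩)
  obtain ⟨c, h₁, h₂⟩ := hρ.bdd (f := sa m) (by fun_prop) hθ
  obtain ⟨ν, h₃, h₄, h₅, h₆⟩ := hρ.limCl.two h₁ hθ
  obtain ⟨b, h₇, h₈⟩ := hρ.bdd (f := fun i => β (M (decL i))) (by fun_prop) h₃
  refine ⟨b, h₇, fun r => ?_⟩
  suffices ∀ l, encL l < ν → V (M l) → ¬ B (b, r, M l) by
    simpa only [M0] using this [] h₆.pos (by rwa [M0])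
  induction r using WellFoundedLT.induction with
  | ind r ih =>
    intro l hl hV h
    obtain ⟨x, hx, y, hy, h₉⟩ := (eB _ _ _).1 (mu_spec (R := fun r => B (b, r, M l)) ⟨r, h⟩)
    obtain ⟨w, z, k₁, k₂, k₃, k₄, y', k₅, k₆⟩ : ∃ w z, w < ν ∧ z < sa m x ∧
        M (w :: l) = G x z :: M l ∧ V (G x z :: M l) ∧ ∃ y ≤ z, Wn (b, M l, x, y) := by
      rcases (hS x hx).lt_or_gt with h' | h'
      · have := (eM (G x 0) l).2
        simp only [fst_G] at this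
        obtain ⟨z, k₁, k₂, k₃, k₄⟩ := this hV hx h'
        exact ⟨_, z, h₆.G (hx.trans h₅) h₆.pos, k₁, k₂, k₂ ▸ k₃,
          k₄ b h₇ ⟨y, hy, (eW _ _ _ _).2 h₉⟩⟩
      · obtain ⟨z, k₁, k₂, k₃⟩ := Vs _ hV x hx y hy
        exact ⟨_, z, h₆.G (hx.trans h₅) (k₂.trans ((h₂ x hx h').trans h₄)), k₂,
          (eM _ l).1 (by simpa using h'), k₃, y, k₁, (eW _ _ _ _).2 h₉⟩
    have k₇ : encL (w :: l) < ν := h₆.succ (h₆.G k₁ hl)
    obtain ⟨r', k₈, k₉⟩ := (eW _ _ _ _).1 k₆ z k₅ k₂ ⟨k₄, by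
      simpa [k₃] using (h₈ _ k₇ (by simpa [k₃] using hb _ k₄)).le⟩
    exact ih r' (k₈.trans_le (mu_le h)) _ k₇ (k₃ ▸ k₄) (k₃ ▸ k₉)

theorem namba {ρ : Ordinal.{u}} (hρ : Reg m ρ) (hθ : th m < ρ) (hS : ∀ x < th m, ρ ≠ sa m x)
    {D : Cn m → ℕ → Ordinal.{u} → Prop}
    (hD : (SS m).Tm (fun z : Cn m × ℕ × Ordinal.{u} => D z.1 z.2.1 z.2.2))
    (dense : ∀ q n, ∃ r ≤ q, ∃ b < ρ, D r n b)
    (mono : ∀ q r n b b', D q n b → r ≤ q → b ≤ b' → D r n b') (p : Cn m) :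
    ∃ q ≤ p, ∃ b < ρ, ∀ n, ∀ r ≤ q, ∃ r' ≤ r, D r' n b := by
  obtain ⟨s₀, -, h₀⟩ := p.spl p.2.2.1
  obtain ⟨f, hf, f0, ef⟩ := exists_rec (m := m) (σ := Cn m × OL.{u} × Ordinal.{u})
    (Q := fun w y => w.2.1 :: w.1.2.1 <:+ y.2.1 ∧ (In m w.1.1.1 (w.2.1 :: w.1.2.1) →
      y.1 ≤ w.1.1 ∧ Spl m (fun t => In m y.1.1 t) y.2.1 ∧ D y.1 w.2.2.length y.2.2 ∧ y.2.2 < ρ))
    (by fun_prop) (p, s₀, 0) (fun ⟨⟨c, s, _⟩, x, a⟩ => by
      by_cases h : In m c.1 (x :: s)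
      · obtain ⟨q, h₁, h₂⟩ := c.exists_stem h
        obtain ⟨r, h₃, b, h₄, h₅⟩ := dense q a.length
        obtain ⟨t, h₆, h₇⟩ := r.spl (h₂.mono h₃).mem
        exact ⟨(r, t, b), h₆, fun _ => ⟨h₃.trans h₁, h₇, h₅, h₄⟩⟩
      · exact ⟨(c, x :: s, 0), List.suffix_rfl, fun h' => absurd h' h⟩)
  obtain ⟨V, hV, eV⟩ : ∃ V : OL.{u} → Prop, (SS m).Tm V ∧ ∀ a, V a ↔
      ∀ x b, x :: b <:+ a → In m (f b).1.1 (x :: (f b).2.1) := ⟨_, by fun_prop, fun _ => Iff.rfl⟩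
  have Vc : ∀ {x a}, V (x :: a) ↔ V a ∧ In m (f a).1.1 (x :: (f a).2.1) := fun {x a} => by
    simp only [eV, List.suffix_cons_iff (l₂ := a), or_imp, forall_and, List.cons.injEq, and_imp,
      forall_eq_apply_imp_iff, forall_eq, and_comm]
  have inv : ∀ a, V a → Spl m (In m (f a).1.1) (f a).2.1 ∧ (f a).2.2 < ρ := fun a h => by
    rcases a with _ | ⟨x, a⟩
    · exact f0 ▸ ⟨h₀, hρ.lim.1⟩
    · exact ⟨((ef x a).2 (Vc.1 h).2).2.1, ((ef x a).2 (Vc.1 h).2).2.2.2⟩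
  have cm : ∀ a b, V a → b <:+ a → (f a).1 ≤ (f b).1 := fun a b h e => by
    induction a with
    | nil => rw [List.suffix_nil.1 e]
    | cons x a ih =>
      rcases List.suffix_cons_iff.1 e with rfl | e
      exacts [le_rfl, ((ef x a).2 (Vc.1 h).2).1.trans (ih (Vc.1 h).1 e)]
  have sm : ∀ a b, b <:+ a → (f b).2.1 <:+ (f a).2.1 := fun a b e => by
    induction a with
    | nil => rw [List.suffix_nil.1 e]
    | cons x a ih =>
      rcases List.suffix_cons_iff.1 e with rfl | e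
      exacts [List.suffix_rfl, (ih e).trans ((List.suffix_cons _ _).trans (ef x a).1)]
  have inj₁ : ∀ a b x, b <:+ a → x :: (f b).2.1 <:+ (f a).2.1 → x :: b <:+ a := by
    rintro _ b x ⟨e, rfl⟩ h
    obtain rfl | ⟨e, y, rfl⟩ := List.eq_nil_or_concat' e
    · simpa using h.length_le
    · have h₁ : y :: b <:+ e ++ [y] ++ b := ⟨e, by simp⟩
      rwa [(List.cons.inj ((List.suffix_of_suffix_length_le h ((ef y b).1.trans (sm _ _ h₁))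
        (by simp)).eq_of_length (by simp))).1]
  have inj : ∀ a b, (f b).2.1 <:+ (f a).2.1 → b <:+ a := fun a b h => by
    induction b with
    | nil => exact List.nil_suffix
    | cons x b ih =>
      have := (ef x b).1.trans h
      exact inj₁ a b x (ih ((List.suffix_cons _ _).trans this)) this
  obtain ⟨b, hb, W, hW, W0, Ws⟩ := game hρ hθ hS hV (β := fun a => (f a).2.2) (by fun_prop)
    ((eV _).2 (by simp)) (fun a h x hx y hy =>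
      let ⟨z, h₁, h₂, h₃⟩ := (inv a h).1.2 x hx y hy; ⟨z, h₁, h₂, Vc.2 ⟨h, h₃⟩⟩)
    fun a h => (inv a h).2
  obtain ⟨T, hT, eT⟩ : ∃ T : OL.{u} → Prop, (SS m).Tm T ∧ ∀ a, T a ↔
      V a ∧ ∀ c, c <:+ a → (f c).2.2 ≤ b ∧ W c := ⟨_, by fun_prop, fun _ => Iff.rfl⟩
  have TV : ∀ {a t}, T a → t <:+ (f a).2.1 → In m (f a).1.1 t := fun h e =>
    Cn.down _ e (inv _ ((eT _).1 h).1).1.1
  have T0 : T [] := (eT _).2 ⟨(eV _).2 (by simp), by simp [f0, W0]⟩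
  obtain ⟨q, hq⟩ := mk_cond (m := m) (R := fun t => ∃ a, T a ∧ t <:+ (f a).2.1) (by fun_prop)
    (fun t ⟨a, h₁, h₂⟩ => (TV h₁ h₂).1) ⟨⟨[], T0, List.nil_suffix⟩,
      fun s t h ⟨a, h₁, h₂⟩ => ⟨a, h₁, h.trans h₂⟩, fun t ⟨a, h₁, h₂⟩ =>
        ⟨_, h₂, ⟨a, h₁, List.suffix_rfl⟩, fun x hx y hy => by
          obtain ⟨z, h₃, h₄, h₅, h₆⟩ := Ws a (((eT _).1 h₁).2 a List.suffix_rfl).2 x hx y hy
          refine ⟨z, h₃, h₄, _, (eT _).2 ⟨h₅, fun c hc => ?_⟩, (ef _ a).1⟩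
          rcases List.suffix_cons_iff.1 hc with rfl | hc
          exacts [h₆, ((eT _).1 h₁).2 c hc]⟩⟩
  refine ⟨q, fun t ht => ?_, b, hb, fun n r hr => ?_⟩
  · obtain ⟨a, h₁, h₂⟩ := (hq t).1 ht
    simpa [f0] using cm a [] ((eT _).1 h₁).1 List.nil_suffix t (TV h₁ h₂)
  have K : ∀ t c, In m r.1 t → (∀ a, t <:+ (f a).2.1 → c <:+ a) → In m r.1 (f c).2.1 :=
    fun t c ht h => by
      obtain ⟨s, h₁, h₂, h₃⟩ := r.long ht (f c).2.1.length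
      obtain ⟨a, -, h₄⟩ := (hq s).1 (hr s h₂)
      exact r.down (List.suffix_of_suffix_length_le (sm _ _ (h a (h₁.trans h₄))) h₄ h₃) h₂
  have ex : ∀ k, ∃ c : OL.{u}, c.length = k ∧ In m r.1 (f c).2.1 := fun k => by
    induction k with
    | zero => exact ⟨[], rfl, K [] [] r.2.2.1 fun _ _ => List.nil_suffix⟩
    | succ k ih =>
      obtain ⟨c, h₁, h₂⟩ := ih
      obtain ⟨_, ⟨e, rfl⟩, h₃, h₄⟩ := r.long h₂ ((f c).2.1.length + 1)
      obtain rfl | ⟨e, x, rfl⟩ := List.eq_nil_or_concat' e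
      · simp at h₄
      · exact ⟨x :: c, by simp [h₁], K (x :: (f c).2.1) _ (r.down ⟨e, by simp⟩ h₃) fun a h =>
          inj₁ a c x (inj a c ((List.suffix_cons _ _).trans h)) h⟩
  obtain ⟨_ | ⟨x, c⟩, h₁, h₂⟩ := ex (n + 1)
  · simp at h₁
  obtain ⟨a, h₃, h₄⟩ := (hq _).1 (hr _ h₂)
  have h₅ := inj _ _ h₄
  have h₆ := (ef x c).2 ((eV _).1 ((eT _).1 h₃).1 x c h₅)
  obtain ⟨r', h₇, h₈⟩ := r.exists_stem h₂
  refine ⟨r', h₇, mono _ _ _ _ _ ((by simpa using h₁ : c.length = n) ▸ h₆.2.2.1) (fun t ht => ?_)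
    (((eT _).1 h₃).2 _ h₅).1⟩
  rcases h₈ t ht with e | e
  · exact Cn.down _ e h₆.2.1.1
  · obtain ⟨a', k₁, k₂⟩ := (hq _).1 (hr _ (h₇ _ ht))
    exact cm a' _ ((eT _).1 k₁).1 (inj _ _ (e.trans k₂)) t (TV k₁ k₂)

end Pool.Agent.MP_9a6faa_lc

end

section

namespace Pool.Agent.MP_9a6faa_lc

open Set Order FO Filter

universe u v

variable {m : Mach.{u}}

/-- The condition `p` puts `x` into the name `a`. -/
def Cl (a x : Ordinal.{u}) (p : Cn m) : Prop := ∃ q : Cn m, p ≤ q ∧ P m a (G x q.1)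

theorem Cl.lt {a x : Ordinal.{u}} {p : Cn m} (h : Cl a x p) : x < a :=
  let ⟨_, _, h⟩ := h; (left_le_G _ _).trans_lt (P_lt h)

theorem Cl.mono {a x : Ordinal.{u}} {p q : Cn m} (h : Cl a x p) (e : q ≤ p) : Cl a x q :=
  let ⟨r, h₁, h₂⟩ := h; ⟨r, e.trans h₁, h₂⟩

noncomputable def FEq (a b : Ordinal.{u}) (p : Cn m) : Prop :=
  orec id (fun R a (w : Ordinal.{u} × Cn m) =>
    (∀ x, ∀ q ≤ w.2, Cl a x q → ∃ r ≤ q, ∃ y, Cl w.1 y r ∧ R x (y, r)) ∧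
    ∀ y, ∀ q ≤ w.2, Cl w.1 y q → ∃ r ≤ q, ∃ x, Cl a x r ∧ R x (y, r)) a (b, p)

theorem feq_def {a b : Ordinal.{u}} {p : Cn m} : FEq a b p ↔
    (∀ x, ∀ q ≤ p, Cl a x q → ∃ r ≤ q, ∃ y, Cl b y r ∧ FEq x y r) ∧
    ∀ y, ∀ q ≤ p, Cl b y q → ∃ r ≤ q, ∃ x, Cl a x r ∧ FEq x y r :=
  (orec_iff _ _ _ _).trans (and_congr (forall₄_congr fun _ _ _ h => exists_congr fun _ =>
    and_congr_right fun _ => exists_congr fun _ => and_congr_right fun _ => and_iff_right h.lt)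
    (forall₄_congr fun _ _ _ _ => exists_congr fun _ => and_congr_right fun _ =>
      exists_congr fun _ => and_congr_right fun h => and_iff_right h.lt))

def FMem (a b : Ordinal.{u}) (p : Cn m) : Prop := ∀ q ≤ p, ∃ r ≤ q, ∃ y, Cl b y r ∧ FEq a y r

theorem FEq.symm {a b : Ordinal.{u}} {p : Cn m} (h : FEq a b p) : FEq b a p := by
  induction a using WellFoundedLT.induction generalizing b p with
  | ind a ih =>
    rw [feq_def] at h ⊢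
    exact ⟨fun y q hq hy => let ⟨r, hr, x, hx, e⟩ := h.2 y q hq hy; ⟨r, hr, x, hx, ih x hx.lt e⟩,
      fun x q hq hx => let ⟨r, hr, y, hy, e⟩ := h.1 x q hq hx; ⟨r, hr, y, hy, ih x hx.lt e⟩⟩

theorem FEq.mono {a b : Ordinal.{u}} {p q : Cn m} (h : FEq a b p) (hq : q ≤ p) : FEq a b q := by
  rw [feq_def] at h ⊢
  exact ⟨fun i r hr => h.1 i r (hr.trans hq), fun j r hr => h.2 j r (hr.trans hq)⟩

theorem FMem.mono {a b : Ordinal.{u}} {p q : Cn m} (h : FMem a b p) (hq : q ≤ p) : FMem a b q :=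
  fun r hr => h r (hr.trans hq)

theorem feq_iff {a b : Ordinal.{u}} {p : Cn m} : FEq a b p ↔
    (∀ x, ∀ q ≤ p, Cl a x q → FMem x b q) ∧ ∀ y, ∀ q ≤ p, Cl b y q → FMem y a q := by
  rw [feq_def]
  exact ⟨fun ⟨h₁, h₂⟩ => ⟨fun i q hq hi r hr => h₁ i r (hr.trans hq) (hi.mono hr),
    fun j q hq hj r hr => let ⟨s, hs, i, hi, e⟩ := h₂ j r (hr.trans hq) (hj.mono hr)
      ⟨s, hs, i, hi, e.symm⟩⟩, fun ⟨h₁, h₂⟩ => ⟨fun i q hq hi => h₁ i q hq hi q le_rfl,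
    fun j q hq hj => let ⟨s, hs, i, hi, e⟩ := h₂ j q hq hj q le_rfl; ⟨s, hs, i, hi, e.symm⟩⟩⟩

theorem FMem.reg {a b : Ordinal.{u}} {p : Cn m} (h : ∀ q ≤ p, ∃ r ≤ q, FMem a b r) :
    FMem a b p := fun q hq =>
  let ⟨r, hr, h⟩ := h q hq; let ⟨s, hs, h⟩ := h r le_rfl; ⟨s, hs.trans hr, h⟩

theorem FEq.reg {a b : Ordinal.{u}} {p : Cn m} (h : ∀ q ≤ p, ∃ r ≤ q, FEq a b r) : FEq a b p :=
  feq_iff.2 ⟨fun i _ hq hi => FMem.reg fun s hs => let ⟨r, hr, e⟩ := h s (hs.trans hq)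
      ⟨r, hr, (feq_iff.1 e).1 i r le_rfl (hi.mono (hr.trans hs))⟩,
    fun j _ hq hj => FMem.reg fun s hs => let ⟨r, hr, e⟩ := h s (hs.trans hq)
      ⟨r, hr, (feq_iff.1 e).2 j r le_rfl (hj.mono (hr.trans hs))⟩⟩

theorem FMem.of_feq {a b y : Ordinal.{u}} {p : Cn m} (hy : Cl b y p) (e : FEq a y p) :
    FMem a b p := fun q hq => ⟨q, le_rfl, y, hy.mono hq, e.mono hq⟩

def Forces : Fml → OL.{u} → Cn m → Prop
  | .mem i j, l, p => FMem (l.getD i 0) (l.getD j 0) p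
  | .eq i j, l, p => FEq (l.getD i 0) (l.getD j 0) p
  | .bot, _, _ => False
  | .imp φ ψ, l, p => ∀ q ≤ p, Forces φ l q → Forces ψ l q
  | .all φ, l, p => ∀ a, Forces φ (a :: l) p

theorem Forces.mono {φ : Fml} {l : OL.{u}} {p q : Cn m} (h : Forces φ l p) (hq : q ≤ p) :
    Forces φ l q := by
  induction φ generalizing l with
  | mem i j => exact FMem.mono h hq
  | eq i j => exact FEq.mono h hq
  | bot => exact h
  | imp φ ψ _ _ => exact fun r hr => h r (hr.trans hq)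
  | all φ ih => exact fun a => ih (h a)

theorem Forces.reg {φ : Fml} {l : OL.{u}} {p : Cn m} (h : ∀ q ≤ p, ∃ r ≤ q, Forces φ l r) :
    Forces φ l p := by
  induction φ generalizing l p with
  | mem i j => exact FMem.reg h
  | eq i j => exact FEq.reg h
  | bot => exact let ⟨_, _, h⟩ := h p le_rfl; h
  | imp φ ψ _ ih =>
    exact fun q hq hφ => ih fun r hr => let ⟨s, hs, h⟩ := h r (hr.trans hq)
      ⟨s, hs, h s le_rfl (hφ.mono (hs.trans hr))⟩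
  | all φ ih => exact fun a => ih fun q hq => let ⟨r, hr, h⟩ := h q hq; ⟨r, hr, h a⟩

/-- The name given by a relation. -/
noncomputable def nm (R : Ordinal.{u} → Cn m → Prop) : Ordinal.{u} :=
  cs m (fun z => ∃ p : Cn m, snd z = p.1 ∧ R (fst z) p)

/-- Canonical names. -/
noncomputable def chk (m : Mach.{u}) (c : Ordinal.{u}) : Ordinal.{u} :=
  nm (fun x (_ : Cn m) => ∃ z : Iio c, P m c z ∧ x = chk m z)
termination_by c
decreasing_by exact z.2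

namespace FO

variable {I : Type} {V : Type v} {𝒜 : FO.{u, v} I V} {Γ : Type*} [Cd 𝒜 Γ]
variable [Cd 𝒜 Mach.{u}] [HasQ 𝒜] [HasSep 𝒜] [Par 𝒜 m] {a b : Γ → Ordinal.{u}} {p : Γ → Cn m}

@[fun_prop] theorem tm_Cl (ha : 𝒜.Tm a) (hb : 𝒜.Tm b) (hp : 𝒜.Tm p) :
    𝒜.Tm (fun z => Cl (a z) (b z) (p z)) := by
  unfold Cl; fun_prop

@[fun_prop] theorem tm_FEq (ha : 𝒜.Tm a) (hb : 𝒜.Tm b) (hp : 𝒜.Tm p) :
    𝒜.Tm (fun z => FEq (a z) (b z) (p z)) := by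
  have := tm_grec (𝒜 := 𝒜) (Γ := ℕ) (A := Ordinal.{u} × Ordinal.{u} × Cn m) Prod.fst
    (fun z => G z.2.1 z.2.2.1) (by fun_prop) (by fun_prop)
    (fun _ _ h h' => Prod.ext h (Prod.ext (G_inj.1 h').1 (Subtype.ext (G_inj.1 h').2)))
    (fun _ z => FEq z.1 z.2.1 z.2.2)
    (fun _ R z => (∀ x, ∀ q ≤ z.2.2, Cl z.1 x q → ∃ r ≤ q, ∃ y, Cl z.2.1 y r ∧ R (x, y, r)) ∧
      ∀ y, ∀ q ≤ z.2.2, Cl z.2.1 y q → ∃ r ≤ q, ∃ x, Cl z.1 x r ∧ R (x, y, r))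
    (fun _ z w => w.1 < z.1 ∧ w.2.1 < z.2.1) (by fun_prop)
    (fun _ _ => feq_def.trans (and_congr (forall₄_congr fun _ _ _ h => exists_congr fun _ =>
      and_congr_right fun _ => exists_congr fun _ => and_congr_right fun h' =>
        (and_iff_right ⟨h.lt, h'.lt⟩).symm) (forall₄_congr fun _ _ _ h => exists_congr fun _ =>
      and_congr_right fun _ => exists_congr fun _ => and_congr_right fun h' =>
        (and_iff_right ⟨h'.lt, h.lt⟩).symm)))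
    (fun R hR => by fun_prop) (fun _ _ _ h => h.1) fun _ _ z => by
      obtain ⟨y, h₁, h₂, h₃⟩ := exists_gcl₂ (G z.2.1 z.2.2.1) (cb m (lam m))
      exact ⟨y, h₁, fun _ _ h w hw =>
        h₃.G (hw.2.trans ((left_le_G _ _).trans_lt h)) (w.2.2.2.1.trans h₂)⟩
  exact (this.comp (f := fun z => (0, a z, b z, p z)) (by fun_prop) :)

@[fun_prop] theorem tm_FMem (ha : 𝒜.Tm a) (hb : 𝒜.Tm b) (hp : 𝒜.Tm p) :
    𝒜.Tm (fun z => FMem (a z) (b z) (p z)) := by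
  unfold FMem; fun_prop

@[fun_prop] theorem tm_Forces (φ : Fml) {l : Γ → OL.{u}} (hl : 𝒜.Tm l) (hp : 𝒜.Tm p) :
    𝒜.Tm (fun z => Forces φ (l z) (p z)) := by
  have : 𝒜.Tm (fun z : OL.{u} × Cn m => Forces φ z.1 z.2) := by
    induction φ <;> unfold Forces <;> fun_prop
  exact (this.comp (f := fun z => (l z, p z)) (by fun_prop) :)

@[fun_prop] theorem tm_nm {R : Γ → Ordinal.{u} → Cn m → Prop}
    (hR : 𝒜.Tm (fun z : Γ × Ordinal.{u} × Cn m => R z.1 z.2.1 z.2.2)) :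
    𝒜.Tm (fun z => nm (fun x p => R z x p)) := by
  unfold nm; fun_prop

@[fun_prop] theorem tm_chk (ha : 𝒜.Tm a) : 𝒜.Tm (fun z => chk m (a z)) :=
  (tm_frec (𝒜 := 𝒜) (Γ := ℕ) (fun _ => chk m)
    (fun _ k c => nm (fun x (_ : Cn m) => ∃ z, P m c z ∧ x = k z))
    (fun _ a k hk => by
      rw [chk]
      exact congrArg _ (funext₂ fun x _ => propext
        ⟨fun ⟨b, h, e⟩ => ⟨⟨b, P_lt h⟩, h, hk b (P_lt h) ▸ e⟩,
          fun ⟨b, h, e⟩ => ⟨b, h, (hk b b.2).symm ▸ e⟩⟩))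
    (fun k hk => by fun_prop)).comp (f := fun z => (0, a z)) (by fun_prop)

end FO

theorem Cl_nm {R : Ordinal.{u} → Cn m → Prop}
    (hR : (SS m).Tm (fun z : Ordinal.{u} × Cn m => R z.1 z.2)) (b : Ordinal.{u})
    (hb : ∀ x p, R x p → x < b) (mono : ∀ x p q, R x p → q ≤ p → R x q) {x : Ordinal.{u}}
    {p : Cn m} : Cl (nm R) x p ↔ R x p := by
  have e : ∀ q : Cn m, P m (nm R) (G x q.1) ↔ R x q := fun q =>
    (cs_spec (by fun_prop) ⟨G b (cb m (lam m)), fun z ⟨r, e, h⟩ => by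
      simpa using G_lt_of_lt (hb _ _ h) (e ▸ r.2.1 : snd z < _)⟩ _).trans (by
        simp only [fst_G, snd_G]
        exact ⟨fun ⟨r, e, h⟩ => (Subtype.ext e : q = r) ▸ h, fun h => ⟨q, rfl, h⟩⟩)
  exact ⟨fun ⟨q, h₁, h₂⟩ => mono _ _ _ ((e q).1 h₂) h₁, fun h => ⟨p, le_rfl, (e p).2 h⟩⟩

theorem nm_bound (m : Mach.{u}) (a : Ordinal.{u}) :
    ∃ b, ∀ R : Ordinal.{u} → Cn m → Prop, (∀ x p, R x p → x < a) → nm R < b := by
  obtain ⟨b, hb⟩ := exists_bound (fun s : Set (Iio (G a (cb m (lam m)))) =>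
    cs m (fun z => ∃ h, ⟨z, h⟩ ∈ s))
  refine ⟨b, fun R h => lt_of_eq_of_lt (congrArg (cs m) (funext fun z => propext ?_))
    (hb {z | ∃ p : Cn m, snd z = p.1 ∧ R (fst z) p})⟩
  exact ⟨fun ⟨r, e, h'⟩ => ⟨by simpa using G_lt_of_lt (h _ _ h') (e ▸ r.2.1 : snd z < _),
    r, e, h'⟩, fun ⟨_, h⟩ => h⟩

theorem Cl_chk {c x : Ordinal.{u}} {p : Cn m} :
    Cl (chk m c) x p ↔ ∃ z, P m c z ∧ x = chk m z := by
  obtain ⟨b, hb⟩ := bound_fun c (chk m)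
  rw [chk, ← Cl_nm (m := m) (R := fun x _ => ∃ z, P m c z ∧ x = chk m z) (by fun_prop) b
    (fun _ _ ⟨z, h, e⟩ => e ▸ hb z (P_lt h)) fun _ _ _ h _ => h]
  exact iff_of_eq (congrArg (fun R => Cl (nm R) x p) (funext₂ fun x _ => propext
    ⟨fun ⟨b, h⟩ => ⟨b, h⟩, fun ⟨b, h⟩ => ⟨⟨b, P_lt h.1⟩, h⟩⟩))

/-- Generic sequences of conditions. -/
structure Gen (m : Mach.{u}) where
  s : ℕ → Cn m
  anti : Antitone s
  par : ∀ n, Par (FF m) (s n)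
  meet : ∀ D : Cn m → Prop, (FF m).Tm D → ∃ n, D (s n) ∨ ∀ q ≤ s n, ¬ D q

instance : Nonempty (Gen m) := by
  have : Nonempty Cx := ⟨.lt⟩
  obtain ⟨e, he⟩ := exists_surjective_nat Cx
  have st : ∀ (n : ℕ) (p : {p : Cn m // Par (FF m) p}), ∃ q : {p : Cn m // Par (FF m) p},
      q.1 ≤ p.1 ∧ ((e n).ev m q.1.1 ∨ ∀ r ≤ q.1, ¬ (e n).ev m r.1) := fun n ⟨p, _⟩ => by
    have := (e n).tm (m := m)
    obtain ⟨q, h₁, h₂⟩ := wit_par (m := m)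
      (Q := fun q => q ≤ p ∧ ((e n).ev m q.1 ∨ ∀ r ≤ q, ¬ (e n).ev m r.1)) (by fun_prop) (by
        by_cases h : ∃ r ≤ p, (e n).ev m r.1
        exacts [let ⟨r, h₁, h₂⟩ := h; ⟨r, h₁, Or.inl h₂⟩,
          ⟨p, le_rfl, Or.inr fun r h₁ h₂ => h ⟨r, h₁, h₂⟩⟩])
    exact ⟨⟨q, h₁⟩, h₂⟩
  choose f h₁ h₂ using st
  obtain ⟨p, hp, -⟩ := wit_par (m := m) (Q := fun _ : Cn m => True) (by fun_prop)
    ⟨Classical.arbitrary _, trivial⟩
  let s : ℕ → {p : Cn m // Par (FF m) p} := fun n => n.rec ⟨p, hp⟩ f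
  refine ⟨⟨fun n => (s n).1, antitone_nat_of_succ_le fun n => h₁ n _, fun n => (s n).2,
    fun D hD => ?_⟩⟩
  obtain ⟨c, hc⟩ := FF_tm (m := m) (R := fun x => ∃ p : Cn m, p.1 = x ∧ D p) (by fun_prop)
  obtain ⟨n, rfl⟩ := he c
  have : ∀ p : Cn m, (e n).ev m p.1 ↔ D p := fun p =>
    hc ▸ ⟨fun ⟨q, e, h⟩ => (Subtype.ext e : q = p) ▸ h, fun h => ⟨p, rfl, h⟩⟩
  exact ⟨n + 1, by simpa only [this] using h₂ n (s n)⟩

end Pool.Agent.MP_9a6faa_lc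

end

section

namespace Pool.Agent.MP_9a6faa_lc

open Set Order FO Filter

universe u

namespace Gen

variable {m : Mach.{u}} (g : Gen m)

instance (n : ℕ) : Par (FF m) (g.s n) := g.par n

/-- The property holds eventually along the generic sequence. -/
def H (X : Cn m → Prop) : Prop := ∀ᶠ n in atTop, X (g.s n)

/-- The value of a name. -/
noncomputable def val (a : Ordinal.{u}) : ZFSet.{u} :=
  ZFSet.range (fun x : {x : Iio a // Par (FF m) x.1 ∧ g.H (Cl a x)} => val x.1)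
termination_by a
decreasing_by exact x.1.2

variable {g} {X Y : Cn m → Prop}

theorem H.and (h : g.H X) (h' : g.H Y) : g.H (fun p => X p ∧ Y p) := Eventually.and h h'

theorem H.mono (h : g.H X) (e : ∀ p, X p → Y p) : g.H Y := Eventually.mono h fun _ => e _

theorem H.exists (h : g.H X) : ∃ n, X (g.s n) := Eventually.exists h

theorem H_of (n : ℕ) (h : ∀ q ≤ g.s n, X q) : g.H X :=
  eventually_atTop.2 ⟨n, fun _ hk => h _ (g.anti hk)⟩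

theorem meet' (hX : (FF m).Tm X) : (∃ n, X (g.s n)) ∨ g.H (fun p => ∀ q ≤ p, ¬ X q) :=
  let ⟨n, h⟩ := g.meet X hX
  h.imp (fun h => ⟨n, h⟩) fun h => H_of n fun _ hq r hr => h r (hr.trans hq)

theorem dense (hX : (FF m).Tm X) (h : g.H (fun p => ∃ r ≤ p, X r)) : ∃ n, X (g.s n) :=
  (meet' hX).resolve_right fun h' => let ⟨_, ⟨r, h₁, h₂⟩, h₃⟩ := (h.and h').exists; h₃ r h₁ h₂

theorem mem_val {a : Ordinal.{u}} {z : ZFSet.{u}} :
    z ∈ g.val a ↔ ∃ x, Par (FF m) x ∧ g.H (Cl a x) ∧ g.val x = z := by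
  rw [val, ZFSet.mem_range]
  exact ⟨fun ⟨x, h⟩ => ⟨x.1, x.2.1, x.2.2, h⟩, fun ⟨x, h₁, h₂, h₃⟩ =>
    ⟨⟨⟨x, h₂.exists.choose_spec.lt⟩, h₁, h₂⟩, h₃⟩⟩

theorem meets_mem {a b : Ordinal.{u}} [Par (FF m) a] [Par (FF m) b] (h : g.H (FMem a b)) :
    ∃ y, Par (FF m) y ∧ g.H (Cl b y) ∧ g.H (FEq a y) := by
  obtain ⟨n, h⟩ := dense (X := fun r => ∃ y, Cl b y r ∧ FEq a y r) (by fun_prop)
    (h.mono fun p hp => hp p le_rfl)
  obtain ⟨y, h₁, h₂, h₃⟩ := wit_par (m := m) (by fun_prop) h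
  exact ⟨y, h₁, H_of n fun _ => h₂.mono, H_of n fun _ => h₃.mono⟩

theorem val_eq_iff {a b : Ordinal.{u}} [ha : Par (FF m) a] [hb : Par (FF m) b] :
    g.val a = g.val b ↔ g.H (FEq a b) := by
  revert ha
  induction a using WellFoundedLT.induction generalizing b with
  | ind a ih =>
    intro ha
    have lt : ∀ {x}, g.H (Cl a x) → x < a := fun h => h.exists.choose_spec.lt
    constructor
    · intro e
      rcases meet' (g := g) (X := fun q => ∃ x, Cl a x q ∧ ∀ r ≤ q, ¬ FMem x b r) (by fun_prop)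
        with ⟨n, h₁⟩ | h₁
      · obtain ⟨x, h₁, h₂, h₃⟩ := wit_par (m := m) (by fun_prop) h₁
        have h₄ : g.H (Cl a x) := H_of n fun _ => h₂.mono
        obtain ⟨y, h₅, h₆, h₇⟩ := mem_val.1 (e ▸ mem_val.2 ⟨x, h₁, h₄, rfl⟩)
        obtain ⟨k, h₈, h₉, h₀⟩ := ((H_of n h₃).and (h₆.and ((ih x (lt h₄)).1 h₇.symm))).exists
        exact absurd (FMem.of_feq h₉ h₀) h₈
      rcases meet' (g := g) (X := fun q => ∃ x, Cl b x q ∧ ∀ r ≤ q, ¬ FMem x a r) (by fun_prop)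
        with ⟨n, h₂⟩ | h₂
      · obtain ⟨x, h₁, h₂, h₃⟩ := wit_par (m := m) (by fun_prop) h₂
        obtain ⟨y, h₅, h₆, h₇⟩ := mem_val.1
          (e.symm ▸ mem_val.2 ⟨x, h₁, H_of n fun _ => h₂.mono, rfl⟩ : g.val x ∈ g.val a)
        obtain ⟨k, h₈, h₉, h₀⟩ := ((H_of n h₃).and (h₆.and ((ih y (lt h₆)).1 h₇))).exists
        exact absurd (FMem.of_feq h₉ h₀.symm) h₈
      push Not at h₁ h₂
      exact (h₁.and h₂).mono fun p h => feq_iff.2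
        ⟨fun x q hq hx => FMem.reg fun r hr => h.1 r (hr.trans hq) x (hx.mono hr),
          fun x q hq hx => FMem.reg fun r hr => h.2 r (hr.trans hq) x (hx.mono hr)⟩
    · intro h
      ext z
      simp only [mem_val]
      constructor
      · rintro ⟨x, h₁, h₂, rfl⟩
        obtain ⟨y, h₃, h₄, h₅⟩ := meets_mem (a := x) (b := b)
          ((h.and h₂).mono fun p h => (feq_iff.1 h.1).1 x p le_rfl h.2)
        exact ⟨y, h₃, h₄, ((ih x (lt h₂)).2 h₅).symm⟩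
      · rintro ⟨x, h₁, h₂, rfl⟩
        obtain ⟨y, h₃, h₄, h₅⟩ := meets_mem (a := x) (b := a)
          ((h.and h₂).mono fun p h => (feq_iff.1 h.1).2 x p le_rfl h.2)
        exact ⟨y, h₃, h₄, (ih y (lt h₄)).2 (h₅.mono fun _ => FEq.symm)⟩

theorem val_mem_iff {a b : Ordinal.{u}} [Par (FF m) a] [Par (FF m) b] :
    g.val a ∈ g.val b ↔ g.H (FMem a b) :=
  ⟨fun h => let ⟨_, _, h₁, h₂⟩ := mem_val.1 h
    (h₁.and (val_eq_iff.1 h₂.symm)).mono fun _ h => FMem.of_feq h.1 h.2,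
    fun h => let ⟨y, h₁, h₂, h₃⟩ := meets_mem h; mem_val.2 ⟨y, h₁, h₂, (val_eq_iff.2 h₃).symm⟩⟩

variable (g)

def InM (x : ZFSet.{u}) : Prop := ∃ a, Par (FF m) a ∧ g.val a = x

abbrev M : Type (u + 1) := Subtype g.InM

abbrev E : g.M → g.M → Prop := ES g.InM

open Classical in
noncomputable def v (a : Ordinal.{u}) : g.M :=
  if h : Par (FF m) a then ⟨g.val a, a, h, rfl⟩ else ⟨g.val 0, 0, inferInstance, rfl⟩

variable {g}

theorem v_val {a : Ordinal.{u}} [h : Par (FF m) a] : (g.v a).1 = g.val a := by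
  rw [v, dif_pos h]

theorem exists_v (x : g.M) : ∃ a, Par (FF m) a ∧ g.v a = x :=
  let ⟨_, a, h, e⟩ := x; ⟨a, h, Subtype.ext (v_val.trans e)⟩

theorem exists_vl (l : List g.M) : ∃ k : OL.{u}, Par (FF m) k ∧ k.map g.v = l := by
  induction l with
  | nil => exact ⟨[], inferInstance, rfl⟩
  | cons x l ih =>
    obtain ⟨k, _, rfl⟩ := ih
    obtain ⟨a, _, rfl⟩ := exists_v x
    exact ⟨a :: k, ⟨by fun_prop⟩, rfl⟩

instance : Countable g.M :=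
  Function.Surjective.countable (f := fun a : {a : Ordinal.{u} // Par (FF m) a} => g.v a)
    fun x => let ⟨a, h, e⟩ := exists_v x; ⟨⟨a, h⟩, e⟩

theorem E_v {x : g.M} {a : Ordinal.{u}} [Par (FF m) a] :
    g.E x (g.v a) ↔ ∃ y, Par (FF m) y ∧ g.H (Cl a y) ∧ g.v y = x := by
  rw [E, ES, v_val, mem_val]
  exact exists_congr fun y => and_congr_right fun _ => and_congr_right fun _ => by
    rw [← v_val, Subtype.ext_iff]

theorem v_eq_iff {a b : Ordinal.{u}} [Par (FF m) a] [Par (FF m) b] :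
    g.v a = g.v b ↔ g.H (FEq a b) := by
  rw [← val_eq_iff, ← v_val, ← v_val, Subtype.ext_iff]

theorem v_mem_iff {a b : Ordinal.{u}} [Par (FF m) a] [Par (FF m) b] :
    g.E (g.v a) (g.v b) ↔ g.H (FMem a b) := by
  rw [← val_mem_iff, ← v_val, ← v_val, E, ES]

instance {l : OL.{u}} {a : Ordinal.{u}} [Par (FF m) l] [Par (FF m) a] : Par (FF m) (a :: l) :=
  ⟨by fun_prop⟩

instance {l : OL.{u}} {a : Ordinal.{u}} {i : ℕ} [Par (FF m) l] [Par (FF m) a] :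
    Par (FF m) (l.getD i a) := ⟨by fun_prop⟩

/-- The truth lemma. -/
theorem truth (φ : Fml) {l : OL.{u}} [Par (FF m) l] :
    Sat g.E φ (env (g.v 0) (l.map g.v)) ↔ g.H (Forces φ l) := by
  induction φ generalizing l with
  | mem i j => simp only [Sat, env, List.getD_map]; exact v_mem_iff
  | eq i j => simp only [Sat, env, List.getD_map]; exact v_eq_iff
  | bot => exact ⟨False.elim, fun h => h.exists.choose_spec⟩
  | imp φ ψ ih₁ ih₂ =>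
    simp only [Sat, ih₁, ih₂]
    refine ⟨fun h => ?_, fun h h' => (h.and h').mono fun p h => h.1 p le_rfl h.2⟩
    rcases meet' (g := g) (X := Forces φ l) (by fun_prop) with ⟨n, h'⟩ | h'
    · exact (h (H_of n fun _ => h'.mono)).mono fun p hp q hq _ => hp.mono hq
    · exact h'.mono fun p hp q hq h => absurd h (hp q hq)
  | all φ ih =>
    refine ⟨fun h => ?_, fun h x => ?_⟩
    · rcases meet' (g := g) (X := fun p => ∃ a, ∀ q ≤ p, ¬ Forces φ (a :: l) q) (by fun_prop)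
        with ⟨n, h'⟩ | h'
      · obtain ⟨a, _, h'⟩ := wit_par (m := m) (by fun_prop) h'
        obtain ⟨k, h₁, h₂⟩ := ((H_of n h').and ((ih (l := a :: l)).1
          (env_cons _ _ _ ▸ h (g.v a)))).exists
        exact absurd h₂ h₁
      · push Not at h'
        exact h'.mono fun p hp a => Forces.reg fun q hq => hp q hq a
    · obtain ⟨a, _, rfl⟩ := exists_v x
      exact env_cons _ _ _ ▸ (ih (l := a :: l)).2 (h.mono fun p hp => hp a)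

theorem exists_set {R : Ordinal.{u} → Cn m → Prop}
    (hR : (FF m).Tm (fun z : Ordinal.{u} × Cn m => R z.1 z.2)) (b : Ordinal.{u})
    (hb : ∀ x p, R x p → x < b) (mono : ∀ x p q, R x p → q ≤ p → R x q) :
    Par (FF m) (nm R) ∧
      ∀ x, g.E x (g.v (nm R)) ↔ ∃ y, Par (FF m) y ∧ g.H (R y) ∧ g.v y = x := by
  have : Par (FF m) (nm R) := ⟨tm_nm (R := fun _ => R) (by fun_prop)⟩
  have h : (SS m).Tm (fun z : Ordinal.{u} × Cn m => R z.1 z.2) :=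
    Tm.congrP ((FF_SS (R := fun c => ∃ p : Cn m, p.1 = snd c ∧ R (fst c) p) (by fun_prop)).comp
      (f := fun z : Ordinal.{u} × Cn m => G z.1 z.2.1) (by fun_prop)) fun z => by
        simp only [fst_G, snd_G]
        exact ⟨fun ⟨q, e, h⟩ => (Subtype.ext e : q = z.2) ▸ h, fun h => ⟨_, rfl, h⟩⟩
  refine ⟨this, fun x => E_v.trans (exists_congr fun y => ?_)⟩
  rw [show Cl (nm R) y = R y from funext fun _ => propext (Cl_nm h b hb mono)]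

theorem trP (g : Gen m) : TrP g.InM where
  tr := by
    rintro _ _ ⟨a, _, rfl⟩ h
    exact let ⟨x, h, _, e⟩ := mem_val.1 h; ⟨x, h, e⟩
  up := by
    rintro _ _ ⟨a, _, rfl⟩ ⟨b, _, rfl⟩
    have h := fun {x p} => Cl_nm (m := m) (x := x) (p := p) (R := fun x _ => x = a ∨ x = b)
      (by fun_prop) (max a b + 1)
      (by rintro _ - (rfl | rfl) <;> simp) fun _ _ _ h _ => h
    refine ⟨nm fun x (_ : Cn m) => x = a ∨ x = b, ⟨by fun_prop⟩, ZFSet.ext fun z => ?_⟩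
    simp only [mem_val, ZFSet.mem_pair]
    exact ⟨fun ⟨x, _, h₁, e⟩ => (h.1 h₁.exists.choose_spec).imp
      (fun h : x = a => h ▸ e.symm) fun h : x = b => h ▸ e.symm, fun e => e.elim
        (fun e => ⟨a, ‹_›, H_of 0 fun _ _ => h.2 (Or.inl rfl), e.symm⟩)
        fun e => ⟨b, ‹_›, H_of 0 fun _ _ => h.2 (Or.inr rfl), e.symm⟩⟩

theorem E_lt {x : g.M} {a : Ordinal.{u}} [Par (FF m) a] (h : g.E x (g.v a)) :
    ∃ y < a, Par (FF m) y ∧ g.v y = x :=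
  let ⟨y, h₁, h₂, h₃⟩ := E_v.1 h; ⟨y, h₂.exists.choose_spec.lt, h₁, h₃⟩

theorem sep_fml (φ : Fml) (l : List g.M) (b : Ordinal.{u}) [Par (FF m) b] :
    ∃ c, ∀ x, g.E x c ↔ (∃ y < b, Par (FF m) y ∧ g.v y = x) ∧
      Sat g.E φ (cons x (env (g.v 0) l)) := by
  obtain ⟨l, hl, rfl⟩ := exists_vl l
  refine ⟨_, fun x => ((exists_set (R := fun y p => y < b ∧ Forces φ (y :: l) p) (by fun_prop) b
    (fun _ _ h => h.1) fun _ _ _ h e => ⟨h.1, h.2.mono e⟩).2 x).trans ⟨?_, ?_⟩⟩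
  · rintro ⟨y, h₁, h₂, rfl⟩
    exact ⟨⟨y, h₂.exists.choose_spec.1, h₁, rfl⟩,
      env_cons _ _ _ ▸ (truth φ (l := y :: l)).2 (h₂.mono fun _ h => h.2)⟩
  · rintro ⟨⟨y, h₁, h₂, rfl⟩, h⟩
    exact ⟨y, h₂, ((truth φ (l := y :: l)).1 (env_cons _ _ _ ▸ h)).mono fun _ h => ⟨h₁, h⟩, rfl⟩

theorem sep_udef {Ψ : ∀ (M : Type (u + 1)), (M → M → Prop) → (ℕ → M) → Prop} (h : UDef Ψ)
    (l : List g.M) (b : Ordinal.{u}) [Par (FF m) b]
    (hb : ∀ x, Ψ g.M g.E (cons x (env (g.v 0) l)) → ∃ y < b, Par (FF m) y ∧ g.v y = x) :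
    ∃ c, ∀ x, g.E x c ↔ Ψ g.M g.E (cons x (env (g.v 0) l)) := by
  obtain ⟨φ, h⟩ := h
  obtain ⟨c, hc⟩ := sep_fml φ l b
  exact ⟨c, fun x => (hc x).trans (by rw [h]; exact and_iff_right_of_imp (hb x))⟩

theorem union (a : g.M) : ∃ c, ∀ x, g.E x c ↔ ∃ y, g.E x y ∧ g.E y a := by
  obtain ⟨a, _, rfl⟩ := exists_v a
  refine sep_udef (Ψ := fun _ E w => ∃ y, E (w 0) y ∧ E y (w 1))
    (UDef.ex ((UDef.mem _ _).and (UDef.mem _ _))) [g.v a] a fun x ⟨y, h₁, h₂⟩ => ?_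
  obtain ⟨y, h₃, _, rfl⟩ := E_lt h₂
  exact let ⟨z, h₄, h₅⟩ := E_lt h₁; ⟨z, h₄.trans h₃, h₅⟩

theorem power (a : g.M) : ∃ c, ∀ x, g.E x c ↔ ∀ y, g.E y x → g.E y a := by
  obtain ⟨a, _, rfl⟩ := exists_v a
  obtain ⟨b, _, hb⟩ := wit_par (m := m)
    (Q := fun b => ∀ c, nm (fun x (p : Cn m) => x < a ∧ FMem x c p) < b) (by fun_prop)
    (let ⟨b, hb⟩ := nm_bound m a; ⟨b, fun _ => hb _ fun _ _ h => h.1⟩)
  refine sep_udef (Ψ := fun _ E w => ∀ y, E y (w 0) → E y (w 1))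
    (UDef.all ((UDef.mem _ _).imp (UDef.mem _ _))) [g.v a] b fun x hx => ?_
  obtain ⟨c, _, rfl⟩ := exists_v x
  obtain ⟨h₁, h₂⟩ := exists_set (g := g) (R := fun x p => x < a ∧ FMem x c p) (by fun_prop) a
    (fun _ _ h => h.1) fun _ _ _ h e => ⟨h.1, h.2.mono e⟩
  refine ⟨_, hb c, h₁, g.trP.ext fun y => (h₂ y).trans ⟨?_, fun hy => ?_⟩⟩
  · rintro ⟨y, _, h, rfl⟩
    exact v_mem_iff.2 (h.mono fun _ h => h.2)
  · obtain ⟨y, h₃, _, rfl⟩ := E_lt (hx y hy)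
    exact ⟨y, ‹_›, (v_mem_iff.1 hy).mono fun _ h => ⟨h₃, h⟩, rfl⟩

theorem repl (φ : Fml) (l : List g.M) (a : g.M)
    (ha : ∀ x, g.E x a → ∃! y, Sat g.E φ (cons y (cons x (env (g.v 0) l)))) :
    ∃ b, ∀ y, g.E y b ↔ ∃ x, g.E x a ∧ Sat g.E φ (cons y (cons x (env (g.v 0) l))) := by
  have hU : UDef.{u + 1} (fun _ E w => ∃ x, E x (w 1) ∧
      Sat E φ (cons (w 0) (cons x (fun k => w (k + 2))))) := by
    refine UDef.ex ((UDef.mem _ _).and ((UDef.sat φ (cons 1 (cons 0 (fun k => k + 3)))).congr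
      fun M E w => iff_of_eq (congrArg _ (funext fun k => ?_))))
    rcases k with _ | _ | k <;> rfl
  obtain ⟨a, _, rfl⟩ := exists_v a
  obtain ⟨l, hl, rfl⟩ := exists_vl l
  obtain ⟨b, _, hb⟩ := wit_par (m := m) (Q := fun b => ∀ x < a, ∀ p : Cn m,
      (∃ y, Forces φ (y :: x :: l) p) → ∃ y < b, Forces φ (y :: x :: l) p) (by fun_prop) (by
    obtain ⟨b, hb⟩ := bound_wit (G a (cb m (lam m)))
      (fun z y => ∃ p : Cn m, p.1 = snd z ∧ Forces φ (y :: fst z :: l) p)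
    refine ⟨b, fun x hx p ⟨y, hy⟩ => ?_⟩
    obtain ⟨y, h₁, q, h₂, h₃⟩ := hb _ (G_lt_of_lt hx p.2.1) ⟨y, p, by simp, by simpa using hy⟩
    exact ⟨y, h₁, by simpa [Subtype.ext (h₂.trans (snd_G _ _))] using h₃⟩)
  refine sep_udef hU (g.v a :: l.map g.v) b fun y ⟨x, h₁, h₂⟩ => ?_
  obtain ⟨x, h₃, _, rfl⟩ := E_lt h₁
  obtain ⟨y, _, rfl⟩ := exists_v y
  have e : ∀ (y) [Par (FF m) y], Sat g.E φ (cons (g.v y) (cons (g.v x) (env (g.v 0) (l.map g.v))))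
      ↔ g.H (Forces φ (y :: x :: l)) := fun y _ => by
    rw [← truth, List.map_cons, List.map_cons, env_cons, env_cons]
  obtain ⟨n, h₄⟩ := ((e y).1 h₂).exists
  obtain ⟨z, _, h₅, h₆⟩ := wit_par (m := m) (by fun_prop) (hb x h₃ _ ⟨y, h₄⟩)
  exact ⟨z, h₅, ‹_›, (ha _ h₁).unique ((e z).2 (H_of n fun _ => h₆.mono)) h₂⟩

theorem choice (a : g.M) (hne : ∀ x, g.E x a → ∃ y, g.E y x)
    (hdj : ∀ x y, g.E x a → g.E y a → (∃ z, g.E z x ∧ g.E z y) → x = y) :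
    ∃ c, ∀ x, g.E x a → ∃! y, g.E y x ∧ g.E y c := by
  obtain ⟨a, _, rfl⟩ := exists_v a
  obtain ⟨-, hc⟩ := exists_set (g := g) (R := fun y p => y < a ∧ ∃ x, FMem x a p ∧ FMem y x p ∧
    ∀ z < y, ∀ q ≤ p, ¬ FMem z x q) (by fun_prop) a (fun _ _ h => h.1)
    fun _ _ _ ⟨h₁, x, h₂, h₃, h₄⟩ e =>
      ⟨h₁, x, h₂.mono e, h₃.mono e, fun z hz r hr => h₄ z hz r (hr.trans e)⟩
  generalize g.v (nm _) = c at hc
  refine ⟨c, fun x hx => ?_⟩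
  obtain ⟨x, h₁, _, rfl⟩ := E_lt hx
  obtain ⟨y, hy⟩ := hne _ hx
  obtain ⟨y, h₂, _, rfl⟩ := E_lt hy
  obtain ⟨h₃, _, h₄⟩ := mu_lt (S := fun y => Par (FF m) y ∧ g.E (g.v y) (g.v x))
    ⟨y, h₂.trans h₁, ‹_›, hy⟩
  refine ⟨_, ⟨h₄, (hc _).2 ⟨_, ‹_›, ?_, rfl⟩⟩, fun z ⟨h₅, h₆⟩ => ?_⟩
  · rcases meet' (g := g) (X := fun q => ∃ z < mu fun y => Par (FF m) y ∧ g.E (g.v y) (g.v x),
      FMem z x q) (by fun_prop) with ⟨n, h⟩ | h
    · obtain ⟨z, _, h₅, h₆⟩ := wit_par (m := m) (by fun_prop) h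
      exact absurd ⟨‹_›, v_mem_iff.2 (H_of n fun _ => h₆.mono)⟩ (not_of_lt_mu h₅)
    · exact ((v_mem_iff.1 hx).and ((v_mem_iff.1 h₄).and h)).mono fun p h =>
        ⟨h₃, x, h.1, h.2.1, fun z hz q hq e => h.2.2 q hq ⟨z, hz, e⟩⟩
  · obtain ⟨z, _, h₇, rfl⟩ := (hc _).1 h₆
    obtain ⟨n, -, h₇⟩ := h₇.exists
    obtain ⟨w, _, h₇, h₈, h₉⟩ := wit_par (m := m) (by fun_prop) h₇
    have e := hdj _ _ hx (v_mem_iff.2 (H_of n fun _ => h₇.mono))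
      ⟨_, h₅, v_mem_iff.2 (H_of n fun _ => h₈.mono)⟩
    rcases (mu_le (R := fun y => Par (FF m) y ∧ g.E (g.v y) (g.v x)) ⟨‹_›, h₅⟩).eq_or_lt with h | h
    · rw [h]
    · obtain ⟨k, k₁, k₂⟩ := ((H_of n (h₉ _ h)).and (v_mem_iff.1
        ((congrArg (g.E _) e).mp h₄))).exists
      exact absurd k₂ k₁

end Gen

end Pool.Agent.MP_9a6faa_lc

end

section

namespace Pool.Agent.MP_9a6faa_lc

open Set Order FO Filter Ordinal

universe u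

variable {m : Mach.{u}}

section

variable {a b : Ordinal.{u}} [Par (FF m) a] [Par (FF m) b]

instance : Par (FF m) (chk m a) := ⟨by fun_prop⟩

instance : Par (FF m) (on m a) := ⟨by fun_prop⟩

instance : Par (FF m) (lv m a) := ⟨by fun_prop⟩

instance : Par (FF m) (a + 1) := ⟨by fun_prop⟩

instance : Par (FF m) (pn m a b) := ⟨by fun_prop⟩

instance : Par (FF m) (ap m a b) := ⟨by fun_prop⟩

instance (φ : QF) : Par (FF m) φ := by
  have : Par (FF m) φ.enc.{u} := by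
    induction φ <;> exact ⟨by unfold QF.enc; fun_prop⟩
  exact ⟨tm_of_rel (Q := fun _ ψ => QF.enc.{u} ψ = φ.enc) (by fun_prop) fun _ _ =>
    QF.enc_inj.eq_iff⟩

instance {φ : QF} {l : OL.{u}} [Par (FF m) l] : Par (FF m) (dc m a φ l) := ⟨by fun_prop⟩

end

theorem FF_SS₂ {R : Ordinal.{u} → Ordinal.{u} → Prop}
    (h : (FF m).Tm (fun z : Ordinal.{u} × Ordinal.{u} => R z.1 z.2)) :
    (SS m).Tm (fun z : Ordinal.{u} × Ordinal.{u} => R z.1 z.2) :=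
  Tm.congrP ((FF_SS (R := fun c => R (fst c) (snd c)) (by fun_prop)).comp
    (f := fun z : Ordinal.{u} × Ordinal.{u} => G z.1 z.2) (by fun_prop)) fun z => by simp

theorem eq0_iff {a b : Ordinal.{u}} : Eq0 m a b ↔
    (∀ x, P m a x → ∃ y, P m b y ∧ Eq0 m x y) ∧ ∀ y, P m b y → ∃ x, P m a x ∧ Eq0 m x y := by
  constructor
  · intro h
    refine ⟨fun x hx => ?_, fun y hy => ?_⟩
    · obtain ⟨y, h₁, h₂⟩ := mem_val0.1 (h ▸ mem_val0.2 ⟨x, hx, rfl⟩ : _ ∈ val0 m b)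
      exact ⟨y, h₁, h₂.symm⟩
    · exact mem_val0.1 (h ▸ mem_val0.2 ⟨y, hy, rfl⟩ : _ ∈ val0 m a)
  · rintro ⟨h₁, h₂⟩
    refine ZFSet.ext fun w => ?_
    simp only [mem_val0]
    exact ⟨fun ⟨x, hx, e⟩ => let ⟨y, h₃, h₄⟩ := h₁ x hx; ⟨y, h₃, h₄.symm.trans e⟩,
      fun ⟨y, hy, e⟩ => let ⟨x, h₃, h₄⟩ := h₂ y hy; ⟨x, h₃, h₄.trans e⟩⟩

namespace Gen

variable (g : Gen m)

/-- The image of a ground model set. -/
noncomputable def cv (c : Ordinal.{u}) : g.M := g.v (chk m c)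

variable {g}

theorem E_cv {c : Ordinal.{u}} [Par (FF m) c] {x : g.M} :
    g.E x (g.cv c) ↔ ∃ z, Par (FF m) z ∧ P m c z ∧ g.cv z = x := by
  refine E_v.trans ⟨fun ⟨y, _, h, e⟩ => ?_, fun ⟨z, _, h, e⟩ =>
    ⟨_, inferInstance, H_of 0 fun _ _ => Cl_chk.2 ⟨z, h, rfl⟩, e⟩⟩
  obtain ⟨z, _, h₁, rfl⟩ := wit_par (m := m) (by fun_prop) (Cl_chk.1 h.exists.choose_spec)
  exact ⟨z, ‹_›, h₁, e⟩

theorem cv_eq_iff {a b : Ordinal.{u}} [ha : Par (FF m) a] [Par (FF m) b] :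
    g.cv a = g.cv b ↔ Eq0 m a b := by
  revert ha
  induction a using WellFoundedLT.induction generalizing b with
  | ind a ih =>
    intro ha
    rw [eq0_iff]
    constructor
    · refine fun e => ⟨all_par (m := m) (by fun_prop) fun x _ hx => ?_,
        all_par (m := m) (by fun_prop) fun y _ hy => ?_⟩
      · obtain ⟨y, _, h₁, h₂⟩ := E_cv.1 (e ▸ E_cv.2 ⟨x, ‹_›, hx, rfl⟩)
        exact ⟨y, h₁, (ih x (P_lt hx)).1 h₂.symm⟩
      · obtain ⟨x, _, h₁, h₂⟩ := (E_cv (c := a)).1 (e ▸ E_cv.2 ⟨y, ‹_›, hy, rfl⟩)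
        exact ⟨x, h₁, (ih x (P_lt h₁)).1 h₂⟩
    · refine fun ⟨h₁, h₂⟩ => g.trP.ext fun z => E_cv.trans (Iff.trans ⟨?_, ?_⟩ E_cv.symm)
      · rintro ⟨x, _, hx, rfl⟩
        obtain ⟨y, _, h₃, h₄⟩ := wit_par (m := m) (by fun_prop) (h₁ x hx)
        exact ⟨y, ‹_›, h₃, ((ih x (P_lt hx)).2 h₄).symm⟩
      · rintro ⟨y, _, hy, rfl⟩
        obtain ⟨x, _, h₃, h₄⟩ := wit_par (m := m) (by fun_prop) (h₂ y hy)
        exact ⟨x, ‹_›, h₃, (ih x (P_lt h₃)).2 h₄⟩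

theorem cv_mem_iff {a b : Ordinal.{u}} [Par (FF m) a] [Par (FF m) b] :
    g.E (g.cv a) (g.cv b) ↔ Mem0 m a b := by
  refine E_cv.trans ⟨fun ⟨z, _, h, e⟩ => mem_val0.2 ⟨z, h, cv_eq_iff.1 e⟩, fun h => ?_⟩
  obtain ⟨z, _, h₁, h₂⟩ := wit_par (m := m) (Q := fun z => P m b z ∧ Eq0 m z a) (by fun_prop)
    (mem_val0.1 h)
  exact ⟨z, ‹_›, h₁, cv_eq_iff.2 h₂⟩

theorem E_on {a : Ordinal.{u}} [Par (FF m) a] {x : g.M} :
    g.E x (g.cv (on m a)) ↔ ∃ b < a, Par (FF m) b ∧ g.cv (on m b) = x := by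
  refine E_cv.trans ⟨fun ⟨y, _, h, e⟩ => ?_, fun ⟨z, h, _, e⟩ =>
    ⟨_, inferInstance, P_on.2 ⟨z, h, rfl⟩, e⟩⟩
  obtain ⟨z, _, h₁, rfl⟩ := wit_par (m := m) (by fun_prop) (P_on.1 h)
  exact ⟨z, h₁, ‹_›, e⟩

theorem on_lt {a b : Ordinal.{u}} [Par (FF m) a] [Par (FF m) b] :
    g.E (g.cv (on m a)) (g.cv (on m b)) ↔ a < b := by
  simp [cv_mem_iff, Mem0]

theorem on_inj {a b : Ordinal.{u}} [Par (FF m) a] [Par (FF m) b] :
    g.cv (on m a) = g.cv (on m b) ↔ a = b := by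
  simp [cv_eq_iff, Eq0, toZFSet_injective.eq_iff]

theorem cv_on (a : Ordinal.{u}) [ha : Par (FF m) a] :
    (g.cv (on m a)).1 = (col (fun x => Par (FF m) x) a).toZFSet := by
  revert ha
  induction a using WellFoundedLT.induction with
  | ind a ih =>
    intro ha
    ext x
    rw [mem_toZFSet_iff]
    constructor
    · intro h
      obtain ⟨b, h₁, _, e⟩ := (E_on (x := ⟨x, g.trP.tr (g.cv _).2 h⟩)).1 h
      exact ⟨_, col_lt ‹_› h₁, (ih b h₁).symm.trans (congrArg Subtype.val e)⟩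
    · rintro ⟨c, h, rfl⟩
      obtain ⟨b, h₁, _, rfl⟩ := col_surj h
      exact ih b h₁ ▸ on_lt.2 h₁

theorem rank_val (a : Ordinal.{u}) : (g.val a).rank ≤ col (fun x => Par (FF m) x) a := by
  induction a using WellFoundedLT.induction with
  | ind a ih =>
    refine ZFSet.rank_le_iff.2 fun y hy => ?_
    obtain ⟨x, h₁, h₂, rfl⟩ := mem_val.1 hy
    have := h₂.exists.choose_spec.lt
    exact (ih x this).trans_lt (col_lt h₁ this)

theorem isOrd_iff {x : g.M} : IsOrd g.E x ↔ ∃ a, Par (FF m) a ∧ g.cv (on m a) = x := by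
  refine g.trP.isOrd_iff.trans ⟨fun ⟨c, e⟩ => ?_, fun ⟨a, _, e⟩ => ⟨_, e ▸ (cv_on a).symm⟩⟩
  obtain ⟨_, a, h, rfl⟩ := x
  obtain ⟨b, -, _, rfl⟩ := col_surj (T := fun x => Par (FF m) x) (x := c)
    (lt_of_le_of_lt (by simpa [← (show _ = g.val a from e)] using rank_val (g := g) a)
      (col_lt h (lt_add_one a)))
  exact ⟨b, ‹_›, Subtype.ext ((cv_on b).trans e)⟩

theorem cv_omega : (g.cv (on m ω)).1 = toZFSet ω := by
  rw [cv_on, col_eq_self fun z hz => by obtain ⟨n, rfl⟩ := lt_omega0.1 hz; infer_instance]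

theorem isOmega_iff {x : g.M} : IsOmega g.E x ↔ x = g.cv (on m ω) := by
  rw [g.trP.isOmega_iff, ← cv_omega (g := g), Subtype.ext_iff]

theorem on_succ {a : Ordinal.{u}} [Par (FF m) a] {x : g.M} :
    g.E x (g.cv (on m (a + 1))) ↔ g.E x (g.cv (on m a)) ∨ x = g.cv (on m a) := by
  simp only [E_on, lt_add_one_iff, le_iff_lt_or_eq, or_and_right, exists_or, exists_eq_left]
  exact or_congr_right ⟨fun h => h.2.symm, fun h => ⟨‹_›, h.symm⟩⟩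

theorem isZFC (g : Gen m) : IsZFC g.E where
  ext := fun _ _ => g.trP.ext
  found := fun a h =>
    let ⟨x, hx, e⟩ := (InvImage.wf Subtype.val ZFSet.mem_wf).has_min {x | g.E x a} h
    ⟨x, hx, fun ⟨y, h₁, h₂⟩ => e y h₂ h₁⟩
  pair := fun a b => ⟨⟨_, g.trP.up a.2 b.2⟩, g.trP.up_iff.2 rfl⟩
  union := union
  power := power
  inf := ⟨g.cv (on m ω), ⟨_, on_lt.2 omega0_pos, fun y hy => by simpa using E_on.1 hy⟩,
    fun x hx => by
      obtain ⟨b, h, _, rfl⟩ := E_on.1 hx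
      exact ⟨_, on_lt.2 (isSuccLimit_omega0.add_one_lt h), fun _ => on_succ⟩⟩
  sep := fun S hS a => by
    obtain ⟨φ, l, h⟩ := exists_fml_of_definable₁ g.E S hS
    obtain ⟨a, _, rfl⟩ := exists_v a
    obtain ⟨c, hc⟩ := sep_udef (Ψ := fun _ E w => E (w 0) (w 1) ∧
      Sat E φ (fun k => w (cons 0 (fun k => k + 2) k))) ((UDef.mem _ _).and (UDef.sat φ _))
      (g.v a :: l) a fun x hx => E_lt hx.1
    refine ⟨c, fun x => (hc x).trans (and_congr_right fun _ => Iff.trans ?_ (h x (g.v 0)))⟩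
    exact iff_of_eq (congrArg _ (funext fun k => by cases k <;> rfl))
  repl := fun R hR a ha => by
    obtain ⟨φ, l, h⟩ := exists_fml_of_definable₂ g.E R hR
    simpa only [h] using repl φ l a (by simpa only [h] using ha)
  choice := choice

theorem cv_pn {a b : Ordinal.{u}} [Par (FF m) a] [Par (FF m) b] :
    (g.cv (pn m a b)).1 = ZFSet.pair (g.cv a).1 (g.cv b).1 := by
  have h : ∀ (a b : Ordinal.{u}) [Par (FF m) a] [Par (FF m) b], Par (FF m) (up m a b) ∧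
      (g.cv (up m a b)).1 = {(g.cv a).1, (g.cv b).1} := fun a b _ _ => by
    have : Par (FF m) (up m a b) := ⟨by unfold up; fun_prop⟩
    refine ⟨this, g.trP.up_iff.1 fun x => E_cv.trans ?_⟩
    simp only [P_up]
    exact ⟨by rintro ⟨_, _, rfl | rfl, rfl⟩ <;> simp, fun e => e.elim
      (fun e => ⟨a, ‹_›, Or.inl rfl, e.symm⟩) fun e => ⟨b, ‹_›, Or.inr rfl, e.symm⟩⟩
  have := (h a a).1
  have := (h a b).1
  simp [pn, h, ZFSet.pair]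

theorem app_iff {f a b : Ordinal.{u}} [Par (FF m) f] [Par (FF m) a] [Par (FF m) b] :
    App g.E (g.v f) (g.cv a) (g.cv b) ↔ g.H (FMem (chk m (pn m a b)) f) := by
  rw [g.trP.app_iff, ← cv_pn, ← v_mem_iff]
  rfl

end Gen

theorem TrP.fun_mem {A : ZFSet.{u} → Prop} (h : TrP A) {f X Y a b : Subtype A}
    (hf : IsFun (ES A) f X Y) (e : App (ES A) f a b) : ES A a X ∧ ES A b Y := by
  obtain ⟨p, h₂, h₃⟩ := e
  obtain ⟨j, B, h₄, h₅, h₆⟩ := hf.1 p h₂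
  have := ZFSet.pair_inj.1 ((h.isPair_iff.1 h₃).symm.trans (h.isPair_iff.1 h₆))
  exact ⟨(this.1 ▸ h₄ : a.1 ∈ _), (this.2 ▸ h₅ : b.1 ∈ _)⟩

theorem dt_cover {a : Ordinal.{u}} (h : Dt m a) : ∃ c, (∀ x < lam m, ap m c x < a) ∧
    ∀ i < a, ∃ x < th m, ∃ y < sa m x, ∀ z, y ≤ z → z < sa m x → i ≤ ap m c (G x z) := by
  obtain ⟨d, hd⟩ := cf_spec m a
  rcases h.2 with h' | ⟨x, hx, h'⟩
  · obtain ⟨c, hc⟩ := code_fun (m := m)
      (f := fun x => if ap m d (fst x) < a then ap m d (fst x) else 0) (by fun_prop) (lam m)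
    refine ⟨c, fun x hx => ?_, fun i hi => ?_⟩
    · rw [hc x hx]
      split_ifs with e
      exacts [e, h.1.1]
    · obtain ⟨j, h₁, h₂, h₃⟩ := hd i hi
      exact ⟨j, h₁.trans_le h', 0, (reg_sa j).lim.1, fun z _ hz => by
        simpa [hc _ (letter_lt (h₁.trans_le h') hz), h₃] using h₂⟩
  · obtain ⟨c, hc⟩ := code_fun (m := m) (f := fun x =>
      mu fun b => b < a ∧ ∀ j < snd x + 1, ap m d j < a → ap m d j < b) (by fun_prop) (lam m)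
    refine ⟨c, fun x hx => ?_, fun i hi => ?_⟩
    · rw [hc x hx]
      by_cases e : ∃ b < a, ∀ j < snd x + 1, ap m d j < a → ap m d j < b
      exacts [(mu_spec e).1, (mu_neg e).trans_lt h.1.1]
    · obtain ⟨j, h₁, h₂, h₃⟩ := hd i hi
      refine ⟨x, hx, j, h' ▸ h₁, fun z h₄ hz => ?_⟩
      rw [hc _ (letter_lt hx hz), snd_G]
      exact h₂.trans ((mu_spec (bdd_of_lt_cf (m := m) (f := ap m d) (by fun_prop)
        (h' ▸ (reg_sa x).lim.2 z hz))).2 j (lt_add_one_iff.2 h₄) h₃).le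

theorem exists_cofseq {R : Ordinal.{u} → Ordinal.{u} → Prop}
    (hR : (SS m).Tm (fun z : Ordinal.{u} × Ordinal.{u} => R z.1 z.2)) (A : Ordinal.{u})
    (irr : ∀ x, ¬ R x x) (tr : ∀ x y z, R x y → R y z → R x z)
    (tri : ∀ x y z, Fld R z → R x y → R x z ∨ R z y) (nm : ∀ x, Fld R x → ∃ y < A, R x y)
    (ne : ∃ x, Fld R x) : ∃ a c, Lim a ∧ (∀ i j, i < j → j < a → R (ap m c i) (ap m c j)) ∧
      ∀ x, Fld R x → ∃ i < a, R x (ap m c i) := by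
  obtain ⟨T, hT, eT⟩ : ∃ T : Ordinal.{u} → Prop, (SS m).Tm T ∧ ∀ y, T y ↔
      Fld R y ∧ ∀ z < y, Fld R z → R z y := ⟨_, by unfold Fld; fun_prop, fun _ => Iff.rfl⟩
  obtain ⟨c, hc⟩ := code_fun (m := m) (f := fun i => mu fun y => T y ∧ col T y = i)
    (by fun_prop) (col T A)
  have e : ∀ i < col T A, T (ap m c i) ∧ col T (ap m c i) = i := fun i hi => by
    obtain ⟨y, -, h⟩ := col_surj hi
    exact hc i hi ▸ mu_spec (R := fun y => T y ∧ col T y = i) ⟨y, h⟩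
  have cof : ∀ x, Fld R x → ∃ i < col T A, R x (ap m c i) := fun x hx => by
    obtain ⟨h₁, h₂⟩ := mu_lt (nm x hx)
    have h₃ : T (mu (R x)) := (eT _).2 ⟨⟨x, Or.inr h₂⟩, fun z hz h =>
      (tri x _ z h h₂).resolve_left (not_of_lt_mu hz)⟩
    have := e _ (col_lt h₃ h₁)
    exact ⟨_, col_lt h₃ h₁, (col_inj this.1 h₃ this.2).symm ▸ h₂⟩
  have inc : ∀ i j, i < j → j < col T A → R (ap m c i) (ap m c j) := fun i j h h' =>
    ((eT _).1 (e j h').1).2 _ ((col_lt_iff (e i (h.trans h')).1).1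
      (by rwa [(e i (h.trans h')).2, (e j h').2])) ((eT _).1 (e i (h.trans h')).1).1
  refine ⟨_, c, ⟨?_, fun i hi => ?_⟩, inc, cof⟩
  · obtain ⟨x, hx⟩ := ne
    exact zero_le.trans_lt (cof x hx).choose_spec.1
  · obtain ⟨j, h₁, h₂⟩ := cof _ ((eT _).1 (e i hi).1).1
    refine (add_one_le_iff.2 (not_le.1 fun h => ?_)).trans_lt h₁
    rcases h.eq_or_lt with rfl | h
    exacts [irr _ h₂, irr _ (tr _ _ _ h₂ (inc _ _ h hi))]

end Pool.Agent.MP_9a6faa_lc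

end

section

namespace Pool.Agent.MP_9a6faa_lc

open Set Order FO Filter Ordinal

universe u v

variable {m : Mach.{u}}

@[fun_prop] theorem FO.tm_Stem {I : Type} {V : Type v} {𝒜 : FO.{u, v} I V} {Γ : Type*} [Cd 𝒜 Γ]
    [Cd 𝒜 Mach.{u}] [HasQ 𝒜] [HasSep 𝒜] [Par 𝒜 m] {p : Γ → Cn m} {t : Γ → OL.{u}} (hp : 𝒜.Tm p)
    (ht : 𝒜.Tm t) : 𝒜.Tm (fun z => (p z).Stem (t z)) := by
  unfold Cn.Stem; fun_prop

namespace Gen

variable {g : Gen m}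

/-- The generic branch yields a countable cofinal sequence. -/
theorem exists_seq {a c : Ordinal.{u}} [Par (FF m) a] [Par (FF m) c] (h : Dt m a) :
    ∃ f, (∀ p, g.E p f → ∃ x y, App g.E f x y ∧ IsPair g.E p x y) ∧
      (∀ x y, App g.E f x y → g.E x (g.cv (on m ω)) ∧
        ∃ i < a, Par (FF m) i ∧ y = g.cv (ap m c i)) ∧
      (∀ x, g.E x (g.cv (on m ω)) → ∃! y, App g.E f x y) ∧
      ∀ i < a, Par (FF m) i → ∃ j, i ≤ j ∧ j < a ∧ Par (FF m) j ∧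
        ∃ x, App g.E f x (g.cv (ap m c j)) := by
  obtain ⟨e, _, h₁, h₂⟩ := wit_par (m := m) (by fun_prop) (dt_cover h)
  obtain ⟨b, hb⟩ := bound_fun (lam m) (fun i =>
    chk m (pn m (on m (decL i).tail.length) (ap m c (ap m e ((decL i).headD 0)))))
  obtain ⟨-, hf⟩ := exists_set (g := g) (R := fun y p => ∃ x t, p.Stem (x :: t) ∧
    y = chk m (pn m (on m t.length) (ap m c (ap m e x)))) (by fun_prop) b
    (fun _ _ ⟨x, t, h, e⟩ => by simpa [e] using hb _ h.mem.1)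
    fun _ _ _ ⟨x, t, h, e⟩ h' => ⟨x, t, h.mono h', e⟩
  generalize g.v (nm _) = f at hf
  have hf' : ∀ p, g.E p f ↔ ∃ x t, Par (FF m) x ∧ g.H (fun q => q.Stem (x :: t)) ∧
      g.cv (pn m (on m t.length) (ap m c (ap m e x))) = p := fun p => by
    refine (hf p).trans ⟨fun ⟨y, _, h, e'⟩ => ?_, fun ⟨x, t, _, h, e'⟩ =>
      ⟨_, inferInstance, h.mono fun _ h => ⟨x, t, h, rfl⟩, e'⟩⟩
    obtain ⟨n, h⟩ := h.exists
    obtain ⟨x, _, t, h', rfl⟩ := wit_par (m := m) (by fun_prop) h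
    exact ⟨x, t, ‹_›, H_of n fun _ => h'.mono, e'⟩
  have ha : ∀ x y, App g.E f x y ↔ ∃ z t, Par (FF m) z ∧ g.H (fun q => q.Stem (z :: t)) ∧
      g.cv (on m t.length) = x ∧ g.cv (ap m c (ap m e z)) = y := fun x y => by
    refine g.trP.app_iff.trans ((hf' ⟨_, g.trP.pair x.2 y.2⟩).trans (exists₂_congr fun z t =>
      and_congr_right fun _ => and_congr_right fun _ => ?_))
    simp only [Subtype.ext_iff, cv_pn, ZFSet.pair_inj]
  have lt : ∀ {z t}, g.H (fun q => q.Stem (z :: t)) → ap m e z < a := fun h =>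
    h₁ _ ((lt_encL List.mem_cons_self).trans h.exists.choose_spec.mem.1)
  refine ⟨f, fun p hp => ?_, fun x y h => ?_, fun x hx => ?_, fun i hi _ => ?_⟩
  · obtain ⟨x, t, _, h, rfl⟩ := (hf' p).1 hp
    exact ⟨_, _, (ha _ _).2 ⟨x, t, ‹_›, h, rfl, rfl⟩, g.trP.isPair_iff.2 cv_pn⟩
  · obtain ⟨x, t, _, h', rfl, rfl⟩ := (ha _ _).1 h
    exact ⟨on_lt.2 (natCast_lt_omega0 _), _, lt h', inferInstance, rfl⟩
  · obtain ⟨_, h, -, rfl⟩ := E_on.1 hx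
    obtain ⟨n, rfl⟩ := lt_omega0.1 h
    obtain ⟨k, h⟩ := dense (g := g) (X := fun p => ∃ x t, p.Stem (x :: t) ∧ t.length = n)
      (by fun_prop) (H_of 0 fun p _ => by
        obtain ⟨s, -, h₃, h₄⟩ := p.long p.2.2.1 (n + 1)
        obtain ⟨q, h₅, h₆⟩ := p.exists_stem (p.down (List.drop_suffix (s.length - (n + 1)) s) h₃)
        refine ⟨q, h₅, s[s.length - (n + 1)]'(by omega), s.drop (s.length - (n + 1) + 1),
          by rwa [← List.drop_eq_getElem_cons], by simp; omega⟩)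
    obtain ⟨x, _, t, h', rfl⟩ := wit_par (m := m) (by fun_prop) h
    have h₃ : g.H fun q => q.Stem (x :: t) := H_of k fun _ => h'.mono
    refine ⟨_, (ha _ _).2 ⟨x, t, ‹_›, h₃, rfl, rfl⟩, fun y hy => ?_⟩
    obtain ⟨z, s, _, h₄, h₅, rfl⟩ := (ha _ _).1 hy
    obtain ⟨_, h₆, h₇⟩ := (h₃.and h₄).exists
    have h₈ : (z :: s).length = (x :: t).length := by simpa using on_inj.1 h₅
    rw [(List.cons.inj ((h₆ _ h₇.mem).elim (·.eq_of_length h₈)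
      fun h => (h.eq_of_length h₈.symm).symm)).1]
  · obtain ⟨k, h⟩ := dense (g := g) (X := fun p => ∃ x t, p.Stem (x :: t) ∧ i ≤ ap m e x)
      (by fun_prop) (H_of 0 fun p _ => by
        obtain ⟨x, h₃, y, h₄, h₅⟩ := h₂ i hi
        obtain ⟨s, -, -, h₆⟩ := p.spl p.2.2.1
        obtain ⟨z, h₇, h₈, h₉⟩ := h₆ x h₃ y h₄
        obtain ⟨q, h₀, hq⟩ := p.exists_stem h₉
        exact ⟨q, h₀, _, s, hq, h₅ z h₇ h₈⟩)
    obtain ⟨x, _, t, h, h'⟩ := wit_par (m := m) (by fun_prop) h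
    have h₃ : g.H fun q => q.Stem (x :: t) := H_of k fun _ => h.mono
    exact ⟨_, h', lt h₃, inferInstance, _, (ha _ _).2 ⟨x, t, ‹_›, h₃, rfl, rfl⟩⟩

/-- Other cofinalities stay uncountable. -/
theorem bdd_seq {ρ f : Ordinal.{u}} [Par (FF m) ρ] [Par (FF m) f] (hρ : Reg m ρ) (hθ : th m < ρ)
    (hS : ∀ x < th m, ρ ≠ sa m x) {K : Ordinal.{u} → Ordinal.{u} → Prop}
    (hK : (FF m).Tm (fun z : Ordinal.{u} × Ordinal.{u} => K z.1 z.2))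
    (mono : ∀ z b b', K z b → b ≤ b' → K z b') :
    ∃ b < ρ, Par (FF m) b ∧ ∀ (n : ℕ) (z : Ordinal.{u}), Par (FF m) z → (∃ c < ρ, K z c) →
      App g.E (g.v f) (g.cv (on m n)) (g.cv z) →
        ∃ w, Par (FF m) w ∧ K w b ∧ App g.E (g.v f) (g.cv (on m n)) (g.cv w) := by
  have hK' := FF_SS₂ hK
  obtain ⟨k, h⟩ := dense (g := g) (X := fun q => ∃ b < ρ, ∀ n : ℕ, ∀ r ≤ q, ∃ r' ≤ r,
    (∃ z, K z b ∧ FMem (chk m (pn m (on m n) z)) f r') ∨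
      ∀ s ≤ r', ∀ z, ∀ c < ρ, K z c → ¬ FMem (chk m (pn m (on m n) z)) f s) (by fun_prop)
    (H_of 0 fun p _ => namba hρ hθ hS (D := fun r' n b =>
      (∃ z, K z b ∧ FMem (chk m (pn m (on m n) z)) f r') ∨
        ∀ s ≤ r', ∀ z, ∀ c < ρ, K z c → ¬ FMem (chk m (pn m (on m n) z)) f s) (by fun_prop)
      (fun q n => by
        by_cases h : ∀ s ≤ q, ∀ z, ∀ c < ρ, K z c → ¬ FMem (chk m (pn m (on m n) z)) f s
        · exact ⟨q, le_rfl, 0, hρ.lim.1, Or.inr h⟩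
        · push Not at h
          obtain ⟨s, h₁, z, c, h₂, h₃⟩ := h
          exact ⟨s, h₁, c, h₂, Or.inl ⟨z, h₃⟩⟩)
      (fun q r n b b' h h₁ h₂ => h.imp (fun ⟨z, h₃, h₄⟩ => ⟨z, mono _ _ _ h₃ h₂, h₄.mono h₁⟩)
        fun h s hs => h s (hs.trans h₁)) p)
  obtain ⟨b, _, h₁, h₂⟩ := wit_par (m := m) (by fun_prop) h
  refine ⟨b, h₁, ‹_›, fun n z _ ⟨c, h₃, h₄⟩ h₅ => ?_⟩
  obtain ⟨l, h | h⟩ := dense (g := g) (by fun_prop) (H_of k (h₂ n))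
  · obtain ⟨w, _, h₆, h₇⟩ := wit_par (m := m) (by fun_prop) h
    exact ⟨w, ‹_›, h₆, app_iff.2 (H_of l fun _ => h₇.mono)⟩
  · obtain ⟨_, h₆, h₇⟩ := ((H_of l h).and (app_iff.1 h₅)).exists
    exact absurd h₇ (h₆ z c h₃ h₄)

theorem cof_iff {A : Ordinal.{u}} [Par (FF m) A] {R : g.M → g.M → Prop}
    {S : Ordinal.{u} → Ordinal.{u} → Prop}
    (hS : (FF m).Tm (fun z : Ordinal.{u} × Ordinal.{u} => S z.1 z.2))
    (hR : ∀ x y, R x y → g.E x (g.cv A) ∧ g.E y (g.cv A))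
    (e : ∀ (s t) [Par (FF m) s] [Par (FF m) t], R (g.cv s) (g.cv t) ↔ S s t) :
    CofOm g.E R ↔ DCof0 m S := by
  have fA : ∀ x, Fld R x → g.E x (g.cv A) := fun x ⟨y, h⟩ =>
    h.elim (fun h => (hR _ _ h).1) fun h => (hR _ _ h).2
  have fc : ∀ x, Fld R x → ∃ s, Par (FF m) s ∧ P m A s ∧ g.cv s = x := fun x h => E_cv.1 (fA x h)
  have fld : ∀ (s) [Par (FF m) s], Fld R (g.cv s) ↔ ∃ z, S s z ∨ S z s := fun s _ =>
    ⟨fun ⟨y, h⟩ => by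
      obtain ⟨t, _, -, rfl⟩ := fc y ⟨_, h.symm⟩
      exact ⟨t, by simpa only [e] using h⟩, fun h => by
      obtain ⟨t, _, h⟩ := wit_par (m := m) (by fun_prop) h
      exact ⟨g.cv t, by simpa only [e] using h⟩⟩
  constructor
  · rintro ⟨⟨l₁, l₂, l₃⟩, w, f, Y, h₁, h₂, h₃, h₄⟩
    obtain rfl := isOmega_iff.1 h₁
    obtain ⟨f, _, rfl⟩ := exists_v f
    have k₁ : ∀ x, ¬ S x x := all_par (m := m) (by fun_prop) fun x _ h => l₁ _ ((e x x).2 h)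
    have k₂ : ∀ x y z, S x y → S y z → S x z := all_par (m := m) (by fun_prop) fun x _ =>
      all_par (m := m) (by fun_prop) fun y _ => all_par (m := m) (by fun_prop) fun z _ h h' =>
        (e x z).1 (l₂ _ _ _ ((e x y).2 h) ((e y z).2 h'))
    obtain ⟨a, _, h₅⟩ := wit_par (m := m) (by unfold Fld; fun_prop) (exists_cofseq (FF_SS₂ hS) A
      k₁ k₂ (all_par (m := m) (by unfold Fld; fun_prop) fun x _ =>
        all_par (m := m) (by unfold Fld; fun_prop) fun y _ =>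
        all_par (m := m) (by unfold Fld; fun_prop) fun z _ hz h => by
          rw [← e] at h
          simp only [← e]
          rcases l₃ _ _ ⟨_, Or.inl h⟩ ((fld z).2 hz) with h' | h' | h'
          exacts [Or.inl h', Or.inr (h' ▸ h), Or.inr (l₂ _ _ _ h' h)])
      (all_par (m := m) (by unfold Fld; fun_prop) fun x _ hx => by
        obtain ⟨_, y, -, h⟩ := h₄ _ ((fld x).2 hx)
        obtain ⟨t, _, h', rfl⟩ := fc y ⟨_, Or.inr h⟩
        exact ⟨t, P_lt h', (e _ _).1 h⟩) (by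
        obtain ⟨y, hy, -⟩ := h₂.2 _ (on_lt.2 omega0_pos)
        obtain ⟨t, _, -, rfl⟩ := fc y (h₃ _ _ hy)
        exact ⟨t, (fld t).1 (h₃ _ _ hy)⟩))
    obtain ⟨c, _, h₅, h₆, h₇⟩ := wit_par (m := m) (by unfold Fld; fun_prop) h₅
    refine ⟨⟨k₁, k₂, all_par (m := m) (by fun_prop) fun x _ => all_par (m := m) (by fun_prop)
      fun y _ hx hy => by simpa only [e, cv_eq_iff] using l₃ _ _ ((fld x).2 hx) ((fld y).2 hy)⟩,
      a, c, ⟨h₅, ?_⟩, h₆, h₇⟩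
    by_contra! h₈
    have : Par (FF m) (cf m a) := ⟨by fun_prop⟩
    have hρ := reg_cf (gcl_th.1.trans h₈.1)
    obtain ⟨d, _, hd⟩ := wit_par (m := m) (by unfold Cof; fun_prop) (cf_spec m a)
    obtain ⟨b, k₃, _, k₄⟩ := bdd_seq (g := g) (f := f) hρ h₈.1 h₈.2
      (K := fun z b => ∃ j ≤ b, ap m d j < a ∧ S z (ap m c (ap m d j))) (by fun_prop)
      fun _ _ _ ⟨j, h, h'⟩ h'' => ⟨j, h.trans h'', h'⟩
    obtain ⟨i, _, k₅, k₆⟩ := wit_par (m := m) (by fun_prop)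
      (bdd_of_lt_cf (m := m) (f := ap m d) (by fun_prop) (hρ.lim.2 b k₃))
    obtain ⟨n, y, k₇, k₈⟩ := h₄ _ ((fld _).2 ⟨_, Or.inl (h₆ i _ (lt_add_one i) (h₅.2 i k₅))⟩)
    obtain ⟨z, _, -, rfl⟩ := fc y ⟨_, Or.inr k₈⟩
    have k₉ := (g.trP.fun_mem h₂ k₇).1
    obtain ⟨_, h, -, rfl⟩ := E_on.1 k₉
    obtain ⟨n, rfl⟩ := lt_omega0.1 h
    obtain ⟨w, _, ⟨j, r₁, r₂, r₃⟩, r₄⟩ := k₄ n z ‹_› (by
      obtain ⟨i, r₁, r₂⟩ := h₇ z ((fld z).1 ⟨_, Or.inr k₈⟩)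
      obtain ⟨j, r₃, r₄, r₅⟩ := hd _ (h₅.2 i r₁)
      exact ⟨j, r₃, j, le_rfl, r₅, k₂ _ _ _ r₂ (h₆ _ _ (add_one_le_iff.1 r₄) r₅)⟩) k₇
    rw [(h₂.2 _ k₉).unique k₇ r₄, e] at k₈
    exact k₁ _ (k₂ _ _ _ k₈ (k₂ _ _ _ r₃ (h₆ _ _ (k₆ j (lt_add_one_iff.2 r₁) r₂) k₅)))
  · rintro ⟨⟨l₁, l₂, l₃⟩, h⟩
    obtain ⟨a, _, h⟩ := wit_par (m := m) (by fun_prop) h
    obtain ⟨c, _, h₁, h₂, h₃⟩ := wit_par (m := m) (by fun_prop) h
    obtain ⟨f, k₁, k₂, k₃, k₄⟩ := exists_seq (g := g) (c := c) h₁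
    have k₅ : ∀ x y, App g.E f x y → Fld R y := fun x y h => by
      obtain ⟨i, h₄, _, rfl⟩ := (k₂ x y h).2
      exact (fld _).2 ⟨_, Or.inl (h₂ i _ (lt_add_one i) (h₁.1.2 i h₄))⟩
    refine ⟨⟨fun x h => ?_, fun x y z h h' => ?_, fun x y hx hy => ?_⟩, _, f, g.cv A,
      isOmega_iff.2 rfl, ⟨fun p hp => ?_, k₃⟩, k₅, fun x hx => ?_⟩
    · obtain ⟨s, _, -, rfl⟩ := fc x ⟨_, Or.inl h⟩
      exact l₁ s ((e _ _).1 h)
    · obtain ⟨s, _, -, rfl⟩ := fc x ⟨_, Or.inl h⟩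
      obtain ⟨t, _, -, rfl⟩ := fc y ⟨_, Or.inl h'⟩
      obtain ⟨r, _, -, rfl⟩ := fc z ⟨_, Or.inr h'⟩
      exact (e _ _).2 (l₂ _ _ _ ((e _ _).1 h) ((e _ _).1 h'))
    · obtain ⟨s, _, -, rfl⟩ := fc x hx
      obtain ⟨t, _, -, rfl⟩ := fc y hy
      simpa only [e, cv_eq_iff] using l₃ _ _ ((fld s).1 hx) ((fld t).1 hy)
    · obtain ⟨x, y, h, h'⟩ := k₁ p hp
      exact ⟨x, y, (k₂ x y h).1, fA y (k₅ x y h), h'⟩
    · obtain ⟨s, _, -, rfl⟩ := fc x hx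
      obtain ⟨i, _, h₄, h₅⟩ := wit_par (m := m) (by fun_prop) (h₃ s ((fld s).1 hx))
      obtain ⟨j, h₆, h₇, _, n, h₈⟩ := k₄ (i + 1) (h₁.1.2 i h₄) inferInstance
      exact ⟨n, _, h₈, (e _ _).2 (l₂ _ _ _ h₅ (h₂ _ _ (add_one_le_iff.1 h₆) h₇))⟩

end Gen

end Pool.Agent.MP_9a6faa_lc

end

section

namespace Pool.Agent.MP_9a6faa_lc

open Set Order FO Filter Ordinal

universe u v

variable {m : Mach.{u}}

theorem UDef.isMeas (i : ℕ) : UDef.{v} (fun _ E w => IsMeas E (w i)) := by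
  unfold IsMeas IsOmega IsOrd
  repeat' first
    | exact UDef.mem _ _ | exact UDef.eq _ _ | exact UDef.ne _ _ | exact UDef.app _ _ _
    | exact UDef.isFun _ _ _ | apply UDef.and | apply UDef.or | apply UDef.iff
    | apply UDef.not | apply UDef.imp | apply UDef.all | apply UDef.ex

/-- Elementarity of the definable part of a definable structure. -/
theorem elem {A B : Type v} {EA : A → A → Prop} {EB : B → B → Prop} {f : Ordinal.{u} → A}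
    {g : Ordinal.{u} → B} (hf : Function.Surjective f) (hg : ∀ b, ∃ z, Par (FF m) z ∧ g z = b)
    (t₁ : (FF m).Tm (fun z : Ordinal.{u} × Ordinal.{u} => EA (f z.1) (f z.2)))
    (t₂ : (FF m).Tm (fun z : Ordinal.{u} × Ordinal.{u} => f z.1 = f z.2))
    (e₁ : ∀ (s t) [Par (FF m) s] [Par (FF m) t], EB (g s) (g t) ↔ EA (f s) (f t))
    (e₂ : ∀ (s t) [Par (FF m) s] [Par (FF m) t], g s = g t ↔ f s = f t) (φ : Fml) :
    (FF m).Tm (fun l : OL.{u} => Sat EA φ (env (f 0) (l.map f))) ∧ ∀ (l : OL.{u}) [Par (FF m) l],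
      Sat EB φ (env (g 0) (l.map g)) ↔ Sat EA φ (env (f 0) (l.map f)) := by
  induction φ with
  | mem i j =>
    simp only [Sat, env, List.getD_map]
    exact ⟨t₁.comp (f := fun l : OL.{u} => (l.getD i 0, l.getD j 0)) (by fun_prop),
      fun _ _ => e₁ _ _⟩
  | eq i j =>
    simp only [Sat, env, List.getD_map]
    exact ⟨t₂.comp (f := fun l : OL.{u} => (l.getD i 0, l.getD j 0)) (by fun_prop),
      fun _ _ => e₂ _ _⟩
  | bot => exact ⟨Tm.const False, fun _ _ => Iff.rfl⟩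
  | imp φ ψ ih₁ ih₂ => exact ⟨tm_imp ih₁.1 ih₂.1, fun l _ => imp_congr (ih₁.2 l) (ih₂.2 l)⟩
  | all φ ih =>
    have e : ∀ l : OL.{u}, (∀ z, Sat EA φ (env (f 0) ((z :: l).map f))) ↔
        Sat EA φ.all (env (f 0) (l.map f)) := fun l => by
      simp only [Sat, List.map_cons, env_cons, hf.forall]
    refine ⟨Tm.congrP (tm_all (ih.1.comp (f := fun z : OL.{u} × Ordinal.{u} => z.2 :: z.1)
      (by fun_prop))) e, fun l _ => Iff.trans ⟨fun h => all_par (ih.1.comp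
        (f := fun z : Ordinal.{u} => z :: l) (by fun_prop)) fun z _ =>
          (ih.2 _).1 (env_cons _ _ _ ▸ h (g z)), fun h x => ?_⟩ (e l)⟩
    obtain ⟨z, _, rfl⟩ := hg x
    exact env_cons _ _ _ ▸ (ih.2 (z :: l)).2 (h z)

namespace Gen

variable {g : Gen m}

theorem sat_iff {A d : Ordinal.{u}} [Par (FF m) A] [Par (FF m) d] (φ : QF) (l : OL.{u})
    [Par (FF m) l] : SatQ g.E (CofOm g.E) {x | g.E x (g.cv A)} (g.cv d) φ (l.map g.cv) ↔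
      Sat0 m A d φ l := by
  induction φ generalizing l with
  | mem i j => simp only [Sat0, SatQ, List.getD_map]; exact cv_mem_iff
  | eq i j => simp only [Sat0, SatQ, List.getD_map]; exact cv_eq_iff
  | bot => rfl
  | imp φ ψ ih₁ ih₂ => exact imp_congr (ih₁ l) (ih₂ l)
  | all φ ih =>
    refine ⟨fun h x hx => ?_, fun h x hx => ?_⟩
    · obtain ⟨z, hz, rfl⟩ := mem_val0.1 hx
      exact all_par (m := m) (Q := fun z => P m A z → Sat0 m A d φ (z :: l)) (by fun_prop)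
        (fun z _ hz => (ih (z :: l)).1 (h _ (E_cv.2 ⟨z, ‹_›, hz, rfl⟩))) z hz
    · obtain ⟨z, _, hz, rfl⟩ := E_cv.1 hx
      exact (ih (z :: l)).2 (h _ (mem_val0.2 ⟨z, hz, rfl⟩))
  | cof φ ih =>
    exact (cof_iff (A := A) (S := fun s t => Mem0 m s A ∧ Mem0 m t A ∧ Sat0 m A d φ (s :: t :: l))
      (by fun_prop) (fun _ _ h => ⟨h.1, h.2.1⟩) fun s t _ _ =>
        and_congr cv_mem_iff (and_congr cv_mem_iff (ih (s :: t :: l)))).trans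
      (dcof_iff (R := fun x y => x ∈ val0 m A ∧ y ∈ val0 m A ∧ SatQ (· ∈ ·) (DCof m)
        {x | x ∈ val0 m A} (val0 m d) φ (x :: y :: l.map (val0 m)))
        fun x ⟨_, h⟩ => let ⟨c, _, e⟩ := mem_val0.1 (h.elim (·.1) (·.2.1)); ⟨c, e⟩)

theorem def_dc {A : Ordinal.{u}} [Par (FF m) A] (φ : QF) (l : OL.{u}) [Par (FF m) l] :
    Defines g.E (CofOm g.E) {x | g.E x (g.cv A)} φ (l.map g.cv) (g.cv (dc m A φ l)) := fun x => by
  refine E_cv.trans ⟨?_, fun ⟨h₁, h₂⟩ => ?_⟩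
  · rintro ⟨z, _, h, rfl⟩
    exact ⟨E_cv.2 ⟨z, ‹_›, (P_dc.1 h).1, rfl⟩, (sat_iff φ (z :: l)).2 (P_dc.1 h).2⟩
  · obtain ⟨z, _, h, rfl⟩ := E_cv.1 h₁
    exact ⟨z, ‹_›, P_dc.2 ⟨h, (sat_iff φ (z :: l)).1 h₂⟩, rfl⟩

theorem exists_cl {A : Ordinal.{u}} [Par (FF m) A] {l : List g.M} (h : ∀ y ∈ l, g.E y (g.cv A)) :
    ∃ k : OL.{u}, Par (FF m) k ∧ (∀ x, x ∈ k → P m A x) ∧ k.map g.cv = l := by
  induction l with
  | nil => exact ⟨[], inferInstance, by simp, rfl⟩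
  | cons a l ih =>
    obtain ⟨k, _, h₁, rfl⟩ := ih fun y hy => h y (List.mem_cons_of_mem _ hy)
    obtain ⟨z, _, h₂, rfl⟩ := E_cv.1 (h a List.mem_cons_self)
    exact ⟨z :: k, inferInstance, List.forall_mem_cons.2 ⟨h₂, h₁⟩, rfl⟩

/-- The hierarchy of the generic model. -/
def L (g : Gen m) (a : g.M) : Set g.M :=
  {x | ∃ b, Par (FF m) b ∧ g.cv (on m b) = a ∧ g.E x (g.cv (lv m b))}

theorem L_on (a : Ordinal.{u}) [Par (FF m) a] :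
    g.L (g.cv (on m a)) = {x | g.E x (g.cv (lv m a))} :=
  Set.ext fun _ => ⟨fun ⟨_, _, e, h⟩ => on_inj.1 e ▸ h, fun h => ⟨a, ‹_›, rfl, h⟩⟩

theorem isHier (g : Gen m) : IsHier g.E (CofOm g.E) g.L := fun a ha => by
  obtain ⟨a, _, rfl⟩ := isOrd_iff.1 ha
  rw [L_on]
  refine ⟨fun φ l hl => ?_, fun h => ?_, fun s hs => ?_, fun _ h => ?_⟩
  · obtain ⟨k, _, -, rfl⟩ := exists_cl hl
    exact ⟨_, def_dc φ k⟩
  · obtain rfl : a = 0 := le_antisymm (not_lt.1 fun h' => h _ (on_lt.2 h')) zero_le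
    refine Set.eq_empty_of_forall_notMem fun x hx => ?_
    obtain ⟨z, _, hz, -⟩ := E_cv.1 hx
    simpa using P_lv.1 hz
  · obtain rfl : s = g.cv (on m (a + 1)) := g.trP.ext fun x => (hs x).trans on_succ.symm
    rw [L_on]
    refine Set.ext fun x => ⟨fun hx => ?_, fun ⟨φ, l, h₁, h₂⟩ => ?_⟩
    · obtain ⟨z, _, hz, rfl⟩ := E_cv.1 hx
      obtain ⟨φ, l, h₁, h₂⟩ := mem_Lv_succ.1 (mem_val0.2 ⟨z, hz, rfl⟩)
      obtain ⟨k, h₃, rfl⟩ := exists_codes h₁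
      obtain ⟨k, hk, h₃, h₄⟩ := wit_par (m := m) (Q := fun k : OL.{u} =>
        (∀ x, x ∈ k → P m (lv m a) x) ∧ Eq0 m z (dc m (lv m a) φ k)) (by fun_prop)
        ⟨k, h₃, ZFSet.ext fun y => (h₂ y).trans mem_val0_dc.symm⟩
      refine ⟨φ, k.map g.cv, fun y hy => ?_, cv_eq_iff.2 h₄ ▸ def_dc φ k⟩
      obtain ⟨w, hw, rfl⟩ := List.mem_map.1 hy
      exact E_cv.2 ⟨w, par_list.1 hk w hw, h₃ w hw, rfl⟩
    · obtain ⟨k, _, h₃, rfl⟩ := exists_cl h₁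
      exact E_cv.2 ⟨_, inferInstance, P_lv.2 ⟨a, lt_add_one a, φ, k, h₃, rfl⟩,
        g.trP.ext fun y => (def_dc φ k y).trans (h₂ y).symm⟩
  · have hl : ∀ b < a, b + 1 < a := all_par (m := m) (by fun_prop) fun b _ hb => by
      obtain ⟨y, h₁, h₂⟩ := h _ (on_lt.2 hb)
      obtain ⟨c, h₃, _, rfl⟩ := E_on.1 h₁
      exact (add_one_le_iff.2 (on_lt.1 h₂)).trans_lt h₃
    refine Set.ext fun x => ⟨fun hx => ?_, fun ⟨b, h₁, h₂⟩ => ?_⟩
    · obtain ⟨z, _, hz, rfl⟩ := E_cv.1 hx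
      obtain ⟨b, _, h₁, h₂⟩ := wit_par (m := m) (Q := fun b => b < a ∧ Mem0 m z (lv m b))
        (by fun_prop) ((mem_Lv_lim hl).1 (mem_val0.2 ⟨z, hz, rfl⟩))
      exact ⟨_, on_lt.2 h₁, b, ‹_›, rfl, cv_mem_iff.2 h₂⟩
    · obtain ⟨b, h₃, _, rfl⟩ := E_on.1 h₁
      rw [L_on] at h₂
      obtain ⟨z, _, hz, rfl⟩ := E_cv.1 h₂
      exact cv_mem_iff.2 (Lv_mono h₃.le (mem_val0.2 ⟨z, hz, rfl⟩))

theorem isMeas (g : Gen m) {k : Subtype (InC m)} (hk : IsMeas (ES (InC m)) k) :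
    ∃ k : {x // ∃ a, IsOrd g.E a ∧ x ∈ g.L a}, IsMeas (fun x y => g.E x.1 y.1) k := by
  classical
  obtain ⟨cl, t, h₁, h₂⟩ : ∃ cl : Ordinal.{u} → Ordinal.{u}, (FF m).Tm cl ∧
      (∀ z, ∃ a, Mem0 m (cl z) (lv m a)) ∧ ∀ z, (∃ a, Mem0 m z (lv m a)) → cl z = z :=
    ⟨fun z => if ∃ a, Mem0 m z (lv m a) then z else on m 0, by fun_prop, fun z => by
      dsimp only
      split_ifs with h
      exacts [h, by simp only [Mem0, val0_on]; exact inC_ord 0], fun z h => if_pos h⟩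
  have h₃ : ∀ z, Par (FF m) z → ∃ a, IsOrd g.E a ∧ g.cv (cl z) ∈ g.L a := fun z _ => by
    have := par_of t z
    obtain ⟨a, _, h⟩ := wit_par (m := m) (by fun_prop) (h₁ z)
    exact ⟨_, isOrd_iff.2 ⟨a, ‹_›, rfl⟩, a, ‹_›, rfl, cv_mem_iff.2 h⟩
  obtain ⟨φ, hφ⟩ := UDef.isMeas.{u + 1} 0
  have hf : Function.Surjective (fun z => (⟨val0 m (cl z), h₁ z⟩ : Subtype (InC m))) :=
    fun ⟨x, hx⟩ => by
      obtain ⟨c, rfl⟩ := hx.code
      exact ⟨c, Subtype.ext (congrArg (val0 m) (h₂ c hx))⟩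
  obtain ⟨t', e⟩ := elem (m := m) (EA := ES (InC m))
    (EB := fun x y : {x // ∃ a, IsOrd g.E a ∧ x ∈ g.L a} => g.E x.1 y.1)
    (g := fun z => if h : Par (FF m) z then ⟨_, h₃ z h⟩ else ⟨_, h₃ 0 inferInstance⟩) hf
    (fun ⟨x, _, _, b, _, _, h⟩ => by
      obtain ⟨z, hz, h', rfl⟩ := E_cv.1 h
      exact ⟨z, hz, (dif_pos hz).trans (Subtype.ext (congrArg g.cv
        (h₂ z ⟨b, mem_val0.2 ⟨z, h', rfl⟩⟩)))⟩)
    (Tm.congrP (Q := fun z => Mem0 m (cl z.1) (cl z.2)) (by fun_prop) fun _ => Iff.rfl)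
    (Tm.congrP (Q := fun z => Eq0 m (cl z.1) (cl z.2)) (by fun_prop)
      fun _ => by simp only [Eq0, Subtype.mk.injEq])
    (fun s r hs hr => by
      have := par_of t s
      have := par_of t r
      simp only [dif_pos hs, dif_pos hr]
      exact cv_mem_iff)
    (fun s r hs hr => by
      have := par_of t s
      have := par_of t r
      simp only [dif_pos hs, dif_pos hr, Subtype.mk.injEq]
      exact cv_eq_iff) φ
  obtain ⟨z, rfl⟩ := hf k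
  obtain ⟨z, _, hz⟩ := wit_par (m := m) (t'.comp (f := fun z : Ordinal.{u} => [z]) (by fun_prop))
    ⟨z, (hφ _ _ _).2 hk⟩
  exact ⟨_, (hφ _ _ _).1 ((e [z]).2 hz)⟩

end Gen

end Pool.Agent.MP_9a6faa_lc

end
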